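import Mathlib

set_option autoImplicit false

namespace Pool.Agent.Helper64.Free

variable {V : Type} [DecidableEq V]

/-- Delete all redundant (non-minimal) members of a finite family of finite sets. -/
def minimize (F : Finset (Finset V)) : Finset (Finset V) :=
  F.filter (fun I => ∀ I' ∈ F, I' ⊆ I → I' = I)

/-- The members that do not contain `x`. -/
def without (F : Finset (Finset V)) (x : V) : Finset (Finset V) := F.filter (fun I => x ∉ I)

/-- The members that contain `x`, with `x` erased from them. -/
def link (F : Finset (Finset V)) (x : V) : Finset (Finset V) :=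
  (F.filter (fun I => x ∈ I)).image (fun I => I.erase x)

/-- `F` and `G` are mutually dual: `G` is the set of the minimal transversals of `F` and `F` is
the set of the minimal transversals of `G`. -/
def IsDualPair (F G : Finset (Finset V)) : Prop :=
  (∀ T, T ∈ G ↔ Minimal (fun S : Finset V => ∀ I ∈ F, (S ∩ I).Nonempty) T) ∧
  (∀ T, T ∈ F ↔ Minimal (fun S : Finset V => ∀ J ∈ G, (S ∩ J).Nonempty) T)

/-- `Run s F G k`: the duality of the pair `(F, G)` can be checked by a recursion of
Fredman-Khachiyan type with exactly `k` calls in total (counting the call for `(F, G)` itself).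
In every call the algorithm may choose an arbitrary occurring variable `x` and an arbitrary one of
the three decompositions below; a call with `min (|F|, |G|) ≤ s` may stop at once. -/
inductive Run (s : ℕ) : Finset (Finset V) → Finset (Finset V) → ℕ → Prop
  /-- one of the two families has at most `s` members: no recursive call is needed -/
  | stop {F G : Finset (Finset V)} (h : min F.card G.card ≤ s) : Run s F G 1
  /-- two recursive calls, with `x = 0` and with `x = 1` -/
  | split {F G : Finset (Finset V)} (x : V) (k₀ k₁ : ℕ)
      (hx : (∃ I ∈ F, x ∈ I) ∨ ∃ J ∈ G, x ∈ J)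
      (h₀ : Run s (without F x) (minimize (G.image (fun J => J.erase x))) k₀)
      (h₁ : Run s (minimize (F.image (fun I => I.erase x))) (without G x) k₁) :
      Run s F G (1 + k₀ + k₁)
  /-- one recursive call with `x = 0`, and for every member `J` of `G` through `x` (with `x`
  erased) one recursive call with `x = 1` and `J = 0` -/
  | expandG {F G : Finset (Finset V)} (x : V) (k₀ : ℕ) (k : Finset V → ℕ)
      (hx : (∃ I ∈ F, x ∈ I) ∨ ∃ J ∈ G, x ∈ J)
      (h₀ : Run s (without F x) (minimize (G.image (fun J => J.erase x))) k₀)
      (hJ : ∀ J ∈ link G x, Run s (minimize ((link F x).filter (fun I => Disjoint I J)))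
        (minimize ((without G x).image (fun J' => J' \ J))) (k J)) :
      Run s F G (1 + k₀ + ∑ J ∈ link G x, k J)
  /-- one recursive call with `x = 1`, and for every member `I` of `F` through `x` (with `x`
  erased) one recursive call with `x = 0` and `I = 1` -/
  | expandF {F G : Finset (Finset V)} (x : V) (k₀ : ℕ) (k : Finset V → ℕ)
      (hx : (∃ I ∈ F, x ∈ I) ∨ ∃ J ∈ G, x ∈ J)
      (h₀ : Run s (minimize (F.image (fun I => I.erase x))) (without G x) k₀)
      (hI : ∀ I ∈ link F x, Run s (minimize ((without F x).image (fun I' => I' \ I)))
        (minimize ((link G x).filter (fun J => Disjoint J I))) (k I)) :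
      Run s F G (1 + k₀ + ∑ I ∈ link F x, k I)

end Pool.Agent.Helper64.Free
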