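import Mathlib
import Pool.Agent.Helper64.FreeDefs

set_option autoImplicit false

namespace Pool.Agent.Helper64.Free

variable {V : Type} [DecidableEq V]

/-- the dual of a monotone predicate on finite sets -/
def Dual (φ : Finset V → Prop) (T : Finset V) : Prop := ∀ S, φ S → (S ∩ T).Nonempty

structure Rep (F G : Finset (Finset V)) (φ : Finset V → Prop) : Prop where
  mono : ∀ S T, S ⊆ T → φ S → φ T
  F_iff : ∀ T, T ∈ F ↔ Minimal φ T
  G_iff : ∀ T, T ∈ G ↔ Minimal (Dual φ) T

lemma exists_minimal_sub {φ : Finset V → Prop} {T : Finset V} (h : φ T) :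
    ∃ I, I ⊆ T ∧ Minimal φ I := by
  classical
  have hne : (T.powerset.filter φ).Nonempty := ⟨T, by simp [h]⟩
  obtain ⟨I, hI⟩ := Finset.exists_minimal hne
  refine ⟨I, ?_, ?_, ?_⟩
  · have := hI.1
    simp only [Finset.mem_filter, Finset.mem_powerset] at this
    exact this.1
  · have := hI.1
    simp only [Finset.mem_filter, Finset.mem_powerset] at this
    exact this.2
  · intro S hS hSI
    have h1 := hI.1
    simp only [Finset.mem_filter, Finset.mem_powerset] at h1
    apply hI.2 _ hSI
    simp only [Finset.mem_filter, Finset.mem_powerset]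
    exact ⟨hSI.trans h1.1, hS⟩

lemma dual_mono (φ : Finset V → Prop) : ∀ S T, S ⊆ T → Dual φ S → Dual φ T := by
  intro S T h h1 U hU
  obtain ⟨x, hx⟩ := h1 U hU
  rw [Finset.mem_inter] at hx
  exact ⟨x, Finset.mem_inter.2 ⟨hx.1, h hx.2⟩⟩

lemma Rep.true_iff {F G : Finset (Finset V)} {φ : Finset V → Prop} (h : Rep F G φ)
    (T : Finset V) : φ T ↔ ∃ I ∈ F, I ⊆ T := by
  constructor
  · intro hT
    obtain ⟨I, hI, hm⟩ := exists_minimal_sub hT
    exact ⟨I, (h.F_iff I).2 hm, hI⟩
  · rintro ⟨I, hI, hIT⟩
    exact h.mono I T hIT ((h.F_iff I).1 hI).1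

lemma Rep.dual_iff {F G : Finset (Finset V)} {φ : Finset V → Prop} (h : Rep F G φ)
    (T : Finset V) : Dual φ T ↔ ∃ J ∈ G, J ⊆ T := by
  constructor
  · intro hT
    obtain ⟨I, hI, hm⟩ := exists_minimal_sub hT
    exact ⟨I, (h.G_iff I).2 hm, hI⟩
  · rintro ⟨I, hI, hIT⟩
    exact dual_mono φ I T hIT ((h.G_iff I).1 hI).1

lemma Rep.dual_dual {F G : Finset (Finset V)} {φ : Finset V → Prop} (h : Rep F G φ) :
    Dual (Dual φ) = φ := by
  classical
  funext T
  apply propext
  constructor
  · intro hT
    by_contra hcon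
    have h1 : Dual φ (F.biUnion id \ T) := by
      intro S hS
      obtain ⟨I, hI, hIS⟩ := (h.true_iff S).1 hS
      have h2 : ¬ I ⊆ T := fun h2 => hcon ((h.true_iff T).2 ⟨I, hI, h2⟩)
      rw [Finset.not_subset] at h2
      obtain ⟨x, hxI, hxT⟩ := h2
      refine ⟨x, Finset.mem_inter.2 ⟨hIS hxI, Finset.mem_sdiff.2 ⟨?_, hxT⟩⟩⟩
      exact Finset.mem_biUnion.2 ⟨I, hI, hxI⟩
    obtain ⟨x, hx⟩ := hT _ h1
    rw [Finset.mem_inter, Finset.mem_sdiff] at hx
    exact hx.1.2 hx.2
  · intro hT S hS
    rw [Finset.inter_comm]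
    exact hS T hT

lemma Rep.symm {F G : Finset (Finset V)} {φ : Finset V → Prop} (h : Rep F G φ) :
    Rep G F (Dual φ) := by
  refine ⟨dual_mono φ, h.G_iff, ?_⟩
  rw [h.dual_dual]
  exact h.F_iff

lemma mem_minimize {A : Finset (Finset V)} {T : Finset V} :
    T ∈ minimize A ↔ Minimal (fun S => ∃ I ∈ A, I ⊆ S) T := by
  rw [minimize, Finset.mem_filter]
  constructor
  · rintro ⟨hT, hmin⟩
    refine ⟨⟨T, hT, Finset.Subset.refl _⟩, ?_⟩
    rintro S ⟨I, hI, hIS⟩ hST
    have := hmin I hI (hIS.trans hST)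
    rw [← this]
    exact hIS
  · rintro ⟨⟨I, hI, hIT⟩, hmin⟩
    have h1 : T ⊆ I := hmin ⟨I, hI, Finset.Subset.refl _⟩ hIT
    have h2 : I = T := Finset.Subset.antisymm hIT h1
    subst h2
    refine ⟨hI, ?_⟩
    intro I' hI' hI'I
    exact Finset.Subset.antisymm hI'I (hmin ⟨I', hI', Finset.Subset.refl _⟩ hI'I)

/-- build a representation from generating families -/
lemma rep_of_gen {A C : Finset (Finset V)} {φ : Finset V → Prop}
    (h1 : ∀ T, φ T ↔ ∃ I ∈ A, I ⊆ T) (h2 : ∀ T, Dual φ T ↔ ∃ J ∈ C, J ⊆ T) :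
    Rep (minimize A) (minimize C) φ := by
  have e1 : φ = fun S => ∃ I ∈ A, I ⊆ S := funext fun T => propext (h1 T)
  have e2 : Dual φ = fun S => ∃ J ∈ C, J ⊆ S := funext fun T => propext (h2 T)
  refine ⟨?_, ?_, ?_⟩
  · intro S T hST hS
    rw [h1] at hS ⊢
    obtain ⟨I, hI, hIS⟩ := hS
    exact ⟨I, hI, hIS.trans hST⟩
  · intro T
    rw [mem_minimize, ← e1]
  · intro T
    rw [mem_minimize, ← e2]

/-- an antichain is its own minimization -/
lemma minimize_eq_self {A : Finset (Finset V)} (h : ∀ I ∈ A, ∀ I' ∈ A, I' ⊆ I → I' = I) :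
    minimize A = A := by
  rw [minimize]
  exact Finset.filter_true_of_mem h

lemma Rep.antichain_F {F G : Finset (Finset V)} {φ : Finset V → Prop} (h : Rep F G φ) :
    ∀ I ∈ F, ∀ I' ∈ F, I' ⊆ I → I' = I := by
  intro I hI I' hI' hII
  exact Finset.Subset.antisymm hII (((h.F_iff I).1 hI).2 ((h.F_iff I').1 hI').1 hII)

lemma Rep.minimize_without {F G : Finset (Finset V)} {φ : Finset V → Prop} (h : Rep F G φ)
    (x : V) : minimize (without F x) = without F x := by
  apply minimize_eq_self
  intro I hI I' hI' hII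
  rw [without, Finset.mem_filter] at hI hI'
  exact h.antichain_F I hI.1 I' hI'.1 hII

lemma Rep.zero {F G : Finset (Finset V)} {φ : Finset V → Prop} (h : Rep F G φ) (x : V) :
    Rep (without F x) (minimize (G.image (fun J => J.erase x))) (fun T => φ (T.erase x)) := by
  rw [← h.minimize_without x]
  apply rep_of_gen
  · intro T
    rw [h.true_iff]
    constructor
    · rintro ⟨I, hI, hIT⟩
      refine ⟨I, ?_, hIT.trans (Finset.erase_subset _ _)⟩
      rw [without, Finset.mem_filter]
      exact ⟨hI, fun hx => Finset.notMem_erase x T (hIT hx)⟩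
    · rintro ⟨I, hI, hIT⟩
      rw [without, Finset.mem_filter] at hI
      exact ⟨I, hI.1, fun y hy => Finset.mem_erase.2 ⟨fun e => hI.2 (e ▸ hy), hIT hy⟩⟩
  · intro T
    constructor
    · intro hT
      have h1 : Dual φ (insert x T) := by
        intro S hS
        by_cases hx : x ∈ S
        · exact ⟨x, by simp [hx]⟩
        · have h2 : φ (S.erase x) := by rwa [Finset.erase_eq_of_notMem hx]
          obtain ⟨y, hy⟩ := hT S h2
          rw [Finset.mem_inter] at hy
          exact ⟨y, by simp [hy]⟩
      obtain ⟨J, hJ, hJT⟩ := (h.dual_iff _).1 h1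
      refine ⟨J.erase x, Finset.mem_image.2 ⟨J, hJ, rfl⟩, ?_⟩
      intro y hy
      rw [Finset.mem_erase] at hy
      have := hJT hy.2
      rw [Finset.mem_insert] at this
      tauto
    · rintro ⟨J', hJ', hJT⟩ S hS
      rw [Finset.mem_image] at hJ'
      obtain ⟨J, hJ, rfl⟩ := hJ'
      have h1 : Dual φ J := ((h.G_iff J).1 hJ).1
      obtain ⟨y, hy⟩ := h1 _ hS
      rw [Finset.mem_inter, Finset.mem_erase] at hy
      refine ⟨y, Finset.mem_inter.2 ⟨hy.1.2, hJT (Finset.mem_erase.2 ⟨hy.1.1, hy.2⟩)⟩⟩

lemma dual_erase (φ : Finset V → Prop) (x : V) :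
    Dual (fun T => φ (T.erase x)) = fun T => Dual φ (insert x T) := by
  funext T
  apply propext
  constructor
  · intro hT S hS
    by_cases hx : x ∈ S
    · exact ⟨x, by simp [hx]⟩
    · have h2 : φ (S.erase x) := by rwa [Finset.erase_eq_of_notMem hx]
      obtain ⟨y, hy⟩ := hT S h2
      rw [Finset.mem_inter] at hy
      exact ⟨y, by simp [hy]⟩
  · intro hT S hS
    obtain ⟨y, hy⟩ := hT _ hS
    rw [Finset.mem_inter, Finset.mem_erase, Finset.mem_insert] at hy
    exact ⟨y, Finset.mem_inter.2 ⟨hy.1.2, hy.2.resolve_left hy.1.1⟩⟩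

lemma Rep.one {F G : Finset (Finset V)} {φ : Finset V → Prop} (h : Rep F G φ) (x : V) :
    Rep (minimize (F.image (fun I => I.erase x))) (without G x) (fun T => φ (insert x T)) := by
  have h1 := (h.symm.zero x).symm
  rw [dual_erase, h.dual_dual] at h1
  exact h1

lemma mem_link {F : Finset (Finset V)} {x : V} {J : Finset V} :
    J ∈ link F x ↔ x ∉ J ∧ insert x J ∈ F := by
  rw [link, Finset.mem_image]
  constructor
  · rintro ⟨I, hI, rfl⟩
    rw [Finset.mem_filter] at hI
    exact ⟨Finset.notMem_erase _ _, by rw [Finset.insert_erase hI.2]; exact hI.1⟩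
  · rintro ⟨h1, h2⟩
    exact ⟨insert x J, Finset.mem_filter.2 ⟨h2, Finset.mem_insert_self _ _⟩,
      Finset.erase_insert h1⟩

/-- `x = 1`, `J = 0` -/
lemma Rep.oneZero {F G : Finset (Finset V)} {φ : Finset V → Prop} (h : Rep F G φ) (x : V)
    (J : Finset V) (hJ : J ∈ link G x) :
    Rep (minimize ((link F x).filter (fun I => Disjoint I J)))
      (minimize ((without G x).image (fun J' => J' \ J))) (fun T => φ (insert x T \ J)) := by
  rw [mem_link] at hJ
  obtain ⟨hxJ, hJG⟩ := hJ
  have hD : Dual φ (insert x J) := ((h.G_iff _).1 hJG).1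
  apply rep_of_gen
  · intro T
    rw [h.true_iff]
    constructor
    · rintro ⟨I, hI, hIT⟩
      have hxI : x ∈ I := by
        obtain ⟨y, hy⟩ := hD I ((h.F_iff I).1 hI).1
        rw [Finset.mem_inter, Finset.mem_insert] at hy
        rcases hy.2 with h1 | h1
        · exact h1 ▸ hy.1
        · have := hIT hy.1
          rw [Finset.mem_sdiff] at this
          exact absurd h1 this.2
      refine ⟨I.erase x, ?_, ?_⟩
      · rw [Finset.mem_filter, mem_link]
        refine ⟨⟨Finset.notMem_erase _ _, ?_⟩, ?_⟩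
        · rwa [Finset.insert_erase hxI]
        · rw [Finset.disjoint_left]
          intro y hy hyJ
          have := hIT (Finset.mem_of_mem_erase hy)
          rw [Finset.mem_sdiff] at this
          exact this.2 hyJ
      · intro y hy
        rw [Finset.mem_erase] at hy
        have := hIT hy.2
        rw [Finset.mem_sdiff, Finset.mem_insert] at this
        exact this.1.resolve_left hy.1
    · rintro ⟨I, hI, hIT⟩
      rw [Finset.mem_filter, mem_link] at hI
      obtain ⟨⟨hxI, hIF⟩, hdis⟩ := hI
      refine ⟨insert x I, hIF, ?_⟩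
      intro y hy
      rw [Finset.mem_insert] at hy
      rw [Finset.mem_sdiff, Finset.mem_insert]
      rcases hy with rfl | hy
      · exact ⟨Or.inl rfl, hxJ⟩
      · exact ⟨Or.inr (hIT hy), fun hyJ => Finset.disjoint_left.1 hdis hy hyJ⟩
  · intro T
    constructor
    · intro hT
      -- `T ∪ J` is a transversal of the sets containing `x`
      have h1 : Dual φ (insert x (T ∪ J)) := by
        intro S hS
        by_cases hx : x ∈ S
        · exact ⟨x, by simp [hx]⟩
        · -- then use dual
          obtain ⟨y, hy⟩ := hD S hS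
          rw [Finset.mem_inter, Finset.mem_insert] at hy
          rcases hy.2 with h1 | h1
          · exact absurd (h1 ▸ hy.1) hx
          · exact ⟨y, by simp [hy.1, h1]⟩
      have h2 : Dual φ (T ∪ J) := by
        intro S hS
        by_cases hSJ : (S ∩ J).Nonempty
        · obtain ⟨y, hy⟩ := hSJ
          rw [Finset.mem_inter] at hy
          exact ⟨y, by simp [hy.1, hy.2]⟩
        · rw [Finset.not_nonempty_iff_eq_empty] at hSJ
          have h3 : φ (insert x S \ J) := by
            apply h.mono S _ _ hS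
            intro y hy
            rw [Finset.mem_sdiff, Finset.mem_insert]
            refine ⟨Or.inr hy, fun hyJ => ?_⟩
            have : y ∈ S ∩ J := Finset.mem_inter.2 ⟨hy, hyJ⟩
            rw [hSJ] at this
            simp at this
          obtain ⟨y, hy⟩ := hT S h3
          rw [Finset.mem_inter] at hy
          exact ⟨y, by simp [hy.1, hy.2]⟩
      -- find a member of G avoiding x
      obtain ⟨J', hJ', hJT⟩ := (h.dual_iff _).1 h2
      by_cases hxJ' : x ∈ J'
      · -- then x ∈ T; every minimal transversal inside `T \ {x} ∪ J`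
        have h4 : Dual φ ((T ∪ J).erase x) := by
          intro S hS
          by_cases hSJ : (S.erase x ∩ J).Nonempty
          · obtain ⟨y, hy⟩ := hSJ
            rw [Finset.mem_inter, Finset.mem_erase] at hy
            exact ⟨y, by simp [hy.1.1, hy.1.2, hy.2]⟩
          · rw [Finset.not_nonempty_iff_eq_empty] at hSJ
            have h3 : φ (insert x (S.erase x) \ J) := by
              apply h.mono S _ _ hS
              intro y hy
              rw [Finset.mem_sdiff, Finset.mem_insert, Finset.mem_erase]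
              by_cases hyx : y = x
              · subst hyx
                exact ⟨Or.inl rfl, hxJ⟩
              · refine ⟨Or.inr ⟨hyx, hy⟩, fun hyJ => ?_⟩
                have : y ∈ S.erase x ∩ J :=
                  Finset.mem_inter.2 ⟨Finset.mem_erase.2 ⟨hyx, hy⟩, hyJ⟩
                rw [hSJ] at this
                simp at this
            obtain ⟨y, hy⟩ := hT _ h3
            rw [Finset.mem_inter, Finset.mem_erase] at hy
            exact ⟨y, by simp [hy.1.1, hy.1.2, hy.2]⟩
        obtain ⟨J'', hJ'', hJT''⟩ := (h.dual_iff _).1 h4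
        refine ⟨J'' \ J, ?_, ?_⟩
        · rw [Finset.mem_image]
          refine ⟨J'', ?_, rfl⟩
          rw [without, Finset.mem_filter]
          exact ⟨hJ'', fun hx => Finset.notMem_erase _ _ (hJT'' hx)⟩
        · intro y hy
          rw [Finset.mem_sdiff] at hy
          have := hJT'' hy.1
          rw [Finset.mem_erase, Finset.mem_union] at this
          exact this.2.resolve_right hy.2
      · refine ⟨J' \ J, ?_, ?_⟩
        · rw [Finset.mem_image]
          refine ⟨J', ?_, rfl⟩
          rw [without, Finset.mem_filter]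
          exact ⟨hJ', hxJ'⟩
        · intro y hy
          rw [Finset.mem_sdiff] at hy
          have := hJT hy.1
          rw [Finset.mem_union] at this
          exact this.resolve_right hy.2
    · rintro ⟨J₁, hJ₁, hJT⟩ S hS
      rw [Finset.mem_image] at hJ₁
      obtain ⟨J', hJ', rfl⟩ := hJ₁
      rw [without, Finset.mem_filter] at hJ'
      obtain ⟨y, hy⟩ := ((h.G_iff J').1 hJ'.1).1 _ hS
      rw [Finset.mem_inter, Finset.mem_sdiff, Finset.mem_insert] at hy
      have hyx : y ≠ x := fun e => hJ'.2 (e ▸ hy.2)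
      exact ⟨y, Finset.mem_inter.2 ⟨hy.1.1.resolve_left hyx,
        hJT (Finset.mem_sdiff.2 ⟨hy.2, hy.1.2⟩)⟩⟩

/-- `x = 0`, `I = 1` -/
lemma Rep.zeroOne {F G : Finset (Finset V)} {φ : Finset V → Prop} (h : Rep F G φ) (x : V)
    (I : Finset V) (hI : I ∈ link F x) :
    Rep (minimize ((without F x).image (fun I' => I' \ I)))
      (minimize ((link G x).filter (fun J => Disjoint J I))) (fun T => φ (T.erase x ∪ I)) := by
  have h1 := (h.symm.oneZero x I hI).symm
  have hxI : x ∉ I := (mem_link.1 hI).1
  have h2 : Dual (fun T => Dual φ (insert x T \ I)) = fun T => φ (T.erase x ∪ I) := by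
    funext T
    apply propext
    constructor
    · intro hT
      rw [← h.dual_dual]
      intro S hS
      by_cases hSI : (S ∩ I).Nonempty
      · obtain ⟨y, hy⟩ := hSI
        rw [Finset.mem_inter] at hy
        exact ⟨y, by simp [hy.1, hy.2]⟩
      · rw [Finset.not_nonempty_iff_eq_empty] at hSI
        have h3 : Dual φ (insert x (S.erase x) \ I) := by
          apply dual_mono φ S _ _ hS
          intro y hy
          rw [Finset.mem_sdiff, Finset.mem_insert, Finset.mem_erase]
          have hyI : y ∉ I := by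
            intro hyI
            have : y ∈ S ∩ I := Finset.mem_inter.2 ⟨hy, hyI⟩
            rw [hSI] at this
            simp at this
          by_cases hyx : y = x
          · exact ⟨Or.inl hyx, hyI⟩
          · exact ⟨Or.inr ⟨hyx, hy⟩, hyI⟩
        obtain ⟨y, hy⟩ := hT _ h3
        rw [Finset.mem_inter, Finset.mem_erase] at hy
        exact ⟨y, by simp [hy.1.1, hy.1.2, hy.2]⟩
    · intro hT S hS
      obtain ⟨y, hy⟩ := hS _ hT
      rw [Finset.mem_inter, Finset.mem_sdiff, Finset.mem_insert, Finset.mem_union,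
        Finset.mem_erase] at hy
      rcases hy.1 with h3 | h3
      · exact ⟨y, Finset.mem_inter.2 ⟨hy.2.1.resolve_left h3.1, h3.2⟩⟩
      · exact absurd h3 hy.2.2
  rw [h2] at h1
  exact h1

/-- a variable on which the function does not depend does not occur -/
lemma Rep.occurs {F G : Finset (Finset V)} {φ : Finset V → Prop} (h : Rep F G φ) {x : V}
    (hx : (∃ I ∈ F, x ∈ I) ∨ ∃ J ∈ G, x ∈ J) : ∃ T, φ T ∧ ¬ φ (T.erase x) := by
  by_contra hcon
  push Not at hcon
  rcases hx with ⟨I, hI, hxI⟩ | ⟨J, hJ, hxJ⟩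
  · have h1 := (h.F_iff I).1 hI
    have h2 := h1.2 (hcon I h1.1) (Finset.erase_subset _ _)
    exact Finset.notMem_erase x I (h2 hxI)
  · have h1 := (h.G_iff J).1 hJ
    have h3 : Dual φ (J.erase x) := by
      intro S hS
      obtain ⟨y, hy⟩ := h1.1 _ (hcon S hS)
      rw [Finset.mem_inter, Finset.mem_erase] at hy
      exact ⟨y, Finset.mem_inter.2 ⟨hy.1.2, Finset.mem_erase.2 ⟨hy.1.1, hy.2⟩⟩⟩
    have h2 := h1.2 h3 (Finset.erase_subset _ _)
    exact Finset.notMem_erase x J (h2 hxJ)

/-- if the family `F` has a member of size at least `s + 1`, then `G` has more than `s` members -/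
lemma Rep.card_G_of_size {F G : Finset (Finset V)} {φ : Finset V → Prop} (h : Rep F G φ)
    {I : Finset V} (hI : I ∈ F) : I.card ≤ G.card := by
  classical
  -- every element of `I` has a private member of `G`
  have h1 : ∀ x ∈ I, ∃ J ∈ G, I ∩ J = {x} := by
    intro x hx
    by_contra hcon
    push Not at hcon
    have hmin := (h.symm.G_iff I)
    have h2 : Minimal (Dual (Dual φ)) I := by
      rw [h.dual_dual]; exact (h.F_iff I).1 hI
    have h3 : Dual (Dual φ) (I.erase x) := by
      intro S hS
      obtain ⟨J, hJ, hJS⟩ := (h.dual_iff S).1 hS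
      have h4 := hcon J hJ
      obtain ⟨y, hy⟩ := h2.1 J ((h.G_iff J).1 hJ).1
      rw [Finset.mem_inter] at hy
      by_cases hyx : y = x
      · subst hyx
        -- another element
        have h5 : ∃ z, z ∈ I ∩ J ∧ z ≠ y := by
          by_contra h6
          push Not at h6
          apply h4
          ext z
          rw [Finset.mem_singleton]
          constructor
          · exact fun hz => h6 z hz
          · rintro rfl
            exact Finset.mem_inter.2 ⟨hy.2, hy.1⟩
        obtain ⟨z, hz, hzy⟩ := h5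
        rw [Finset.mem_inter] at hz
        exact ⟨z, Finset.mem_inter.2 ⟨hJS hz.2, Finset.mem_erase.2 ⟨hzy, hz.1⟩⟩⟩
      · exact ⟨y, Finset.mem_inter.2 ⟨hJS hy.1, Finset.mem_erase.2 ⟨hyx, hy.2⟩⟩⟩
    have h6 := h2.2 h3 (Finset.erase_subset _ _)
    exact Finset.notMem_erase x I (h6 hx)
  choose! J hJ hJI using h1
  apply Finset.card_le_card_of_injOn J (fun x hx => hJ x hx)
  intro x hx y hy hxy
  have e1 := hJI x hx
  have e2 := hJI y hy
  rw [hxy, e2] at e1
  exact (Finset.singleton_injective e1).symm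

end Pool.Agent.Helper64.Free
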