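import Mathlib
import Pool.Agent.Helper64.FreeRep

set_option autoImplicit false

namespace Pool.Agent.Helper64.Free

/-- Variables: blocks `i : X`, in each block `B` pairs, each pair with two variables. -/
abbrev Var (X : Type) (B : ℕ) := X × Fin B × Bool

section blocks
variable {X ι : Type} {B : ℕ}

/-- some codeword has all its pairs hit -/
def tru (c : ι → Finset X) (T : Finset (Var X B)) : Prop :=
  ∃ σ, ∀ i ∈ c σ, ∀ v : Fin B, ∃ b : Bool, ((i, v, b) : Var X B) ∈ T

/-- restriction of `tru c` by the partial assignment `ρ` -/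
def phi (c : ι → Finset X) (ρ : Var X B → Option Bool) (T : Finset (Var X B)) : Prop :=
  ∃ σ, ∀ i ∈ c σ, ∀ v : Fin B, ∃ b : Bool, ρ (i, v, b) = some true ∨
    (ρ (i, v, b) = none ∧ ((i, v, b) : Var X B) ∈ T)

def sat (ρ : Var X B → Option Bool) (i : X) (v : Fin B) : Prop := ∃ b, ρ (i, v, b) = some true
def dead (ρ : Var X B → Option Bool) (i : X) (v : Fin B) : Prop := ∀ b, ρ (i, v, b) = some false
def fresh (ρ : Var X B → Option Bool) (i : X) (v : Fin B) : Prop := ∀ b, ρ (i, v, b) = none
def bdead (ρ : Var X B → Option Bool) (i : X) : Prop := ∃ v, dead ρ i v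
def full (ρ : Var X B → Option Bool) (i : X) : Prop := ∀ v, sat ρ i v

open Classical in
noncomputable def fr (ρ : Var X B → Option Bool) (i : X) : ℕ :=
  (Finset.univ.filter (fun v => fresh ρ i v)).card

open Classical in
noncomputable def sg (ρ : Var X B → Option Bool) (i : X) : ℕ :=
  (Finset.univ.filter (fun v => ¬ sat ρ i v ∧ ¬ dead ρ i v ∧ ¬ fresh ρ i v)).card

open Classical in
noncomputable def wt (ρ : Var X B → Option Bool) (i : X) : ℕ :=
  if bdead ρ i then 1 else 2 ^ fr ρ i - 1 + sg ρ i

def alive (c : ι → Finset X) (ρ : Var X B → Option Bool) (σ : ι) : Prop :=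
  ∀ i ∈ c σ, ¬ bdead ρ i

lemma sat_congr {ρ ρ' : Var X B → Option Bool} {i : X} {v : Fin B}
    (h : ∀ b, ρ (i, v, b) = ρ' (i, v, b)) : sat ρ i v ↔ sat ρ' i v := by
  unfold sat; simp only [h]

lemma dead_congr {ρ ρ' : Var X B → Option Bool} {i : X} {v : Fin B}
    (h : ∀ b, ρ (i, v, b) = ρ' (i, v, b)) : dead ρ i v ↔ dead ρ' i v := by
  unfold dead; simp only [h]

lemma fresh_congr {ρ ρ' : Var X B → Option Bool} {i : X} {v : Fin B}
    (h : ∀ b, ρ (i, v, b) = ρ' (i, v, b)) : fresh ρ i v ↔ fresh ρ' i v := by
  unfold fresh; simp only [h]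

lemma bdead_congr {ρ ρ' : Var X B → Option Bool} {i : X}
    (h : ∀ v b, ρ (i, v, b) = ρ' (i, v, b)) : bdead ρ i ↔ bdead ρ' i := by
  unfold bdead
  exact exists_congr fun v => dead_congr (h v)

lemma full_congr {ρ ρ' : Var X B → Option Bool} {i : X}
    (h : ∀ v b, ρ (i, v, b) = ρ' (i, v, b)) : full ρ i ↔ full ρ' i := by
  unfold full
  exact forall_congr' fun v => sat_congr (h v)

lemma fr_congr {ρ ρ' : Var X B → Option Bool} {i : X}
    (h : ∀ v b, ρ (i, v, b) = ρ' (i, v, b)) : fr ρ i = fr ρ' i := by
  classical
  unfold fr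
  congr 1
  ext v
  simp only [Finset.mem_filter, Finset.mem_univ, true_and]
  exact fresh_congr (h v)

lemma sg_congr {ρ ρ' : Var X B → Option Bool} {i : X}
    (h : ∀ v b, ρ (i, v, b) = ρ' (i, v, b)) : sg ρ i = sg ρ' i := by
  classical
  unfold sg
  congr 1
  ext v
  simp only [Finset.mem_filter, Finset.mem_univ, true_and]
  rw [sat_congr (h v), dead_congr (h v), fresh_congr (h v)]

lemma wt_congr {ρ ρ' : Var X B → Option Bool} {i : X}
    (h : ∀ v b, ρ (i, v, b) = ρ' (i, v, b)) : wt ρ i = wt ρ' i := by
  classical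
  unfold wt
  rw [fr_congr h, sg_congr h]
  simp only [bdead_congr h]

lemma fresh_not_sat {ρ : Var X B → Option Bool} {i : X} {v : Fin B} (h : fresh ρ i v) :
    ¬ sat ρ i v := by
  rintro ⟨b, hb⟩
  rw [h b] at hb
  simp at hb

lemma fresh_not_dead {ρ : Var X B → Option Bool} {i : X} {v : Fin B} (h : fresh ρ i v) :
    ¬ dead ρ i v := by
  intro hd
  have := hd true
  rw [h true] at this
  simp at this

lemma sat_not_dead {ρ : Var X B → Option Bool} {i : X} {v : Fin B} (h : sat ρ i v) :
    ¬ dead ρ i v := by
  obtain ⟨b, hb⟩ := h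
  intro hd
  rw [hd b] at hb
  simp at hb

/-- a pair which is neither satisfied nor dead has an unassigned variable -/
lemma exists_none {ρ : Var X B → Option Bool} {i : X} {v : Fin B} (h1 : ¬ sat ρ i v)
    (h2 : ¬ dead ρ i v) : ∃ b, ρ (i, v, b) = none := by
  unfold dead at h2
  push Not at h2
  obtain ⟨b, hb⟩ := h2
  refine ⟨b, ?_⟩
  cases h : ρ (i, v, b) with
  | none => rfl
  | some a =>
    cases a with
    | true => exact absurd ⟨b, h⟩ h1
    | false => exact absurd h hb

/-- a pair with an unassigned variable which is not satisfied and not fresh: the other variable is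
assigned `false` -/
lemma other_false {ρ : Var X B → Option Bool} {i : X} {v : Fin B} {b : Bool}
    (h1 : ¬ sat ρ i v) (h2 : ρ (i, v, b) = none) (h3 : ¬ fresh ρ i v) :
    ρ (i, v, !b) = some false := by
  cases h : ρ (i, v, !b) with
  | none =>
    exfalso
    apply h3
    intro b'
    by_cases hb : b' = b
    · subst hb; exact h2
    · have : b' = !b := by cases b' <;> cases b <;> simp_all
      rw [this]; exact h
  | some a =>
    cases a with
    | true => exact absurd ⟨_, h⟩ h1
    | false => rfl

lemma fr_add_sg_le (ρ : Var X B → Option Bool) (i : X) : fr ρ i + sg ρ i ≤ B := by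
  classical
  unfold fr sg
  rw [← Finset.card_union_of_disjoint]
  · refine (Finset.card_le_univ _).trans ?_
    simp
  · rw [Finset.disjoint_left]
    intro v hv hv'
    simp only [Finset.mem_filter, Finset.mem_univ, true_and] at hv hv'
    exact hv'.2.2 hv

lemma aux_pow (f g B : ℕ) (h : f + g ≤ B) : 2 ^ f - 1 + g ≤ 2 ^ B - 1 := by
  have h1 : ∀ n : ℕ, 2 ^ f + n ≤ 2 ^ (f + n) := by
    intro n
    induction n with
    | zero => simp
    | succ m ih =>
      have h0 : 2 ^ (f + (m + 1)) = 2 * 2 ^ (f + m) := by
        rw [← add_assoc, pow_succ, mul_comm]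
      have : 1 ≤ 2 ^ (f + m) := Nat.one_le_two_pow
      omega
  have h2 : 2 ^ (f + g) ≤ 2 ^ B := Nat.pow_le_pow_right (by norm_num) h
  have h3 := h1 g
  have h4 : 1 ≤ 2 ^ f := Nat.one_le_two_pow
  omega

lemma wt_le (hB : 1 ≤ B) (ρ : Var X B → Option Bool) (i : X) : wt ρ i ≤ 2 ^ B - 1 := by
  classical
  unfold wt
  split_ifs
  · have : 2 ^ 1 ≤ 2 ^ B := Nat.pow_le_pow_right (by norm_num) hB
    omega
  · exact aux_pow _ _ _ (fr_add_sg_le ρ i)

lemma wt_full {ρ : Var X B → Option Bool} {i : X} (h : full ρ i) : wt ρ i = 0 := by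
  classical
  have h1 : ¬ bdead ρ i := by
    rintro ⟨v, hv⟩
    exact sat_not_dead (h v) hv
  have h2 : fr ρ i = 0 := by
    unfold fr
    rw [Finset.card_eq_zero, Finset.filter_eq_empty_iff]
    intro v _ hv
    exact fresh_not_sat hv (h v)
  have h3 : sg ρ i = 0 := by
    unfold sg
    rw [Finset.card_eq_zero, Finset.filter_eq_empty_iff]
    intro v _ hv
    exact hv.1 (h v)
  unfold wt
  rw [if_neg h1, h2, h3]
  simp

lemma wt_light {β : ℕ} (hβ : 4 ≤ β) (ρ : Var X (2 * β) → Option Bool) (i : X)
    (h : bdead ρ i ∨ fr ρ i < β) : wt ρ i ≤ 2 ^ β := by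
  classical
  unfold wt
  split_ifs with hd
  · exact Nat.one_le_two_pow
  · have h1 : fr ρ i < β := h.resolve_left hd
    have h2 := fr_add_sg_le ρ i
    have h3 : 2 ^ fr ρ i ≤ 2 ^ (β - 1) := Nat.pow_le_pow_right (by norm_num) (by omega)
    have h4 : 2 ^ β = 2 * 2 ^ (β - 1) := by
      rw [← pow_succ']; congr 1; omega
    have h5 : ∀ n : ℕ, 4 ≤ n → 2 * n ≤ 2 ^ (n - 1) := by
      intro n hn
      induction n, hn using Nat.le_induction with
      | base => norm_num
      | succ m hm ih =>
        have : 2 ^ (m + 1 - 1) = 2 * 2 ^ (m - 1) := by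
          rw [← pow_succ']; congr 1; omega
        rw [this]
        omega
    have h6 := h5 β hβ
    have h7 : 1 ≤ 2 ^ fr ρ i := Nat.one_le_two_pow
    omega

section upd
variable [DecidableEq X]

/-- assign `x` the value `a` -/
def upd (ρ : Var X B → Option Bool) (x : Var X B) (a : Bool) : Var X B → Option Bool :=
  Function.update ρ x (some a)

lemma upd_other {ρ : Var X B → Option Bool} {x y : Var X B} {a : Bool} (h : y ≠ x) :
    upd ρ x a y = ρ y := Function.update_of_ne h _ _

lemma upd_self {ρ : Var X B → Option Bool} {x : Var X B} {a : Bool} :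
    upd ρ x a x = some a := Function.update_self _ _ _

lemma fr_upd {ρ : Var X B → Option Bool} {i : X} {v : Fin B} {b a : Bool}
    (hf : fresh ρ i v) : fr (upd ρ (i, v, b) a) i + 1 = fr ρ i := by
  classical
  unfold fr
  have h1 : Finset.univ.filter (fun v' => fresh ρ i v') =
      insert v (Finset.univ.filter (fun v' => fresh (upd ρ (i, v, b) a) i v')) := by
    ext v'
    simp only [Finset.mem_filter, Finset.mem_univ, true_and, Finset.mem_insert]
    by_cases hv : v' = v
    · subst hv; simp [hf]
    · rw [fresh_congr (ρ := ρ) (ρ' := upd ρ (i, v, b) a) (i := i) (v := v')]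
      · simp [hv]
      · intro b'
        rw [upd_other]
        simp [hv]
  have h2 : v ∉ Finset.univ.filter (fun v' => fresh (upd ρ (i, v, b) a) i v') := by
    simp only [Finset.mem_filter, Finset.mem_univ, true_and]
    intro h
    have := h b
    rw [upd_self] at this
    simp at this
  rw [h1, Finset.card_insert_of_notMem h2]

lemma fr_upd' {ρ : Var X B → Option Bool} {i : X} {v : Fin B} {b a : Bool}
    (hf : ¬ fresh ρ i v) (hb : ρ (i, v, b) = none) : fr (upd ρ (i, v, b) a) i = fr ρ i := by
  classical
  unfold fr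
  congr 1
  ext v'
  simp only [Finset.mem_filter, Finset.mem_univ, true_and]
  by_cases hv : v' = v
  · subst hv
    constructor
    · intro h
      have := h b
      rw [upd_self] at this
      simp at this
    · intro h; exact absurd h hf
  · apply fresh_congr
    intro b'
    rw [upd_other]
    simp [hv]

/-- the two-branch inequality -/
lemma wt_split {ρ : Var X B → Option Bool} {i : X} {v : Fin B} {b : Bool}
    (hb : ρ (i, v, b) = none) (hs : ¬ sat ρ i v) (hd : ¬ bdead ρ i) :
    wt ρ i ≤ wt (upd ρ (i, v, b) false) i + wt (upd ρ (i, v, b) true) i := by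
  classical
  have hother : ∀ a, ∀ v', v' ≠ v → ∀ b', upd ρ (i, v, b) a (i, v', b') = ρ (i, v', b') := by
    intro a v' hv b'
    rw [upd_other]
    simp [hv]
  -- the `true` child is not dead
  have hd1 : ¬ bdead (upd ρ (i, v, b) true) i := by
    rintro ⟨v', hv'⟩
    by_cases h : v' = v
    · subst h
      have := hv' b
      rw [upd_self] at this
      simp at this
    · exact hd ⟨v', (dead_congr (hother true v' h)).1 hv'⟩
  by_cases hf : fresh ρ i v
  · -- fresh pair
    have h0 : ¬ bdead (upd ρ (i, v, b) false) i := by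
      rintro ⟨v', hv'⟩
      by_cases h : v' = v
      · subst h
        have := hv' (!b)
        rw [upd_other (by simp)] at this
        rw [hf] at this
        simp at this
      · exact hd ⟨v', (dead_congr (hother false v' h)).1 hv'⟩
    have e1 : fr (upd ρ (i, v, b) true) i + 1 = fr ρ i := fr_upd hf
    have e0 : fr (upd ρ (i, v, b) false) i + 1 = fr ρ i := fr_upd hf
    have s1 : sg (upd ρ (i, v, b) true) i = sg ρ i := by
      unfold sg
      congr 1
      ext v'
      simp only [Finset.mem_filter, Finset.mem_univ, true_and]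
      by_cases h : v' = v
      · subst h
        constructor
        · intro h1
          exact absurd ⟨b, upd_self⟩ h1.1
        · intro h1
          exact absurd hf h1.2.2
      · rw [sat_congr (hother true v' h), dead_congr (hother true v' h),
          fresh_congr (hother true v' h)]
    have s0 : sg (upd ρ (i, v, b) false) i = sg ρ i + 1 := by
      unfold sg
      have h1 : Finset.univ.filter (fun v' => ¬ sat (upd ρ (i, v, b) false) i v' ∧
          ¬ dead (upd ρ (i, v, b) false) i v' ∧ ¬ fresh (upd ρ (i, v, b) false) i v') =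
          insert v (Finset.univ.filter
            (fun v' => ¬ sat ρ i v' ∧ ¬ dead ρ i v' ∧ ¬ fresh ρ i v')) := by
        ext v'
        simp only [Finset.mem_filter, Finset.mem_univ, true_and, Finset.mem_insert]
        by_cases h : v' = v
        · subst h
          simp only [true_or, iff_true]
          refine ⟨?_, ?_, ?_⟩
          · rintro ⟨b', hb'⟩
            by_cases hbb : b' = b
            · subst hbb; rw [upd_self] at hb'; simp at hb'
            · rw [upd_other (by simp [hbb]), hf] at hb'; simp at hb'
          · intro hdd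
            have := hdd (!b)
            rw [upd_other (by simp), hf] at this
            simp at this
          · intro hff
            have := hff b
            rw [upd_self] at this
            simp at this
        · rw [sat_congr (hother false v' h), dead_congr (hother false v' h),
            fresh_congr (hother false v' h)]
          simp [h]
      rw [h1, Finset.card_insert_of_notMem]
      simp only [Finset.mem_filter, Finset.mem_univ, true_and]
      intro h2
      exact h2.2.2 hf
    unfold wt
    rw [if_neg hd, if_neg h0, if_neg hd1, s0, s1]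
    have e2 : 2 ^ fr ρ i = 2 * 2 ^ fr (upd ρ (i, v, b) true) i := by
      rw [← e1, pow_succ']
    have e3 : fr (upd ρ (i, v, b) false) i = fr (upd ρ (i, v, b) true) i := by omega
    rw [e2, e3]
    have : 1 ≤ 2 ^ fr (upd ρ (i, v, b) true) i := Nat.one_le_two_pow
    omega
  · -- single pair
    have hof := other_false hs hb hf
    have h0 : bdead (upd ρ (i, v, b) false) i := by
      refine ⟨v, ?_⟩
      intro b'
      by_cases hbb : b' = b
      · subst hbb; exact upd_self
      · have : b' = !b := by cases b' <;> cases b <;> simp_all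
        rw [this, upd_other (by simp)]
        exact hof
    have e1 : fr (upd ρ (i, v, b) true) i = fr ρ i := fr_upd' hf hb
    have s1 : sg ρ i = sg (upd ρ (i, v, b) true) i + 1 := by
      unfold sg
      have h1 : Finset.univ.filter
            (fun v' => ¬ sat ρ i v' ∧ ¬ dead ρ i v' ∧ ¬ fresh ρ i v') =
          insert v (Finset.univ.filter (fun v' => ¬ sat (upd ρ (i, v, b) true) i v' ∧
          ¬ dead (upd ρ (i, v, b) true) i v' ∧ ¬ fresh (upd ρ (i, v, b) true) i v')) := by
        ext v'
        simp only [Finset.mem_filter, Finset.mem_univ, true_and, Finset.mem_insert]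
        by_cases h : v' = v
        · subst h
          simp only [true_or, iff_true]
          refine ⟨hs, ?_, hf⟩
          intro hdd
          rw [hdd b] at hb
          simp at hb
        · rw [sat_congr (hother true v' h), dead_congr (hother true v' h),
            fresh_congr (hother true v' h)]
          simp [h]
      rw [h1, Finset.card_insert_of_notMem]
      simp only [Finset.mem_filter, Finset.mem_univ, true_and]
      intro h2
      exact h2.1 ⟨b, upd_self⟩
    unfold wt
    rw [if_neg hd, if_pos h0, if_neg hd1, e1, s1]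
    omega

lemma wt_upd_other {ρ : Var X B → Option Bool} {x : Var X B} {a : Bool} {i : X}
    (h : i ≠ x.1) : wt (upd ρ x a) i = wt ρ i := by
  apply wt_congr
  intro v b
  rw [upd_other]
  rintro rfl
  exact h rfl

end upd

lemma phi_alive {c : ι → Finset X} {ρ : Var X B → Option Bool} {T : Finset (Var X B)} {σ : ι}
    (h : ∀ i ∈ c σ, ∀ v : Fin B, ∃ b : Bool, ρ (i, v, b) = some true ∨
    (ρ (i, v, b) = none ∧ ((i, v, b) : Var X B) ∈ T)) : alive c ρ σ := by
  rintro i hi ⟨v, hv⟩
  obtain ⟨b, hb⟩ := h i hi v
  rw [hv b] at hb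
  simp at hb

lemma relevant [DecidableEq X] {c : ι → Finset X} {ρ : Var X B → Option Bool} {x : Var X B}
    (h : ∃ T, phi c ρ T ∧ ¬ phi c ρ (T.erase x)) :
    ρ x = none ∧ ¬ sat ρ x.1 x.2.1 ∧ ¬ bdead ρ x.1 := by
  obtain ⟨T, ⟨σ, hσ⟩, hn⟩ := h
  have hal := phi_alive hσ
  unfold phi at hn
  push Not at hn
  obtain ⟨i, hi, v, hv⟩ := hn σ
  obtain ⟨b, hb⟩ := hσ i hi v
  have hs : ¬ sat ρ i v := by
    rintro ⟨b', hb'⟩
    exact (hv b').1 hb'
  rcases hb with hb | ⟨hb, hbT⟩
  · exact absurd ⟨b, hb⟩ hs
  · have h1 : (i, v, b) = x := by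
      by_contra hne
      exact (hv b).2 hb (Finset.mem_erase.2 ⟨hne, hbT⟩)
    subst h1
    exact ⟨hb, hs, hal i hi⟩

/-- restricting further: `x = 0` -/
lemma phi_zero [DecidableEq X] {c : ι → Finset X} {ρ : Var X B → Option Bool} {x : Var X B}
    (hx : ρ x = none) : (fun T => phi c ρ (T.erase x)) = phi c (upd ρ x false) := by
  funext T
  unfold phi
  apply propext
  refine exists_congr fun σ => forall_congr' fun i => forall_congr' fun _ =>
    forall_congr' fun v => exists_congr fun b => ?_
  by_cases h : (i, v, b) = x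
  · rw [h, hx, upd_self]; simp
  · rw [upd_other h, Finset.mem_erase]; simp [h]

lemma phi_one [DecidableEq X] {c : ι → Finset X} {ρ : Var X B → Option Bool} {x : Var X B}
    (hx : ρ x = none) : (fun T => phi c ρ (insert x T)) = phi c (upd ρ x true) := by
  funext T
  unfold phi
  apply propext
  refine exists_congr fun σ => forall_congr' fun i => forall_congr' fun _ =>
    forall_congr' fun v => exists_congr fun b => ?_
  by_cases h : (i, v, b) = x
  · rw [h, hx, upd_self]; simp
  · rw [upd_other h, Finset.mem_insert]; simp [h]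

/-- assign `x` the value `a`, and all the elements of `J` the value `!a` -/
def updJ [DecidableEq X] (ρ : Var X B → Option Bool) (x : Var X B) (J : Finset (Var X B))
    (a : Bool) : Var X B → Option Bool :=
  fun y => if y = x then some a else if y ∈ J then some (!a) else ρ y

lemma phi_oneZero [DecidableEq X] {c : ι → Finset X} {ρ : Var X B → Option Bool} {x : Var X B}
    {J : Finset (Var X B)} (hx : ρ x = none) (hJ : ∀ y ∈ J, ρ y = none) (hxJ : x ∉ J) :
    (fun T => phi c ρ (insert x T \ J)) = phi c (updJ ρ x J true) := by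
  funext T
  unfold phi
  apply propext
  refine exists_congr fun σ => forall_congr' fun i => forall_congr' fun _ =>
    forall_congr' fun v => exists_congr fun b => ?_
  unfold updJ
  by_cases h : (i, v, b) = x
  · rw [h, hx, if_pos rfl]; simp [hxJ]
  · rw [if_neg h]
    by_cases h2 : (i, v, b) ∈ J
    · rw [if_pos h2, hJ _ h2]; simp [h2]
    · rw [if_neg h2]; simp [h, h2]

lemma phi_zeroOne [DecidableEq X] {c : ι → Finset X} {ρ : Var X B → Option Bool} {x : Var X B}
    {I : Finset (Var X B)} (hx : ρ x = none) (hI : ∀ y ∈ I, ρ y = none) (hxI : x ∉ I) :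
    (fun T => phi c ρ (T.erase x ∪ I)) = phi c (updJ ρ x I false) := by
  funext T
  unfold phi
  apply propext
  refine exists_congr fun σ => forall_congr' fun i => forall_congr' fun _ =>
    forall_congr' fun v => exists_congr fun b => ?_
  unfold updJ
  by_cases h : (i, v, b) = x
  · rw [h, hx, if_pos rfl]; simp [hxI]
  · rw [if_neg h]
    by_cases h2 : (i, v, b) ∈ I
    · rw [if_pos h2, hI _ h2]; simp [h2]
    · rw [if_neg h2]; simp [h, h2]

end blocks

end Pool.Agent.Helper64.Free
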