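import Mathlib
import Pool.Agent.Helper64.FreeBlocks

set_option autoImplicit false

namespace Pool.Agent.Helper64.Free

section adv
variable {X ι : Type} [Fintype X] [DecidableEq X]

def Off (R : List X → Finset X) : List X → Finset X
  | [] => ∅
  | (i :: v) => R (i :: v) ∪ Off R v

def Valid (R : List X → Finset X) : List X → Prop
  | [] => True
  | (i :: v) => i ∉ Off R v ∧ Valid R v

structure Design (X ι : Type) [Fintype X] [DecidableEq X] (w t0 b0 L lam0 lam1 dmin : ℕ) where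
  c : ι → Finset X
  path : ι → List X
  R : List X → Finset X
  mem_path : ∀ σ, ∀ i ∈ path σ, i ∈ c σ
  disj : ∀ σ v, v <:+ path σ → Disjoint (c σ) (Off R v)
  ext : ∀ v, Valid R v → v.length ≤ w → ∀ τ Ja Jb, Ja ⊆ R τ → Ja.card ≤ t0 → Jb.card ≤ b0 →
    (∀ i ∈ v, i ∉ Ja ∧ i ∉ Jb) → ∃ σ, v <:+ path σ ∧ Disjoint (c σ) Ja ∧ Disjoint (c σ) Jb
  hit : ∀ i v σ, Valid R (i :: v) → (i :: v).length ≤ w → ¬ (i :: v) <:+ path σ →
    lam0 ≤ ((c σ ∩ R (i :: v)) \ Off R v).card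
  off_up : ∀ v σ, v.length ≤ w → (c σ ∩ Off R v).card ≤ lam1
  pair : ∀ σ σ', σ ≠ σ' → (c σ ∩ c σ').card ≤ L
  size : ∀ σ, dmin ≤ (c σ).card

variable {w t0 b0 L lam0 lam1 dmin : ℕ}

/-! ### updates -/

section updJ
variable {B : ℕ} {ρ : Var X B → Option Bool} {x : Var X B} {J : Finset (Var X B)} {a : Bool}

omit [Fintype X] in
lemma updJ_ne (hx : ρ x = none) (hJ : ∀ y ∈ J, ρ y = none) {y : Var X B} (hy : ρ y ≠ none) :
    updJ ρ x J a y = ρ y := by
  have h1 : y ≠ x := by rintro rfl; exact hy hx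
  have h2 : y ∉ J := fun e => hy (hJ y e)
  unfold updJ
  rw [if_neg h1, if_neg h2]

omit [Fintype X] in
lemma updJ_out {y : Var X B} (h1 : y ≠ x) (h2 : y ∉ J) : updJ ρ x J a y = ρ y := by
  unfold updJ
  rw [if_neg h1, if_neg h2]

omit [Fintype X] in
lemma updJ_x : updJ ρ x J a x = some a := by
  unfold updJ; rw [if_pos rfl]

omit [Fintype X] in
lemma updJ_mem {y : Var X B} (h1 : y ≠ x) (h2 : y ∈ J) : updJ ρ x J a y = some (!a) := by
  unfold updJ
  rw [if_neg h1, if_pos h2]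

omit [Fintype X] in
lemma updJ_block {i : X} (h1 : i ≠ x.1) (h2 : ∀ y ∈ J, y.1 ≠ i) (v : Fin B) (b : Bool) :
    updJ ρ x J a (i, v, b) = ρ (i, v, b) :=
  updJ_out (fun e => h1 (by rw [← e])) (fun e => h2 _ e rfl)

omit [Fintype X] in
lemma updJ_sat (hx : ρ x = none) (hJ : ∀ y ∈ J, ρ y = none) {i : X} {v : Fin B}
    (h : sat ρ i v) : sat (updJ ρ x J a) i v := by
  obtain ⟨b, hb⟩ := h
  exact ⟨b, by rw [updJ_ne hx hJ (by rw [hb]; simp)]; exact hb⟩

omit [Fintype X] in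
lemma updJ_dead (hx : ρ x = none) (hJ : ∀ y ∈ J, ρ y = none) {i : X} {v : Fin B}
    (h : dead ρ i v) : dead (updJ ρ x J a) i v := by
  intro b
  rw [updJ_ne hx hJ (by rw [h b]; simp)]
  exact h b

omit [Fintype X] in
lemma updJ_bdead (hx : ρ x = none) (hJ : ∀ y ∈ J, ρ y = none) {i : X}
    (h : bdead ρ i) : bdead (updJ ρ x J a) i := by
  obtain ⟨v, hv⟩ := h
  exact ⟨v, updJ_dead hx hJ hv⟩

omit [Fintype X] in
lemma updJ_full (hx : ρ x = none) (hJ : ∀ y ∈ J, ρ y = none) {i : X}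
    (h : full ρ i) : full (updJ ρ x J a) i := fun v => updJ_sat hx hJ (h v)

omit [Fintype X] in
lemma upd_eq_updJ : upd ρ x a = updJ ρ x ∅ a := by
  funext y
  unfold updJ
  by_cases h : y = x
  · subst h; rw [upd_self, if_pos rfl]
  · rw [upd_other h, if_neg h]; simp

end updJ

/-! ### the minimal true sets -/

open Classical in
/-- one unassigned variable from each unsatisfied pair of the blocks of `σ` -/
noncomputable def Iset {B : ℕ} (c : ι → Finset X) (ρ : Var X B → Option Bool) (σ : ι)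
    (ch : X → Fin B → Bool) : Finset (Var X B) :=
  Finset.univ.filter (fun y => y.1 ∈ c σ ∧ ¬ sat ρ y.1 y.2.1 ∧ ρ y = none ∧
    (fresh ρ y.1 y.2.1 → y.2.2 = ch y.1 y.2.1))

lemma mem_Iset {B : ℕ} {c : ι → Finset X} {ρ : Var X B → Option Bool} {σ : ι}
    {ch : X → Fin B → Bool} {y : Var X B} : y ∈ Iset c ρ σ ch ↔ y.1 ∈ c σ ∧
    ¬ sat ρ y.1 y.2.1 ∧ ρ y = none ∧ (fresh ρ y.1 y.2.1 → y.2.2 = ch y.1 y.2.1) := by
  simp [Iset]

lemma Iset_exists {B : ℕ} {c : ι → Finset X} {ρ : Var X B → Option Bool} {σ : ι}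
    {ch : X → Fin B → Bool} (hal : alive c ρ σ) {i : X} (hi : i ∈ c σ) {v : Fin B}
    (hs : ¬ sat ρ i v) : ∃ b, ((i, v, b) : Var X B) ∈ Iset c ρ σ ch := by
  have hd : ¬ dead ρ i v := fun h => hal i hi ⟨v, h⟩
  by_cases hf : fresh ρ i v
  · exact ⟨ch i v, mem_Iset.2 ⟨hi, hs, hf _, fun _ => rfl⟩⟩
  · obtain ⟨b, hb⟩ := exists_none hs hd
    exact ⟨b, mem_Iset.2 ⟨hi, hs, hb, fun h => absurd h hf⟩⟩

lemma Iset_unique {B : ℕ} {c : ι → Finset X} {ρ : Var X B → Option Bool} {σ : ι}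
    {ch : X → Fin B → Bool} {i : X} {v : Fin B} {b b' : Bool}
    (h : ((i, v, b) : Var X B) ∈ Iset c ρ σ ch) (h' : ((i, v, b') : Var X B) ∈ Iset c ρ σ ch) :
    b = b' := by
  rw [mem_Iset] at h h'
  by_cases hf : fresh ρ i v
  · exact (h.2.2.2 hf).trans (h'.2.2.2 hf).symm
  · by_contra hne
    have h1 := other_false h.2.1 h.2.2.1 hf
    have h2 : b' = !b := by cases b' <;> cases b <;> simp_all
    rw [← h2] at h1
    have h3 : ρ (i, v, b') = none := h'.2.2.1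
    rw [h1] at h3
    simp at h3

lemma Iset_true {B : ℕ} {c : ι → Finset X} {ρ : Var X B → Option Bool} {σ : ι}
    {ch : X → Fin B → Bool} (hal : alive c ρ σ) : phi c ρ (Iset c ρ σ ch) := by
  refine ⟨σ, fun i hi v => ?_⟩
  by_cases hs : sat ρ i v
  · obtain ⟨b, hb⟩ := hs
    exact ⟨b, Or.inl hb⟩
  · obtain ⟨b, hb⟩ := Iset_exists (ch := ch) hal hi hs
    exact ⟨b, Or.inr ⟨(mem_Iset.1 hb).2.2.1, hb⟩⟩

lemma Iset_min {B : ℕ} {c : ι → Finset X} {ρ : Var X B → Option Bool} {σ : ι}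
    {ch : X → Fin B → Bool} (hal : alive c ρ σ)
    (hesc : ∀ σ', σ' ≠ σ → alive c ρ σ' → ∃ j ∈ c σ', ¬ full ρ j ∧ j ∉ c σ) :
    Minimal (phi c ρ) (Iset c ρ σ ch) := by
  refine ⟨Iset_true hal, ?_⟩
  rintro T ⟨σ', hσ'⟩ hTI
  have hal' := phi_alive hσ'
  by_cases hne : σ' = σ
  · subst hne
    intro y hy
    obtain ⟨i, v, b⟩ := y
    have hy' := mem_Iset.1 hy
    obtain ⟨b', hb'⟩ := hσ' i hy'.1 v
    rcases hb' with hb' | ⟨_, hb'⟩
    · exact absurd ⟨b', hb'⟩ hy'.2.1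
    · have := Iset_unique hy (hTI hb')
      rw [this]
      exact hb'
  · exfalso
    obtain ⟨j, hj, hjf, hjc⟩ := hesc σ' hne hal'
    unfold full at hjf
    push Not at hjf
    obtain ⟨v, hv⟩ := hjf
    obtain ⟨b', hb'⟩ := hσ' j hj v
    rcases hb' with hb' | ⟨_, hb'⟩
    · exact hv ⟨b', hb'⟩
    · exact hjc (mem_Iset.1 (hTI hb')).1

/-! ### the state of the adversary -/

structure St {B : ℕ} (D : Design X ι w t0 b0 L lam0 lam1 dmin) (ρ : Var X B → Option Bool)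
    (v : List X) (O Z : Finset X) (cb : Finset ι) (u : ℕ) : Prop where
  valid : Valid D.R v
  vO : ∀ i ∈ v, i ∈ O
  Osub : ∀ i ∈ O, i ∈ v ∨ ∃ σ ∈ cb, i ∈ D.c σ
  cbZ : ∀ σ ∈ cb, ∃ i ∈ D.c σ, i ∈ Z
  OZ : ∀ i ∈ O, i ∉ Z
  Olive : ∀ i ∈ O, ¬ bdead ρ i
  Zst : ∀ i ∈ Z, bdead ρ i ∨ ∃ v0 b0, ρ (i, v0, b0) = none ∧ ρ (i, v0, !b0) = some false ∧
    ∀ v', v' ≠ v0 → sat ρ i v'
  C1 : ∀ i ∈ O, ¬ full ρ i → ∀ σ, alive D.c ρ σ → i ∈ D.c σ
  C2 : ∀ i ∈ Z, ¬ bdead ρ i → ∃ σ, i ∈ D.c σ ∧ ∀ j ∈ D.c σ, j ≠ i → full ρ j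
  Zcard : Z.card ≤ cb.card
  cnt : v.length + cb.card + u ≤ w

open Classical in
noncomputable def On (D : Design X ι w t0 b0 L lam0 lam1 dmin) (v : List X) (O Z : Finset X) :
    Finset X := Finset.univ.filter (fun i => i ∉ O ∧ i ∉ Z ∧ i ∉ Off D.R v)

lemma mem_On {D : Design X ι w t0 b0 L lam0 lam1 dmin} {v : List X} {O Z : Finset X} {i : X} :
    i ∈ On D v O Z ↔ i ∉ O ∧ i ∉ Z ∧ i ∉ Off D.R v := by
  simp [On]

section state
variable {B : ℕ} {D : Design X ι w t0 b0 L lam0 lam1 dmin} {ρ : Var X B → Option Bool}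
  {v : List X} {O Z : Finset X} {cb : Finset ι} {u : ℕ}

lemma St.not_cb (h : St D ρ v O Z cb u) {σ : ι} (hσ : Disjoint (D.c σ) Z) : σ ∉ cb := by
  intro hc
  obtain ⟨i, hi, hiZ⟩ := h.cbZ σ hc
  exact Finset.disjoint_left.1 hσ hi hiZ

lemma St.card_O (h : St D ρ v O Z cb u) {σ : ι} (hσ : σ ∉ cb) :
    (D.c σ ∩ O).card ≤ w * (L + 1) := by
  classical
  have h1 : D.c σ ∩ O ⊆ v.toFinset ∪ cb.biUnion (fun σ' => D.c σ ∩ D.c σ') := by
    intro i hi
    rw [Finset.mem_inter] at hi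
    rw [Finset.mem_union, List.mem_toFinset, Finset.mem_biUnion]
    rcases h.Osub i hi.2 with h1 | ⟨σ', hσ', hi'⟩
    · exact Or.inl h1
    · exact Or.inr ⟨σ', hσ', Finset.mem_inter.2 ⟨hi.1, hi'⟩⟩
  have h2 : (cb.biUnion (fun σ' => D.c σ ∩ D.c σ')).card ≤ cb.card * L := by
    apply Finset.card_biUnion_le_card_mul
    intro σ' hσ'
    apply D.pair
    rintro rfl
    exact hσ hσ'
  have h3 := List.toFinset_card_le v
  have h4 := Finset.card_le_card h1
  have h5 := Finset.card_union_le v.toFinset (cb.biUnion (fun σ' => D.c σ ∩ D.c σ'))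
  have h6 := h.cnt
  have h7 : cb.card * L ≤ w * L := Nat.mul_le_mul_right _ (by omega)
  have h8 : w * (L + 1) = w * L + w := by ring
  omega

/-- every other alive codeword has an undetermined block outside `c σ` -/
lemma St.escape (h : St D ρ v O Z cb u) (hN : ∀ i ∈ On D v O Z, ¬ full ρ i)
    (hd : L + w * (L + 1) + lam1 < dmin) {σ : ι} (hσ : Disjoint (D.c σ) Z) :
    ∀ σ', σ' ≠ σ → alive D.c ρ σ' → ∃ j ∈ D.c σ', ¬ full ρ j ∧ j ∉ D.c σ := by
  classical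
  intro σ' hne hal
  by_contra hcon
  push Not at hcon
  have hZ : Disjoint (D.c σ') Z := by
    rw [Finset.disjoint_left]
    intro i hi hiZ
    have h1 : ¬ full ρ i := by
      rcases h.Zst i hiZ with h2 | ⟨v0, b0, h2, h3, -⟩
      · exact absurd h2 (hal i hi)
      · intro hf
        obtain ⟨b, hb⟩ := hf v0
        by_cases hbb : b = b0
        · subst hbb; rw [h2] at hb; simp at hb
        · have : b = !b0 := by cases b <;> cases b0 <;> simp_all
          rw [this, h3] at hb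
          simp at hb
    exact Finset.disjoint_left.1 hσ (hcon i hi h1) hiZ
  have h1 : D.c σ' ⊆ (D.c σ' ∩ D.c σ) ∪ ((D.c σ' ∩ O) ∪ (D.c σ' ∩ Off D.R v)) := by
    intro i hi
    rw [Finset.mem_union, Finset.mem_union, Finset.mem_inter, Finset.mem_inter, Finset.mem_inter]
    by_cases hO : i ∈ O
    · exact Or.inr (Or.inl ⟨hi, hO⟩)
    by_cases hOff : i ∈ Off D.R v
    · exact Or.inr (Or.inr ⟨hi, hOff⟩)
    · have hon : i ∈ On D v O Z := mem_On.2 ⟨hO, Finset.disjoint_left.1 hZ hi, hOff⟩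
      exact Or.inl ⟨hi, hcon i hi (hN i hon)⟩
  have h2 := Finset.card_le_card h1
  have h3 := Finset.card_union_le (D.c σ' ∩ D.c σ) ((D.c σ' ∩ O) ∪ (D.c σ' ∩ Off D.R v))
  have h4 := Finset.card_union_le (D.c σ' ∩ O) (D.c σ' ∩ Off D.R v)
  have h5 := D.pair σ' σ hne
  have h6 := h.card_O (h.not_cb hZ)
  have h7 := D.off_up v σ' (by have := h.cnt; omega)
  have h9 := D.size σ'
  omega

open Classical in
/-- heavy blocks -/
noncomputable def Hv {β : ℕ} (D : Design X ι w t0 b0 L lam0 lam1 dmin)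
    (ρ : Var X (2 * β) → Option Bool) (v : List X) (O Z : Finset X) : Finset X :=
  (On D v O Z).filter (fun i => bdead ρ i ∨ fr ρ i < β)

end state

section moves
variable {β : ℕ} {D : Design X ι w t0 b0 L lam0 lam1 dmin} {ρ : Var X (2 * β) → Option Bool}
  {v : List X} {O Z : Finset X} {cb : Finset ι} {u H0 : ℕ}

/-- a codeword through `i0` and the node `v` all of whose other blocks are light or in `O` -/
lemma St.good1 (h : St D ρ v O Z cb (u + 1)) (hH : (Hv D ρ v O Z).card ≤ H0)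
    (hb0 : H0 + w + 1 ≤ b0) {i0 : X} (hi0 : i0 ∈ On D v O Z) (hd0 : ¬ bdead ρ i0) :
    ∃ σ, (i0 :: v) <:+ D.path σ ∧ i0 ∈ D.c σ ∧ alive D.c ρ σ ∧ Disjoint (D.c σ) Z ∧
      Disjoint (D.c σ) (Off D.R (i0 :: v)) ∧
      ∀ j ∈ D.c σ, j ≠ i0 → j ∉ Hv D ρ v O Z := by
  classical
  have hi0' := mem_On.1 hi0
  have hval : Valid D.R (i0 :: v) := ⟨hi0'.2.2, h.valid⟩
  have hlen : (i0 :: v).length ≤ w := by
    rw [List.length_cons]; have := h.cnt; omega
  have hJb : ((Hv D ρ v O Z).erase i0 ∪ Z).card ≤ b0 := by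
    have h1 := Finset.card_union_le ((Hv D ρ v O Z).erase i0) Z
    have h2 := Finset.card_le_card (Finset.erase_subset i0 (Hv D ρ v O Z))
    have h3 := h.Zcard
    have h4 := h.cnt
    omega
  obtain ⟨σ, h1, -, h2⟩ := D.ext (i0 :: v) hval hlen [] ∅ _ (Finset.empty_subset _)
    (by simp) hJb (by
      intro i hi
      refine ⟨by simp, ?_⟩
      rw [Finset.mem_union, Finset.mem_erase]
      rintro (h3 | h3)
      · rw [List.mem_cons] at hi
        have h4 := hi.resolve_left h3.1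
        rw [Hv, Finset.mem_filter, mem_On] at h3
        exact h3.2.1.1 (h.vO i h4)
      · rw [List.mem_cons] at hi
        rcases hi with rfl | hi
        · exact hi0'.2.1 h3
        · exact h.OZ i (h.vO i hi) h3)
  have hZ : Disjoint (D.c σ) Z := Finset.disjoint_of_subset_right Finset.subset_union_right h2
  have hOff := D.disj σ _ h1
  have hHv : ∀ j ∈ D.c σ, j ≠ i0 → j ∉ Hv D ρ v O Z := by
    intro j hj hne hjH
    exact Finset.disjoint_left.1 h2 hj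
      (Finset.mem_union_left _ (Finset.mem_erase.2 ⟨hne, hjH⟩))
  refine ⟨σ, h1, D.mem_path σ i0 (h1.subset (by simp)), ?_, hZ, hOff, hHv⟩
  intro j hj hdj
  by_cases hj0 : j = i0
  · exact hd0 (hj0 ▸ hdj)
  by_cases hO : j ∈ O
  · exact h.Olive j hO hdj
  · apply hHv j hj hj0
    rw [Hv, Finset.mem_filter, mem_On]
    refine ⟨⟨hO, Finset.disjoint_left.1 hZ hj, ?_⟩, Or.inl hdj⟩
    intro hj'
    refine Finset.disjoint_left.1 hOff hj ?_
    rw [Off]
    exact Finset.mem_union_right _ hj'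

/-- a codeword through the node `v`, avoiding a small part of a box and `i0` -/
lemma St.good2 (h : St D ρ v O Z cb u) (hH : (Hv D ρ v O Z).card ≤ H0)
    (hb0 : H0 + w + 1 ≤ b0) {K : Finset X} (hK : K.card ≤ 1) (hKO : ∀ i ∈ K, i ∉ O)
    {τ : List X} {Ja : Finset X} (hJa : Ja ⊆ D.R τ) (hJa' : Ja.card ≤ t0)
    (hJaO : ∀ i ∈ Ja, i ∉ O) :
    ∃ σ, v <:+ D.path σ ∧ alive D.c ρ σ ∧ Disjoint (D.c σ) Z ∧ Disjoint (D.c σ) Ja ∧
      Disjoint (D.c σ) K ∧ Disjoint (D.c σ) (Off D.R v) ∧ ∀ j ∈ D.c σ, j ∉ Hv D ρ v O Z := by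
  classical
  have hlen : v.length ≤ w := by have := h.cnt; omega
  have hJb : (Hv D ρ v O Z ∪ Z ∪ K).card ≤ b0 := by
    have h1 := Finset.card_union_le (Hv D ρ v O Z ∪ Z) K
    have h2 := Finset.card_union_le (Hv D ρ v O Z) Z
    have h3 := h.Zcard
    have h4 := h.cnt
    omega
  obtain ⟨σ, h1, h3, h2⟩ := D.ext v h.valid hlen τ Ja _ hJa hJa' hJb (by
      intro i hi
      have hiO := h.vO i hi
      refine ⟨fun hi' => hJaO i hi' hiO, ?_⟩
      rw [Finset.mem_union, Finset.mem_union]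
      rintro ((h3 | h3) | h3)
      · rw [Hv, Finset.mem_filter, mem_On] at h3
        exact h3.1.1 hiO
      · exact h.OZ i hiO h3
      · exact hKO i h3 hiO)
  have hHZ : Disjoint (D.c σ) (Hv D ρ v O Z ∪ Z) :=
    Finset.disjoint_of_subset_right Finset.subset_union_left h2
  have hZ : Disjoint (D.c σ) Z := Finset.disjoint_of_subset_right Finset.subset_union_right hHZ
  have hOff := D.disj σ _ h1
  have hHv : ∀ j ∈ D.c σ, j ∉ Hv D ρ v O Z := by
    intro j hj hjH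
    exact Finset.disjoint_left.1 hHZ hj (Finset.mem_union_left _ hjH)
  refine ⟨σ, h1, ?_, hZ, h3, Finset.disjoint_of_subset_right Finset.subset_union_right h2,
    hOff, hHv⟩
  intro j hj hdj
  by_cases hO : j ∈ O
  · exact h.Olive j hO hdj
  · apply hHv j hj
    rw [Hv, Finset.mem_filter, mem_On]
    exact ⟨⟨hO, Finset.disjoint_left.1 hZ hj, Finset.disjoint_left.1 hOff hj⟩, Or.inl hdj⟩

end moves

end adv

end Pool.Agent.Helper64.Free
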