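import Mathlib
import Pool.Agent.Helper64.FreeAdv

set_option autoImplicit false

namespace Pool.Agent.Helper64.Free

section moves
variable {X ι : Type} [Fintype X] [DecidableEq X] {w t0 b0 L lam0 lam1 dmin : ℕ}
variable {β : ℕ} {D : Design X ι w t0 b0 L lam0 lam1 dmin} {ρ : Var X (2 * β) → Option Bool}
  {v : List X} {O Z : Finset X} {cb : Finset ι} {u H0 : ℕ}

omit [Fintype X] [DecidableEq X] in
lemma bool_not {b c : Bool} (h : ¬ b = c) : b = !c := by
  cases b <;> cases c <;> first | rfl | exact absurd rfl h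

open Classical in
/-- the transversal given by a set `J0` of blocks and a choice `ψ` of pairs in these blocks -/
noncomputable def Jset {B : ℕ} (ρ : Var X B → Option Bool) (J0 Z : Finset X) (ψ : X → Fin B) :
    Finset (Var X B) :=
  Finset.univ.filter (fun y => ρ y = none ∧ ((y.1 ∈ J0 ∧ y.2.1 = ψ y.1) ∨
    (y.1 ∈ Z ∧ ¬ bdead ρ y.1 ∧ ¬ sat ρ y.1 y.2.1)))

lemma mem_Jset {B : ℕ} {ρ : Var X B → Option Bool} {J0 Z : Finset X} {ψ : X → Fin B}
    {y : Var X B} : y ∈ Jset ρ J0 Z ψ ↔ ρ y = none ∧ ((y.1 ∈ J0 ∧ y.2.1 = ψ y.1) ∨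
    (y.1 ∈ Z ∧ ¬ bdead ρ y.1 ∧ ¬ sat ρ y.1 y.2.1)) := by
  simp [Jset]

/-- the minimal hitting set of blocks -/
lemma St.hitset (h : St D ρ v O Z cb (u + 1))
    (hH : (Hv D ρ v O Z).card ≤ H0) (hb0 : H0 + w + 1 ≤ b0) (hlam : w * (L + 1) < lam0)
    {i0 : X} (hi0 : i0 ∈ On D v O Z) (hd0 : ¬ bdead ρ i0) :
    ∃ J0 : Finset X, i0 ∈ J0 ∧ (∀ j ∈ J0, j ≠ i0 → j ∈ D.R (i0 :: v)) ∧
      (∀ j ∈ J0, j ∈ On D v O Z ∧ ¬ bdead ρ j) ∧
      (∀ σ, alive D.c ρ σ → Disjoint (D.c σ) Z → ∃ j ∈ J0, j ∈ D.c σ) ∧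
      (∀ j ∈ J0, ∃ σ, alive D.c ρ σ ∧ Disjoint (D.c σ) Z ∧ j ∈ D.c σ ∧
        ∀ j' ∈ J0, j' ∈ D.c σ → j' = j) ∧ t0 < (J0.erase i0).card := by
  classical
  set P : Finset X → Prop := fun T => ∀ σ, alive D.c ρ σ → Disjoint (D.c σ) Z →
    ∃ j ∈ T, j ∈ D.c σ with hP
  set Y0 : Finset X := insert i0 ((D.R (i0 :: v) ∩ On D v O Z).filter (fun j => ¬ bdead ρ j))
    with hY0
  have hi0' := mem_On.1 hi0
  have hval : Valid D.R (i0 :: v) := ⟨hi0'.2.2, h.valid⟩
  have hlen : (i0 :: v).length ≤ w := by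
    rw [List.length_cons]; have := h.cnt; omega
  have hY : P Y0 := by
    intro σ hal hZ
    by_cases hic : i0 ∈ D.c σ
    · exact ⟨i0, Finset.mem_insert_self _ _, hic⟩
    · have hnp : ¬ (i0 :: v) <:+ D.path σ := by
        intro hp
        exact hic (D.mem_path σ i0 (hp.subset (by simp)))
      have h1 := D.hit i0 v σ hval hlen hnp
      have h2 := h.card_O (h.not_cb hZ)
      have h3 : ∃ j ∈ (D.c σ ∩ D.R (i0 :: v)) \ Off D.R v, j ∉ O := by
        by_contra hcon
        push Not at hcon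
        have h4 : (D.c σ ∩ D.R (i0 :: v)) \ Off D.R v ⊆ D.c σ ∩ O := by
          intro j hj
          refine Finset.mem_inter.2 ⟨?_, hcon j hj⟩
          rw [Finset.mem_sdiff, Finset.mem_inter] at hj
          exact hj.1.1
        have h5 := Finset.card_le_card h4
        omega
      obtain ⟨j, hj, hjO⟩ := h3
      rw [Finset.mem_sdiff, Finset.mem_inter] at hj
      refine ⟨j, ?_, hj.1.1⟩
      rw [hY0, Finset.mem_insert, Finset.mem_filter, Finset.mem_inter, mem_On]
      exact Or.inr ⟨⟨hj.1.2, hjO, Finset.disjoint_left.1 hZ hj.1.1, hj.2⟩, hal j hj.1.1⟩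
  obtain ⟨J0, hJY, hJP, hJmin⟩ := exists_minimal_sub hY
  have hi0J : i0 ∈ J0 := by
    obtain ⟨σ, -, h1, h2, h3, h4, -⟩ := h.good1 hH hb0 hi0 hd0
    obtain ⟨j, hj, hjc⟩ := hJP σ h2 h3
    have hjY := hJY hj
    rw [hY0, Finset.mem_insert, Finset.mem_filter, Finset.mem_inter] at hjY
    rcases hjY with rfl | hjY
    · exact hj
    · exfalso
      refine Finset.disjoint_left.1 h4 hjc ?_
      rw [Off]
      exact Finset.mem_union_left _ hjY.1.1
  have hR : ∀ j ∈ J0, j ≠ i0 → j ∈ D.R (i0 :: v) := by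
    intro j hj hne
    have hjY := hJY hj
    rw [hY0, Finset.mem_insert, Finset.mem_filter, Finset.mem_inter] at hjY
    exact (hjY.resolve_left hne).1.1
  have hOnJ : ∀ j ∈ J0, j ∈ On D v O Z ∧ ¬ bdead ρ j := by
    intro j hj
    have hjY := hJY hj
    rw [hY0, Finset.mem_insert, Finset.mem_filter, Finset.mem_inter] at hjY
    rcases hjY with rfl | hjY
    · exact ⟨hi0, hd0⟩
    · exact ⟨hjY.1.2, hjY.2⟩
  refine ⟨J0, hi0J, hR, hOnJ, hJP, ?_, ?_⟩
  · intro j hj
    have h1 : ¬ P (J0.erase j) := by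
      intro hPj
      have := hJmin hPj (Finset.erase_subset _ _) hj
      exact Finset.notMem_erase _ _ this
    rw [hP] at h1
    push Not at h1
    obtain ⟨σ, h2, h3, h4⟩ := h1
    obtain ⟨j', hj', hjc'⟩ := hJP σ h2 h3
    have key : ∀ j'' ∈ J0, j'' ∈ D.c σ → j'' = j := by
      intro j'' hj'' hjc''
      by_contra hne
      exact h4 j'' (Finset.mem_erase.2 ⟨hne, hj''⟩) hjc''
    refine ⟨σ, h2, h3, ?_, key⟩
    rw [← key j' hj' hjc']
    exact hjc'
  · by_contra hcon
    push Not at hcon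
    obtain ⟨σ, -, h1, h2, h3, h4, -, -⟩ := h.good2 hH hb0 (K := {i0}) (by simp)
      (by intro i hi; rw [Finset.mem_singleton] at hi; rw [hi]; exact hi0'.1)
      (τ := i0 :: v) (Ja := J0.erase i0)
      (by
        intro j hj
        rw [Finset.mem_erase] at hj
        exact hR j hj.2 hj.1) hcon
      (by
        intro j hj
        rw [Finset.mem_erase] at hj
        exact (mem_On.1 (hOnJ j hj.2).1).1)
    obtain ⟨j, hj, hjc⟩ := hJP σ h1 h2
    by_cases hji : j = i0
    · subst hji
      exact Finset.disjoint_left.1 h4 hjc (Finset.mem_singleton_self _)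
    · exact Finset.disjoint_left.1 h3 hjc (Finset.mem_erase.2 ⟨hji, hj⟩)

/-- `Jset` is a minimal transversal -/
lemma Jset_min (h : St D ρ v O Z cb u) {J0 : Finset X} {ψ : X → Fin (2 * β)}
    (hOn : ∀ j ∈ J0, j ∈ On D v O Z ∧ ¬ bdead ρ j)
    (hhit : ∀ σ, alive D.c ρ σ → Disjoint (D.c σ) Z → ∃ j ∈ J0, j ∈ D.c σ)
    (hpriv : ∀ j ∈ J0, ∃ σ, alive D.c ρ σ ∧ Disjoint (D.c σ) Z ∧ j ∈ D.c σ ∧
        ∀ j' ∈ J0, j' ∈ D.c σ → j' = j)
    (hψ : ∀ j ∈ J0, ¬ sat ρ j (ψ j)) : Minimal (Dual (phi D.c ρ)) (Jset ρ J0 Z ψ) := by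
  classical
  constructor
  · rintro S ⟨σ, hσ⟩
    have hal := phi_alive hσ
    by_cases hZ : Disjoint (D.c σ) Z
    · obtain ⟨j, hj, hjc⟩ := hhit σ hal hZ
      obtain ⟨b, hb⟩ := hσ j hjc (ψ j)
      rcases hb with hb | ⟨hb, hbS⟩
      · exact absurd ⟨b, hb⟩ (hψ j hj)
      · exact ⟨_, Finset.mem_inter.2 ⟨hbS, mem_Jset.2 ⟨hb, Or.inl ⟨hj, rfl⟩⟩⟩⟩
    · rw [Finset.not_disjoint_iff] at hZ
      obtain ⟨i, hic, hiZ⟩ := hZ
      have hnd := hal i hic
      obtain ⟨v0, b1, h1, h2, h3⟩ := (h.Zst i hiZ).resolve_left hnd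
      have hns : ¬ sat ρ i v0 := by
        rintro ⟨b, hb⟩
        by_cases hbb : b = b1
        · subst hbb; rw [h1] at hb; simp at hb
        · rw [bool_not hbb, h2] at hb
          simp at hb
      obtain ⟨b, hb⟩ := hσ i hic v0
      rcases hb with hb | ⟨hb, hbS⟩
      · exact absurd ⟨b, hb⟩ hns
      · exact ⟨_, Finset.mem_inter.2 ⟨hbS, mem_Jset.2 ⟨hb, Or.inr ⟨hiZ, hnd, hns⟩⟩⟩⟩
  · intro T hT hTJ y hy
    have key : ∃ S, phi D.c ρ S ∧ ∀ z ∈ S, z ∈ Jset ρ J0 Z ψ → z = y := by
      have hy' := mem_Jset.1 hy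
      rcases hy'.2 with ⟨hyJ, hyψ⟩ | ⟨hyZ, hyd, hys⟩
      · obtain ⟨σ, h1, h2, h3, h4⟩ := hpriv y.1 hyJ
        refine ⟨Iset D.c ρ σ (fun _ _ => y.2.2), Iset_true h1, ?_⟩
        intro z hz hzJ
        have hzc := (mem_Iset.1 hz).1
        have hz' := mem_Jset.1 hzJ
        rcases hz'.2 with ⟨h5, h6⟩ | ⟨h5, -, -⟩
        · have h7 := h4 z.1 h5 hzc
          have h8 : z.2.1 = y.2.1 := by rw [h6, hyψ, h7]
          have hyI : y ∈ Iset D.c ρ σ (fun _ _ => y.2.2) := by
            rw [mem_Iset]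
            refine ⟨h3, ?_, hy'.1, fun _ => rfl⟩
            rw [hyψ]
            exact hψ y.1 hyJ
          obtain ⟨z1, z2, z3⟩ := z
          obtain ⟨y1, y2, y3⟩ := y
          simp only at h7 h8
          subst h7 h8
          have := Iset_unique hz hyI
          rw [this]
        · exact absurd h5 (Finset.disjoint_left.1 h2 hzc)
      · obtain ⟨σ, h1, h2⟩ := h.C2 y.1 hyZ hyd
        obtain ⟨v0, b1, h3, h4, h5⟩ := (h.Zst y.1 hyZ).resolve_left hyd
        have hv0 : y.2.1 = v0 := by
          by_contra hne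
          exact hys (h5 _ hne)
        refine ⟨{y}, ⟨σ, ?_⟩, ?_⟩
        · intro j hj v'
          by_cases hjy : j = y.1
          · by_cases hv' : v' = v0
            · refine ⟨y.2.2, Or.inr ?_⟩
              have : ((j, v', y.2.2) : Var X (2 * β)) = y := by
                rw [hjy, hv', ← hv0]
              rw [this]
              exact ⟨hy'.1, Finset.mem_singleton_self _⟩
            · obtain ⟨b, hb⟩ := h5 v' hv'
              rw [← hjy] at hb
              exact ⟨b, Or.inl hb⟩
          · obtain ⟨b, hb⟩ := h2 j hj hjy v'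
            exact ⟨b, Or.inl hb⟩
        · intro z hz _
          exact Finset.mem_singleton.1 hz
    obtain ⟨S, hS, hSy⟩ := key
    obtain ⟨z, hz⟩ := hT S hS
    rw [Finset.mem_inter] at hz
    have := hSy z hz.1 (hTJ hz.2)
    rw [← this]
    exact hz.2

/-- the expansion at `x` along the minimal transversals -/
lemma St.moveA (h : St D ρ v O Z cb (u + 1)) (hN : ∀ i ∈ On D v O Z, ¬ full ρ i)
    (hH : (Hv D ρ v O Z).card ≤ H0) (hb0 : H0 + w + 1 ≤ b0)
    (hlam : w * (L + 1) < lam0) {μ : ℕ} (hμ : 2 ^ μ ≤ β ^ (t0 - H0)) (hβ : 1 ≤ β)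
    {x : Var X (2 * β)} (hxO : x.1 ∈ On D v O Z) (hx : ρ x = none) (hxs : ¬ sat ρ x.1 x.2.1)
    (hxd : ¬ bdead ρ x.1) :
    ∃ E : Finset (Finset (Var X (2 * β))), 2 ^ μ ≤ E.card ∧ ∀ J ∈ E,
      x ∉ J ∧ Minimal (Dual (phi D.c ρ)) (insert x J) ∧ (∀ y ∈ J, ρ y = none) ∧
      ∃ v' O', St D (updJ ρ x J true) v' O' Z cb u ∧ On D v' O' Z ⊆ On D v O Z ∧
        ∀ j ∈ On D v' O' Z, wt (updJ ρ x J true) j = wt ρ j := by
  classical
  obtain ⟨J0, hi0J, hR, hOnJ, hhit, hpriv, hcard⟩ := h.hitset hH hb0 hlam hxO hxd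
  have hdf : ∀ j : X, ∃ v' : Fin (2 * β), (j = x.1 → v' = x.2.1) ∧ (j ∈ J0 → ¬ sat ρ j v') := by
    intro j
    by_cases hj0 : j = x.1
    · exact ⟨x.2.1, fun _ => rfl, fun _ => by rw [hj0]; exact hxs⟩
    · by_cases hj : j ∈ J0
      · have := hN j (hOnJ j hj).1
        unfold full at this
        push Not at this
        obtain ⟨v', hv'⟩ := this
        exact ⟨v', fun e => absurd e hj0, fun _ => hv'⟩
      · exact ⟨x.2.1, fun e => absurd e hj0, fun e => absurd e hj⟩
  choose df hdf1 hdf2 using hdf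
  -- the allowed choices
  set S1 : Finset X := (J0.erase x.1) \ Hv D ρ v O Z with hS1
  set A : X → Finset (Fin (2 * β)) := fun j =>
    if j ∈ S1 then Finset.univ.filter (fun v' => fresh ρ j v') else {df j} with hA
  have hA1 : ∀ j ∈ J0, ∀ v' ∈ A j, ¬ sat ρ j v' := by
    intro j hj v' hv'
    simp only [hA] at hv'
    split_ifs at hv' with h1
    · rw [Finset.mem_filter] at hv'
      exact fresh_not_sat hv'.2
    · rw [Finset.mem_singleton] at hv'
      rw [hv']
      exact hdf2 j hj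
  have hA0 : ∀ v' ∈ A x.1, v' = x.2.1 := by
    intro v' hv'
    simp only [hA] at hv'
    rw [if_neg (by rw [hS1, Finset.mem_sdiff, Finset.mem_erase]; tauto),
      Finset.mem_singleton] at hv'
    rw [hv']
    exact hdf1 _ rfl
  have hAcard : ∀ j ∈ S1, β ≤ (A j).card := by
    intro j hj
    have h1 : A j = Finset.univ.filter (fun v' => fresh ρ j v') := by
      simp only [hA]
      rw [if_pos hj]
    rw [h1]
    rw [hS1, Finset.mem_sdiff, Finset.mem_erase] at hj
    have hon := (hOnJ j hj.1.2).1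
    have h2 := hj.2
    rw [Hv, Finset.mem_filter] at h2
    by_contra hcon
    apply h2
    refine ⟨hon, Or.inr ?_⟩
    unfold fr
    omega
  have hAcard1 : ∀ j, 1 ≤ (A j).card := by
    intro j
    by_cases hj : j ∈ S1
    · exact hβ.trans (hAcard j hj)
    · simp only [hA]
      rw [if_neg hj]
      simp
  have hcount : 2 ^ μ ≤ (Fintype.piFinset A).card := by
    rw [Fintype.card_piFinset]
    have h1 : t0 - H0 ≤ S1.card := by
      have h2 : (J0.erase x.1).card ≤ S1.card + (Hv D ρ v O Z).card := by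
        have := Finset.card_le_card_sdiff_add_card (s := J0.erase x.1) (t := Hv D ρ v O Z)
        rw [hS1]
        omega
      omega
    calc 2 ^ μ ≤ β ^ (t0 - H0) := hμ
      _ ≤ β ^ S1.card := Nat.pow_le_pow_right hβ h1
      _ = ∏ _j ∈ S1, β := by rw [Finset.prod_const]
      _ ≤ ∏ j ∈ S1, (A j).card := Finset.prod_le_prod' hAcard
      _ ≤ ∏ j, (A j).card := by
          apply Finset.prod_le_univ_prod_of_one_le'
          exact hAcard1
  refine ⟨(Fintype.piFinset A).image (fun ψ => (Jset ρ J0 Z ψ).erase x), ?_, ?_⟩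
  · rw [Finset.card_image_of_injOn]
    · exact hcount
    · intro ψ hψ ψ' hψ' he
      rw [Finset.mem_coe, Fintype.mem_piFinset] at hψ hψ'
      simp only at he
      funext j
      by_cases hj : j ∈ S1
      · have hj' := hj
        rw [hS1, Finset.mem_sdiff, Finset.mem_erase] at hj'
        have hns := hA1 j hj'.1.2 _ (hψ j)
        have hnd : ¬ dead ρ j (ψ j) := fun e => (hOnJ j hj'.1.2).2 ⟨_, e⟩
        obtain ⟨b, hb⟩ := exists_none hns hnd
        have h1 : ((j, ψ j, b) : Var X (2 * β)) ∈ (Jset ρ J0 Z ψ).erase x := by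
          rw [Finset.mem_erase, mem_Jset]
          refine ⟨?_, hb, Or.inl ⟨hj'.1.2, rfl⟩⟩
          intro e
          exact hj'.1.1 (by rw [← e])
        rw [he, Finset.mem_erase, mem_Jset] at h1
        rcases h1.2.2 with ⟨-, h2⟩ | ⟨h2, -, -⟩
        · exact h2
        · exact absurd h2 (mem_On.1 (hOnJ j hj'.1.2).1).2.1
      · have h1 := hψ j
        have h2 := hψ' j
        simp only [hA] at h1 h2
        rw [if_neg hj, Finset.mem_singleton] at h1 h2
        rw [h1, h2]
  · intro J hJ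
    rw [Finset.mem_image] at hJ
    obtain ⟨ψ, hψ, rfl⟩ := hJ
    rw [Fintype.mem_piFinset] at hψ
    have hψ0 : ψ x.1 = x.2.1 := hA0 _ (hψ _)
    have hψs : ∀ j ∈ J0, ¬ sat ρ j (ψ j) := fun j hj => hA1 j hj _ (hψ j)
    have hxJ : x ∈ Jset ρ J0 Z ψ := by
      rw [mem_Jset]
      exact ⟨hx, Or.inl ⟨hi0J, hψ0.symm⟩⟩
    set J := (Jset ρ J0 Z ψ).erase x with hJdef
    have hJ0 : ∀ y ∈ J, ρ y = none := fun y hy => (mem_Jset.1 (Finset.mem_of_mem_erase hy)).1
    have hblock : ∀ j, j ∉ J0 → j ∉ Z → ∀ v' b, updJ ρ x J true (j, v', b) = ρ (j, v', b) := by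
      intro j hj hjZ v' b
      apply updJ_block
      · rintro rfl; exact hj hi0J
      · rintro y hy rfl
        rcases (mem_Jset.1 (Finset.mem_of_mem_erase hy)).2 with ⟨h1, -⟩ | ⟨h1, -, -⟩
        · exact hj h1
        · exact hjZ h1
    -- the blocks of `Z` are now dead
    have hZd : ∀ i ∈ Z, bdead (updJ ρ x J true) i := by
      intro i hi
      by_cases hd : bdead ρ i
      · exact updJ_bdead hx hJ0 hd
      · obtain ⟨v0, b1, h1, h2, h3⟩ := (h.Zst i hi).resolve_left hd
        refine ⟨v0, ?_⟩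
        intro b
        by_cases hbb : b = b1
        · subst hbb
          have hns : ¬ sat ρ i v0 := by
            rintro ⟨b', hb'⟩
            by_cases hbb' : b' = b
            · subst hbb'; rw [h1] at hb'; simp at hb'
            · rw [bool_not hbb', h2] at hb'
              simp at hb'
          have hne : ((i, v0, b) : Var X (2 * β)) ≠ x := by
            intro e
            have hi' : i = x.1 := by rw [← e]
            exact (mem_On.1 hxO).2.1 (hi' ▸ hi)
          rw [updJ_mem hne (Finset.mem_erase.2 ⟨hne, mem_Jset.2 ⟨h1, Or.inr ⟨hi, hd, hns⟩⟩⟩)]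
          rfl
        · rw [bool_not hbb, updJ_ne hx hJ0 (by rw [h2]; simp)]
          exact h2
    -- the blocks of `J0`, except for the block of `x`, are now dead
    have hJd : ∀ j ∈ J0, j ≠ x.1 → bdead (updJ ρ x J true) j := by
      intro j hj hne
      refine ⟨ψ j, ?_⟩
      intro b
      have hne' : ((j, ψ j, b) : Var X (2 * β)) ≠ x := by
        intro e
        exact hne (by rw [← e])
      cases hb : ρ (j, ψ j, b) with
      | none =>
        rw [updJ_mem hne' (Finset.mem_erase.2 ⟨hne', mem_Jset.2 ⟨hb, Or.inl ⟨hj, rfl⟩⟩⟩)]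
        rfl
      | some a =>
        cases a with
        | true => exact absurd ⟨b, hb⟩ (hψs j hj)
        | false =>
          rw [updJ_ne hx hJ0 (by rw [hb]; simp)]
          exact hb
    have hi0' := mem_On.1 hxO
    refine ⟨Finset.notMem_erase _ _, ?_, hJ0, x.1 :: v, insert x.1 O, ?_, ?_, ?_⟩
    · rw [hJdef, Finset.insert_erase hxJ]
      exact Jset_min h hOnJ hhit hpriv hψs
    · refine ⟨⟨hi0'.2.2, h.valid⟩, ?_, ?_, h.cbZ, ?_, ?_, ?_, ?_, ?_, h.Zcard, ?_⟩
      · intro i hi
        rw [List.mem_cons] at hi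
        rw [Finset.mem_insert]
        exact hi.imp id (h.vO i)
      · intro i hi
        rw [Finset.mem_insert] at hi
        rw [List.mem_cons]
        rcases hi with hi | hi
        · exact Or.inl (Or.inl hi)
        · rcases h.Osub i hi with h1 | h1
          · exact Or.inl (Or.inr h1)
          · exact Or.inr h1
      · intro i hi
        rw [Finset.mem_insert] at hi
        rcases hi with rfl | hi
        · exact hi0'.2.1
        · exact h.OZ i hi
      · intro i hi
        rw [Finset.mem_insert] at hi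
        rcases hi with rfl | hi
        · rintro ⟨v', hv'⟩
          by_cases hvv : v' = x.2.1
          · subst hvv
            have := hv' x.2.2
            have h2 : updJ ρ x J true (x.1, x.2.1, x.2.2) = some true := updJ_x
            rw [h2] at this
            simp at this
          · apply hxd
            refine ⟨v', ?_⟩
            intro b
            have h1 := hv' b
            rw [updJ_out] at h1
            · exact h1
            · intro e
              exact hvv (by rw [← e])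
            · intro e
              rcases (mem_Jset.1 (Finset.mem_of_mem_erase e)).2 with ⟨-, h2⟩ | ⟨h2, -, -⟩
              · simp only at h2
                rw [hψ0] at h2
                exact hvv h2
              · exact hi0'.2.1 h2
        · rw [bdead_congr (hblock i ?_ (h.OZ i hi))]
          · exact h.Olive i hi
          · intro e
            exact (mem_On.1 (hOnJ i e).1).1 hi
      · intro i hi
        exact Or.inl (hZd i hi)
      · intro i hi hnf σ hal
        have hal0 : alive D.c ρ σ := fun j hj hd => hal j hj (updJ_bdead hx hJ0 hd)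
        rw [Finset.mem_insert] at hi
        rcases hi with rfl | hi
        · have hZ : Disjoint (D.c σ) Z := by
            rw [Finset.disjoint_left]
            intro j hj hjZ
            exact hal j hj (hZd j hjZ)
          obtain ⟨j, hj, hjc⟩ := hhit σ hal0 hZ
          by_cases hne : j = x.1
          · rw [← hne]; exact hjc
          · exact absurd (hJd j hj hne) (hal j hjc)
        · apply h.C1 i hi _ σ hal0
          rw [← full_congr (hblock i ?_ (h.OZ i hi))]
          · exact hnf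
          · intro e
            exact (mem_On.1 (hOnJ i e).1).1 hi
      · intro i hi hnd
        exact absurd (hZd i hi) hnd
      · rw [List.length_cons]
        have := h.cnt
        omega
    · intro j hj
      rw [mem_On, Finset.mem_insert, Off, Finset.mem_union] at hj
      rw [mem_On]
      tauto
    · intro j hj
      rw [mem_On, Finset.mem_insert, Off, Finset.mem_union] at hj
      apply wt_congr
      apply hblock j
      · intro e
        by_cases hji : j = x.1
        · exact hj.1 (Or.inl hji)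
        · exact hj.2.2 (Or.inl (hR j e hji))
      · exact hj.2.1

end moves

end Pool.Agent.Helper64.Free
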