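import Mathlib
import Pool.Agent.Helper64.FreeAdv

set_option autoImplicit false

namespace Pool.Agent.Helper64.Free

section moves
variable {X ι : Type} [Fintype X] [DecidableEq X] {w t0 b0 L lam0 lam1 dmin : ℕ}
variable {β : ℕ} {D : Design X ι w t0 b0 L lam0 lam1 dmin} {ρ : Var X (2 * β) → Option Bool}
  {v : List X} {O Z : Finset X} {cb : Finset ι} {u H0 : ℕ}

open Classical in
/-- number of light fresh pairs in a codeword -/
lemma card_fresh_pairs (h : St D ρ v O Z cb (u + 1))
    {σ : ι} {i0 : X} (hZ : Disjoint (D.c σ) Z) (hOff : Disjoint (D.c σ) (Off D.R v))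
    (hHv : ∀ j ∈ D.c σ, j ≠ i0 → j ∉ Hv D ρ v O Z) :
    β * (dmin - w * (L + 1) - 1) ≤
      (Finset.univ.filter (fun p : X × Fin (2 * β) => p.1 ∈ D.c σ ∧ p.1 ≠ i0 ∧
        fresh ρ p.1 p.2)).card := by
  set Y := Finset.univ.filter (fun p : X × Fin (2 * β) => p.1 ∈ D.c σ ∧ p.1 ≠ i0 ∧
        fresh ρ p.1 p.2) with hY
  set S := ((D.c σ).erase i0) \ O with hS
  have hScard : dmin - w * (L + 1) - 1 ≤ S.card := by
    have h1 := h.card_O (h.not_cb hZ)
    have h2 := D.size σ
    have h3 : (D.c σ).card ≤ (insert i0 (S ∪ (D.c σ ∩ O))).card := by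
      apply Finset.card_le_card
      intro j hj
      rw [Finset.mem_insert, Finset.mem_union, hS, Finset.mem_sdiff, Finset.mem_erase,
        Finset.mem_inter]
      tauto
    have h4 := Finset.card_insert_le i0 (S ∪ (D.c σ ∩ O))
    have h5 := Finset.card_union_le S (D.c σ ∩ O)
    omega
  have hfib : ∀ j ∈ S, β ≤ (Y.filter (fun p => p.1 = j)).card := by
    intro j hj
    rw [hS, Finset.mem_sdiff, Finset.mem_erase] at hj
    have hon : j ∈ On D v O Z := mem_On.2 ⟨hj.2, Finset.disjoint_left.1 hZ hj.1.2,
      Finset.disjoint_left.1 hOff hj.1.2⟩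
    have h1 := hHv j hj.1.2 hj.1.1
    rw [Hv, Finset.mem_filter] at h1
    have h2 : β ≤ fr ρ j := by
      by_contra hcon
      exact h1 ⟨hon, Or.inr (by omega)⟩
    refine h2.trans ?_
    unfold fr
    apply Finset.card_le_card_of_injOn (fun v => (j, v))
    · intro v hv
      rw [Finset.mem_coe, Finset.mem_filter] at hv
      rw [Finset.mem_coe, Finset.mem_filter, hY, Finset.mem_filter]
      exact ⟨⟨Finset.mem_univ _, hj.1.2, hj.1.1, hv.2⟩, rfl⟩
    · intro v _ v' _ hvv
      exact (Prod.mk.inj hvv).2
  calc β * (dmin - w * (L + 1) - 1) ≤ β * S.card := Nat.mul_le_mul_left _ hScard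
    _ = ∑ _j ∈ S, β := by rw [Finset.sum_const, smul_eq_mul, mul_comm]
    _ ≤ ∑ j ∈ S, (Y.filter (fun p => p.1 = j)).card := Finset.sum_le_sum hfib
    _ ≤ Y.card := by
        rw [← Finset.card_biUnion]
        · apply Finset.card_le_card
          intro p hp
          rw [Finset.mem_biUnion] at hp
          obtain ⟨j, _, hp⟩ := hp
          exact (Finset.mem_filter.1 hp).1
        · intro j _ j' _ hjj
          rw [Function.onFun, Finset.disjoint_left]
          intro p hp hp'
          exact hjj ((Finset.mem_filter.1 hp).2.symm.trans (Finset.mem_filter.1 hp').2)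

/-- the expansion at `x` along the minimal true sets -/
lemma St.moveB (h : St D ρ v O Z cb (u + 1)) (hN : ∀ i ∈ On D v O Z, ¬ full ρ i)
    (hH : (Hv D ρ v O Z).card ≤ H0) (hb0 : H0 + w + 1 ≤ b0)
    (hd : L + w * (L + 1) + lam1 < dmin) {μ : ℕ}
    (hμ : μ ≤ β * (dmin - w * (L + 1) - 1))
    {x : Var X (2 * β)} (hxO : x.1 ∈ On D v O Z) (hx : ρ x = none) (hxs : ¬ sat ρ x.1 x.2.1)
    (hxd : ¬ bdead ρ x.1) :
    ∃ E : Finset (Finset (Var X (2 * β))), 2 ^ μ ≤ E.card ∧ ∀ I ∈ E,
      x ∉ I ∧ Minimal (phi D.c ρ) (insert x I) ∧ (∀ y ∈ I, ρ y = none) ∧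
      ∃ O' Z' cb', St D (updJ ρ x I false) v O' Z' cb' u ∧ On D v O' Z' ⊆ On D v O Z ∧
        ∀ j ∈ On D v O' Z', wt (updJ ρ x I false) j = wt ρ j := by
  classical
  obtain ⟨σ, hpath, hi0, hal, hZ, hOff', hHv⟩ := h.good1 hH hb0 hxO hxd
  have hOff : Disjoint (D.c σ) (Off D.R v) := by
    refine Finset.disjoint_of_subset_right ?_ hOff'
    rw [Off]
    exact Finset.subset_union_right
  have hesc := h.escape hN hd hZ
  set i0 := x.1 with hi0x
  set b0' := x.2.2 with hb0'
  set Y := Finset.univ.filter (fun p : X × Fin (2 * β) => p.1 ∈ D.c σ ∧ p.1 ≠ i0 ∧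
        fresh ρ p.1 p.2) with hY
  have hYc : μ ≤ Y.card := hμ.trans (card_fresh_pairs h hZ hOff hHv)
  -- choice functions
  let ch : Finset (X × Fin (2 * β)) → X → Fin (2 * β) → Bool :=
    fun P i v => if i = i0 then b0' else decide ((i, v) ∈ P)
  have hch0 : ∀ P v, ch P i0 v = b0' := fun P v => by simp [ch]
  have hxI : ∀ P, x ∈ Iset D.c ρ σ (ch P) := by
    intro P
    rw [mem_Iset]
    exact ⟨hi0, hxs, hx, fun _ => (hch0 P _).symm⟩
  refine ⟨Y.powerset.image (fun P => (Iset D.c ρ σ (ch P)).erase x), ?_, ?_⟩
  · rw [Finset.card_image_of_injOn, Finset.card_powerset]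
    · exact Nat.pow_le_pow_right (by norm_num) hYc
    · intro P hP P' hP' hPP
      rw [Finset.mem_coe, Finset.mem_powerset] at hP hP'
      simp only at hPP
      have key : ∀ p ∈ Y, p ∈ P ↔ p ∈ P' := by
        intro p hp
        have hp' := (Finset.mem_filter.1 hp).2
        have hne : ((p.1, p.2, true) : Var X (2 * β)) ≠ x := by
          intro e
          exact hp'.2.1 (by rw [← e] at hi0x; exact hi0x.symm)
        have h1 : ∀ Q : Finset (X × Fin (2 * β)),
            ((p.1, p.2, true) : Var X (2 * β)) ∈ (Iset D.c ρ σ (ch Q)).erase x ↔ p ∈ Q := by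
          intro Q
          rw [Finset.mem_erase, mem_Iset]
          have h2 : ch Q p.1 p.2 = decide (p ∈ Q) := by
            simp only [ch, if_neg hp'.2.1]
          constructor
          · rintro ⟨_, _, _, _, h3⟩
            have h4 := h3 hp'.2.2
            rw [h2] at h4
            simpa using h4.symm
          · intro hQ
            refine ⟨hne, hp'.1, fresh_not_sat hp'.2.2, hp'.2.2 _, fun _ => ?_⟩
            rw [h2]
            simp [hQ]
        rw [← h1 P, ← h1 P', hPP]
      ext p
      constructor
      · intro hp; exact (key p (hP hp)).1 hp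
      · intro hp; exact (key p (hP' hp)).2 hp
  · intro I hI
    rw [Finset.mem_image] at hI
    obtain ⟨P, _, rfl⟩ := hI
    set I := (Iset D.c ρ σ (ch P)).erase x with hIdef
    have hI0 : ∀ y ∈ I, ρ y = none := fun y hy => (mem_Iset.1 (Finset.mem_of_mem_erase hy)).2.2.1
    have hIc : ∀ y ∈ I, y.1 ∈ D.c σ := fun y hy => (mem_Iset.1 (Finset.mem_of_mem_erase hy)).1
    have hblock : ∀ j, j ∉ D.c σ → ∀ v' b, updJ ρ x I false (j, v', b) = ρ (j, v', b) := by
      intro j hj v' b
      apply updJ_block
      · rintro rfl; exact hj hi0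
      · rintro y hy rfl; exact hj (hIc y hy)
    -- all the other blocks of `σ` become full
    have hsat : ∀ j ∈ D.c σ, ∀ v', (j, v') ≠ (x.1, x.2.1) → sat (updJ ρ x I false) j v' := by
      intro j hj v' hne
      by_cases hs : sat ρ j v'
      · exact updJ_sat hx hI0 hs
      · obtain ⟨b, hb⟩ := Iset_exists (ch := ch P) hal hj hs
        have hne' : ((j, v', b) : Var X (2 * β)) ≠ x := by
          rintro rfl; exact hne rfl
        refine ⟨b, ?_⟩
        rw [updJ_mem hne' (Finset.mem_erase.2 ⟨hne', hb⟩)]
        rfl
    have hfull : ∀ j ∈ D.c σ, j ≠ i0 → full (updJ ρ x I false) j := by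
      intro j hj hne v'
      exact hsat j hj v' (fun e => hne (Prod.mk.inj e).1)
    refine ⟨Finset.notMem_erase _ _, ?_, hI0, O ∪ (D.c σ).erase i0, insert i0 Z,
      insert σ cb, ?_, ?_, ?_⟩
    · rw [hIdef, Finset.insert_erase (hxI P)]
      exact Iset_min hal hesc
    · have hi0O : i0 ∉ O := (mem_On.1 hxO).1
      have hi0Z : i0 ∉ Z := (mem_On.1 hxO).2.1
      refine ⟨h.valid, ?_, ?_, ?_, ?_, ?_, ?_, ?_, ?_, ?_, ?_⟩
      · intro i hi
        exact Finset.mem_union_left _ (h.vO i hi)
      · intro i hi
        rw [Finset.mem_union] at hi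
        rcases hi with hi | hi
        · rcases h.Osub i hi with h1 | ⟨σ', h1, h2⟩
          · exact Or.inl h1
          · exact Or.inr ⟨σ', Finset.mem_insert_of_mem h1, h2⟩
        · exact Or.inr ⟨σ, Finset.mem_insert_self _ _, Finset.mem_of_mem_erase hi⟩
      · intro σ' hσ'
        rw [Finset.mem_insert] at hσ'
        rcases hσ' with rfl | hσ'
        · exact ⟨i0, hi0, Finset.mem_insert_self _ _⟩
        · obtain ⟨i, h1, h2⟩ := h.cbZ σ' hσ'
          exact ⟨i, h1, Finset.mem_insert_of_mem h2⟩
      · intro i hi
        rw [Finset.mem_union, Finset.mem_erase] at hi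
        rw [Finset.mem_insert]
        rintro (rfl | hiZ)
        · rcases hi with hi | hi
          · exact hi0O hi
          · exact hi.1 rfl
        · rcases hi with hi | hi
          · exact h.OZ i hi hiZ
          · exact Finset.disjoint_left.1 hZ hi.2 hiZ
      · intro i hi
        by_cases hic : i ∈ D.c σ
        · have hne : i ≠ i0 := by
            rintro rfl
            rw [Finset.mem_union, Finset.mem_erase] at hi
            rcases hi with hi | hi
            · exact hi0O hi
            · exact hi.1 rfl
          rintro ⟨v', hv'⟩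
          exact sat_not_dead (hfull i hic hne v') hv'
        · rw [Finset.mem_union, Finset.mem_erase] at hi
          have hiO := hi.resolve_right (fun e => hic e.2)
          rw [bdead_congr (hblock i hic)]
          exact h.Olive i hiO
      · intro i hi
        rw [Finset.mem_insert] at hi
        rcases hi with rfl | hi
        · -- the block of `x`
          by_cases hf : fresh ρ i0 x.2.1
          · right
            refine ⟨x.2.1, !b0', ?_, ?_, ?_⟩
            · rw [updJ_out]
              · exact hf _
              · intro e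
                have := congrArg (fun y : Var X (2 * β) => y.2.2) e
                simp [b0'] at this
              · intro e
                have h1 := (mem_Iset.1 (Finset.mem_of_mem_erase e)).2.2.2 hf
                simp only at h1
                rw [hch0] at h1
                simp at h1
            · rw [Bool.not_not]
              exact updJ_x
            · intro v' hv'
              exact hsat i0 hi0 v' (fun e => hv' (Prod.mk.inj e).2)
          · left
            refine ⟨x.2.1, ?_⟩
            intro b
            by_cases hb : b = b0'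
            · rw [hb]
              exact updJ_x
            · have hb' : b = !b0' := by cases b <;> cases h' : b0' <;> simp_all
              have h1 : ρ (i0, x.2.1, b) = some false := by
                rw [hb']
                exact other_false hxs hx hf
              rw [updJ_ne hx hI0 (by rw [h1]; simp)]
              exact h1
        · have hic : i ∉ D.c σ := fun e => Finset.disjoint_left.1 hZ e hi
          rcases h.Zst i hi with h1 | ⟨v0, b1, h1, h2, h3⟩
          · left; exact updJ_bdead hx hI0 h1
          · right
            refine ⟨v0, b1, ?_, ?_, ?_⟩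
            · rw [hblock i hic]; exact h1
            · rw [hblock i hic]; exact h2
            · intro v' hv'
              exact updJ_sat hx hI0 (h3 v' hv')
      · intro i hi hnf
        exfalso
        by_cases hic : i ∈ D.c σ
        · have hne : i ≠ i0 := by
            rintro rfl
            rw [Finset.mem_union, Finset.mem_erase] at hi
            rcases hi with hi | hi
            · exact hi0O hi
            · exact hi.1 rfl
          exact hnf (hfull i hic hne)
        · rw [Finset.mem_union, Finset.mem_erase] at hi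
          have hiO := hi.resolve_right (fun e => hic e.2)
          rw [full_congr (hblock i hic)] at hnf
          exact hic (h.C1 i hiO hnf σ hal)
      · intro i hi hnd
        rw [Finset.mem_insert] at hi
        rcases hi with rfl | hi
        · exact ⟨σ, hi0, fun j hj hne => hfull j hj hne⟩
        · have hic : i ∉ D.c σ := fun e => Finset.disjoint_left.1 hZ e hi
          rw [bdead_congr (hblock i hic)] at hnd
          obtain ⟨σ', h1, h2⟩ := h.C2 i hi hnd
          exact ⟨σ', h1, fun j hj hne => updJ_full hx hI0 (h2 j hj hne)⟩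
      · rw [Finset.card_insert_of_notMem hi0Z, Finset.card_insert_of_notMem (h.not_cb hZ)]
        have := h.Zcard
        omega
      · rw [Finset.card_insert_of_notMem (h.not_cb hZ)]
        have := h.cnt
        omega
    · intro j hj
      rw [mem_On] at hj ⊢
      exact ⟨fun e => hj.1 (Finset.mem_union_left _ e),
        fun e => hj.2.1 (Finset.mem_insert_of_mem e), hj.2.2⟩
    · intro j hj
      rw [mem_On, Finset.mem_union, Finset.mem_erase, Finset.mem_insert] at hj
      have hjc : j ∉ D.c σ := by
        intro e
        by_cases hj0 : j = i0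
        · exact hj.2.1 (Or.inl hj0)
        · exact hj.1 (Or.inr ⟨hj0, e⟩)
      exact wt_congr (hblock j hjc)

end moves

end Pool.Agent.Helper64.Free
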