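import Mathlib
import Pool.Agent.Helper64.FreeMoveA
import Pool.Agent.Helper64.FreeMoveB

set_option autoImplicit false

namespace Pool.Agent.Helper64.Free

structure Params (w t0 b0 L lam0 lam1 dmin β μ H0 s : ℕ) : Prop where
  hb0 : H0 + w + 1 ≤ b0
  hd : L + w * (L + 1) + lam1 < dmin
  hlam : w * (L + 1) < lam0
  hβ : 4 ≤ β
  hμA : 2 ^ μ ≤ β ^ (t0 - H0)
  hμB : μ ≤ β * (dmin - w * (L + 1) - 1)
  hH : μ * w ≤ (β - 1) * H0
  hs : s < 2 ^ μ

section main
variable {X ι : Type} [Fintype X] [DecidableEq X] {w t0 b0 L lam0 lam1 dmin : ℕ}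
variable {β : ℕ} {D : Design X ι w t0 b0 L lam0 lam1 dmin} {ρ : Var X (2 * β) → Option Bool}
  {v : List X} {O Z : Finset X} {cb : Finset ι} {u H0 μ s : ℕ}

/-- the induction statement -/
def Good (D : Design X ι w t0 b0 L lam0 lam1 dmin) (μ : ℕ) (ρ : Var X (2 * β) → Option Bool)
    (v : List X) (O Z : Finset X) (u k : ℕ) : Prop :=
  2 ^ (μ * u) * ∏ i ∈ On D v O Z, wt ρ i ≤ k * (2 ^ (2 * β) - 1) ^ (On D v O Z).card

lemma Good.mono {k k' : ℕ} (h : Good D μ ρ v O Z u k) (hk : k ≤ k') :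
    Good D μ ρ v O Z u k' := le_trans h (Nat.mul_le_mul_right _ hk)

lemma St.upd (h : St D ρ v O Z cb u) {x : Var X (2 * β)} {a : Bool} (hx : ρ x = none)
    (hO : x.1 ∈ O → ¬ bdead (upd ρ x a) x.1)
    (hZ : x.1 ∈ Z → a = false ∧ ¬ bdead ρ x.1 ∧ ¬ sat ρ x.1 x.2.1) :
    St D (upd ρ x a) v O Z cb u := by
  classical
  have hE : ∀ y ∈ (∅ : Finset (Var X (2 * β))), ρ y = none := by simp
  have hfull : ∀ i, full ρ i → full (Free.upd ρ x a) i := by
    intro i hi; rw [upd_eq_updJ]; exact updJ_full hx hE hi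
  have hdead : ∀ i, bdead ρ i → bdead (Free.upd ρ x a) i := by
    intro i hi; rw [upd_eq_updJ]; exact updJ_bdead hx hE hi
  have halive : ∀ σ, alive D.c (Free.upd ρ x a) σ → alive D.c ρ σ :=
    fun σ hσ j hj hd => hσ j hj (hdead j hd)
  have hne : ∀ i, i ≠ x.1 → ∀ v' b, Free.upd ρ x a (i, v', b) = ρ (i, v', b) := by
    intro i hi v' b
    rw [upd_other]
    rintro rfl
    exact hi rfl
  -- the block of `x`, if in `Z`, dies
  have hZd : x.1 ∈ Z → bdead (Free.upd ρ x a) x.1 := by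
    intro hxZ
    obtain ⟨rfl, h1, h2⟩ := hZ hxZ
    obtain ⟨v0, b1, h3, h4, h5⟩ := (h.Zst _ hxZ).resolve_left h1
    have hv : x.2.1 = v0 := by
      by_contra hcon
      exact h2 (h5 _ hcon)
    have hb : x.2.2 = b1 := by
      by_contra hcon
      have h6 := bool_not hcon
      rw [← h6, ← hv] at h4
      have h7 : ρ (x.1, x.2.1, x.2.2) = none := hx
      rw [h4] at h7
      simp at h7
    refine ⟨v0, ?_⟩
    intro b
    by_cases hbb : b = b1
    · rw [hbb, ← hb, ← hv]
      exact upd_self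
    · rw [upd_other]
      · rw [bool_not hbb]; exact h4
      · intro e
        apply hbb
        rw [← hb, ← e]
  refine ⟨h.valid, h.vO, h.Osub, h.cbZ, h.OZ, ?_, ?_, ?_, ?_, h.Zcard, h.cnt⟩
  · intro i hi
    by_cases hix : i = x.1
    · rw [hix] at hi ⊢
      exact hO hi
    · rw [bdead_congr (hne i hix)]
      exact h.Olive i hi
  · intro i hi
    by_cases hix : i = x.1
    · rw [hix] at hi ⊢
      exact Or.inl (hZd hi)
    · rw [bdead_congr (hne i hix)]
      rcases h.Zst i hi with h1 | ⟨v0, b1, h1, h2, h3⟩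
      · exact Or.inl h1
      · refine Or.inr ⟨v0, b1, ?_, ?_, ?_⟩
        · rw [hne i hix]; exact h1
        · rw [hne i hix]; exact h2
        · intro v' hv'
          rw [sat_congr (hne i hix v')]
          exact h3 v' hv'
  · intro i hi hnf σ hσ
    exact h.C1 i hi (fun hf => hnf (hfull i hf)) σ (halive σ hσ)
  · intro i hi hnd
    have hix : i ≠ x.1 := by
      intro e
      rw [e] at hi hnd
      exact hnd (hZd hi)
    obtain ⟨σ, h1, h2⟩ := h.C2 i hi (fun hd => hnd (hdead i hd))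
    exact ⟨σ, h1, fun j hj hji => hfull j (h2 j hj hji)⟩

/-- outside `On`, the value of `x` does not matter -/
lemma Good.of_upd {x : Var X (2 * β)} {a : Bool} (hx : x.1 ∉ On D v O Z) {k : ℕ}
    (h : Good D μ (Free.upd ρ x a) v O Z u k) : Good D μ ρ v O Z u k := by
  unfold Good at h ⊢
  rw [Finset.prod_congr rfl (g := fun i => wt ρ i)] at h
  · exact h
  · intro i hi
    apply wt_upd_other
    rintro rfl
    exact hx hi

lemma prod_wt_le (hβ : 1 ≤ β) (S : Finset X) :
    ∏ i ∈ S, wt ρ i ≤ (2 ^ (2 * β) - 1) ^ S.card := by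
  rw [← Finset.prod_const]
  exact Finset.prod_le_prod' fun i _ => wt_le (by omega) ρ i

/-- the bad states -/
lemma St.triv_or (hP : Params w t0 b0 L lam0 lam1 dmin β μ H0 s) (h : St D ρ v O Z cb u) :
    Good D μ ρ v O Z u 1 ∨ ∃ u', u = u' + 1 ∧ (∀ i ∈ On D v O Z, ¬ full ρ i) ∧
      (Hv D ρ v O Z).card ≤ H0 := by
  classical
  have hβ := hP.hβ
  by_cases h0 : u = 0
  · left
    unfold Good
    rw [h0, mul_zero, pow_zero, one_mul, one_mul]
    exact prod_wt_le (by omega) _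
  by_cases hN : ∀ i ∈ On D v O Z, ¬ full ρ i
  swap
  · left
    push Not at hN
    obtain ⟨i, hi, hf⟩ := hN
    unfold Good
    rw [Finset.prod_eq_zero hi (wt_full hf)]
    simp
  by_cases hH : (Hv D ρ v O Z).card ≤ H0
  · right
    exact ⟨u - 1, by omega, hN, hH⟩
  left
  push Not at hH
  unfold Good
  have hsub : Hv D ρ v O Z ⊆ On D v O Z := Finset.filter_subset _ _
  rw [← Finset.prod_sdiff hsub, one_mul]
  have h1 : ∏ i ∈ On D v O Z \ Hv D ρ v O Z, wt ρ i ≤
      (2 ^ (2 * β) - 1) ^ (On D v O Z \ Hv D ρ v O Z).card := prod_wt_le (by omega) _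
  have h2 : ∏ i ∈ Hv D ρ v O Z, wt ρ i ≤ (2 ^ β) ^ (Hv D ρ v O Z).card := by
    rw [← Finset.prod_const]
    apply Finset.prod_le_prod'
    intro i hi
    rw [Hv, Finset.mem_filter] at hi
    exact wt_light hβ ρ i hi.2
  have h3 : 2 ^ (μ * u) * (2 ^ β) ^ (Hv D ρ v O Z).card ≤
      (2 ^ (2 * β) - 1) ^ (Hv D ρ v O Z).card := by
    have h4 : 2 ^ (2 * β - 1) ≤ 2 ^ (2 * β) - 1 := by
      have h5 : 2 ^ (2 * β) = 2 * 2 ^ (2 * β - 1) := by
        rw [← pow_succ']; congr 1; omega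
      have h6 : 1 ≤ 2 ^ (2 * β - 1) := Nat.one_le_two_pow
      omega
    calc 2 ^ (μ * u) * (2 ^ β) ^ (Hv D ρ v O Z).card
        = 2 ^ (μ * u + β * (Hv D ρ v O Z).card) := by rw [← pow_mul, ← pow_add]
      _ ≤ 2 ^ ((2 * β - 1) * (Hv D ρ v O Z).card) := by
          apply Nat.pow_le_pow_right (by norm_num)
          have h5 : μ * u ≤ μ * w := Nat.mul_le_mul_left _ (by have := h.cnt; omega)
          have h6 := hP.hH
          have h7 : (β - 1) * H0 ≤ (β - 1) * (Hv D ρ v O Z).card :=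
            Nat.mul_le_mul_left _ hH.le
          have h8 : 2 * β - 1 = (β - 1) + β := by omega
          rw [h8, Nat.add_mul]
          omega
      _ = (2 ^ (2 * β - 1)) ^ (Hv D ρ v O Z).card := by rw [pow_mul]
      _ ≤ _ := Nat.pow_le_pow_left h4 _
  have h5 : (On D v O Z).card = (On D v O Z \ Hv D ρ v O Z).card + (Hv D ρ v O Z).card := by
    rw [Finset.card_sdiff_add_card_eq_card hsub]
  rw [h5, pow_add]
  calc 2 ^ (μ * u) * ((∏ i ∈ On D v O Z \ Hv D ρ v O Z, wt ρ i) * ∏ i ∈ Hv D ρ v O Z, wt ρ i)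
      = (∏ i ∈ On D v O Z \ Hv D ρ v O Z, wt ρ i) *
        (2 ^ (μ * u) * ∏ i ∈ Hv D ρ v O Z, wt ρ i) := by ring
    _ ≤ (∏ i ∈ On D v O Z \ Hv D ρ v O Z, wt ρ i) *
        (2 ^ (μ * u) * (2 ^ β) ^ (Hv D ρ v O Z).card) :=
        Nat.mul_le_mul_left _ (Nat.mul_le_mul_left _ h2)
    _ ≤ _ := Nat.mul_le_mul h1 h3

lemma card_le_of_ins {V : Type} [DecidableEq V] {E F : Finset (Finset V)} {x : V}
    (h : ∀ I ∈ E, x ∉ I ∧ insert x I ∈ F) : E.card ≤ F.card := by
  apply Finset.card_le_card_of_injOn (fun I => insert x I) (fun I hI => (h I hI).2)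
  intro I hI I' hI' he
  simp only at he
  rw [← Finset.erase_insert (h I hI).1, he, Finset.erase_insert (h I' hI').1]

/-- sum over the branches of an expansion -/
lemma Good.expand {ρ' : Finset (Var X (2 * β)) → Var X (2 * β) → Option Bool}
    (hβ : 1 ≤ β) {E A : Finset (Finset (Var X (2 * β)))} (hE : 2 ^ μ ≤ E.card) (hEA : E ⊆ A)
    {k : Finset (Var X (2 * β)) → ℕ} {k0 : ℕ}
    (h : ∀ I ∈ E, ∃ v' O' Z', Good D μ (ρ' I) v' O' Z' u (k I) ∧
      On D v' O' Z' ⊆ On D v O Z ∧ ∀ j ∈ On D v' O' Z', wt (ρ' I) j = wt ρ j) :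
    Good D μ ρ v O Z (u + 1) (1 + k0 + ∑ I ∈ A, k I) := by
  classical
  unfold Good
  have h1 : ∀ I ∈ E, 2 ^ (μ * u) * ∏ i ∈ On D v O Z, wt ρ i ≤
      k I * (2 ^ (2 * β) - 1) ^ (On D v O Z).card := by
    intro I hI
    obtain ⟨v', O', Z', h2, h3, h4⟩ := h I hI
    unfold Good at h2
    rw [Finset.prod_congr rfl h4] at h2
    rw [← Finset.prod_sdiff h3]
    have h5 : (On D v O Z).card = (On D v O Z \ On D v' O' Z').card + (On D v' O' Z').card := by
      rw [Finset.card_sdiff_add_card_eq_card h3]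
    rw [h5, pow_add]
    calc 2 ^ (μ * u) * ((∏ i ∈ On D v O Z \ On D v' O' Z', wt ρ i) *
          ∏ i ∈ On D v' O' Z', wt ρ i)
        = (∏ i ∈ On D v O Z \ On D v' O' Z', wt ρ i) *
          (2 ^ (μ * u) * ∏ i ∈ On D v' O' Z', wt ρ i) := by ring
      _ ≤ (2 ^ (2 * β) - 1) ^ (On D v O Z \ On D v' O' Z').card *
          (k I * (2 ^ (2 * β) - 1) ^ (On D v' O' Z').card) :=
          Nat.mul_le_mul (prod_wt_le hβ _) h2
      _ = _ := by ring
  have h2 : E.card * (2 ^ (μ * u) * ∏ i ∈ On D v O Z, wt ρ i) ≤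
      (∑ I ∈ E, k I) * (2 ^ (2 * β) - 1) ^ (On D v O Z).card := by
    rw [Finset.sum_mul]
    calc E.card * (2 ^ (μ * u) * ∏ i ∈ On D v O Z, wt ρ i)
        = ∑ _I ∈ E, (2 ^ (μ * u) * ∏ i ∈ On D v O Z, wt ρ i) := by
          rw [Finset.sum_const, smul_eq_mul]
      _ ≤ _ := Finset.sum_le_sum h1
  have h3 : ∑ I ∈ E, k I ≤ 1 + k0 + ∑ I ∈ A, k I := by
    have : ∑ I ∈ E, k I ≤ ∑ I ∈ A, k I := Finset.sum_le_sum_of_subset hEA
    omega
  calc 2 ^ (μ * (u + 1)) * ∏ i ∈ On D v O Z, wt ρ i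
      = 2 ^ μ * (2 ^ (μ * u) * ∏ i ∈ On D v O Z, wt ρ i) := by
        rw [mul_add, mul_one, pow_add]; ring
    _ ≤ E.card * (2 ^ (μ * u) * ∏ i ∈ On D v O Z, wt ρ i) := Nat.mul_le_mul_right _ hE
    _ ≤ _ := h2
    _ ≤ _ := Nat.mul_le_mul_right _ h3

/-- there is an alive codeword, and a fresh variable in an `On` block -/
lemma St.exists_x (hP : Params w t0 b0 L lam0 lam1 dmin β μ H0 s) (h : St D ρ v O Z cb u)
    (hH : (Hv D ρ v O Z).card ≤ H0) :
    (∃ σ, alive D.c ρ σ) ∧ ∃ x : Var X (2 * β), x.1 ∈ On D v O Z ∧ ρ x = none ∧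
      ¬ sat ρ x.1 x.2.1 ∧ ¬ bdead ρ x.1 := by
  classical
  obtain ⟨σ, -, h1, h2, -, -, h3, h4⟩ := h.good2 hH hP.hb0 (K := ∅) (by simp) (by simp)
    (τ := []) (Ja := ∅) (Finset.empty_subset _) (by simp) (by simp)
  refine ⟨⟨σ, h1⟩, ?_⟩
  have h5 := h.card_O (h.not_cb h2)
  have h6 := D.size σ
  have h7 := hP.hd
  have h8 : ∃ j ∈ D.c σ, j ∉ O := by
    by_contra hcon
    push Not at hcon
    have h9 : D.c σ ⊆ D.c σ ∩ O := fun j hj => Finset.mem_inter.2 ⟨hj, hcon j hj⟩
    have h10 := Finset.card_le_card h9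
    omega
  obtain ⟨j, hj, hjO⟩ := h8
  have hon : j ∈ On D v O Z := mem_On.2 ⟨hjO, Finset.disjoint_left.1 h2 hj,
    Finset.disjoint_left.1 h3 hj⟩
  have h9 := h4 j hj
  rw [Hv, Finset.mem_filter] at h9
  have h10 : ¬ bdead ρ j := fun hd => h9 ⟨hon, Or.inl hd⟩
  have h11 : 0 < fr ρ j := by
    by_contra hcon
    have := hP.hβ
    exact h9 ⟨hon, Or.inr (by omega)⟩
  unfold fr at h11
  obtain ⟨v', hv'⟩ := Finset.card_pos.1 h11
  rw [Finset.mem_filter] at hv'
  exact ⟨(j, v', true), hon, hv'.2 _, fresh_not_sat hv'.2, h10⟩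

lemma St.big (hP : Params w t0 b0 L lam0 lam1 dmin β μ H0 s) (h : St D ρ v O Z cb (u + 1))
    (hN : ∀ i ∈ On D v O Z, ¬ full ρ i) (hH : (Hv D ρ v O Z).card ≤ H0)
    {F G : Finset (Finset (Var X (2 * β)))} (hR : Rep F G (phi D.c ρ)) :
    s < min F.card G.card := by
  obtain ⟨-, x, h1, h2, h3, h4⟩ := h.exists_x hP hH
  obtain ⟨E, hE, hE'⟩ := h.moveB hN hH hP.hb0 hP.hd hP.hμB h1 h2 h3 h4
  obtain ⟨E2, hE2, hE2'⟩ := h.moveA hN hH hP.hb0 hP.hlam hP.hμA (by have := hP.hβ; omega)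
    h1 h2 h3 h4
  have h5 : E.card ≤ F.card := card_le_of_ins (x := x) fun I hI =>
    ⟨(hE' I hI).1, (hR.F_iff _).2 (hE' I hI).2.1⟩
  have h6 : E2.card ≤ G.card := card_le_of_ins (x := x) fun I hI =>
    ⟨(hE2' I hI).1, (hR.G_iff _).2 (hE2' I hI).2.1⟩
  have h7 := hP.hs
  rw [lt_min_iff]
  omega

/-- the empty set is not true -/
lemma St.not_empty (hP : Params w t0 b0 L lam0 lam1 dmin β μ H0 s) (h : St D ρ v O Z cb u)
    (hN : ∀ i ∈ On D v O Z, ¬ full ρ i) : ¬ phi D.c ρ ∅ := by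
  classical
  rintro ⟨σ, hσ⟩
  have hal := phi_alive hσ
  have hfull : ∀ i ∈ D.c σ, full ρ i := by
    intro i hi v'
    obtain ⟨b, hb⟩ := hσ i hi v'
    rcases hb with hb | ⟨-, hb⟩
    · exact ⟨b, hb⟩
    · simp at hb
  have hZ : Disjoint (D.c σ) Z := by
    rw [Finset.disjoint_left]
    intro i hi hiZ
    obtain ⟨v0, b1, h2, h3, -⟩ := (h.Zst i hiZ).resolve_left (hal i hi)
    obtain ⟨b, hb⟩ := hfull i hi v0
    by_cases hbb : b = b1
    · subst hbb; rw [h2] at hb; simp at hb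
    · rw [bool_not hbb, h3] at hb
      simp at hb
  have h1 : D.c σ ⊆ (D.c σ ∩ O) ∪ (D.c σ ∩ Off D.R v) := by
    intro i hi
    rw [Finset.mem_union, Finset.mem_inter, Finset.mem_inter]
    by_contra hcon
    exact hN i (mem_On.2 ⟨by tauto, Finset.disjoint_left.1 hZ hi, by tauto⟩) (hfull i hi)
  have h2 := Finset.card_le_card h1
  have h4 := Finset.card_union_le (D.c σ ∩ O) (D.c σ ∩ Off D.R v)
  have h6 := h.card_O (h.not_cb hZ)
  have h7 := D.off_up v σ (by have := h.cnt; omega)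
  have h9 := D.size σ
  have h10 := hP.hd
  omega

lemma not_bdead_upd_true {x : Var X (2 * β)} (hd : ¬ bdead ρ x.1) :
    ¬ bdead (Free.upd ρ x true) x.1 := by
  rintro ⟨v', hv'⟩
  by_cases hvv : v' = x.2.1
  · subst hvv
    have h1 := hv' x.2.2
    have h2 : Free.upd ρ x true (x.1, x.2.1, x.2.2) = some true := upd_self
    rw [h2] at h1
    simp at h1
  · apply hd
    refine ⟨v', fun b => ?_⟩
    have h1 := hv' b
    rw [upd_other] at h1
    · exact h1
    · intro e
      exact hvv (by rw [← e])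

lemma not_bdead_upd_false {x : Var X (2 * β)} (hd : ¬ bdead ρ x.1)
    (hf : fresh ρ x.1 x.2.1) : ¬ bdead (Free.upd ρ x false) x.1 := by
  rintro ⟨v', hv'⟩
  by_cases hvv : v' = x.2.1
  · subst hvv
    have h1 := hv' (!x.2.2)
    rw [upd_other, hf] at h1
    · simp at h1
    · intro e
      have := congrArg (fun y : Var X (2 * β) => y.2.2) e
      simp at this
  · apply hd
    refine ⟨v', fun b => ?_⟩
    have h1 := hv' b
    rw [upd_other] at h1
    · exact h1
    · intro e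
      exact hvv (by rw [← e])

/-- the lower bound for all runs -/
theorem adversary (hP : Params w t0 b0 L lam0 lam1 dmin β μ H0 s)
    {F G : Finset (Finset (Var X (2 * β)))} {k : ℕ} (hr : Run s F G k) :
    ∀ (ρ : Var X (2 * β) → Option Bool) (v : List X) (O Z : Finset X) (cb : Finset ι) (u : ℕ),
      St D ρ v O Z cb u → Rep F G (phi D.c ρ) → Good D μ ρ v O Z u k := by
  classical
  have hβ : 1 ≤ β := by have := hP.hβ; omega
  induction hr with
  | stop hs =>
    intro ρ v O Z cb u h hR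
    rcases h.triv_or hP with h1 | ⟨u', rfl, hN, hH⟩
    · exact h1
    · have := h.big hP hN hH hR
      omega
  | split x k₀ k₁ hx _ _ ih₀ ih₁ =>
    intro ρ v O Z cb u h hR
    rcases h.triv_or hP with h1 | ⟨u', rfl, hN, hH⟩
    · exact h1.mono (by omega)
    obtain ⟨hx0, hxs, hxd⟩ := relevant (hR.occurs hx)
    have hR0 := hR.zero x
    have hR1 := hR.one x
    rw [phi_zero hx0] at hR0
    rw [phi_one hx0] at hR1
    by_cases hO : x.1 ∈ O
    · have hOn : x.1 ∉ On D v O Z := fun e => (mem_On.1 e).1 hO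
      have hst := h.upd (a := true) hx0 (fun _ => not_bdead_upd_true hxd)
        (fun hZ => absurd hZ (h.OZ _ hO))
      exact ((ih₁ _ v O Z cb _ hst hR1).of_upd hOn).mono (by omega)
    by_cases hZ : x.1 ∈ Z
    · have hOn : x.1 ∉ On D v O Z := fun e => (mem_On.1 e).2.1 hZ
      have hst := h.upd (a := false) hx0 (fun e => absurd e hO) (fun _ => ⟨rfl, hxd, hxs⟩)
      exact ((ih₀ _ v O Z cb _ hst hR0).of_upd hOn).mono (by omega)
    have hst0 := h.upd (a := false) hx0 (fun e => absurd e hO) (fun e => absurd e hZ)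
    have hst1 := h.upd (a := true) hx0 (fun e => absurd e hO) (fun e => absurd e hZ)
    have g0 := ih₀ _ v O Z cb _ hst0 hR0
    have g1 := ih₁ _ v O Z cb _ hst1 hR1
    by_cases hOn : x.1 ∈ On D v O Z
    swap
    · exact (g0.of_upd hOn).mono (by omega)
    unfold Good at g0 g1 ⊢
    rw [← Finset.mul_prod_erase _ _ hOn] at g0 g1 ⊢
    have e : ∀ a, ∏ i ∈ (On D v O Z).erase x.1, wt (Free.upd ρ x a) i =
        ∏ i ∈ (On D v O Z).erase x.1, wt ρ i := by
      intro a
      apply Finset.prod_congr rfl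
      intro i hi
      exact wt_upd_other (Finset.mem_erase.1 hi).1
    rw [e] at g0 g1
    have hw := wt_split (i := x.1) (v := x.2.1) (b := x.2.2) hx0 hxs hxd
    calc 2 ^ (μ * (u' + 1)) * (wt ρ x.1 * ∏ i ∈ (On D v O Z).erase x.1, wt ρ i)
        ≤ 2 ^ (μ * (u' + 1)) * ((wt (Free.upd ρ x false) x.1 + wt (Free.upd ρ x true) x.1) *
            ∏ i ∈ (On D v O Z).erase x.1, wt ρ i) :=
          Nat.mul_le_mul_left _ (Nat.mul_le_mul_right _ hw)
      _ = 2 ^ (μ * (u' + 1)) * (wt (Free.upd ρ x false) x.1 *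
            ∏ i ∈ (On D v O Z).erase x.1, wt ρ i) +
          2 ^ (μ * (u' + 1)) * (wt (Free.upd ρ x true) x.1 *
            ∏ i ∈ (On D v O Z).erase x.1, wt ρ i) := by ring
      _ ≤ k₀ * (2 ^ (2 * β) - 1) ^ (On D v O Z).card +
          k₁ * (2 ^ (2 * β) - 1) ^ (On D v O Z).card := Nat.add_le_add g0 g1
      _ = (k₀ + k₁) * (2 ^ (2 * β) - 1) ^ (On D v O Z).card := by ring
      _ ≤ _ := Nat.mul_le_mul_right _ (by omega)
  | @expandG F G x k₀ k hx _ _ ih₀ ihJ =>
    intro ρ v O Z cb u h hR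
    rcases h.triv_or hP with h1 | ⟨u', rfl, hN, hH⟩
    · exact h1.mono (by omega)
    obtain ⟨hx0, hxs, hxd⟩ := relevant (hR.occurs hx)
    have hR0 := hR.zero x
    rw [phi_zero hx0] at hR0
    by_cases hO : x.1 ∈ O
    · have hOn : x.1 ∉ On D v O Z := fun e => (mem_On.1 e).1 hO
      by_cases hf : fresh ρ x.1 x.2.1
      · have hst := h.upd (a := false) hx0 (fun _ => not_bdead_upd_false hxd hf)
          (fun hZ => absurd hZ (h.OZ _ hO))
        exact ((ih₀ _ v O Z cb _ hst hR0).of_upd hOn).mono (by omega)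
      · -- `{x}` is a member of `G`
        have hmem : (∅ : Finset (Var X (2 * β))) ∈ link G x := by
          rw [mem_link, hR.G_iff]
          refine ⟨by simp, ?_, ?_⟩
          · rintro S ⟨σ, hσ⟩
            have hal := phi_alive hσ
            have hnf : ¬ full ρ x.1 := fun e => hxs (e _)
            have hc := h.C1 _ hO hnf σ hal
            obtain ⟨b, hb⟩ := hσ x.1 hc x.2.1
            rcases hb with hb | ⟨hb, hbS⟩
            · exact absurd ⟨b, hb⟩ hxs
            · have hbb : b = x.2.2 := by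
                by_contra hcon
                have h1 := other_false (b := x.2.2) hxs hx0 hf
                rw [← bool_not hcon, hb] at h1
                simp at h1
              refine ⟨x, Finset.mem_inter.2 ⟨?_, by simp⟩⟩
              rw [hbb] at hbS
              exact hbS
          · intro T hT hTx
            obtain ⟨⟨σ, hal⟩, -⟩ := h.exists_x hP hH
            obtain ⟨y, hy⟩ := hT _ (Iset_true (ch := fun _ _ => true) hal)
            rw [Finset.mem_inter] at hy
            have h1 := hTx hy.2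
            intro z hz
            simp only [insert_empty_eq, Finset.mem_singleton] at h1 hz
            rw [hz, ← h1]
            exact hy.2
        have hRJ := hR.oneZero x ∅ hmem
        rw [phi_oneZero hx0 (by simp) (by simp), ← upd_eq_updJ] at hRJ
        have hst := h.upd (a := true) hx0 (fun _ => not_bdead_upd_true hxd)
          (fun hZ => absurd hZ (h.OZ _ hO))
        refine ((ihJ ∅ hmem _ v O Z cb _ hst hRJ).of_upd hOn).mono ?_
        have := Finset.single_le_sum (f := k) (fun _ _ => Nat.zero_le _) hmem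
        omega
    by_cases hZ : x.1 ∈ Z
    · have hOn : x.1 ∉ On D v O Z := fun e => (mem_On.1 e).2.1 hZ
      have hst := h.upd (a := false) hx0 (fun e => absurd e hO) (fun _ => ⟨rfl, hxd, hxs⟩)
      exact ((ih₀ _ v O Z cb _ hst hR0).of_upd hOn).mono (by omega)
    by_cases hOn : x.1 ∈ On D v O Z
    swap
    · have hst0 := h.upd (a := false) hx0 (fun e => absurd e hO) (fun e => absurd e hZ)
      exact ((ih₀ _ v O Z cb _ hst0 hR0).of_upd hOn).mono (by omega)
    obtain ⟨E, hE, hE'⟩ := h.moveA hN hH hP.hb0 hP.hlam hP.hμA hβ hOn hx0 hxs hxd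
    have hEA : E ⊆ link G x := by
      intro J hJ
      rw [mem_link, hR.G_iff]
      exact ⟨(hE' J hJ).1, (hE' J hJ).2.1⟩
    refine Good.expand (ρ' := fun J => updJ ρ x J true) hβ hE hEA ?_
    intro J hJ
    obtain ⟨h1, -, h2, v', O', h3, h4, h5⟩ := hE' J hJ
    have hRJ := hR.oneZero x J (hEA hJ)
    rw [phi_oneZero hx0 h2 h1] at hRJ
    exact ⟨v', O', Z, ihJ J (hEA hJ) _ v' O' Z cb _ h3 hRJ, h4, h5⟩
  | @expandF F G x k₀ k hx _ _ ih₀ ihI =>
    intro ρ v O Z cb u h hR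
    rcases h.triv_or hP with h1 | ⟨u', rfl, hN, hH⟩
    · exact h1.mono (by omega)
    obtain ⟨hx0, hxs, hxd⟩ := relevant (hR.occurs hx)
    have hR1 := hR.one x
    rw [phi_one hx0] at hR1
    by_cases hO : x.1 ∈ O
    · have hOn : x.1 ∉ On D v O Z := fun e => (mem_On.1 e).1 hO
      have hst := h.upd (a := true) hx0 (fun _ => not_bdead_upd_true hxd)
        (fun hZ => absurd hZ (h.OZ _ hO))
      exact ((ih₀ _ v O Z cb _ hst hR1).of_upd hOn).mono (by omega)
    by_cases hZ : x.1 ∈ Z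
    · have hOn : x.1 ∉ On D v O Z := fun e => (mem_On.1 e).2.1 hZ
      have hmem : (∅ : Finset (Var X (2 * β))) ∈ link F x := by
        rw [mem_link, hR.F_iff]
        obtain ⟨σ, h1, h2⟩ := h.C2 _ hZ hxd
        obtain ⟨v0, b1, h3, h4, h5⟩ := (h.Zst _ hZ).resolve_left hxd
        have hv0 : x.2.1 = v0 := by
          by_contra hne
          exact hxs (h5 _ hne)
        refine ⟨by simp, ⟨σ, ?_⟩, ?_⟩
        · intro j hj v'
          by_cases hjy : j = x.1
          · by_cases hv' : v' = v0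
            · refine ⟨x.2.2, Or.inr ?_⟩
              have : ((j, v', x.2.2) : Var X (2 * β)) = x := by
                rw [hjy, hv', ← hv0]
              rw [this]
              exact ⟨hx0, by simp⟩
            · obtain ⟨b, hb⟩ := h5 v' hv'
              rw [← hjy] at hb
              exact ⟨b, Or.inl hb⟩
          · obtain ⟨b, hb⟩ := h2 j hj hjy v'
            exact ⟨b, Or.inl hb⟩
        · intro T hT hTx
          by_cases hxT : x ∈ T
          · intro z hz
            simp only [insert_empty_eq, Finset.mem_singleton] at hz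
            rw [hz]
            exact hxT
          · exfalso
            apply h.not_empty hP hN
            have : T = ∅ := by
              rw [Finset.eq_empty_iff_forall_notMem]
              intro y hy
              have h6 := hTx hy
              simp only [insert_empty_eq, Finset.mem_singleton] at h6
              rw [h6] at hy
              exact hxT hy
            rw [this] at hT
            exact hT
      have hRI := hR.zeroOne x ∅ hmem
      rw [phi_zeroOne hx0 (by simp) (by simp), ← upd_eq_updJ] at hRI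
      have hst := h.upd (a := false) hx0 (fun e => absurd e hO) (fun _ => ⟨rfl, hxd, hxs⟩)
      refine ((ihI ∅ hmem _ v O Z cb _ hst hRI).of_upd hOn).mono ?_
      have := Finset.single_le_sum (f := k) (fun _ _ => Nat.zero_le _) hmem
      omega
    by_cases hOn : x.1 ∈ On D v O Z
    swap
    · have hst1 := h.upd (a := true) hx0 (fun e => absurd e hO) (fun e => absurd e hZ)
      exact ((ih₀ _ v O Z cb _ hst1 hR1).of_upd hOn).mono (by omega)
    obtain ⟨E, hE, hE'⟩ := h.moveB hN hH hP.hb0 hP.hd hP.hμB hOn hx0 hxs hxd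
    have hEA : E ⊆ link F x := by
      intro J hJ
      rw [mem_link, hR.F_iff]
      exact ⟨(hE' J hJ).1, (hE' J hJ).2.1⟩
    refine Good.expand (ρ' := fun J => updJ ρ x J false) hβ hE hEA ?_
    intro I hI
    obtain ⟨h1, -, h2, O', Z', cb', h3, h4, h5⟩ := hE' I hI
    have hRI := hR.zeroOne x I (hEA hI)
    rw [phi_zeroOne hx0 h2 h1] at hRI
    exact ⟨v, O', Z', ihI I (hEA hI) _ v O' Z' cb' _ h3 hRI, h4, h5⟩

end main

end Pool.Agent.Helper64.Free
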