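import Mathlib

set_option autoImplicit false

namespace Pool.Agent.Helper64.Free

section prob
variable {Ω : Type} [Fintype Ω]

open Classical in
/-- proportion of the points of `Ω` with the property `A` -/
noncomputable def pr (A : Ω → Prop) : ℝ :=
  ((Finset.univ.filter A).card : ℝ) / (Fintype.card Ω : ℝ)

lemma pr_eq (A : Ω → Prop) [DecidablePred A] :
    pr A = ((Finset.univ.filter A).card : ℝ) / (Fintype.card Ω : ℝ) := by
  unfold pr
  congr!

lemma pr_nonneg (A : Ω → Prop) : 0 ≤ pr A := by
  unfold pr; positivity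

lemma pr_mono {A B : Ω → Prop} (h : ∀ ω, A ω → B ω) : pr A ≤ pr B := by
  classical
  rw [pr_eq, pr_eq]
  apply div_le_div_of_nonneg_right _ (by positivity)
  exact_mod_cast Finset.card_le_card (Finset.monotone_filter_right _ (fun ω _ hω => h ω hω))

lemma pr_exists {Y : Type} (S : Finset Y) (A : Y → Ω → Prop) :
    pr (fun ω => ∃ y ∈ S, A y ω) ≤ ∑ y ∈ S, pr (A y) := by
  classical
  simp only [pr_eq]
  rw [← Finset.sum_div]
  apply div_le_div_of_nonneg_right _ (by positivity)
  have h1 : (Finset.univ.filter (fun ω => ∃ y ∈ S, A y ω)) ⊆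
      S.biUnion (fun y => Finset.univ.filter (A y)) := by
    intro ω hω
    rw [Finset.mem_filter] at hω
    obtain ⟨-, y, hy, hA⟩ := hω
    rw [Finset.mem_biUnion]
    exact ⟨y, hy, Finset.mem_filter.2 ⟨Finset.mem_univ _, hA⟩⟩
  have h2 := (Finset.card_le_card h1).trans Finset.card_biUnion_le
  exact_mod_cast h2

lemma pr_exists_le {Y : Type} (S : Finset Y) (A : Y → Ω → Prop) {ε n : ℝ} (hε : 0 ≤ ε)
    (h : ∀ y ∈ S, pr (A y) ≤ ε) (hn : (S.card : ℝ) ≤ n) :
    pr (fun ω => ∃ y ∈ S, A y ω) ≤ n * ε := by
  calc pr (fun ω => ∃ y ∈ S, A y ω) ≤ ∑ y ∈ S, pr (A y) := pr_exists S A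
    _ ≤ ∑ _y ∈ S, ε := Finset.sum_le_sum h
    _ = S.card * ε := by rw [Finset.sum_const, nsmul_eq_mul]
    _ ≤ n * ε := mul_le_mul_of_nonneg_right hn hε

lemma pr_or (A B : Ω → Prop) : pr (fun ω => A ω ∨ B ω) ≤ pr A + pr B := by
  classical
  simp only [pr_eq]
  rw [← add_div]
  apply div_le_div_of_nonneg_right _ (by positivity)
  rw [Finset.filter_or]
  exact_mod_cast Finset.card_union_le _ _

lemma pr_true [Nonempty Ω] : pr (fun _ : Ω => True) = 1 := by
  classical
  rw [pr_eq]
  rw [Finset.filter_true_of_mem (by simp), Finset.card_univ]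
  exact div_self (by exact_mod_cast Fintype.card_ne_zero)

lemma exists_of_pr [Nonempty Ω] {A : Ω → Prop} (h : pr A < 1) : ∃ ω, ¬ A ω := by
  by_contra hcon
  push Not at hcon
  have h1 : pr (fun _ : Ω => True) ≤ pr A := pr_mono fun ω _ => hcon ω
  rw [pr_true] at h1
  linarith

lemma pr_compl [Nonempty Ω] (A : Ω → Prop) : pr (fun ω => ¬ A ω) = 1 - pr A := by
  classical
  have hne : (Fintype.card Ω : ℝ) ≠ 0 := by exact_mod_cast Fintype.card_ne_zero
  simp only [pr_eq]
  rw [eq_sub_iff_add_eq, ← add_div, div_eq_one_iff_eq hne]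
  have h1 := Finset.card_filter_add_card_filter_not (s := (Finset.univ : Finset Ω)) A
  rw [Finset.card_univ] at h1
  rw [← h1]
  push_cast
  ring

lemma pr_pi {I F : Type} [Fintype I] [DecidableEq I] [Fintype F] [Nonempty F] (S : Finset I)
    (A : I → F → Prop) :
    pr (fun κ : I → F => ∀ i ∈ S, A i (κ i)) = ∏ i ∈ S, pr (A i) := by
  classical
  have hne : (Fintype.card F : ℝ) ≠ 0 := by exact_mod_cast Fintype.card_ne_zero
  have h1 : Finset.univ.filter (fun κ : I → F => ∀ i ∈ S, A i (κ i)) =
      Fintype.piFinset (fun i => if i ∈ S then Finset.univ.filter (A i) else Finset.univ) := by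
    ext κ
    rw [Finset.mem_filter, Fintype.mem_piFinset]
    constructor
    · rintro ⟨-, h⟩ i
      split_ifs with hi
      · exact Finset.mem_filter.2 ⟨Finset.mem_univ _, h i hi⟩
      · exact Finset.mem_univ _
    · intro h
      refine ⟨Finset.mem_univ _, fun i hi => ?_⟩
      have := h i
      rw [if_pos hi, Finset.mem_filter] at this
      exact this.2
  have h2 : (Fintype.card (I → F) : ℝ) = ∏ _i : I, (Fintype.card F : ℝ) := by
    rw [Fintype.card_fun, Finset.prod_const, Finset.card_univ]
    push_cast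
    rfl
  simp only [pr_eq]
  rw [h1, Fintype.card_piFinset, h2]
  push_cast
  rw [← Finset.prod_div_distrib]
  rw [← Finset.prod_subset (Finset.subset_univ S)]
  · apply Finset.prod_congr rfl
    intro i hi
    rw [if_pos hi]
  · intro i _ hi
    rw [if_neg hi, Finset.card_univ]
    exact div_self hne

/-- a single coordinate -/
lemma pr_coord {I F : Type} [Fintype I] [DecidableEq I] [Fintype F] [Nonempty F] (i : I)
    (A : F → Prop) : pr (fun κ : I → F => A (κ i)) = pr A := by
  have h := pr_pi {i} (fun _ => A)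
  simp only [Finset.mem_singleton, forall_eq, Finset.prod_singleton] at h
  exact h

/-- two coordinates -/
lemma pr_coord2 {I F : Type} [Fintype I] [DecidableEq I] [Fintype F] [Nonempty F] {i j : I}
    (hij : i ≠ j) (A : F → F → Prop) {ε : ℝ} (h : ∀ f, pr (A f) ≤ ε) :
    pr (fun κ : I → F => A (κ i) (κ j)) ≤ ε := by
  classical
  have hne : (Fintype.card F : ℝ) ≠ 0 := by exact_mod_cast Fintype.card_ne_zero
  have h1 : ∀ f : F, pr (fun κ : I → F => κ i = f ∧ A f (κ j)) ≤ (1 / Fintype.card F) * ε := by
    intro f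
    have h2 := pr_pi {i, j} (fun i' => if i' = i then (fun g => g = f) else A f)
    rw [Finset.prod_pair hij, if_pos rfl, if_neg hij.symm] at h2
    have h3 : pr (fun κ : I → F => κ i = f ∧ A f (κ j)) = pr (fun g : F => g = f) * pr (A f) := by
      rw [← h2]
      congr 1
      funext κ
      simp only [Finset.mem_insert, Finset.mem_singleton, forall_eq_or_imp, forall_eq, if_true,
        if_neg hij.symm]
    rw [h3]
    have h4 : pr (fun g : F => g = f) = 1 / Fintype.card F := by
      rw [pr_eq]
      rw [Finset.filter_eq' Finset.univ f, if_pos (Finset.mem_univ _), Finset.card_singleton]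
      simp
    rw [h4]
    exact mul_le_mul_of_nonneg_left (h f) (by positivity)
  have h5 : pr (fun κ : I → F => A (κ i) (κ j)) ≤
      pr (fun κ : I → F => ∃ f ∈ (Finset.univ : Finset F), κ i = f ∧ A f (κ j)) :=
    pr_mono fun κ hκ => ⟨κ i, Finset.mem_univ _, rfl, hκ⟩
  refine h5.trans ((pr_exists _ _).trans ?_)
  calc ∑ f : F, pr (fun κ : I → F => κ i = f ∧ A f (κ j))
      ≤ ∑ _f : F, (1 / (Fintype.card F : ℝ)) * ε := Finset.sum_le_sum fun f _ => h1 f
    _ = ε := by
        rw [Finset.sum_const, nsmul_eq_mul, Finset.card_univ]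
        field_simp

end prob

section small

/-- the number of small subsets -/
lemma card_small {α : Type} [Fintype α] [DecidableEq α] (m : ℕ) :
    ((Finset.univ : Finset (Finset α)).filter (fun S => S.card ≤ m)).card ≤
      (Fintype.card α + 1) ^ m := by
  classical
  let g : (Fin m → Option α) → Finset α := fun f => Finset.univ.filter (fun a => ∃ i, f i = some a)
  have h1 : (Finset.univ : Finset (Finset α)).filter (fun S => S.card ≤ m) ⊆
      Finset.univ.image g := by
    intro S hS
    rw [Finset.mem_filter] at hS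
    rw [Finset.mem_image]
    refine ⟨fun i => S.toList[i.1]?, Finset.mem_univ _, ?_⟩
    ext a
    simp only [g, Finset.mem_filter, Finset.mem_univ, true_and]
    constructor
    · rintro ⟨i, hi⟩
      have := List.mem_of_getElem? hi
      exact Finset.mem_toList.1 this
    · intro ha
      have h2 := Finset.mem_toList.2 ha
      obtain ⟨n, hn, hn'⟩ := List.mem_iff_getElem.1 h2
      rw [Finset.length_toList] at hn
      refine ⟨⟨n, by omega⟩, ?_⟩
      simp only
      rw [← hn', List.getElem?_eq_getElem]
  calc _ ≤ (Finset.univ.image g).card := Finset.card_le_card h1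
    _ ≤ (Finset.univ : Finset (Fin m → Option α)).card := Finset.card_image_le
    _ = _ := by
        rw [Finset.card_univ, Fintype.card_fun, Fintype.card_option, Fintype.card_fin]

end small

section columns
variable {d : ℕ} {Q : Type} [Fintype Q] [DecidableEq Q] [Nonempty Q]

/-- column of a set -/
def sl (J : Finset (Fin d × Q)) (a : Fin d) : Finset Q :=
  Finset.univ.filter (fun c => (a, c) ∈ J)

omit [Nonempty Q] in
lemma sum_sl (J : Finset (Fin d × Q)) : ∑ a, (sl J a).card = J.card := by
  have h1 : J.card = ∑ x : Fin d × Q, if x ∈ J then 1 else 0 := by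
    rw [← Finset.card_filter]
    simp
  rw [h1, Fintype.sum_prod_type]
  apply Finset.sum_congr rfl
  intro a _
  rw [sl, Finset.card_filter]

omit [Nonempty Q] in
lemma pr_sl (J : Finset (Fin d × Q)) (a : Fin d) :
    pr (fun c : Q => (a, c) ∈ J) = ((sl J a).card : ℝ) / Fintype.card Q := by
  unfold pr sl
  congr!

lemma pr_sl' (J : Finset (Fin d × Q)) (a : Fin d) :
    pr (fun c : Q => (a, c) ∉ J) = 1 - ((sl J a).card : ℝ) / Fintype.card Q := by
  rw [pr_compl, pr_sl]

lemma pr_avoid (J : Finset (Fin d × Q)) :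
    pr (fun f : Fin d → Q => ∀ a, (a, f a) ∉ J) =
      ∏ a, (1 - ((sl J a).card : ℝ) / Fintype.card Q) := by
  have h := pr_pi (Finset.univ : Finset (Fin d)) (fun a (c : Q) => (a, c) ∉ J)
  simp only [Finset.mem_univ, true_implies] at h
  rw [h]
  exact Finset.prod_congr rfl fun a _ => pr_sl' J a

omit [Nonempty Q] in
lemma sl_le (J : Finset (Fin d × Q)) (a : Fin d) :
    ((sl J a).card : ℝ) / Fintype.card Q ≤ 1 := by
  apply div_le_one_of_le₀ _ (by positivity)
  exact_mod_cast Finset.card_le_univ _

/-- upper bound for the probability to avoid a set -/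
lemma pr_avoid_le (J : Finset (Fin d × Q)) :
    pr (fun f : Fin d → Q => ∀ a, (a, f a) ∉ J) ≤
      Real.exp (-((J.card : ℝ) / Fintype.card Q)) := by
  rw [pr_avoid]
  calc ∏ a, (1 - ((sl J a).card : ℝ) / Fintype.card Q)
      ≤ ∏ a, Real.exp (-(((sl J a).card : ℝ) / Fintype.card Q)) := by
        apply Finset.prod_le_prod
        · intro a _
          have := sl_le J a
          linarith
        · intro a _
          have := Real.add_one_le_exp (-(((sl J a).card : ℝ) / Fintype.card Q))
          linarith
    _ = Real.exp (-((J.card : ℝ) / Fintype.card Q)) := by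
        rw [← Real.exp_sum]
        congr 1
        rw [Finset.sum_neg_distrib, ← Finset.sum_div, ← sum_sl J]
        push_cast
        rfl

lemma exp_le_one_sub {x : ℝ} (h0 : 0 ≤ x) (h1 : x ≤ 1 / 2) : Real.exp (-(2 * x)) ≤ 1 - x := by
  have h2 : 0 < 1 - x := by linarith
  have h3 : 1 + x / (1 - x) ≤ Real.exp (x / (1 - x)) := by
    have := Real.add_one_le_exp (x / (1 - x))
    linarith
  have h4 : 1 + x / (1 - x) = 1 / (1 - x) := by field_simp; ring
  have h5 : x / (1 - x) ≤ 2 * x := by
    rw [div_le_iff₀ h2]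
    nlinarith
  have h6 : 1 / (1 - x) ≤ Real.exp (2 * x) := by
    rw [← h4]
    exact h3.trans (Real.exp_le_exp.2 h5)
  rw [Real.exp_neg, ← one_div]
  rw [div_le_iff₀ (Real.exp_pos _)]
  rw [div_le_iff₀ h2] at h6
  linarith

/-- lower bound for the probability to avoid a set -/
lemma le_pr_avoid (J : Finset (Fin d × Q)) (hJ : ∀ a, 2 * (sl J a).card ≤ Fintype.card Q) :
    Real.exp (-(2 * ((J.card : ℝ) / Fintype.card Q))) ≤
      pr (fun f : Fin d → Q => ∀ a, (a, f a) ∉ J) := by
  have hQ : (0 : ℝ) < Fintype.card Q := by exact_mod_cast Fintype.card_pos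
  rw [pr_avoid]
  calc Real.exp (-(2 * ((J.card : ℝ) / Fintype.card Q)))
      = ∏ a, Real.exp (-(2 * (((sl J a).card : ℝ) / Fintype.card Q))) := by
        rw [← Real.exp_sum]
        congr 1
        rw [Finset.sum_neg_distrib, ← Finset.mul_sum, ← Finset.sum_div, ← sum_sl J]
        push_cast
        rfl
    _ ≤ _ := by
        apply Finset.prod_le_prod
        · intro a _; positivity
        · intro a _
          apply exp_le_one_sub (by positivity)
          rw [div_le_iff₀ hQ]
          have h1 : ((2 * (sl J a).card : ℕ) : ℝ) ≤ Fintype.card Q := by exact_mod_cast hJ a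
          push_cast at h1
          linarith

/-- upper tail -/
lemma pr_upper (J : Finset (Fin d × Q)) {r m : ℕ} (hJ : ∀ a, (sl J a).card ≤ r) :
    pr (fun f : Fin d → Q => m ≤ (Finset.univ.filter (fun a => (a, f a) ∈ J)).card) ≤
      (d.choose m : ℝ) * ((r : ℝ) / Fintype.card Q) ^ m := by
  classical
  have h1 : pr (fun f : Fin d → Q => m ≤ (Finset.univ.filter (fun a => (a, f a) ∈ J)).card) ≤
      pr (fun f : Fin d → Q => ∃ S ∈ Finset.powersetCard m (Finset.univ : Finset (Fin d)),
        ∀ a ∈ S, (a, f a) ∈ J) := by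
    apply pr_mono
    intro f hf
    obtain ⟨S, hS, hSm⟩ := Finset.exists_subset_card_eq hf
    refine ⟨S, Finset.mem_powersetCard.2 ⟨Finset.subset_univ _, hSm⟩, ?_⟩
    intro a ha
    exact (Finset.mem_filter.1 (hS ha)).2
  refine h1.trans (pr_exists_le _ _ (by positivity) ?_ ?_)
  · intro S hS
    rw [Finset.mem_powersetCard] at hS
    have h2 := pr_pi S (fun a (c : Q) => (a, c) ∈ J)
    rw [h2, ← hS.2, ← Finset.prod_const]
    apply Finset.prod_le_prod
    · intro a _; exact pr_nonneg _
    · intro a _
      rw [pr_sl]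
      apply div_le_div_of_nonneg_right _ (by positivity)
      exact_mod_cast hJ a
  · rw [Finset.card_powersetCard, Finset.card_univ, Fintype.card_fin]

/-- lower tail -/
lemma pr_lower (J : Finset (Fin d × Q)) {r m : ℕ} (hJ : ∀ a, r ≤ (sl J a).card) :
    pr (fun f : Fin d → Q => (Finset.univ.filter (fun a => (a, f a) ∈ J)).card < m) ≤
      ((d : ℝ) + 1) ^ m *
        Real.exp (-(((r : ℝ) / Fintype.card Q) * ((d : ℝ) - m))) := by
  classical
  have h1 : pr (fun f : Fin d → Q => (Finset.univ.filter (fun a => (a, f a) ∈ J)).card < m) ≤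
      pr (fun f : Fin d → Q => ∃ S ∈ (Finset.univ : Finset (Finset (Fin d))).filter
        (fun S => S.card ≤ m), ∀ a ∈ Sᶜ, (a, f a) ∉ J) := by
    apply pr_mono
    intro f hf
    refine ⟨Finset.univ.filter (fun a => (a, f a) ∈ J), ?_, ?_⟩
    · rw [Finset.mem_filter]
      exact ⟨Finset.mem_univ _, hf.le⟩
    · intro a ha
      rw [Finset.mem_compl, Finset.mem_filter] at ha
      exact fun h => ha ⟨Finset.mem_univ _, h⟩
  refine h1.trans (pr_exists_le _ _ (by positivity) ?_ ?_)
  · intro S hS
    rw [Finset.mem_filter] at hS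
    have h2 := pr_pi Sᶜ (fun a (c : Q) => (a, c) ∉ J)
    rw [h2]
    calc ∏ a ∈ Sᶜ, pr (fun c : Q => (a, c) ∉ J)
        ≤ ∏ _a ∈ Sᶜ, Real.exp (-((r : ℝ) / Fintype.card Q)) := by
          apply Finset.prod_le_prod
          · intro a _; exact pr_nonneg _
          · intro a _
            rw [pr_sl']
            have h3 : (r : ℝ) / Fintype.card Q ≤ ((sl J a).card : ℝ) / Fintype.card Q := by
              apply div_le_div_of_nonneg_right _ (by positivity)
              exact_mod_cast hJ a
            have := Real.add_one_le_exp (-((r : ℝ) / Fintype.card Q))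
            linarith
      _ = Real.exp (-(((r : ℝ) / Fintype.card Q) * ((Sᶜ.card : ℕ) : ℝ))) := by
          rw [Finset.prod_const, ← Real.exp_nat_mul]
          congr 1
          ring
      _ ≤ _ := by
          apply Real.exp_le_exp.2
          apply neg_le_neg
          apply mul_le_mul_of_nonneg_left _ (by positivity)
          rw [Finset.card_compl, Fintype.card_fin]
          have h4 : S.card ≤ m := hS.2
          have h5 : S.card ≤ d := by
            have := Finset.card_le_univ S
            rwa [Fintype.card_fin] at this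
          rw [Nat.cast_sub h5]
          have h6 : (S.card : ℝ) ≤ m := by exact_mod_cast h4
          linarith
  · have h2 := card_small (α := Fin d) m
    rw [Fintype.card_fin] at h2
    have h3 : (((Finset.univ : Finset (Finset (Fin d))).filter
        (fun S => S.card ≤ m)).card : ℝ) ≤ (((d + 1) ^ m : ℕ) : ℝ) := by
      exact_mod_cast h2
    push_cast at h3
    exact h3

end columns

end Pool.Agent.Helper64.Free
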