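import Mathlib
import Pool.Agent.Helper64.FreeProb
import Pool.Agent.Helper64.FreeAdv

set_option autoImplicit false

namespace Pool.Agent.Helper64.Free

open Polynomial in
lemma poly_agree {p : ℕ} [Fact p.Prime] {M : ℕ} {u v : Fin M → ZMod p} (huv : u ≠ v) :
    (Finset.univ.filter (fun b : ZMod p => ∑ i, u i * b ^ (i : ℕ) = ∑ i, v i * b ^ (i : ℕ))).card
      ≤ M := by
  classical
  set f : (ZMod p)[X] := ∑ i : Fin M, C (u i - v i) * X ^ (i : ℕ) with hf
  have hcoeff : ∀ j : Fin M, f.coeff j = u j - v j := by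
    intro j
    rw [hf, finsetSum_coeff]
    simp only [coeff_C_mul, coeff_X_pow]
    rw [Finset.sum_eq_single j]
    · simp
    · intro i _ hij
      have : (j : ℕ) ≠ (i : ℕ) := fun e => hij (Fin.ext e.symm)
      simp [this]
    · simp
  have hne : f ≠ 0 := by
    intro h0
    apply huv
    funext j
    have := hcoeff j
    rw [h0, coeff_zero] at this
    exact (sub_eq_zero.1 this.symm)
  have hdeg : f.natDegree ≤ M := by
    apply natDegree_sum_le_of_forall_le
    intro i _
    refine (natDegree_C_mul_le _ _).trans ?_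
    rw [natDegree_X_pow]
    exact i.2.le
  have hsub : Finset.univ.filter
      (fun b : ZMod p => ∑ i, u i * b ^ (i : ℕ) = ∑ i, v i * b ^ (i : ℕ)) ⊆ f.roots.toFinset := by
    intro b hb
    rw [Finset.mem_filter] at hb
    rw [Multiset.mem_toFinset, mem_roots hne, IsRoot.def, hf, eval_finsetSum]
    simp only [eval_mul, eval_C, eval_pow, eval_X, sub_mul]
    rw [Finset.sum_sub_distrib, hb.2, sub_self]
  calc _ ≤ f.roots.toFinset.card := Finset.card_le_card hsub
    _ ≤ Multiset.card f.roots := Multiset.toFinset_card_le _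
    _ ≤ f.natDegree := card_roots' f
    _ ≤ M := hdeg

/-- lists of bounded length, coded by functions -/
def codeList {X : Type} (n : ℕ) (l : List X) : Fin n → Option X := fun i => l[i.1]?

lemma codeList_inj {X : Type} {n : ℕ} {l l' : List X} (h : l.length ≤ n) (h' : l'.length ≤ n)
    (he : codeList n l = codeList n l') : l = l' := by
  apply List.ext_getElem?
  intro i
  by_cases hi : i < n
  · exact congrFun he ⟨i, hi⟩
  · rw [List.getElem?_eq_none (by omega), List.getElem?_eq_none (by omega)]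

lemma exists_P {X : Type} [Fintype X] {p : ℕ} [Fact p.Prime] {n M : ℕ}
    (h : (Fintype.card X + 1) ^ n ≤ p ^ M) :
    ∃ P : List X → ZMod p → ZMod p, ∀ τ τ', τ ≠ τ' → τ.length ≤ n → τ'.length ≤ n →
      (Finset.univ.filter (fun b => P τ b = P τ' b)).card ≤ M := by
  classical
  have h1 : Fintype.card (Fin n → Option X) ≤ Fintype.card (Fin M → ZMod p) := by
    rw [Fintype.card_fun, Fintype.card_fun, Fintype.card_option, Fintype.card_fin,
      Fintype.card_fin, ZMod.card]
    exact h
  obtain ⟨e⟩ := Function.Embedding.nonempty_of_card_le h1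
  refine ⟨fun τ b => ∑ i, e (codeList n τ) i * b ^ (i : ℕ), ?_⟩
  intro τ τ' hne hτ hτ'
  apply poly_agree
  intro he
  exact hne (codeList_inj hτ hτ' (e.injective he))

section off
variable {X : Type} [Fintype X] [DecidableEq X]

omit [Fintype X] in
lemma mem_Off {R : List X → Finset X} {v : List X} {x : X} :
    x ∈ Off R v ↔ ∃ τ, τ ≠ [] ∧ τ <:+ v ∧ x ∈ R τ := by
  induction v with
  | nil =>
    simp only [Off, Finset.notMem_empty, List.suffix_nil, false_iff, not_exists, not_and]
    intro τ h1 h2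
    exact absurd h2 h1
  | cons i v ih =>
    rw [Off, Finset.mem_union, ih]
    constructor
    · rintro (h | ⟨τ, h1, h2, h3⟩)
      · exact ⟨i :: v, by simp, List.suffix_refl _, h⟩
      · exact ⟨τ, h1, h2.trans (List.suffix_cons _ _), h3⟩
    · rintro ⟨τ, h1, h2, h3⟩
      rw [List.suffix_cons_iff] at h2
      rcases h2 with rfl | h2
      · exact Or.inl h3
      · exact Or.inr ⟨τ, h1, h2, h3⟩

omit [Fintype X] in
lemma Off_suffix {R : List X → Finset X} {u v : List X} (h : u <:+ v) : Off R u ⊆ Off R v := by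
  intro x hx
  rw [mem_Off] at hx ⊢
  obtain ⟨τ, h1, h2, h3⟩ := hx
  exact ⟨τ, h1, h2.trans h, h3⟩

omit [Fintype X] in
lemma Off_mono {R R' : List X → Finset X} (hR : ∀ τ, R τ ⊆ R' τ) (v : List X) :
    Off R v ⊆ Off R' v := by
  intro x hx
  rw [mem_Off] at hx ⊢
  obtain ⟨τ, h1, h2, h3⟩ := hx
  exact ⟨τ, h1, h2, hR τ h3⟩

omit [Fintype X] in
lemma valid_notMem {R : List X → Finset X} (hR : ∀ τ, ∀ i ∈ τ, i ∉ R τ) :
    ∀ v : List X, Valid R v → ∀ i ∈ v, i ∉ Off R v := by
  intro v
  induction v with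
  | nil => intro _ i hi; simp at hi
  | cons j v ih =>
    intro hv i hi hoff
    rw [Off, Finset.mem_union] at hoff
    rcases hoff with h | h
    · exact hR _ i hi h
    · rw [List.mem_cons] at hi
      rcases hi with rfl | hi
      · exact hv.1 h
      · exact ih hv.2 i hi h

/-- longest common suffix -/
lemma exists_lcs {α : Type} (p p' : List α) :
    ∃ u, u <:+ p ∧ u <:+ p' ∧ ∀ τ, τ <:+ p → τ <:+ p' → τ <:+ u := by
  classical
  induction p with
  | nil => exact ⟨[], List.suffix_refl _, List.nil_suffix, fun τ h _ => h⟩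
  | cons x p ih =>
    by_cases h : (x :: p) <:+ p'
    · exact ⟨x :: p, List.suffix_refl _, h, fun τ h1 _ => h1⟩
    · obtain ⟨u, h1, h2, h3⟩ := ih
      refine ⟨u, h1.trans (List.suffix_cons _ _), h2, ?_⟩
      intro τ h4 h5
      rw [List.suffix_cons_iff] at h4
      rcases h4 with rfl | h4
      · exact absurd h5 h
      · exact h3 τ h4 h5

end off

section box
variable {d n M p : ℕ} [Fact p.Prime]

abbrev Pt (d p : ℕ) := Fin d × ZMod p × ZMod p

/-- raw boxes -/
def raw (P : List (Pt d p) → ZMod p → ZMod p) (τ : List (Pt d p)) : Finset (Pt d p) :=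
  Finset.univ.filter (fun x => x.2.2 = P τ x.2.1)

/-- boxes -/
def box (P : List (Pt d p) → ZMod p → ZMod p) (τ : List (Pt d p)) : Finset (Pt d p) :=
  raw P τ \ τ.toFinset

/-- different boxes are almost disjoint -/
def Sep (P : List (Pt d p) → ZMod p → ZMod p) (n M : ℕ) : Prop :=
  ∀ τ τ', τ ≠ τ' → τ.length ≤ n → τ'.length ≤ n →
    (Finset.univ.filter (fun b => P τ b = P τ' b)).card ≤ M

variable {P : List (Pt d p) → ZMod p → ZMod p}

lemma box_sub (τ : List (Pt d p)) : box P τ ⊆ raw P τ := Finset.sdiff_subset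

lemma sl_raw (τ : List (Pt d p)) (a : Fin d) : (sl (raw P τ) a).card = p := by
  have h1 : sl (raw P τ) a = Finset.univ.image (fun b : ZMod p => (b, P τ b)) := by
    ext ⟨b, c⟩
    rw [sl, Finset.mem_filter, raw, Finset.mem_filter, Finset.mem_image]
    simp only [Finset.mem_univ, true_and, Prod.mk.injEq]
    constructor
    · intro h; exact ⟨b, rfl, h.symm⟩
    · rintro ⟨b', rfl, h⟩; exact h.symm
  rw [h1, Finset.card_image_of_injective, Finset.card_univ, ZMod.card]
  intro b b' h
  exact (Prod.mk.inj h).1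

lemma sl_inter (hP : Sep P n M) {τ τ' : List (Pt d p)} (h : τ ≠ τ') (h1 : τ.length ≤ n)
    (h2 : τ'.length ≤ n) (a : Fin d) : (sl (raw P τ ∩ raw P τ') a).card ≤ M := by
  have h3 : sl (raw P τ ∩ raw P τ') a ⊆ (Finset.univ.filter (fun b => P τ b = P τ' b)).image
      (fun b : ZMod p => (b, P τ b)) := by
    rintro ⟨b, c⟩ h
    rw [sl, Finset.mem_filter, Finset.mem_inter, raw, Finset.mem_filter, raw,
      Finset.mem_filter] at h
    simp only [Finset.mem_univ, true_and] at h
    rw [Finset.mem_image]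
    refine ⟨b, ?_, ?_⟩
    · rw [Finset.mem_filter]
      exact ⟨Finset.mem_univ _, by rw [← h.1, ← h.2]⟩
    · rw [h.1]
  exact (Finset.card_le_card h3).trans (Finset.card_image_le.trans (hP τ τ' h h1 h2))

lemma card_inter (hP : Sep P n M) {τ τ' : List (Pt d p)} (h : τ ≠ τ') (h1 : τ.length ≤ n)
    (h2 : τ'.length ≤ n) : (raw P τ ∩ raw P τ').card ≤ d * M := by
  rw [← sum_sl]
  calc ∑ a, (sl (raw P τ ∩ raw P τ') a).card ≤ ∑ _a : Fin d, M :=
        Finset.sum_le_sum fun a _ => sl_inter hP h h1 h2 a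
    _ = d * M := by rw [Finset.sum_const, Finset.card_univ, Fintype.card_fin, smul_eq_mul]

lemma sl_union {J J' : Finset (Pt d p)} (a : Fin d) :
    sl (J ∪ J') a = sl J a ∪ sl J' a := by
  ext c
  simp [sl]

lemma sl_mono {J J' : Finset (Pt d p)} (h : J ⊆ J') (a : Fin d) : sl J a ⊆ sl J' a := by
  intro c hc
  rw [sl, Finset.mem_filter] at hc ⊢
  exact ⟨hc.1, h hc.2⟩

lemma sl_card_le (J : Finset (Pt d p)) (a : Fin d) : (sl J a).card ≤ J.card := by
  rw [← sum_sl J]
  exact Finset.single_le_sum (f := fun a => (sl J a).card) (fun _ _ => Nat.zero_le _)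
    (Finset.mem_univ a)

lemma sl_Off (v : List (Pt d p)) (a : Fin d) : (sl (Off (raw P) v) a).card ≤ v.length * p := by
  induction v with
  | nil => simp [Off, sl]
  | cons i v ih =>
    rw [Off, sl_union]
    refine (Finset.card_union_le _ _).trans ?_
    rw [sl_raw, List.length_cons, Nat.add_mul, one_mul]
    omega

/-- a box is not covered by the boxes of few other lists -/
lemma sl_diff (hP : Sep P n M) {τ v v' : List (Pt d p)} (hτ0 : τ ≠ []) (hτ : τ.length ≤ n)
    (hv : v.length ≤ n) (hv' : v'.length ≤ n) (h : ¬ τ <:+ v) (h' : ¬ τ <:+ v') (a : Fin d) :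
    p ≤ (sl ((raw P τ \ Off (raw P) v) \ Off (raw P) v') a).card + 2 * (n + 1) * M := by
  classical
  have h1 : sl (raw P τ) a ⊆ sl ((raw P τ \ Off (raw P) v) \ Off (raw P) v') a ∪
      ((v.tails.toFinset ∪ v'.tails.toFinset).biUnion
        (fun τ' => if τ' = τ then ∅ else if τ'.length ≤ n then sl (raw P τ ∩ raw P τ') a
          else ∅)) := by
    intro c hc
    rw [sl, Finset.mem_filter] at hc
    rw [Finset.mem_union, Finset.mem_biUnion]
    by_cases hc1 : (a, c) ∈ Off (raw P) v
    · right
      rw [mem_Off] at hc1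
      obtain ⟨τ', h2, h3, h4⟩ := hc1
      refine ⟨τ', ?_, ?_⟩
      · rw [Finset.mem_union, List.mem_toFinset, List.mem_tails]
        exact Or.inl h3
      · rw [if_neg (by rintro rfl; exact h h3), if_pos (h3.length_le.trans hv), sl,
          Finset.mem_filter, Finset.mem_inter]
        exact ⟨Finset.mem_univ _, hc.2, h4⟩
    by_cases hc2 : (a, c) ∈ Off (raw P) v'
    · right
      rw [mem_Off] at hc2
      obtain ⟨τ', h2, h3, h4⟩ := hc2
      refine ⟨τ', ?_, ?_⟩
      · rw [Finset.mem_union, List.mem_toFinset, List.mem_toFinset, List.mem_tails,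
          List.mem_tails]
        exact Or.inr h3
      · rw [if_neg (by rintro rfl; exact h' h3), if_pos (h3.length_le.trans hv'), sl,
          Finset.mem_filter, Finset.mem_inter]
        exact ⟨Finset.mem_univ _, hc.2, h4⟩
    · left
      rw [sl, Finset.mem_filter, Finset.mem_sdiff, Finset.mem_sdiff]
      exact ⟨Finset.mem_univ _, ⟨hc.2, hc1⟩, hc2⟩
  have h2 := Finset.card_le_card h1
  rw [sl_raw] at h2
  refine h2.trans ((Finset.card_union_le _ _).trans (Nat.add_le_add_left ?_ _))
  refine (Finset.card_biUnion_le_card_mul _ _ M ?_).trans ?_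
  · intro τ' _
    split_ifs with h3 h4
    · simp
    · exact sl_inter hP (fun e => h3 e.symm) hτ h4 a
    · simp
  · apply Nat.mul_le_mul_right
    refine (Finset.card_union_le _ _).trans ?_
    have h3 := List.toFinset_card_le v.tails
    have h4 := List.toFinset_card_le v'.tails
    rw [List.length_tails] at h3 h4
    omega

/-- two paths can simultaneously cover a set only along a common suffix -/
lemma common_suffix (hP : Sep P n M) (J : Finset (Pt d p)) {v v' : List (Pt d p)}
    (hv : v.length ≤ n) (hv' : v'.length ≤ n) :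
    ∃ u, u <:+ v ∧ u <:+ v' ∧ ((J ∩ Off (raw P) v) ∩ (J ∩ Off (raw P) v')).card ≤
      (J ∩ Off (raw P) u).card + (n + 1) * (n + 1) * (d * M) := by
  classical
  obtain ⟨u, h1, h2, h3⟩ := exists_lcs v v'
  refine ⟨u, h1, h2, ?_⟩
  have h4 : (J ∩ Off (raw P) v) ∩ (J ∩ Off (raw P) v') ⊆ (J ∩ Off (raw P) u) ∪
      ((v.tails.toFinset ×ˢ v'.tails.toFinset).biUnion
        (fun t => if t.1 = t.2 then ∅ else if t.1.length ≤ n ∧ t.2.length ≤ n then
          raw P t.1 ∩ raw P t.2 else ∅)) := by
    intro x hx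
    rw [Finset.mem_inter, Finset.mem_inter, Finset.mem_inter, mem_Off, mem_Off] at hx
    obtain ⟨⟨hxJ, τ, h4, h5, h6⟩, -, τ', h7, h8, h9⟩ := hx
    rw [Finset.mem_union]
    by_cases he : τ = τ'
    · subst he
      left
      rw [Finset.mem_inter, mem_Off]
      exact ⟨hxJ, τ, h4, h3 τ h5 h8, h6⟩
    · right
      rw [Finset.mem_biUnion]
      refine ⟨(τ, τ'), ?_, ?_⟩
      · rw [Finset.mem_product, List.mem_toFinset, List.mem_toFinset, List.mem_tails,
          List.mem_tails]
        exact ⟨h5, h8⟩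
      · rw [if_neg he, if_pos ⟨h5.length_le.trans hv, h8.length_le.trans hv'⟩,
          Finset.mem_inter]
        exact ⟨h6, h9⟩
  refine (Finset.card_le_card h4).trans ((Finset.card_union_le _ _).trans
    (Nat.add_le_add_left ?_ _))
  refine (Finset.card_biUnion_le_card_mul _ _ (d * M) ?_).trans ?_
  · intro t _
    split_ifs with h5 h6
    · simp
    · exact card_inter hP h5 h6.1 h6.2
    · simp
  · apply Nat.mul_le_mul_right
    rw [Finset.card_product]
    have h3 := List.toFinset_card_le v.tails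
    have h4 := List.toFinset_card_le v'.tails
    rw [List.length_tails] at h3 h4
    exact Nat.mul_le_mul (by omega) (by omega)

end box

end Pool.Agent.Helper64.Free
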