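import Mathlib
import Pool.Agent.Helper64.FreeBox

set_option autoImplicit false

namespace Pool.Agent.Helper64.Free

section design
variable {d n M p m0 : ℕ} [Fact p.Prime]

/-- lists of length at most `n` -/
abbrev Lst (d p n : ℕ) := {l : List (Pt d p) // l.length ≤ n}

/-- all indices -/
abbrev Idx (d p n m0 : ℕ) := Lst d p n × Fin m0

/-- the number of points of the graph of `f` in `J` -/
def hits (f : Fin d → ZMod p × ZMod p) (J : Finset (Pt d p)) : Finset (Fin d) :=
  Finset.univ.filter (fun a => ((a, f a) : Pt d p) ∈ J)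

omit [Fact p.Prime] in
lemma mem_hits {f : Fin d → ZMod p × ZMod p} {J : Finset (Pt d p)} {a : Fin d} :
    a ∈ hits f J ↔ ((a, f a) : Pt d p) ∈ J := by
  simp [hits]

/-- the properties of the random functions -/
structure Rnd (P : List (Pt d p) → ZMod p → ZMod p) (κ : Idx d p n m0 → Fin d → ZMod p × ZMod p)
    (e1 L1 lam1 j0 m th : ℕ) : Prop where
  e1 : ∀ σ (v : Lst d p n), (hits (κ σ) (Off (raw P) v.1)).card < e1
  e2 : ∀ σ σ', σ ≠ σ' → (Finset.univ.filter (fun a => κ σ a = κ σ' a)).card < L1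
  e3 : ∀ σ (τ v : Lst d p n), τ.1 ≠ [] → ¬ τ.1 <:+ v.1 → ¬ τ.1 <:+ σ.1.1 →
    lam1 ≤ (hits (κ σ) ((raw P τ.1 \ Off (raw P) v.1) \ Off (raw P) σ.1.1)).card
  e4 : ∀ (v : Lst d p n) (J : Finset (Pt d p)), J.card ≤ j0 →
    (∀ a, 2 * (sl J a).card ≤ p * p) → ∃ s, ∀ a, ((a, κ (v, s) a) : Pt d p) ∉ J
  e5 : ∀ (J : Finset (Pt d p)) (S : Finset (Idx d p n m0)), J.card = 2 * m → S.card = m →
    ¬ ∀ σ ∈ S, th ≤ (J \ Off (raw P) σ.1.1).card ∧ ∃ j ∈ J,
      ∀ a, ((a, κ σ a) : Pt d p) ∉ (J \ Off (raw P) σ.1.1).erase j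

variable {P : List (Pt d p) → ZMod p → ZMod p} {κ : Idx d p n m0 → Fin d → ZMod p × ZMod p}
  {e1 L1 lam1 j0 m th : ℕ}

/-- the codewords -/
def cw (P : List (Pt d p) → ZMod p → ZMod p) (κ : Idx d p n m0 → Fin d → ZMod p × ZMod p)
    (σ : Idx d p n m0) : Finset (Pt d p) :=
  ((Finset.univ.image (fun a => ((a, κ σ a) : Pt d p))) \ Off (box P) σ.1.1) ∪ σ.1.1.toFinset

lemma mem_cw {σ : Idx d p n m0} {x : Pt d p} :
    x ∈ cw P κ σ ↔ (x.2 = κ σ x.1 ∧ x ∉ Off (box P) σ.1.1) ∨ x ∈ σ.1.1 := by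
  rw [cw, Finset.mem_union, Finset.mem_sdiff, Finset.mem_image, List.mem_toFinset]
  constructor
  · rintro (⟨⟨a, -, rfl⟩, h⟩ | h)
    · exact Or.inl ⟨rfl, h⟩
    · exact Or.inr h
  · rintro (⟨h1, h2⟩ | h)
    · exact Or.inl ⟨⟨x.1, Finset.mem_univ _, by rw [← h1]⟩, h2⟩
    · exact Or.inr h

lemma Off_raw_sub (v : List (Pt d p)) : Off (raw P) v ⊆ Off (box P) v ∪ v.toFinset := by
  intro x hx
  rw [mem_Off] at hx
  obtain ⟨τ, h1, h2, h3⟩ := hx
  rw [Finset.mem_union, mem_Off, List.mem_toFinset]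
  by_cases hxτ : x ∈ τ
  · exact Or.inr (h2.subset hxτ)
  · refine Or.inl ⟨τ, h1, h2, ?_⟩
    rw [box, Finset.mem_sdiff, List.mem_toFinset]
    exact ⟨h3, hxτ⟩

lemma card_le_hits {σ : Idx d p n m0} {S : Finset (Pt d p)} {J : Finset (Pt d p)}
    (h : ∀ x ∈ S, x.2 = κ σ x.1 ∧ x ∈ J) : S.card ≤ (hits (κ σ) J).card := by
  apply Finset.card_le_card_of_injOn (fun x => x.1)
  · intro x hx
    rw [Finset.mem_coe, mem_hits, ← (h x hx).1]
    exact (h x hx).2
  · intro x hx y hy he
    simp only at he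
    have h1 := (h x hx).1
    have h2 := (h y hy).1
    rw [← he, ← h1] at h2
    exact Prod.ext he h2.symm

lemma hits_le_card {σ : Idx d p n m0} {S : Finset (Pt d p)} {J : Finset (Pt d p)}
    (h : ∀ x, x.2 = κ σ x.1 → x ∈ J → x ∈ S) : (hits (κ σ) J).card ≤ S.card := by
  apply Finset.card_le_card_of_injOn (fun a => ((a, κ σ a) : Pt d p))
  · intro a ha
    rw [Finset.mem_coe, mem_hits] at ha
    exact h _ rfl ha
  · intro x _ y _ he
    exact (Prod.mk.inj he).1

/-- the design -/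
noncomputable def mkDesign (hd : d = 4 * e1)
    (hκ : Rnd P κ e1 L1 lam1 j0 m th) {w t0 b0 : ℕ} (hw : w = n) (hj : t0 + b0 ≤ j0)
    (hpb : 2 * (p + b0) ≤ p * p) {lam0 : ℕ} (hlam : lam0 + n ≤ lam1) :
    Design (Pt d p) {σ : Idx d p n m0 // Valid (box P) σ.1.1} w t0 b0 (L1 + 2 * n) lam0
      (e1 + n) (3 * e1) where
  c σ := cw P κ σ.1
  path σ := σ.1.1.1
  R := box P
  mem_path σ i hi := mem_cw.2 (Or.inr hi)
  disj σ v hv := by
    rw [Finset.disjoint_left]
    intro x hx hoff
    have hoff' := Off_suffix hv hoff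
    rcases mem_cw.1 hx with h | h
    · exact h.2 hoff'
    · refine valid_notMem ?_ _ σ.2 x h hoff'
      intro τ i hi hiR
      rw [box, Finset.mem_sdiff, List.mem_toFinset] at hiR
      exact hiR.2 hi
  ext v hv hlen τ Ja Jb hJa hJac hJbc hvJ := by
    rw [hw] at hlen
    have hcol : ∀ a, 2 * (sl (Ja ∪ Jb) a).card ≤ p * p := by
      intro a
      rw [sl_union]
      have h1 := Finset.card_union_le (sl Ja a) (sl Jb a)
      have h2 : (sl Ja a).card ≤ p :=
        (Finset.card_le_card (sl_mono (hJa.trans (box_sub τ)) a)).trans (sl_raw (P := P) τ a).le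
      have h3 := sl_card_le Jb a
      omega
    obtain ⟨s, hs⟩ := hκ.e4 ⟨v, hlen⟩ (Ja ∪ Jb)
      ((Finset.card_union_le _ _).trans (by omega)) hcol
    have key : ∀ x ∈ cw P κ (⟨v, hlen⟩, s), x ∉ Ja ∪ Jb := by
      intro x hx hxJ
      rcases mem_cw.1 hx with h | h
      · apply hs x.1
        rw [← h.1]
        exact hxJ
      · rw [Finset.mem_union] at hxJ
        have := hvJ x h
        tauto
    refine ⟨⟨(⟨v, hlen⟩, s), hv⟩, List.suffix_refl _, ?_, ?_⟩
    · rw [Finset.disjoint_left]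
      intro x hx hxJ
      exact key x hx (Finset.mem_union_left _ hxJ)
    · rw [Finset.disjoint_left]
      intro x hx hxJ
      exact key x hx (Finset.mem_union_right _ hxJ)
  hit i v σ _ hlen hnot := by
    rw [hw] at hlen
    have hv : v.length ≤ n := by rw [List.length_cons] at hlen; omega
    have h1 : lam1 ≤ (hits (κ σ.1)
        ((raw P (i :: v) \ Off (raw P) v) \ Off (raw P) σ.1.1.1)).card :=
      hκ.e3 σ.1 ⟨i :: v, hlen⟩ ⟨v, hv⟩ (by simp)
      (by
        intro h
        have := h.length_le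
        simp only [List.length_cons] at this
        omega) hnot
    have h2 : (hits (κ σ.1) ((raw P (i :: v) \ Off (raw P) v) \ Off (raw P) σ.1.1.1)).card ≤
        (((cw P κ σ.1 ∩ box P (i :: v)) \ Off (box P) v) ∪ (i :: v).toFinset).card := by
      apply hits_le_card
      intro x hx hxJ
      rw [Finset.mem_sdiff, Finset.mem_sdiff] at hxJ
      rw [Finset.mem_union, Finset.mem_sdiff, Finset.mem_inter, mem_cw, List.mem_toFinset, box,
        Finset.mem_sdiff, List.mem_toFinset]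
      by_cases hxl : x ∈ i :: v
      · exact Or.inr hxl
      · left
        refine ⟨⟨Or.inl ⟨hx, ?_⟩, hxJ.1.1, hxl⟩, ?_⟩
        · exact fun h => hxJ.2 (Off_mono box_sub _ h)
        · exact fun h => hxJ.1.2 (Off_mono box_sub _ h)
    have h3 := Finset.card_union_le ((cw P κ σ.1 ∩ box P (i :: v)) \ Off (box P) v)
      (i :: v).toFinset
    have h4 := List.toFinset_card_le (i :: v)
    omega
  off_up v σ hlen := by
    rw [hw] at hlen
    have h1 : (hits (κ σ.1) (Off (raw P) v)).card < e1 := hκ.e1 σ.1 ⟨v, hlen⟩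
    have h2 : cw P κ σ.1 ∩ Off (box P) v ⊆
        (cw P κ σ.1 ∩ Off (box P) v).filter (fun x => x.2 = κ σ.1 x.1) ∪ σ.1.1.1.toFinset := by
      intro x hx
      rw [Finset.mem_union, Finset.mem_filter, List.mem_toFinset]
      have hx' := Finset.mem_inter.1 hx
      rcases mem_cw.1 hx'.1 with h | h
      · exact Or.inl ⟨hx, h.1⟩
      · exact Or.inr h
    have h3 := (Finset.card_le_card h2).trans (Finset.card_union_le _ _)
    have h4 := List.toFinset_card_le σ.1.1.1
    have h5 := σ.1.1.2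
    have h6 : ((cw P κ σ.1 ∩ Off (box P) v).filter (fun x => x.2 = κ σ.1 x.1)).card ≤
        (hits (κ σ.1) (Off (raw P) v)).card := by
      apply card_le_hits
      intro x hx
      rw [Finset.mem_filter, Finset.mem_inter] at hx
      exact ⟨hx.2, Off_mono box_sub _ hx.1.2⟩
    omega
  pair σ σ' hne := by
    have hne' : σ.1 ≠ σ'.1 := fun e => hne (Subtype.ext e)
    have h1 := hκ.e2 σ.1 σ'.1 hne'
    have h2 : cw P κ σ.1 ∩ cw P κ σ'.1 ⊆
        ((cw P κ σ.1).filter (fun x => x.2 = κ σ.1 x.1 ∧ x.2 = κ σ'.1 x.1)) ∪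
          (σ.1.1.1.toFinset ∪ σ'.1.1.1.toFinset) := by
      intro x hx
      rw [Finset.mem_inter] at hx
      rw [Finset.mem_union, Finset.mem_union, Finset.mem_filter, List.mem_toFinset,
        List.mem_toFinset]
      rcases mem_cw.1 hx.1 with h | h
      · rcases mem_cw.1 hx.2 with h' | h'
        · exact Or.inl ⟨hx.1, h.1, h'.1⟩
        · exact Or.inr (Or.inr h')
      · exact Or.inr (Or.inl h)
    have h3 := (Finset.card_le_card h2).trans (Finset.card_union_le _ _)
    have h4 := Finset.card_union_le σ.1.1.1.toFinset σ'.1.1.1.toFinset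
    have h5 := List.toFinset_card_le σ.1.1.1
    have h6 := List.toFinset_card_le σ'.1.1.1
    have h7 := σ.1.1.2
    have h8 := σ'.1.1.2
    have h9 : ((cw P κ σ.1).filter (fun x => x.2 = κ σ.1 x.1 ∧ x.2 = κ σ'.1 x.1)).card ≤
        (Finset.univ.filter (fun a => κ σ.1 a = κ σ'.1 a)).card := by
      apply Finset.card_le_card_of_injOn (fun x => x.1)
      · intro x hx
        rw [Finset.mem_coe, Finset.mem_filter] at hx
        rw [Finset.mem_coe, Finset.mem_filter]
        exact ⟨Finset.mem_univ _, by rw [← hx.2.1, ← hx.2.2]⟩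
      · intro x hx y hy he
        rw [Finset.mem_coe, Finset.mem_filter] at hx hy
        simp only at he
        have h1 := hx.2.1
        have h2 := hy.2.1
        rw [← he, ← h1] at h2
        exact Prod.ext he h2.symm
    omega
  size σ := by
    have h1 := hκ.e1 σ.1 σ.1.1
    have h2 : (Finset.univ \ hits (κ σ.1) (Off (raw P) σ.1.1.1)).card ≤ (cw P κ σ.1).card := by
      apply Finset.card_le_card_of_injOn (fun a => ((a, κ σ.1 a) : Pt d p))
      · intro a ha
        rw [Finset.mem_coe, Finset.mem_sdiff, mem_hits] at ha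
        rw [Finset.mem_coe, mem_cw]
        exact Or.inl ⟨rfl, fun h => ha.2 (Off_mono box_sub _ h)⟩
      · intro x _ y _ he
        exact (Prod.mk.inj he).1
    have h3 := Finset.card_sdiff_add_card_eq_card
      (Finset.subset_univ (hits (κ σ.1) (Off (raw P) σ.1.1.1)))
    rw [Finset.card_univ, Fintype.card_fin] at h3
    omega

/-- upper bound for the size of a codeword -/
lemma card_cw (σ : Idx d p n m0) : (cw P κ σ).card ≤ d + n := by
  rw [cw]
  refine (Finset.card_union_le _ _).trans ?_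
  have h1 := List.toFinset_card_le σ.1.1
  have h2 := σ.1.2
  have h3 : (Finset.univ.image (fun a => ((a, κ σ a) : Pt d p)) \ Off (box P) σ.1.1).card ≤ d := by
    refine (Finset.card_le_card Finset.sdiff_subset).trans (Finset.card_image_le.trans ?_)
    rw [Finset.card_univ, Fintype.card_fin]
  omega

/-- sets all of whose points are private are small -/
lemma private_bound (hP : Sep P n M) (hκ : Rnd P κ e1 L1 lam1 j0 m th)
    (hm : 2 * th + (n + 1) * (n + 1) * (d * M) + n ≤ m) {J0 : Finset (Pt d p)}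
    (hpriv : ∀ j ∈ J0, ∃ σ : Idx d p n m0, Valid (box P) σ.1.1 ∧ j ∈ cw P κ σ ∧
      ∀ j' ∈ J0, j' ∈ cw P κ σ → j' = j) : J0.card < 2 * m := by
  classical
  by_contra hcon
  push Not at hcon
  obtain ⟨J, hJ, hJc⟩ := Finset.exists_subset_card_eq hcon
  have hpriv' : ∀ j : Pt d p, ∃ σ : Idx d p n m0, j ∈ J → Valid (box P) σ.1.1 ∧ j ∈ cw P κ σ ∧
      ∀ j' ∈ J, j' ∈ cw P κ σ → j' = j := by
    intro j
    by_cases hj : j ∈ J
    · obtain ⟨σ, h1, h2, h3⟩ := hpriv j (hJ hj)
      exact ⟨σ, fun _ => ⟨h1, h2, fun j' hj' => h3 j' (hJ hj')⟩⟩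
    · by_cases hne : J.Nonempty
      · obtain ⟨j', hj'⟩ := hne
        obtain ⟨σ, -⟩ := hpriv j' (hJ hj')
        exact ⟨σ, fun h => absurd h hj⟩
      · rw [Finset.not_nonempty_iff_eq_empty] at hne
        exfalso
        rw [hne, Finset.card_empty] at hJc
        exact hκ.e5 ∅ ∅ (by simp; omega) (by simp; omega) (by simp)
  choose σ hσ using hpriv'
  have hinj : ∀ j ∈ J, ∀ j' ∈ J, σ j = σ j' → j = j' := by
    intro j hj j' hj' he
    have h1 := (hσ j hj).2.1
    rw [he] at h1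
    exact (hσ j' hj').2.2 j hj h1
  set Gd := J.filter (fun j => th ≤ (J \ Off (raw P) (σ j).1.1).card) with hGd
  have hGdc : Gd.card < m := by
    by_contra hcon2
    push Not at hcon2
    obtain ⟨G', hG', hGc⟩ := Finset.exists_subset_card_eq hcon2
    have hG'J : ∀ j ∈ G', j ∈ J := fun j hj => (Finset.mem_filter.1 (hG' hj)).1
    apply hκ.e5 J (G'.image σ) hJc
    · rw [Finset.card_image_of_injOn, hGc]
      intro j hj j' hj' he
      exact hinj j (hG'J j hj) j' (hG'J j' hj') he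
    · intro s hs
      rw [Finset.mem_image] at hs
      obtain ⟨j, hj, rfl⟩ := hs
      refine ⟨(Finset.mem_filter.1 (hG' hj)).2, j, hG'J j hj, ?_⟩
      intro a ha
      rw [Finset.mem_erase, Finset.mem_sdiff] at ha
      apply ha.1
      apply (hσ j (hG'J j hj)).2.2 _ ha.2.1
      rw [mem_cw]
      exact Or.inl ⟨rfl, fun h => ha.2.2 (Off_mono box_sub _ h)⟩
  set Bd := J.filter (fun j => ¬ th ≤ (J \ Off (raw P) (σ j).1.1).card) with hBd
  have hsum : Gd.card + Bd.card = 2 * m := by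
    rw [hGd, hBd, Finset.card_filter_add_card_filter_not, hJc]
  have hBdJ : ∀ j ∈ Bd, j ∈ J := fun j hj => (Finset.mem_filter.1 hj).1
  have hcov : ∀ j ∈ Bd, 2 * m < (J ∩ Off (raw P) (σ j).1.1).card + th := by
    intro j hj
    have h1 := (Finset.mem_filter.1 hj).2
    have h2 := Finset.card_sdiff_add_card_inter J (Off (raw P) (σ j).1.1)
    omega
  have hBne : Bd.Nonempty := by
    rw [← Finset.card_pos]; omega
  obtain ⟨j1, hj1⟩ := hBne
  have hu : ∀ j : Pt d p, ∃ u : List (Pt d p), j ∈ Bd → u <:+ (σ j1).1.1 ∧ u <:+ (σ j).1.1 ∧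
      2 * m ≤ (J ∩ Off (raw P) u).card + 2 * th + (n + 1) * (n + 1) * (d * M) := by
    intro j
    by_cases hj : j ∈ Bd
    · obtain ⟨u, h1, h2, h3⟩ := common_suffix hP J (σ j1).1.2 (σ j).1.2
      refine ⟨u, fun _ => ⟨h1, h2, ?_⟩⟩
      have h4 := hcov j1 hj1
      have h5 := hcov j hj
      have h6 := Finset.card_union_add_card_inter (J ∩ Off (raw P) (σ j1).1.1)
        (J ∩ Off (raw P) (σ j).1.1)
      have h7 : ((J ∩ Off (raw P) (σ j1).1.1) ∪ (J ∩ Off (raw P) (σ j).1.1)).card ≤ J.card := by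
        apply Finset.card_le_card
        exact Finset.union_subset Finset.inter_subset_left Finset.inter_subset_left
      omega
    · exact ⟨[], fun h => absurd h hj⟩
  choose u hu using hu
  obtain ⟨j2, hj2, hmin⟩ := Finset.exists_min_image Bd (fun j => (u j).length) ⟨j1, hj1⟩
  have hall : ∀ j ∈ Bd, u j2 <:+ (σ j).1.1 := by
    intro j hj
    have h1 : u j2 <:+ u j :=
      List.suffix_of_suffix_length_le (hu j2 hj2).1 (hu j hj).1 (hmin j hj)
    exact h1.trans (hu j hj).2.1
  have hout : ∀ j ∈ Bd, j ∉ Off (box P) (u j2) := by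
    intro j hj hoff
    have h1 := Off_suffix (hall j hj) hoff
    have h2 := hσ j (hBdJ j hj)
    rcases mem_cw.1 h2.2.1 with h | h
    · exact h.2 h1
    · refine valid_notMem ?_ _ h2.1 j h h1
      intro τ i hi hiR
      rw [box, Finset.mem_sdiff, List.mem_toFinset] at hiR
      exact hiR.2 hi
  have h1 : Bd ∪ (J ∩ Off (raw P) (u j2)) ⊆ J :=
    Finset.union_subset (Finset.filter_subset _ _) Finset.inter_subset_left
  have h2 : Bd ∩ (J ∩ Off (raw P) (u j2)) ⊆ (u j2).toFinset := by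
    intro j hj
    rw [Finset.mem_inter, Finset.mem_inter] at hj
    have h3 := Off_raw_sub _ hj.2.2
    rw [Finset.mem_union] at h3
    exact h3.resolve_left (hout j hj.1)
  have h3 := Finset.card_union_add_card_inter Bd (J ∩ Off (raw P) (u j2))
  have h4 := Finset.card_le_card h1
  have h5 := (Finset.card_le_card h2).trans (List.toFinset_card_le _)
  have h6 := (hu j2 hj2).2.2
  have h7 := (hu j2 hj2).1.length_le
  have h8 := (σ j1).1.2
  omega

end design

end Pool.Agent.Helper64.Free
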