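import Mathlib
import Pool.Agent.Helper64.FreeDesign

set_option autoImplicit false

namespace Pool.Agent.Helper64.Free

lemma exp_neg_le {x : ℝ} {N : ℕ} (h : (N : ℝ) ≤ x) : Real.exp (-x) ≤ (1 / 2) ^ N := by
  have h1 : (2 : ℝ) ≤ Real.exp 1 := by
    have := Real.add_one_le_exp (1 : ℝ)
    linarith
  have h2 : Real.exp (-x) ≤ Real.exp (-(N : ℝ)) := Real.exp_le_exp.2 (by linarith)
  refine h2.trans ?_
  have h3 : Real.exp (-(N : ℝ)) = (Real.exp (-1)) ^ N := by
    rw [← Real.exp_nat_mul]; congr 1; ring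
  rw [h3]
  apply pow_le_pow_left₀ (Real.exp_pos _).le
  rw [Real.exp_neg, ← one_div]
  exact one_div_le_one_div_of_le (by norm_num) h1

lemma le_exp_neg {x : ℝ} {y : ℕ} (h : x ≤ y) : ((1 : ℝ) / 2) ^ (3 * y) ≤ Real.exp (-(2 * x)) := by
  have h1 : Real.exp 2 ≤ 8 := by
    have h2 := Real.exp_one_lt_d9
    have h3 : Real.exp 2 = Real.exp 1 * Real.exp 1 := by rw [← Real.exp_add]; norm_num
    have h4 := Real.exp_pos 1
    rw [h3]
    nlinarith
  have h2 : Real.exp (-(2 * (y : ℝ))) ≤ Real.exp (-(2 * x)) := Real.exp_le_exp.2 (by linarith)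
  refine le_trans ?_ h2
  have h3 : Real.exp (-(2 * (y : ℝ))) = (Real.exp (-2)) ^ y := by
    rw [← Real.exp_nat_mul]; congr 1; ring
  rw [h3, pow_mul]
  apply pow_le_pow_left₀ (by positivity)
  rw [Real.exp_neg, ← one_div]
  have h4 : ((1 : ℝ) / 2) ^ 3 = 1 / 8 := by norm_num
  rw [h4]
  exact one_div_le_one_div_of_le (Real.exp_pos _) h1

section rnd
variable {d n M p m0 : ℕ} [Fact p.Prime]

noncomputable instance : Fintype (Lst d p n) :=
  haveI : Finite (Lst d p n) := (List.finite_length_le (Pt d p) n).to_subtype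
  Fintype.ofFinite _

noncomputable instance instBig : Fintype (Idx d p n m0 → Fin d → ZMod p × ZMod p) :=
  Pi.instFintype

lemma card_Lst : Fintype.card (Lst d p n) ≤ (Fintype.card (Pt d p) + 1) ^ n := by
  have h1 : Function.Injective (fun l : Lst d p n => codeList n l.1) := by
    intro l l' h
    exact Subtype.ext (codeList_inj l.2 l'.2 h)
  have h2 := Fintype.card_le_of_injective _ h1
  rwa [Fintype.card_fun, Fintype.card_option, Fintype.card_fin] at h2

variable {P : List (Pt d p) → ZMod p → ZMod p} {e1 L1 lam1 j0 m th : ℕ}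

lemma card_Q : (Fintype.card (ZMod p × ZMod p) : ℝ) = (p : ℝ) * p := by
  rw [Fintype.card_prod, ZMod.card]
  push_cast
  rfl

lemma p_pos : (0 : ℝ) < p := by
  have : p.Prime := Fact.out
  exact_mod_cast this.pos

lemma half_pow {a b : ℕ} (h : a + 3 ≤ b) : (2 : ℝ) ^ a * (1 / 2) ^ b ≤ 1 / 8 := by
  obtain ⟨c, rfl⟩ := Nat.exists_eq_add_of_le h
  have h1 : (2 : ℝ) ^ a * (1 / 2) ^ (a + 3 + c) = (1 / 8) * (1 / 2) ^ c := by
    rw [pow_add, pow_add]
    have : (2 : ℝ) ^ a * (1 / 2) ^ a = 1 := by rw [← mul_pow]; norm_num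
    calc (2 : ℝ) ^ a * ((1 / 2) ^ a * (1 / 2) ^ 3 * (1 / 2) ^ c)
        = ((2 : ℝ) ^ a * (1 / 2) ^ a) * (1 / 2) ^ 3 * (1 / 2) ^ c := by ring
      _ = _ := by rw [this]; norm_num
  rw [h1]
  have h2 : ((1 : ℝ) / 2) ^ c ≤ 1 := pow_le_one₀ (by norm_num) (by norm_num)
  linarith

/-- first event -/
lemma ev1 (P : List (Pt d p) → ZMod p → ZMod p) {I l : ℕ} (hI : Fintype.card (Idx d p n m0) ≤ 2 ^ I)
    (hl : Fintype.card (Lst d p n) ≤ 2 ^ l) (hd : d = 4 * e1) (hp : 32 * n ≤ p)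
    (he : I + l + 3 ≤ e1) :
    pr (fun κ : Idx d p n m0 → Fin d → ZMod p × ZMod p => ∃ σ ∈ (Finset.univ : Finset _),
      ∃ v ∈ (Finset.univ : Finset (Lst d p n)), e1 ≤ (hits (κ σ) (Off (raw P) v.1)).card)
      ≤ 1 / 8 := by
  have hp0 : (0 : ℝ) < p := p_pos
  have key : ∀ v : Lst d p n, pr (fun f : Fin d → ZMod p × ZMod p =>
      e1 ≤ (hits f (Off (raw P) v.1)).card) ≤ (1 / 2) ^ e1 := by
    intro v
    have h1 := pr_upper (Off (raw P) v.1) (r := n * p) (m := e1)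
      (fun a => (sl_Off v.1 a).trans (Nat.mul_le_mul_right _ v.2))
    refine h1.trans ?_
    rw [card_Q]
    have h2 : ((d.choose e1 : ℕ) : ℝ) ≤ 16 ^ e1 := by
      have h3 := Nat.choose_le_two_pow d e1
      have h4 : (2 : ℕ) ^ d = 16 ^ e1 := by rw [hd, pow_mul]; norm_num
      rw [h4] at h3
      exact_mod_cast h3
    have h3 : ((n * p : ℕ) : ℝ) / ((p : ℝ) * p) ≤ 1 / 32 := by
      rw [div_le_div_iff₀ (by positivity) (by norm_num)]
      push_cast
      have h4 : (32 * n : ℝ) ≤ p := by exact_mod_cast hp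
      nlinarith
    calc ((d.choose e1 : ℕ) : ℝ) * (((n * p : ℕ) : ℝ) / ((p : ℝ) * p)) ^ e1
        ≤ 16 ^ e1 * (1 / 32) ^ e1 := by
          apply mul_le_mul h2 (pow_le_pow_left₀ (by positivity) h3 _) (by positivity)
            (by positivity)
      _ = (1 / 2) ^ e1 := by rw [← mul_pow]; norm_num
  have h1 : ∀ σ ∈ (Finset.univ : Finset (Idx d p n m0)),
      pr (fun κ : Idx d p n m0 → Fin d → ZMod p × ZMod p =>
        ∃ v ∈ (Finset.univ : Finset (Lst d p n)), e1 ≤ (hits (κ σ) (Off (raw P) v.1)).card)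
        ≤ 2 ^ l * (1 / 2) ^ e1 := by
    intro σ _
    apply pr_exists_le _ _ (by positivity)
    · intro v _
      rw [pr_coord σ (fun f : Fin d → ZMod p × ZMod p =>
        e1 ≤ (hits f (Off (raw P) v.1)).card)]
      exact key v
    · rw [Finset.card_univ]
      exact_mod_cast hl
  refine (pr_exists_le _ _ (by positivity) h1 (n := 2 ^ I) ?_).trans ?_
  · rw [Finset.card_univ]
    exact_mod_cast hI
  · rw [← mul_assoc, ← pow_add]
    exact half_pow he

/-- second event -/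
lemma ev2 {I : ℕ} (hI : Fintype.card (Idx d p n m0) ≤ 2 ^ I) (hd : 2 * d ≤ p * p)
    (hL : 2 * I + 3 ≤ L1) :
    pr (fun κ : Idx d p n m0 → Fin d → ZMod p × ZMod p => ∃ σ ∈ (Finset.univ : Finset _),
      ∃ σ' ∈ (Finset.univ : Finset (Idx d p n m0)), σ ≠ σ' ∧
        L1 ≤ (Finset.univ.filter (fun a => κ σ a = κ σ' a)).card) ≤ 1 / 8 := by
  have hp0 : (0 : ℝ) < p := p_pos
  have key : ∀ f : Fin d → ZMod p × ZMod p, pr (fun g : Fin d → ZMod p × ZMod p =>
      L1 ≤ (Finset.univ.filter (fun a => f a = g a)).card) ≤ (1 / 2) ^ L1 := by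
    intro f
    set J : Finset (Pt d p) := Finset.univ.filter (fun x => x.2 = f x.1) with hJ
    have hsl : ∀ a, (sl J a).card ≤ 1 := by
      intro a
      have : sl J a = {f a} := by
        ext c
        rw [sl, Finset.mem_filter, hJ, Finset.mem_filter, Finset.mem_singleton]
        simp
      rw [this, Finset.card_singleton]
    have h1 := pr_upper J (r := 1) (m := L1) hsl
    have h2 : pr (fun g : Fin d → ZMod p × ZMod p =>
        L1 ≤ (Finset.univ.filter (fun a => f a = g a)).card) ≤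
        pr (fun g : Fin d → ZMod p × ZMod p =>
          L1 ≤ (Finset.univ.filter (fun a => ((a, g a) : Pt d p) ∈ J)).card) := by
      apply pr_mono
      intro g hg
      refine hg.trans (Finset.card_le_card ?_)
      intro a ha
      rw [Finset.mem_filter] at ha ⊢
      exact ⟨ha.1, by rw [hJ, Finset.mem_filter]; exact ⟨Finset.mem_univ _, ha.2.symm⟩⟩
    refine h2.trans (h1.trans ?_)
    rw [card_Q]
    have h3 : ((d.choose L1 : ℕ) : ℝ) ≤ (d : ℝ) ^ L1 := by exact_mod_cast Nat.choose_le_pow d L1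
    calc ((d.choose L1 : ℕ) : ℝ) * (((1 : ℕ) : ℝ) / ((p : ℝ) * p)) ^ L1
        ≤ (d : ℝ) ^ L1 * (((1 : ℕ) : ℝ) / ((p : ℝ) * p)) ^ L1 :=
          mul_le_mul_of_nonneg_right h3 (by positivity)
      _ = ((d : ℝ) / ((p : ℝ) * p)) ^ L1 := by rw [← mul_pow]; congr 1; push_cast; ring
      _ ≤ (1 / 2) ^ L1 := by
          apply pow_le_pow_left₀ (by positivity)
          rw [div_le_div_iff₀ (by positivity) (by norm_num)]
          have h4 : (2 * d : ℝ) ≤ p * p := by exact_mod_cast hd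
          linarith
  have h1 : ∀ σ ∈ (Finset.univ : Finset (Idx d p n m0)),
      pr (fun κ : Idx d p n m0 → Fin d → ZMod p × ZMod p =>
        ∃ σ' ∈ (Finset.univ : Finset (Idx d p n m0)), σ ≠ σ' ∧
          L1 ≤ (Finset.univ.filter (fun a => κ σ a = κ σ' a)).card) ≤ 2 ^ I * (1 / 2) ^ L1 := by
    intro σ _
    apply pr_exists_le _ _ (by positivity)
    · intro σ' _
      by_cases hne : σ = σ'
      · have h2 : pr (fun κ : Idx d p n m0 → Fin d → ZMod p × ZMod p => σ ≠ σ' ∧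
          L1 ≤ (Finset.univ.filter (fun a => κ σ a = κ σ' a)).card) ≤ 0 := by
          classical
          rw [pr_eq, Finset.filter_false_of_mem]
          · simp
          · intro κ _ h
            exact h.1 hne
        exact h2.trans (by positivity)
      · refine (pr_mono (fun κ h => h.2)).trans ?_
        exact pr_coord2 hne (fun f g : Fin d → ZMod p × ZMod p =>
          L1 ≤ (Finset.univ.filter (fun a => f a = g a)).card) key
    · rw [Finset.card_univ]
      exact_mod_cast hI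
  refine (pr_exists_le _ _ (by positivity) h1 (n := 2 ^ I) ?_).trans ?_
  · rw [Finset.card_univ]
    exact_mod_cast hI
  · rw [← mul_assoc, ← pow_add]
    exact half_pow (by omega)

/-- third event -/
lemma ev3 {I l D E : ℕ} (hP : Sep P n M) (hI : Fintype.card (Idx d p n m0) ≤ 2 ^ I)
    (hl : Fintype.card (Lst d p n) ≤ 2 ^ l) (hp : 4 * (n + 1) * M + 1 ≤ p)
    (hd : d + 1 ≤ 2 ^ D) (hE : 2 * p * (E + 1) ≤ d) (hlam : lam1 ≤ 2 * p)
    (hall : I + l + l + D * lam1 + 3 ≤ E) :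
    pr (fun κ : Idx d p n m0 → Fin d → ZMod p × ZMod p => ∃ σ ∈ (Finset.univ : Finset _),
      ∃ τ ∈ (Finset.univ : Finset (Lst d p n)), ∃ v ∈ (Finset.univ : Finset (Lst d p n)),
      (τ.1 ≠ [] ∧ ¬ τ.1 <:+ v.1 ∧ ¬ τ.1 <:+ σ.1.1) ∧
        (hits (κ σ) ((raw P τ.1 \ Off (raw P) v.1) \ Off (raw P) σ.1.1)).card < lam1)
      ≤ 1 / 8 := by
  have hp0 : (0 : ℝ) < p := p_pos
  have key : ∀ τ v v' : Lst d p n, τ.1 ≠ [] → ¬ τ.1 <:+ v.1 → ¬ τ.1 <:+ v'.1 →
      pr (fun f : Fin d → ZMod p × ZMod p =>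
      (hits f ((raw P τ.1 \ Off (raw P) v.1) \ Off (raw P) v'.1)).card < lam1) ≤
        2 ^ (D * lam1) * (1 / 2) ^ E := by
    intro τ v v' h1 h2 h3
    have h4 := pr_lower ((raw P τ.1 \ Off (raw P) v.1) \ Off (raw P) v'.1)
      (r := (p + 1) / 2) (m := lam1) (by
        intro a
        have := sl_diff hP h1 τ.2 v.2 v'.2 h2 h3 a
        have h5 : 2 * (n + 1) * M * 2 + 1 ≤ p := by
          calc 2 * (n + 1) * M * 2 + 1 = 4 * (n + 1) * M + 1 := by ring
            _ ≤ p := hp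
        omega)
    refine h4.trans ?_
    rw [card_Q]
    apply mul_le_mul _ _ (by positivity) (by positivity)
    · have h5 : ((d : ℝ) + 1) ≤ 2 ^ D := by exact_mod_cast hd
      rw [pow_mul]
      exact pow_le_pow_left₀ (by positivity) h5 _
    · apply exp_neg_le
      have h5 : (p : ℝ) ≤ 2 * (((p + 1) / 2 : ℕ) : ℝ) := by
        have : p ≤ 2 * ((p + 1) / 2) := by omega
        exact_mod_cast this
      have h6 : (1 : ℝ) / (2 * p) ≤ (((p + 1) / 2 : ℕ) : ℝ) / ((p : ℝ) * p) := by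
        rw [div_le_div_iff₀ (by positivity) (by positivity)]
        nlinarith
      have h7 : (2 * p * (E + 1) : ℝ) ≤ d := by exact_mod_cast hE
      have h8 : (lam1 : ℝ) ≤ 2 * p := by exact_mod_cast hlam
      have h9 : (2 * p * E : ℝ) ≤ (d : ℝ) - lam1 := by nlinarith
      have h10 : (0 : ℝ) ≤ (d : ℝ) - lam1 := le_trans (by positivity) h9
      calc (E : ℝ) = 1 / (2 * p) * (2 * p * E) := by field_simp
        _ ≤ 1 / (2 * p) * ((d : ℝ) - lam1) := mul_le_mul_of_nonneg_left h9 (by positivity)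
        _ ≤ _ := mul_le_mul_of_nonneg_right h6 h10
  have h1 : ∀ σ ∈ (Finset.univ : Finset (Idx d p n m0)),
      pr (fun κ : Idx d p n m0 → Fin d → ZMod p × ZMod p =>
      ∃ τ ∈ (Finset.univ : Finset (Lst d p n)), ∃ v ∈ (Finset.univ : Finset (Lst d p n)),
      (τ.1 ≠ [] ∧ ¬ τ.1 <:+ v.1 ∧ ¬ τ.1 <:+ σ.1.1) ∧
        (hits (κ σ) ((raw P τ.1 \ Off (raw P) v.1) \ Off (raw P) σ.1.1)).card < lam1)
        ≤ 2 ^ l * (2 ^ l * (2 ^ (D * lam1) * (1 / 2) ^ E)) := by
    intro σ _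
    apply pr_exists_le _ _ (by positivity)
    · intro τ _
      apply pr_exists_le _ _ (by positivity)
      · intro v _
        by_cases hc : τ.1 ≠ [] ∧ ¬ τ.1 <:+ v.1 ∧ ¬ τ.1 <:+ σ.1.1
        · refine (pr_mono (fun κ h => h.2)).trans ?_
          rw [pr_coord σ (fun f : Fin d → ZMod p × ZMod p =>
            (hits f ((raw P τ.1 \ Off (raw P) v.1) \ Off (raw P) σ.1.1)).card < lam1)]
          exact key τ v σ.1 hc.1 hc.2.1 hc.2.2
        · classical
          rw [pr_eq, Finset.filter_false_of_mem]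
          · simp only [Finset.card_empty, Nat.cast_zero, zero_div]
            positivity
          · intro κ _ h
            exact hc h.1
      · rw [Finset.card_univ]
        exact_mod_cast hl
    · rw [Finset.card_univ]
      exact_mod_cast hl
  refine (pr_exists_le _ _ (by positivity) h1 (n := 2 ^ I) ?_).trans ?_
  · rw [Finset.card_univ]
    exact_mod_cast hI
  · have h2 : (2 : ℝ) ^ I * (2 ^ l * (2 ^ l * (2 ^ (D * lam1) * (1 / 2) ^ E))) =
        2 ^ (I + l + l + D * lam1) * (1 / 2) ^ E := by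
      rw [pow_add, pow_add, pow_add]; ring
    rw [h2]
    exact half_pow hall

/-- fourth event -/
lemma ev4 {l K y z : ℕ} (hl : Fintype.card (Lst d p n) ≤ 2 ^ l)
    (hK : Fintype.card (Pt d p) + 1 ≤ 2 ^ K) (hj : j0 ≤ y * (p * p)) (hm0 : m0 = 2 ^ (3 * y + z))
    (hall : l + K * j0 + 3 ≤ 2 ^ z) :
    pr (fun κ : Idx d p n m0 → Fin d → ZMod p × ZMod p =>
      ∃ v ∈ (Finset.univ : Finset (Lst d p n)), ∃ J ∈ (Finset.univ : Finset
        (Finset (Pt d p))).filter (fun J => J.card ≤ j0), (∀ a, 2 * (sl J a).card ≤ p * p) ∧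
        ∀ s, ∃ a, ((a, κ (v, s) a) : Pt d p) ∈ J) ≤ 1 / 8 := by
  have hp0 : (0 : ℝ) < p := p_pos
  have key : ∀ (v : Lst d p n) (J : Finset (Pt d p)), J.card ≤ j0 →
      pr (fun κ : Idx d p n m0 → Fin d → ZMod p × ZMod p =>
        (∀ a, 2 * (sl J a).card ≤ p * p) ∧ ∀ s, ∃ a, ((a, κ (v, s) a) : Pt d p) ∈ J) ≤
        (1 / 2) ^ (2 ^ z) := by
    intro v J hJ
    by_cases hc : ∀ a, 2 * (sl J a).card ≤ p * p
    swap
    · classical
      rw [pr_eq, Finset.filter_false_of_mem]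
      · simp only [Finset.card_empty, Nat.cast_zero, zero_div]
        positivity
      · intro κ _ h
        exact hc h.1
    have h1 := le_pr_avoid J (by
      intro a
      rw [Fintype.card_prod, ZMod.card]
      exact hc a)
    rw [card_Q] at h1
    have h2 : ((1 : ℝ) / 2) ^ (3 * y) ≤ pr (fun f : Fin d → ZMod p × ZMod p =>
        ∀ a, ((a, f a) : Pt d p) ∉ J) := by
      refine le_trans (le_exp_neg ?_) h1
      rw [div_le_iff₀ (by positivity)]
      have : (J.card : ℝ) ≤ ((y * (p * p) : ℕ) : ℝ) := by exact_mod_cast hJ.trans hj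
      push_cast at this
      exact this
    have h3 : pr (fun κ : Idx d p n m0 → Fin d → ZMod p × ZMod p =>
        (∀ a, 2 * (sl J a).card ≤ p * p) ∧ ∀ s, ∃ a, ((a, κ (v, s) a) : Pt d p) ∈ J) ≤
        pr (fun κ : Idx d p n m0 → Fin d → ZMod p × ZMod p =>
          ∀ i ∈ (Finset.univ : Finset (Fin m0)).image (fun s => (v, s)),
            ¬ ∀ a, ((a, κ i a) : Pt d p) ∉ J) := by
      apply pr_mono
      intro κ h i hi
      rw [Finset.mem_image] at hi
      obtain ⟨s, -, rfl⟩ := hi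
      push Not
      exact h.2 s
    refine h3.trans ?_
    have h4 := pr_pi ((Finset.univ : Finset (Fin m0)).image (fun s => (v, s)))
      (fun (_ : Idx d p n m0) (f : Fin d → ZMod p × ZMod p) => ¬ ∀ a, ((a, f a) : Pt d p) ∉ J)
    rw [h4, Finset.prod_const, Finset.card_image_of_injective, Finset.card_univ,
      Fintype.card_fin]
    · have h5 : pr (fun f : Fin d → ZMod p × ZMod p => ¬ ∀ a, ((a, f a) : Pt d p) ∉ J) ≤
          Real.exp (-((1 / 2) ^ (3 * y))) := by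
        rw [pr_compl]
        have := Real.add_one_le_exp (-(((1 : ℝ) / 2) ^ (3 * y)))
        linarith
      calc pr (fun f : Fin d → ZMod p × ZMod p => ¬ ∀ a, ((a, f a) : Pt d p) ∉ J) ^ m0
          ≤ (Real.exp (-((1 / 2) ^ (3 * y)))) ^ m0 :=
            pow_le_pow_left₀ (pr_nonneg _) h5 _
        _ = Real.exp (-((2 : ℝ) ^ z)) := by
            rw [← Real.exp_nat_mul]
            congr 1
            rw [hm0]
            push_cast
            rw [pow_add]
            have : (2 : ℝ) ^ (3 * y) * (1 / 2) ^ (3 * y) = 1 := by rw [← mul_pow]; norm_num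
            calc (2 : ℝ) ^ (3 * y) * 2 ^ z * -((1 / 2) ^ (3 * y))
                = -((2 : ℝ) ^ (3 * y) * (1 / 2) ^ (3 * y) * 2 ^ z) := by ring
              _ = _ := by rw [this, one_mul]
        _ ≤ _ := exp_neg_le (by push_cast; exact le_refl _)
    · intro s s' h
      exact (Prod.mk.inj h).2
  have h1 : ∀ v ∈ (Finset.univ : Finset (Lst d p n)),
      pr (fun κ : Idx d p n m0 → Fin d → ZMod p × ZMod p =>
      ∃ J ∈ (Finset.univ : Finset (Finset (Pt d p))).filter (fun J => J.card ≤ j0),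
        (∀ a, 2 * (sl J a).card ≤ p * p) ∧ ∀ s, ∃ a, ((a, κ (v, s) a) : Pt d p) ∈ J) ≤
      2 ^ (K * j0) * (1 / 2) ^ (2 ^ z) := by
    intro v _
    apply pr_exists_le _ _ (by positivity)
    · intro J hJ
      rw [Finset.mem_filter] at hJ
      exact key v J hJ.2
    · have h2 := card_small (α := Pt d p) j0
      have h3 : (Fintype.card (Pt d p) + 1) ^ j0 ≤ 2 ^ (K * j0) := by
        rw [pow_mul]
        exact Nat.pow_le_pow_left hK _
      exact_mod_cast h2.trans h3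
  refine (pr_exists_le _ _ (by positivity) h1 (n := 2 ^ l) ?_).trans ?_
  · rw [Finset.card_univ]
    exact_mod_cast hl
  · rw [← mul_assoc, ← pow_add]
    exact half_pow hall

/-- fifth event -/
lemma ev5 (P : List (Pt d p) → ZMod p → ZMod p) {I K c E : ℕ} (hI : Fintype.card (Idx d p n m0) ≤ 2 ^ I)
    (hK : Fintype.card (Pt d p) + 1 ≤ 2 ^ K) (hm : 1 ≤ m) (hc : 2 * m ≤ 2 ^ c)
    (hth : E * (p * p) + 1 ≤ th) (hall : 2 * K + (I + 1) + c + 3 ≤ E) :
    pr (fun κ : Idx d p n m0 → Fin d → ZMod p × ZMod p =>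
      ∃ J ∈ (Finset.univ : Finset (Finset (Pt d p))).filter (fun J => J.card ≤ 2 * m),
      ∃ S ∈ (Finset.univ : Finset (Finset (Idx d p n m0))).filter (fun S => S.card ≤ m),
        (J.card = 2 * m ∧ S.card = m) ∧ ∀ σ ∈ S, th ≤ (J \ Off (raw P) σ.1.1).card ∧ ∃ j ∈ J,
      ∀ a, ((a, κ σ a) : Pt d p) ∉ (J \ Off (raw P) σ.1.1).erase j) ≤ 1 / 8 := by
  classical
  have hp0 : (0 : ℝ) < p := p_pos
  have key : ∀ (J : Finset (Pt d p)) (v : Lst d p n), J.card ≤ 2 * m →
      pr (fun f : Fin d → ZMod p × ZMod p => th ≤ (J \ Off (raw P) v.1).card ∧ ∃ j ∈ J,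
      ∀ a, ((a, f a) : Pt d p) ∉ (J \ Off (raw P) v.1).erase j) ≤ 2 ^ c * (1 / 2) ^ E := by
    intro J v hJ
    by_cases ht : th ≤ (J \ Off (raw P) v.1).card
    swap
    · rw [pr_eq, Finset.filter_false_of_mem]
      · simp only [Finset.card_empty, Nat.cast_zero, zero_div]
        positivity
      · intro κ _ h
        exact ht h.1
    refine (pr_mono (fun f h => h.2)).trans ?_
    apply pr_exists_le _ _ (by positivity)
    · intro j _
      refine (pr_avoid_le _).trans ?_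
      apply exp_neg_le
      rw [card_Q, le_div_iff₀ (by positivity)]
      have h1 : E * (p * p) ≤ ((J \ Off (raw P) v.1).erase j).card := by
        have := Finset.pred_card_le_card_erase (s := J \ Off (raw P) v.1) (a := j)
        omega
      exact_mod_cast h1
    · exact_mod_cast hJ.trans hc
  have h1 : ∀ J ∈ (Finset.univ : Finset (Finset (Pt d p))).filter (fun J => J.card ≤ 2 * m),
      pr (fun κ : Idx d p n m0 → Fin d → ZMod p × ZMod p =>
      ∃ S ∈ (Finset.univ : Finset (Finset (Idx d p n m0))).filter (fun S => S.card ≤ m),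
        (J.card = 2 * m ∧ S.card = m) ∧ ∀ σ ∈ S, th ≤ (J \ Off (raw P) σ.1.1).card ∧ ∃ j ∈ J,
      ∀ a, ((a, κ σ a) : Pt d p) ∉ (J \ Off (raw P) σ.1.1).erase j) ≤
        (2 ^ (I + 1)) ^ m * (2 ^ c * (1 / 2) ^ E) ^ m := by
    intro J hJ
    rw [Finset.mem_filter] at hJ
    apply pr_exists_le _ _ (by positivity)
    · intro S _
      by_cases hS : S.card = m
      swap
      · rw [pr_eq, Finset.filter_false_of_mem]
        · simp only [Finset.card_empty, Nat.cast_zero, zero_div]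
          positivity
        · intro κ _ h
          exact hS h.1.2
      refine (pr_mono (fun κ h => h.2)).trans ?_
      have h2 := pr_pi S (fun (σ : Idx d p n m0) (f : Fin d → ZMod p × ZMod p) =>
        th ≤ (J \ Off (raw P) σ.1.1).card ∧ ∃ j ∈ J,
          ∀ a, ((a, f a) : Pt d p) ∉ (J \ Off (raw P) σ.1.1).erase j)
      rw [h2]
      calc _ ≤ ∏ _σ ∈ S, ((2 : ℝ) ^ c * (1 / 2) ^ E) := by
            apply Finset.prod_le_prod
            · intro σ _; exact pr_nonneg _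
            · intro σ _; exact key J σ.1 hJ.2
        _ = _ := by rw [Finset.prod_const, hS]
    · have h2 := card_small (α := Idx d p n m0) m
      have h3 : (Fintype.card (Idx d p n m0) + 1) ^ m ≤ (2 ^ (I + 1)) ^ m := by
        apply Nat.pow_le_pow_left
        have : 1 ≤ 2 ^ I := Nat.one_le_two_pow
        rw [pow_succ]
        omega
      exact_mod_cast h2.trans h3
  refine (pr_exists_le _ _ (by positivity) h1 (n := (2 ^ (2 * K)) ^ m) ?_).trans ?_
  · have h2 := card_small (α := Pt d p) (2 * m)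
    have h3 : (Fintype.card (Pt d p) + 1) ^ (2 * m) ≤ (2 ^ (2 * K)) ^ m := by
      have h4 : ((2 : ℕ) ^ (2 * K)) ^ m = (2 ^ K) ^ (2 * m) := by
        rw [← pow_mul, ← pow_mul]; congr 1; ring
      rw [h4]
      exact Nat.pow_le_pow_left hK _
    exact_mod_cast h2.trans h3
  · rw [← mul_pow, ← mul_pow]
    have h2 : (2 : ℝ) ^ (2 * K) * (2 ^ (I + 1) * (2 ^ c * (1 / 2) ^ E)) ≤ 1 / 8 := by
      have h3 : (2 : ℝ) ^ (2 * K) * (2 ^ (I + 1) * (2 ^ c * (1 / 2) ^ E)) =
          2 ^ (2 * K + (I + 1) + c) * (1 / 2) ^ E := by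
        rw [pow_add, pow_add]; ring
      rw [h3]
      exact half_pow hall
    calc ((2 : ℝ) ^ (2 * K) * (2 ^ (I + 1) * (2 ^ c * (1 / 2) ^ E))) ^ m
        ≤ (1 / 8) ^ m := pow_le_pow_left₀ (by positivity) h2 _
      _ ≤ (1 / 8) ^ 1 := pow_le_pow_of_le_one (by norm_num) (by norm_num) hm
      _ = _ := pow_one _

/-- existence of the random functions -/
theorem exists_Rnd {I l D E K y z c E5 : ℕ} (hP : Sep P n M)
    (hI : Fintype.card (Idx d p n m0) ≤ 2 ^ I)
    (hl : Fintype.card (Lst d p n) ≤ 2 ^ l) (hK : Fintype.card (Pt d p) + 1 ≤ 2 ^ K)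
    (hd1 : d = 4 * e1) (hp1 : 32 * n ≤ p) (he1 : I + l + 3 ≤ e1)
    (hd2 : 2 * d ≤ p * p) (hL : 2 * I + 3 ≤ L1)
    (hp3 : 4 * (n + 1) * M + 1 ≤ p) (hd3 : d + 1 ≤ 2 ^ D) (hE : 2 * p * (E + 1) ≤ d)
    (hlam : lam1 ≤ 2 * p) (hall3 : I + l + l + D * lam1 + 3 ≤ E)
    (hj : j0 ≤ y * (p * p)) (hm0 : m0 = 2 ^ (3 * y + z)) (hall4 : l + K * j0 + 3 ≤ 2 ^ z)
    (hm : 1 ≤ m) (hc : 2 * m ≤ 2 ^ c) (hth : E5 * (p * p) + 1 ≤ th)
    (hall5 : 2 * K + (I + 1) + c + 3 ≤ E5) :
    ∃ κ : Idx d p n m0 → Fin d → ZMod p × ZMod p, Rnd P κ e1 L1 lam1 j0 m th := by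
  classical
  have h1 := ev1 (P := P) (m0 := m0) hI hl hd1 hp1 he1
  have h2 := ev2 (m0 := m0) hI hd2 hL
  have h3 := ev3 (m0 := m0) hP hI hl hp3 hd3 hE hlam hall3
  have h4 := ev4 (m0 := m0) hl hK hj hm0 hall4
  have h5 := ev5 (P := P) (m0 := m0) hI hK hm hc hth hall5
  by_contra hcon
  push Not at hcon
  obtain ⟨κ, hκ⟩ := exists_of_pr (A := fun κ => (((_ ∨ _) ∨ _) ∨ _) ∨ _)
    (lt_of_le_of_lt (pr_or _ _) (lt_of_le_of_lt (add_le_add_left (pr_or _ _) _)
      (lt_of_le_of_lt (add_le_add_left (add_le_add_left (pr_or _ _) _) _)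
      (lt_of_le_of_lt (add_le_add_left (add_le_add_left (add_le_add_left (pr_or _ _) _) _) _)
      (lt_of_le_of_lt (add_le_add (add_le_add (add_le_add (add_le_add h1 h2) h3) h4) h5)
        (by norm_num))))))
  push Not at hκ
  obtain ⟨⟨⟨⟨k1, k2⟩, k3⟩, k4⟩, k5⟩ := hκ
  apply hcon κ
  refine ⟨?_, ?_, ?_, ?_, ?_⟩
  · intro σ v
    exact k1 σ (Finset.mem_univ _) v (Finset.mem_univ _)
  · intro σ σ' hne
    exact k2 σ (Finset.mem_univ _) σ' (Finset.mem_univ _) hne
  · intro σ τ v h1 h2 h3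
    exact k3 σ (Finset.mem_univ _) τ (Finset.mem_univ _) v (Finset.mem_univ _) ⟨h1, h2, h3⟩
  · intro v J hJ hcol
    exact k4 v (Finset.mem_univ _) J (Finset.mem_filter.2 ⟨Finset.mem_univ _, hJ⟩) hcol
  · intro J S hJ hS hall
    obtain ⟨σ, h1, h2⟩ := k5 J (Finset.mem_filter.2 ⟨Finset.mem_univ _, hJ.le⟩) S
      (Finset.mem_filter.2 ⟨Finset.mem_univ _, hS.le⟩) ⟨hJ, hS⟩
    obtain ⟨h3, j, hj, h4⟩ := hall σ h1
    obtain ⟨a, ha⟩ := h2 h3 j hj
    exact h4 a ha

end rnd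

end Pool.Agent.Helper64.Free
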