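import Mathlib
import Pool.Agent.Helper64.FreeMain
import Pool.Agent.Helper64.FreeRnd

set_option autoImplicit false

namespace Pool.Agent.Helper64.Free

section general
variable {V : Type} [DecidableEq V]

lemma Rep.isDualPair {F G : Finset (Finset V)} {φ : Finset V → Prop} (h : Rep F G φ) :
    IsDualPair F G := by
  have key : ∀ {F G : Finset (Finset V)} {φ : Finset V → Prop}, Rep F G φ →
      (fun S : Finset V => ∀ I ∈ F, (S ∩ I).Nonempty) = Dual φ := by
    intro F G φ h
    funext S
    apply propext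
    constructor
    · intro hS T hT
      obtain ⟨I, hI, hIT⟩ := (h.true_iff T).1 hT
      obtain ⟨x, hx⟩ := hS I hI
      rw [Finset.mem_inter] at hx
      exact ⟨x, Finset.mem_inter.2 ⟨hIT hx.2, hx.1⟩⟩
    · intro hS I hI
      rw [Finset.inter_comm]
      exact hS I ((h.F_iff I).1 hI).1
  constructor
  · intro T
    rw [key h]
    exact h.G_iff T
  · intro T
    rw [key h.symm, h.dual_dual]
    exact h.F_iff T

def supp (F : Finset (Finset V)) : Finset V := F.biUnion id

lemma mem_supp {F : Finset (Finset V)} {x : V} : x ∈ supp F ↔ ∃ I ∈ F, x ∈ I := by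
  simp [supp]

lemma minimize_sub (F : Finset (Finset V)) : minimize F ⊆ F := Finset.filter_subset _ _

lemma exists_run {s : ℕ} (hs : 1 ≤ s) : ∀ (n : ℕ) (F G : Finset (Finset V)),
    (supp F ∪ supp G).card ≤ n → ∃ k, Run s F G k := by
  intro n
  induction n with
  | zero =>
    intro F G h
    have h1 : supp F ∪ supp G = ∅ := Finset.card_eq_zero.1 (Nat.le_zero.1 h)
    have h3 : F ⊆ {∅} := by
      intro I hI
      rw [Finset.mem_singleton, Finset.eq_empty_iff_forall_notMem]
      intro x hx
      have : x ∈ supp F ∪ supp G := Finset.mem_union_left _ (mem_supp.2 ⟨I, hI, hx⟩)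
      rw [h1] at this
      simp at this
    have h4 := Finset.card_le_card h3
    rw [Finset.card_singleton] at h4
    exact ⟨1, Run.stop (by omega)⟩
  | succ n ih =>
    intro F G h
    by_cases hx : ∃ x, (∃ I ∈ F, x ∈ I) ∨ ∃ J ∈ G, x ∈ J
    · obtain ⟨x, hx⟩ := hx
      have hxs : x ∈ supp F ∪ supp G := by
        rcases hx with ⟨I, hI, hxI⟩ | ⟨J, hJ, hxJ⟩
        · exact Finset.mem_union_left _ (mem_supp.2 ⟨I, hI, hxI⟩)
        · exact Finset.mem_union_right _ (mem_supp.2 ⟨J, hJ, hxJ⟩)
      have hcard : ((supp F ∪ supp G).erase x).card ≤ n := by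
        rw [Finset.card_erase_of_mem hxs]; omega
      have key : ∀ F' G' : Finset (Finset V),
          (∀ I ∈ F', x ∉ I ∧ ∀ y ∈ I, y ∈ supp F ∪ supp G) →
          (∀ I ∈ G', x ∉ I ∧ ∀ y ∈ I, y ∈ supp F ∪ supp G) → ∃ k, Run s F' G' k := by
        intro F' G' h1 h2
        apply ih
        refine le_trans (Finset.card_le_card ?_) hcard
        intro y hy
        rw [Finset.mem_union, mem_supp, mem_supp] at hy
        rw [Finset.mem_erase]
        rcases hy with ⟨I, hI, hyI⟩ | ⟨I, hI, hyI⟩
        · exact ⟨fun h => (h1 I hI).1 (h ▸ hyI), (h1 I hI).2 y hyI⟩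
        · exact ⟨fun h => (h2 I hI).1 (h ▸ hyI), (h2 I hI).2 y hyI⟩
      have sF : ∀ I ∈ F, ∀ y ∈ I, y ∈ supp F ∪ supp G := fun I hI y hy =>
        Finset.mem_union_left _ (mem_supp.2 ⟨I, hI, hy⟩)
      have sG : ∀ I ∈ G, ∀ y ∈ I, y ∈ supp F ∪ supp G := fun I hI y hy =>
        Finset.mem_union_right _ (mem_supp.2 ⟨I, hI, hy⟩)
      have mF : ∀ A : Finset (Finset V), (∀ I ∈ A, ∀ y ∈ I, y ∈ supp F ∪ supp G) →
          ∀ I ∈ minimize (A.image (fun J => J.erase x)), x ∉ I ∧ ∀ y ∈ I,
            y ∈ supp F ∪ supp G := by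
        intro A hA I hI
        have h1 := minimize_sub _ hI
        rw [Finset.mem_image] at h1
        obtain ⟨J, hJ, rfl⟩ := h1
        exact ⟨Finset.notMem_erase _ _, fun y hy => hA J hJ y (Finset.mem_of_mem_erase hy)⟩
      have wF : ∀ A : Finset (Finset V), (∀ I ∈ A, ∀ y ∈ I, y ∈ supp F ∪ supp G) →
          ∀ I ∈ without A x, x ∉ I ∧ ∀ y ∈ I, y ∈ supp F ∪ supp G := by
        intro A hA I hI
        rw [without, Finset.mem_filter] at hI
        exact ⟨hI.2, fun y hy => hA I hI.1 y hy⟩
      obtain ⟨k0, hk0⟩ := key _ _ (wF F sF) (mF G sG)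
      obtain ⟨k1, hk1⟩ := key _ _ (mF F sF) (wF G sG)
      exact ⟨_, Run.split x k0 k1 hx hk0 hk1⟩
    · push Not at hx
      have h3 : F ⊆ {∅} := by
        intro I hI
        rw [Finset.mem_singleton, Finset.eq_empty_iff_forall_notMem]
        intro x hx'
        exact (hx x).1 I hI hx'
      have h4 := Finset.card_le_card h3
      rw [Finset.card_singleton] at h4
      exact ⟨1, Run.stop (by omega)⟩

end general

section inst
variable {X ι : Type} [Fintype X] [DecidableEq X] {B : ℕ}

open Classical in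
noncomputable def famF (c : ι → Finset X) (B : ℕ) : Finset (Finset (Var X B)) :=
  Finset.univ.filter (Minimal (tru c))

open Classical in
noncomputable def famG (c : ι → Finset X) (B : ℕ) : Finset (Finset (Var X B)) :=
  Finset.univ.filter (Minimal (Dual (tru c)))

lemma rep_fam (c : ι → Finset X) (B : ℕ) : Rep (famF c B) (famG c B) (tru c) := by
  refine ⟨?_, ?_, ?_⟩
  · rintro S T hST ⟨σ, hσ⟩
    refine ⟨σ, fun i hi v => ?_⟩
    obtain ⟨b, hb⟩ := hσ i hi v
    exact ⟨b, hST hb⟩
  · intro T; simp [famF]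
  · intro T; simp [famG]

lemma phi_none (c : ι → Finset X) : phi c (fun _ : Var X B => none) = tru c := by
  funext T
  simp [phi, tru]

open Classical in
/-- number of minimal true sets -/
lemma card_famF [Fintype ι] (c : ι → Finset X) {z : ℕ} (hz : ∀ σ, (c σ).card ≤ z) :
    (famF c B).card ≤ Fintype.card ι * 2 ^ (z * B) := by
  let T : ι → Finset (X × Fin B) → Finset (Var X B) := fun σ S =>
    Finset.univ.filter (fun y => y.1 ∈ c σ ∧ y.2.2 = decide ((y.1, y.2.1) ∈ S))
  have h1 : famF c B ⊆ (Finset.univ : Finset ι).biUnion (fun σ =>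
      ((c σ ×ˢ (Finset.univ : Finset (Fin B))).powerset).image (T σ)) := by
    intro A hA
    rw [famF, Finset.mem_filter] at hA
    obtain ⟨⟨σ, hσ⟩, hmin⟩ := hA.2
    set S : Finset (X × Fin B) := (c σ ×ˢ (Finset.univ : Finset (Fin B))).filter
      (fun q => ((q.1, q.2, true) : Var X B) ∈ A) with hS
    have hTA : T σ S ⊆ A := by
      rintro ⟨i, v, b⟩ hy
      simp only [T, Finset.mem_filter, Finset.mem_univ, true_and] at hy
      by_cases hq : (i, v) ∈ S
      · rw [decide_eq_true hq] at hy
        rw [hS, Finset.mem_filter] at hq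
        rw [hy.2]
        exact hq.2
      · rw [decide_eq_false hq] at hy
        obtain ⟨b', hb'⟩ := hσ i hy.1 v
        rw [hy.2]
        cases b' with
        | false => exact hb'
        | true =>
          exfalso
          apply hq
          rw [hS, Finset.mem_filter, Finset.mem_product]
          exact ⟨⟨hy.1, Finset.mem_univ _⟩, hb'⟩
    have hT : tru c (T σ S) := by
      refine ⟨σ, fun i hi v => ⟨decide ((i, v) ∈ S), ?_⟩⟩
      simp only [T, Finset.mem_filter, Finset.mem_univ, true_and]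
      exact ⟨hi, trivial⟩
    rw [Finset.mem_biUnion]
    refine ⟨σ, Finset.mem_univ _, Finset.mem_image.2 ⟨S, ?_, ?_⟩⟩
    · rw [Finset.mem_powerset]
      exact Finset.filter_subset _ _
    · exact Finset.Subset.antisymm hTA (hmin hT hTA)
  refine (Finset.card_le_card h1).trans ?_
  refine Finset.card_biUnion_le_card_mul _ _ _ ?_
  intro σ _
  refine Finset.card_image_le.trans ?_
  rw [Finset.card_powerset, Finset.card_product, Finset.card_univ, Fintype.card_fin]
  exact Nat.pow_le_pow_right (by norm_num) (Nat.mul_le_mul_right _ (hz σ))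

open Classical in
/-- number of minimal transversals -/
lemma card_famG (c : ι → Finset X) {T0 : ℕ}
    (hpriv : ∀ J0 : Finset X, (∀ j ∈ J0, ∃ σ, j ∈ c σ ∧ ∀ j' ∈ J0, j' ∈ c σ → j' = j) →
      J0.card ≤ T0) :
    (famG c B).card ≤ (Fintype.card X * B + 1) ^ T0 := by
  let g : Finset (X × Fin B) → Finset (Var X B) := fun P =>
    Finset.univ.filter (fun y => (y.1, y.2.1) ∈ P)
  have h1 : famG c B ⊆ ((Finset.univ : Finset (Finset (X × Fin B))).filter
      (fun P => P.card ≤ T0)).image g := by
    intro J hJ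
    rw [famG, Finset.mem_filter] at hJ
    obtain ⟨hD, hmin⟩ := hJ.2
    set P : Finset (X × Fin B) := Finset.univ.filter
      (fun q => ∀ b : Bool, ((q.1, q.2, b) : Var X B) ∈ J) with hP
    have hPm : ∀ q, q ∈ P ↔ ∀ b : Bool, ((q.1, q.2, b) : Var X B) ∈ J := by
      intro q; rw [hP, Finset.mem_filter]; simp
    -- `P` hits every codeword
    have hhit : ∀ σ, ∃ q ∈ P, q.1 ∈ c σ := by
      intro σ
      by_contra hcon
      push Not at hcon
      have h2 : ∀ (i : X) (v : Fin B), ∃ b : Bool, i ∈ c σ → ((i, v, b) : Var X B) ∉ J := by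
        intro i v
        by_cases hi : i ∈ c σ
        · have h3 : (i, v) ∉ P := fun h => hcon _ h hi
          rw [hPm] at h3
          push Not at h3
          obtain ⟨b, hb⟩ := h3
          exact ⟨b, fun _ => hb⟩
        · exact ⟨true, fun h => absurd h hi⟩
      choose f hf using h2
      have h3 : tru c (Finset.univ.filter (fun y : Var X B => y.1 ∈ c σ ∧
          y.2.2 = f y.1 y.2.1)) := by
        refine ⟨σ, fun i hi v => ⟨f i v, ?_⟩⟩
        rw [Finset.mem_filter]
        exact ⟨Finset.mem_univ _, hi, rfl⟩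
      obtain ⟨y, hy⟩ := hD _ h3
      rw [Finset.mem_inter, Finset.mem_filter] at hy
      apply hf y.1 y.2.1 hy.1.2.1
      rw [← hy.1.2.2]
      exact hy.2
    -- private true sets
    have hpr : ∀ y ∈ J, ∃ σ, y.1 ∈ c σ ∧ (y.1, y.2.1) ∈ P ∧
        ∀ q ∈ P, q.1 ∈ c σ → q = (y.1, y.2.1) := by
      intro y hy
      have h2 : ¬ Dual (tru c) (J.erase y) := by
        intro h3
        exact Finset.notMem_erase y J (hmin h3 (Finset.erase_subset _ _) hy)
      unfold Dual at h2
      push Not at h2
      obtain ⟨S, ⟨σ, hσ⟩, hS2⟩ := h2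
      have h3 : ∀ z ∈ S, z ∈ J → z = y := by
        intro z hz hzJ
        by_contra hne
        have : z ∈ S ∩ J.erase y := Finset.mem_inter.2 ⟨hz, Finset.mem_erase.2 ⟨hne, hzJ⟩⟩
        rw [hS2] at this
        simp at this
      have h4 : ∀ q ∈ P, q.1 ∈ c σ → q = (y.1, y.2.1) := by
        intro q hq hqc
        obtain ⟨b, hb⟩ := hσ q.1 hqc q.2
        have := h3 _ hb ((hPm q).1 hq b)
        rw [← this]
      obtain ⟨q, hq, hqc⟩ := hhit σ
      have h5 := h4 q hq hqc
      refine ⟨σ, ?_, ?_, h4⟩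
      · have : q.1 = y.1 := by rw [h5]
        rw [← this]; exact hqc
      · rw [← h5]; exact hq
    rw [Finset.mem_image]
    refine ⟨P, ?_, ?_⟩
    · rw [Finset.mem_filter]
      refine ⟨Finset.mem_univ _, ?_⟩
      have h2 : (P.image Prod.fst).card ≤ T0 := by
        apply hpriv
        intro j hj
        rw [Finset.mem_image] at hj
        obtain ⟨q, hq, rfl⟩ := hj
        obtain ⟨σ, h3, -, h5⟩ := hpr (q.1, q.2, true) ((hPm q).1 hq true)
        refine ⟨σ, h3, ?_⟩
        intro j' hj' hjc
        rw [Finset.mem_image] at hj'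
        obtain ⟨q', hq', rfl⟩ := hj'
        have := h5 q' hq' hjc
        rw [this]
      rw [Finset.card_image_of_injOn] at h2
      · exact h2
      · intro q hq q' hq' he
        rw [Finset.mem_coe] at hq hq'
        obtain ⟨σ, h3, -, h5⟩ := hpr (q.1, q.2, true) ((hPm q).1 hq true)
        have h6 := h5 q' hq' (by rw [← he]; exact h3)
        have h7 := h5 q hq h3
        rw [h6, h7]
    · ext y
      simp only [g, Finset.mem_filter, Finset.mem_univ, true_and]
      constructor
      · intro hy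
        exact (hPm _).1 hy y.2.2
      · intro hy
        obtain ⟨σ, -, h3, -⟩ := hpr y hy
        exact h3
  refine (Finset.card_le_card h1).trans (Finset.card_image_le.trans ?_)
  have h2 := card_small (α := X × Fin B) T0
  rw [Fintype.card_prod, Fintype.card_fin] at h2
  exact h2

end inst

section start
variable {X ι : Type} [Fintype X] [DecidableEq X] {w t0 b0 L lam0 lam1 dmin : ℕ} {β μ H0 s : ℕ}

omit [Fintype X] [DecidableEq X] in
lemma wt_none (i : X) : wt (fun _ : Var X (2 * β) => none) i = 2 ^ (2 * β) - 1 := by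
  classical
  have h1 : ¬ bdead (fun _ : Var X (2 * β) => none) i := by
    rintro ⟨v, hv⟩
    have := hv true
    simp at this
  have h2 : fr (fun _ : Var X (2 * β) => none) i = 2 * β := by
    unfold fr
    rw [Finset.filter_true_of_mem, Finset.card_univ, Fintype.card_fin]
    intro v _ b
    rfl
  have h3 : sg (fun _ : Var X (2 * β) => none) i = 0 := by
    unfold sg
    rw [Finset.card_eq_zero, Finset.filter_eq_empty_iff]
    intro v _ h
    exact h.2.2 (fun b => rfl)
  unfold wt
  rw [if_neg h1, h2, h3, add_zero]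

theorem run_lower (D : Design X ι w t0 b0 L lam0 lam1 dmin)
    (hP : Params w t0 b0 L lam0 lam1 dmin β μ H0 s) {k : ℕ}
    (hr : Run s (famF D.c (2 * β)) (famG D.c (2 * β)) k) : 2 ^ (μ * w) ≤ k := by
  classical
  have hst : St D (fun _ : Var X (2 * β) => none) [] ∅ ∅ ∅ w := by
    refine ⟨trivial, ?_, ?_, ?_, ?_, ?_, ?_, ?_, ?_, ?_, ?_⟩ <;> simp
  have hrep := rep_fam D.c (2 * β)
  rw [← phi_none] at hrep
  have h1 := adversary hP hr _ _ _ _ _ _ hst hrep
  unfold Good at h1
  rw [Finset.prod_congr rfl (fun i _ => wt_none i), Finset.prod_const] at h1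
  have h2 : 0 < (2 ^ (2 * β) - 1) ^ (On D [] ∅ ∅).card := by
    apply pow_pos
    have h3 := hP.hβ
    have h4 : 2 ^ 1 ≤ 2 ^ (2 * β) := Nat.pow_le_pow_right (by norm_num) (by omega)
    omega
  exact Nat.le_of_mul_le_mul_right h1 h2

end start

end Pool.Agent.Helper64.Free
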