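import Mathlib
import Pool.Agent.Helper64.FreeFinal

set_option autoImplicit false

namespace Pool.Agent.Helper64.Free

lemma event_exp : ∃ N0 : ℕ, ∀ n : ℕ, N0 ≤ n → 256 * n ^ 48 ≤ 2 ^ n := by
  have h := tendsto_pow_const_div_const_pow_of_one_lt 48 (r := (2 : ℝ)) (by norm_num)
  have h2 := h.eventually (gt_mem_nhds (show (0 : ℝ) < 1 / 256 by norm_num))
  rw [Filter.eventually_atTop] at h2
  obtain ⟨N0, hN0⟩ := h2
  refine ⟨N0, fun n hn => ?_⟩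
  have h3 := hN0 n hn
  rw [div_lt_div_iff₀ (by positivity) (by norm_num)] at h3
  have h4 : (256 : ℝ) * (n : ℝ) ^ 48 ≤ 2 ^ n := by linarith
  exact_mod_cast h4

/-- all the numerical facts -/
structure Nums (a n p T : ℕ) : Prop where
  hn : n = 4 * a
  n100 : 100 ≤ n
  lo : n ^ 6 < p
  hi : p ≤ 2 * n ^ 6
  T1 : 1 ≤ T
  T8 : 8 * T ≤ n
  Tlo : 2 ^ T ≤ p
  Thi : p < 2 ^ (T + 1)
  big : 36 * n ^ 15 ≤ 2 ^ n

lemma exists_Nums (A : ℕ) : ∃ a n p T : ℕ, A ≤ n ∧ p.Prime ∧ Nums a n p T := by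
  obtain ⟨N0, hN0⟩ := event_exp
  obtain ⟨a, ha⟩ : ∃ a, a = 25 + A + N0 := ⟨_, rfl⟩
  obtain ⟨n, hn⟩ : ∃ n, n = 4 * a := ⟨_, rfl⟩
  have hn0 : 100 ≤ n := by omega
  have h1 : n ^ 6 ≠ 0 := pow_ne_zero _ (by omega)
  obtain ⟨p, hp, h2, h3⟩ := Nat.exists_prime_lt_and_le_two_mul (n ^ 6) h1
  have h4 := hN0 n (by omega)
  have hp0 : p ≠ 0 := hp.ne_zero
  have h5 : 2 ^ Nat.log 2 p ≤ p := Nat.pow_log_le_self 2 hp0
  have h6 : p < 2 ^ (Nat.log 2 p + 1) := Nat.lt_pow_succ_log_self (by norm_num) p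
  refine ⟨a, n, p, Nat.log 2 p, by omega, hp, ⟨hn, hn0, h2, h3, ?_, ?_, h5, h6, ?_⟩⟩
  · exact Nat.log_pos (by norm_num) hp.two_le
  · by_contra hcon
    push Not at hcon
    have h7 : 2 ^ n < 2 ^ (8 * Nat.log 2 p) := Nat.pow_lt_pow_right (by norm_num) hcon
    have h8 : 2 ^ (8 * Nat.log 2 p) ≤ (2 * n ^ 6) ^ 8 := by
      rw [mul_comm 8, pow_mul]
      exact Nat.pow_le_pow_left (h5.trans h3) 8
    have h9 : (2 * n ^ 6) ^ 8 = 256 * n ^ 48 := by ring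
    rw [h9] at h8
    exact absurd (h7.trans_le (h8.trans h4)) (lt_irrefl _)
  · have h7 : n ^ 15 ≤ n ^ 48 := Nat.pow_le_pow_right (by omega) (by norm_num)
    exact (Nat.mul_le_mul (by norm_num : 36 ≤ 256) h7).trans h4

section nums
variable {a n p T : ℕ}

lemma Nums.pw (h : Nums a n p T) : 8 * (n ^ 3 * T) ≤ n ^ 4 ∧ 100 * n ^ 4 ≤ n ^ 5 ∧
    100 * n ^ 5 ≤ n ^ 6 ∧ 100 * n ^ 3 ≤ n ^ 4 ∧ 100 * n ^ 2 ≤ n ^ 3 ∧ 100 * n ≤ n ^ 2 ∧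
    n ^ 3 ≤ n ^ 3 * T := by
  have h1 := h.n100
  refine ⟨?_, ?_, ?_, ?_, ?_, ?_, ?_⟩
  · calc 8 * (n ^ 3 * T) = n ^ 3 * (8 * T) := by ring
      _ ≤ n ^ 3 * n := Nat.mul_le_mul_left _ h.T8
      _ = n ^ 4 := by ring
  · calc 100 * n ^ 4 ≤ n * n ^ 4 := Nat.mul_le_mul_right _ h1
      _ = n ^ 5 := by ring
  · calc 100 * n ^ 5 ≤ n * n ^ 5 := Nat.mul_le_mul_right _ h1
      _ = n ^ 6 := by ring
  · calc 100 * n ^ 3 ≤ n * n ^ 3 := Nat.mul_le_mul_right _ h1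
      _ = n ^ 4 := by ring
  · calc 100 * n ^ 2 ≤ n * n ^ 2 := Nat.mul_le_mul_right _ h1
      _ = n ^ 3 := by ring
  · calc 100 * n ≤ n * n := Nat.mul_le_mul_right _ h1
      _ = n ^ 2 := by ring
  · exact Nat.le_mul_of_pos_right _ h.T1

/-- `p` is much larger than the other quantities -/
lemma Nums.p_large (h : Nums a n p T) : 800 * (n ^ 3 * T) + 100 * n ^ 5 ≤ p + n ^ 5 := by
  obtain ⟨h1, h2, h3, -, -, -, -⟩ := h.pw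
  have h4 := h.lo
  omega

lemma Nums.cardX (h : Nums a n p T) : (100 * (n ^ 3 * T) * p) * (p * p) + 1 ≤ p ^ 4 := by
  obtain ⟨h1, h2, h3, h4, h5, h6, h7⟩ := h.pw
  have h8 := h.lo
  have h9 : 100 * (n ^ 3 * T) + 1 ≤ p := by omega
  have h10 : 1 ≤ p ^ 3 := Nat.one_le_pow _ _ (by omega)
  calc (100 * (n ^ 3 * T) * p) * (p * p) + 1 ≤ (100 * (n ^ 3 * T) * p) * (p * p) + p ^ 3 := by
        omega
    _ = (100 * (n ^ 3 * T) + 1) * p ^ 3 := by ring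
    _ ≤ p * p ^ 3 := Nat.mul_le_mul_right _ h9
    _ = p ^ 4 := by ring

lemma Nums.p4 (h : Nums a n p T) : p ^ 4 ≤ 2 ^ (4 * (T + 1)) := by
  rw [mul_comm, pow_mul]
  exact Nat.pow_le_pow_left h.Thi.le 4

lemma Nums.p2 (h : Nums a n p T) : p * p ≤ 4 * n ^ 12 := by
  calc p * p ≤ (2 * n ^ 6) * (2 * n ^ 6) := Nat.mul_le_mul h.hi h.hi
    _ = 4 * n ^ 12 := by ring

lemma Nums.expo (h : Nums a n p T) : 2 ^ n ≤ 2 ^ (n ^ 2) := by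
  apply Nat.pow_le_pow_right (by norm_num)
  obtain ⟨h1, h2, h3, h4, h5, h6, h7⟩ := h.pw
  omega

lemma Nums.n15 (h : Nums a n p T) : 100 * n ^ 14 ≤ n ^ 15 ∧ 1 ≤ n ^ 14 := by
  refine ⟨?_, Nat.one_le_pow _ _ (by have := h.n100; omega)⟩
  calc 100 * n ^ 14 ≤ n * n ^ 14 := Nat.mul_le_mul_right _ h.n100
    _ = n ^ 15 := by ring

end nums

end Pool.Agent.Helper64.Free
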