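import Mathlib
import Pool.Agent.Helper64.FreeNum

set_option autoImplicit false

namespace Pool.Agent.Helper64.Free

section
variable {a n p T : ℕ}

/-- numerical facts about the code -/
lemma num_code (h : Nums a n p T) {d e1 lam0 lam1 L : ℕ} (hd : d = 100 * (n ^ 3 * T) * p)
    (he1 : e1 = 25 * (n ^ 3 * T) * p) (hL : L = 10 * n ^ 2 + 9 + 2 * n)
    (hlam0 : lam0 = n * (L + 1) + 1) (hlam1 : lam1 = lam0 + n) :
    d = 4 * e1 ∧ 32 * n ≤ p ∧ (5 * n ^ 2 + 3) + n ^ 2 + 3 ≤ e1 ∧ 2 * d ≤ p * p ∧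
    4 * (n + 1) * (4 * n) + 1 ≤ p ∧ d + 1 ≤ 2 ^ (2 * (T + 1)) ∧
    2 * p * ((50 * (n ^ 3 * T) - 1) + 1) ≤ d ∧ lam1 ≤ 2 * p ∧
    (5 * n ^ 2 + 3) + n ^ 2 + n ^ 2 + 2 * (T + 1) * lam1 + 3 ≤ 50 * (n ^ 3 * T) - 1 ∧
    lam1 ≤ 11 * n ^ 3 ∧ 25 * (n ^ 3 * T) ≤ e1 := by
  obtain ⟨h1, h2, h3, h4, h5, h6, h7⟩ := h.pw
  have h8 := h.lo
  have h9 := h.n100
  have hT := h.T1
  have hp1 : 1 ≤ p := by omega
  have hx : n ^ 3 * T ≤ n ^ 3 * T * p := Nat.le_mul_of_pos_right _ hp1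
  have hlam : lam1 ≤ 11 * n ^ 3 := by
    have e : lam1 = 10 * n ^ 3 + 2 * n ^ 2 + 11 * n + 1 := by
      rw [hlam1, hlam0, hL]; ring
    omega
  have hdp : 2 * d ≤ p * p := by
    rw [hd]
    calc 2 * (100 * (n ^ 3 * T) * p) = (200 * (n ^ 3 * T)) * p := by ring
      _ ≤ p * p := Nat.mul_le_mul_right _ (by omega)
  have hd1 : 1 ≤ d := by
    rw [hd]
    have : 1 ≤ n ^ 3 * T := by omega
    calc 1 ≤ 100 * (1 * 1) := by norm_num
      _ ≤ 100 * ((n ^ 3 * T) * p) := Nat.mul_le_mul_left _ (Nat.mul_le_mul this hp1)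
      _ = _ := by ring
  refine ⟨?_, by omega, ?_, hdp, ?_, ?_, ?_, ?_, ?_, hlam, ?_⟩
  · rw [hd, he1]; ring
  · have h10 : 25 * (n ^ 3 * T) ≤ e1 := by
      rw [he1]
      exact Nat.le_mul_of_pos_right _ hp1
    omega
  · have : 4 * (n + 1) * (4 * n) + 1 = 16 * n ^ 2 + 16 * n + 1 := by ring
    omega
  · have h10 : p * p ≤ 2 ^ (2 * (T + 1)) := by
      have : (2 : ℕ) ^ (2 * (T + 1)) = 2 ^ (T + 1) * 2 ^ (T + 1) := by rw [← pow_add]; congr 1; ring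
      rw [this]
      exact Nat.mul_le_mul h.Thi.le h.Thi.le
    omega
  · have h10 : 50 * (n ^ 3 * T) - 1 + 1 = 50 * (n ^ 3 * T) := by omega
    rw [h10, hd]
    apply le_of_eq; ring
  · omega
  · have h10 : 2 * (T + 1) * lam1 ≤ 44 * (n ^ 3 * T) := by
      calc 2 * (T + 1) * lam1 ≤ 4 * T * (11 * n ^ 3) := Nat.mul_le_mul (by omega) hlam
        _ = 44 * (n ^ 3 * T) := by ring
    omega
  · rw [he1]
    exact Nat.le_mul_of_pos_right _ hp1

lemma num_code2 (h : Nums a n p T) {m th : ℕ} (hth : th = 8 * n ^ 2 * (p * p) + 1)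
    (hm : m = 3 * th) :
    n ^ 2 + 4 * (T + 1) * ((n ^ 2 + 1) * (p * p)) + 3 ≤ 2 ^ (n ^ 2) ∧
    2 * m ≤ 2 ^ (n ^ 2) ∧ 2 * (4 * (T + 1)) + ((5 * n ^ 2 + 3) + 1) + n ^ 2 + 3 ≤ 8 * n ^ 2 ∧
    2 * th + (n + 1) * (n + 1) * ((100 * (n ^ 3 * T) * p) * (4 * n)) + n ≤ m := by
  obtain ⟨h1, h2, h3, h4, h5, h6, h7⟩ := h.pw
  have h8 := h.lo
  have h9 := h.n100
  have hT := h.T1
  have hT8 := h.T8
  have hp2 := h.p2
  have hb := h.big
  have he := h.expo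
  obtain ⟨h14, h14'⟩ := h.n15
  refine ⟨?_, ?_, by omega, ?_⟩
  · have h10 : 4 * (T + 1) * ((n ^ 2 + 1) * (p * p)) ≤ 8 * n ^ 15 := by
      calc 4 * (T + 1) * ((n ^ 2 + 1) * (p * p)) ≤ n * (2 * n ^ 2 * (4 * n ^ 12)) :=
            Nat.mul_le_mul (by omega) (Nat.mul_le_mul (by omega) hp2)
        _ = 8 * n ^ 15 := by ring
    have h11 : n ^ 2 ≤ n ^ 14 := Nat.pow_le_pow_right (by omega) (by norm_num)
    omega
  · have h10 : 8 * n ^ 2 * (p * p) ≤ 32 * n ^ 14 := by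
      calc 8 * n ^ 2 * (p * p) ≤ 8 * n ^ 2 * (4 * n ^ 12) := Nat.mul_le_mul_left _ hp2
        _ = 32 * n ^ 14 := by ring
    omega
  · have h10 : (n + 1) * (n + 1) * ((100 * (n ^ 3 * T) * p) * (4 * n)) ≤ n ^ 2 * (p * p) := by
      calc (n + 1) * (n + 1) * ((100 * (n ^ 3 * T) * p) * (4 * n))
          ≤ (2 * n ^ 2) * ((100 * (n ^ 3 * T) * p) * (4 * n)) := by
            apply Nat.mul_le_mul_right
            have : (n + 1) * (n + 1) = n ^ 2 + 2 * n + 1 := by ring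
            omega
        _ = (100 * n * (8 * (n ^ 3 * T))) * n ^ 2 * p := by ring
        _ ≤ (100 * n * n ^ 4) * n ^ 2 * p := by
            apply Nat.mul_le_mul_right
            apply Nat.mul_le_mul_right
            exact Nat.mul_le_mul_left _ h1
        _ = (100 * n ^ 5) * n ^ 2 * p := by ring
        _ ≤ p * n ^ 2 * p := by
            apply Nat.mul_le_mul_right
            apply Nat.mul_le_mul_right
            omega
        _ = n ^ 2 * (p * p) := by ring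
    have h11 : n ≤ n ^ 2 * (p * p) := by
      calc n ≤ n ^ 2 := by omega
        _ ≤ _ := Nat.le_mul_of_pos_right _ (Nat.mul_pos (by omega) (by omega))
    have h12 : th = 8 * (n ^ 2 * (p * p)) + 1 := by rw [hth]; ring
    omega

/-- the parameters of the adversary -/
lemma num_params (h : Nums a n p T) {d e1 lam0 lam1 L β μ H0 b0 : ℕ}
    (hd : d = 100 * (n ^ 3 * T) * p)
    (he1 : e1 = 25 * (n ^ 3 * T) * p) (hL : L = 10 * n ^ 2 + 9 + 2 * n)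
    (hlam0 : lam0 = n * (L + 1) + 1) (hlam1 : lam1 = lam0 + n)
    (hβ : β = p / n + 1) (hμ : μ = a ^ 2 * T * (p * p)) (hH : H0 = 32 * a ^ 4 * T * p)
    (hb0 : b0 = H0 + n + 1) :
    Params n (n ^ 2 * (p * p)) b0 L lam0 (e1 + n) (3 * e1) β μ H0 (2 ^ μ - 1) ∧
    b0 ≤ p * p ∧ 2 * (p + b0) ≤ p * p := by
  obtain ⟨h1, h2, h3, h4, h5, h6, h7⟩ := h.pw
  have h8 := h.lo
  have h9 := h.n100
  have hT := h.T1
  have hT8 := h.T8
  have hn := h.hn
  obtain ⟨-, -, -, -, -, -, -, -, -, k1, k2⟩ := num_code h hd he1 hL hlam0 hlam1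
  have hpn : p < n * β := by
    rw [hβ, mul_add, mul_one]
    exact Nat.lt_mul_div_succ p (by omega)
  have hpn2 : n * (p / n) ≤ p := Nat.mul_div_le p n
  have hpn3 : p < n * (p / n) + n := by
    have := Nat.lt_mul_div_succ p (show 0 < n by omega)
    rwa [mul_add, mul_one] at this
  have hβ1 : 0 < β := by rw [hβ]; exact Nat.succ_pos _
  -- `H0` in terms of `n`
  have hH8 : 8 * H0 = n ^ 4 * T * p := by
    rw [hH, hn]; ring
  have hH1 : 64 * H0 ≤ n ^ 5 * p := by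
    calc 64 * H0 = 8 * (8 * H0) := by ring
      _ = n ^ 4 * (8 * T) * p := by rw [hH8]; ring
      _ ≤ n ^ 4 * n * p := Nat.mul_le_mul_right _ (Nat.mul_le_mul_left _ hT8)
      _ = n ^ 5 * p := by ring
  have hpp : 100 * (n ^ 5 * p) ≤ p * p := by
    calc 100 * (n ^ 5 * p) = (100 * n ^ 5) * p := by ring
      _ ≤ p * p := Nat.mul_le_mul_right _ (by omega)
  have hpp2 : 100 * p ≤ n ^ 5 * p := Nat.mul_le_mul_right _ (by omega)
  have hb : 2 * (p + b0) ≤ p * p := by omega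
  -- `μ`
  have hμ16 : 16 * μ = n ^ 2 * T * (p * p) := by
    rw [hμ, hn]; ring
  refine ⟨⟨by omega, ?_, by omega, ?_, ?_, ?_, ?_, ?_⟩, by omega, hb⟩
  · -- hd
    have : L ≤ lam0 := by
      rw [hlam0]
      calc L ≤ n * L := Nat.le_mul_of_pos_left _ (by omega)
        _ ≤ _ := by rw [mul_add]; omega
    omega
  · -- hβ
    have h10 : 4 ≤ p / n := by
      rw [Nat.le_div_iff_mul_le (by omega)]
      omega
    omega
  · -- hμA
    have hβ2 : 2 ^ T ≤ β ^ 2 := by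
      have h10 : p * p ≤ n ^ 2 * β ^ 2 := by
        calc p * p ≤ (n * β) * (n * β) := Nat.mul_le_mul hpn.le hpn.le
          _ = n ^ 2 * β ^ 2 := by ring
      have h11 : n ^ 2 * p ≤ p * p := Nat.mul_le_mul_right _ (by omega)
      have h12 : n ^ 2 * p ≤ n ^ 2 * β ^ 2 := h11.trans h10
      exact h.Tlo.trans (Nat.le_of_mul_le_mul_left h12 (by omega))
    have hexp : 2 * (a ^ 2 * (p * p)) ≤ n ^ 2 * (p * p) - H0 := by
      have h10 : n ^ 2 * (p * p) = 16 * (a ^ 2 * (p * p)) := by rw [hn]; ring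
      have h11 : H0 ≤ a ^ 2 * (p * p) := by
        have h12 : 16 * H0 ≤ n ^ 2 * (p * p) := by
          have h13 : n ^ 4 * T ≤ n ^ 5 := by
            calc n ^ 4 * T ≤ n ^ 4 * n := Nat.mul_le_mul_left _ (by omega)
              _ = n ^ 5 := by ring
          calc 16 * H0 = 2 * (n ^ 4 * T) * p := by
                rw [show 16 * H0 = 2 * (8 * H0) by ring, hH8]; ring
            _ ≤ p * p := Nat.mul_le_mul_right _ (by omega)
            _ ≤ n ^ 2 * (p * p) := Nat.le_mul_of_pos_left _ (by omega)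
        omega
      omega
    calc 2 ^ μ = (2 ^ T) ^ (a ^ 2 * (p * p)) := by rw [← pow_mul, hμ]; congr 1; ring
      _ ≤ (β ^ 2) ^ (a ^ 2 * (p * p)) := Nat.pow_le_pow_left hβ2 _
      _ = β ^ (2 * (a ^ 2 * (p * p))) := by rw [← pow_mul]
      _ ≤ _ := Nat.pow_le_pow_right hβ1 hexp
  · -- hμB
    have h10 : 2 * e1 ≤ 3 * e1 - n * (L + 1) - 1 := by omega
    have h11 : μ ≤ β * (2 * e1) := by
      calc μ ≤ 16 * μ := by omega
        _ = p * (n ^ 2 * T * p) := by rw [hμ16]; ring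
        _ ≤ (n * β) * (n ^ 2 * T * p) := Nat.mul_le_mul_right _ hpn.le
        _ = β * (n ^ 3 * T * p) := by ring
        _ ≤ β * (50 * (n ^ 3 * T * p)) := Nat.mul_le_mul_left _ (by omega)
        _ = β * (2 * e1) := by rw [he1]; ring
    exact h11.trans (Nat.mul_le_mul_left _ h10)
  · -- hH
    have h10 : p ≤ 2 * (n * (p / n)) := by omega
    have h11 : β - 1 = p / n := by omega
    rw [h11]
    calc μ * n = p * (4 * a ^ 3 * T * p) := by rw [hμ, hn]; ring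
      _ ≤ (2 * (n * (p / n))) * (4 * a ^ 3 * T * p) := Nat.mul_le_mul_right _ h10
      _ = p / n * H0 := by rw [hH]; nth_rewrite 1 [hn]; ring
  · -- hs
    have : 1 ≤ 2 ^ μ := Nat.one_le_two_pow
    omega

/-- counting -/
lemma num_count (h : Nums a n p T) {d β μ m th : ℕ}
    (hd : d = 100 * (n ^ 3 * T) * p) (hβ : β = p / n + 1) (hμ : μ = a ^ 2 * T * (p * p))
    (hth : th = 8 * n ^ 2 * (p * p) + 1) (hm : m = 3 * th) :
    (5 * n ^ 2 + 3) + (d + n) * (2 * β) ≤ 6480 * μ ∧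
    (d * (p * p) * (2 * β) + 1) ^ (2 * m) ≤ 2 ^ (7840 * μ) ∧ 16 * μ ≤ 4 * n ^ 15 ∧ 2 ≤ μ := by
  obtain ⟨h1, h2, h3, h4, h5, h6, h7⟩ := h.pw
  have h8 := h.lo
  have h9 := h.n100
  have hT := h.T1
  have hT8 := h.T8
  have hn := h.hn
  have hpn2 : n * (p / n) ≤ p := Nat.mul_div_le p n
  have hnβ : n * β ≤ 2 * p := by
    rw [hβ, mul_add, mul_one]; omega
  have hβ1 : 0 < β := by rw [hβ]; exact Nat.succ_pos _
  have hμ16 : 16 * μ = n ^ 2 * T * (p * p) := by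
    rw [hμ, hn]; ring
  have hp1 : 1 ≤ p := by omega
  have hpp : 1 ≤ p * p := Nat.mul_pos hp1 hp1
  have h2β : 2 * β ≤ p := by
    have h10 : 100 * β ≤ n * β := Nat.mul_le_mul_right _ h9
    omega
  refine ⟨?_, ?_, ?_, ?_⟩
  · have h10 : d + n ≤ 101 * (n ^ 3 * T * p) := by
      have h11 : n ≤ n ^ 3 * T * p := by
        calc n ≤ n ^ 3 * T := by omega
          _ ≤ _ := Nat.le_mul_of_pos_right _ hp1
      have h12 : d = 100 * (n ^ 3 * T * p) := by rw [hd]; ring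
      omega
    have h11 : (d + n) * (2 * β) ≤ 6464 * μ := by
      calc (d + n) * (2 * β) ≤ 101 * (n ^ 3 * T * p) * (2 * β) := Nat.mul_le_mul_right _ h10
        _ = 202 * (n ^ 2 * T * p) * (n * β) := by ring
        _ ≤ 202 * (n ^ 2 * T * p) * (2 * p) := Nat.mul_le_mul_left _ hnβ
        _ = 404 * (n ^ 2 * T * (p * p)) := by ring
        _ = 6464 * μ := by rw [← hμ16]; ring
    have h12 : 5 * n ^ 2 + 3 ≤ 16 * μ := by
      rw [hμ16]
      calc 5 * n ^ 2 + 3 ≤ n ^ 2 * 100 := by omega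
        _ ≤ n ^ 2 * (T * (p * p)) := by
            apply Nat.mul_le_mul_left
            calc 100 ≤ 1 * (p * 1) := by omega
              _ ≤ T * (p * p) := Nat.mul_le_mul hT (Nat.mul_le_mul_left _ hp1)
        _ = _ := by ring
    omega
  · have h10 : d * (p * p) * (2 * β) + 1 ≤ 2 ^ (10 * T) := by
      have h11 : d * (p * p) + 1 ≤ p ^ 4 := by rw [hd]; exact h.cardX
      calc d * (p * p) * (2 * β) + 1 ≤ d * (p * p) * (2 * β) + 2 * β := by omega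
        _ = (d * (p * p) + 1) * (2 * β) := by ring
        _ ≤ p ^ 4 * p := Nat.mul_le_mul h11 h2β
        _ ≤ 2 ^ (4 * (T + 1)) * 2 ^ (T + 1) := Nat.mul_le_mul h.p4 h.Thi.le
        _ = 2 ^ (5 * (T + 1)) := by rw [← pow_add]; congr 1; ring
        _ ≤ _ := Nat.pow_le_pow_right (by norm_num) (by omega)
    have h12 : 2 * m ≤ 49 * (n ^ 2 * (p * p)) := by
      have h13 : th = 8 * (n ^ 2 * (p * p)) + 1 := by rw [hth]; ring
      have h14 : 6 ≤ n ^ 2 * (p * p) := by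
        calc 6 ≤ n ^ 2 * 1 := by omega
          _ ≤ _ := Nat.mul_le_mul_left _ hpp
      omega
    calc (d * (p * p) * (2 * β) + 1) ^ (2 * m) ≤ (2 ^ (10 * T)) ^ (2 * m) :=
          Nat.pow_le_pow_left h10 _
      _ ≤ (2 ^ (10 * T)) ^ (49 * (n ^ 2 * (p * p))) :=
          Nat.pow_le_pow_right (by positivity) h12
      _ = 2 ^ (490 * (n ^ 2 * T * (p * p))) := by rw [← pow_mul]; congr 1; ring
      _ = 2 ^ (7840 * μ) := by rw [← hμ16]; congr 1; ring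
  · rw [hμ16]
    calc n ^ 2 * T * (p * p) ≤ n ^ 2 * n * (4 * n ^ 12) :=
          Nat.mul_le_mul (Nat.mul_le_mul_left _ (by omega)) h.p2
      _ = 4 * n ^ 15 := by ring
  · rw [hμ]
    have ha : 1 ≤ a ^ 2 := Nat.one_le_pow _ _ (by omega)
    calc 2 ≤ 1 * 1 * (p * 1) := by omega
      _ ≤ a ^ 2 * T * (p * p) := Nat.mul_le_mul (Nat.mul_le_mul ha hT) (Nat.mul_le_mul_left _ hp1)

end

lemma sq_aux {x : ℕ} (h : 4 ≤ x) : x ≤ (x - 1) ^ 2 := by
  obtain ⟨y, rfl⟩ := Nat.exists_eq_add_of_le h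
  have h1 : 4 + y - 1 = y + 3 := by omega
  rw [h1]
  calc 4 + y ≤ y * y + 6 * y + 9 := by omega
    _ = (y + 3) ^ 2 := by ring

/-- the lower bound for all recursions of Fredman-Khachiyan type -/
theorem free_lower (K : ℕ) : ∃ (V : Type) (_ : Fintype V) (_ : DecidableEq V)
    (F G : Finset (Finset V)) (s r : ℕ), IsDualPair F G ∧ K ≤ r ∧
      Nat.log 2 (F.card + G.card) ≤ r ^ 16 ∧ F.card + G.card ≤ s ^ 16000 ∧
      (∃ k, Run s F G k) ∧ ∀ k, Run s F G k → (F.card + G.card) ^ r ≤ k := by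
  classical
  obtain ⟨c0, hc0⟩ : ∃ c0 : ℕ, c0 = 2000 * 16000 ^ 15 := ⟨_, rfl⟩
  obtain ⟨a, n, p, T, hA, hp, h⟩ := exists_Nums (8000 * (K + c0 + 1))
  have : Fact p.Prime := ⟨hp⟩
  obtain ⟨d, hd⟩ : ∃ d, d = 100 * (n ^ 3 * T) * p := ⟨_, rfl⟩
  obtain ⟨e1, he1⟩ : ∃ e1, e1 = 25 * (n ^ 3 * T) * p := ⟨_, rfl⟩
  obtain ⟨L, hL⟩ : ∃ L, L = 10 * n ^ 2 + 9 + 2 * n := ⟨_, rfl⟩
  obtain ⟨lam0, hlam0⟩ : ∃ lam0, lam0 = n * (L + 1) + 1 := ⟨_, rfl⟩
  obtain ⟨lam1, hlam1⟩ : ∃ lam1, lam1 = lam0 + n := ⟨_, rfl⟩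
  obtain ⟨th, hth⟩ : ∃ th, th = 8 * n ^ 2 * (p * p) + 1 := ⟨_, rfl⟩
  obtain ⟨m, hm⟩ : ∃ m, m = 3 * th := ⟨_, rfl⟩
  obtain ⟨β, hβ⟩ : ∃ β, β = p / n + 1 := ⟨_, rfl⟩
  obtain ⟨μ, hμ⟩ : ∃ μ, μ = a ^ 2 * T * (p * p) := ⟨_, rfl⟩
  obtain ⟨H0, hH⟩ : ∃ H0, H0 = 32 * a ^ 4 * T * p := ⟨_, rfl⟩
  obtain ⟨b0, hb0⟩ : ∃ b0, b0 = H0 + n + 1 := ⟨_, rfl⟩
  obtain ⟨m0, hm0⟩ : ∃ m0, m0 = 2 ^ (3 * (n ^ 2 + 1) + n ^ 2) := ⟨_, rfl⟩
  obtain ⟨c1, c2, c3, c4, c5, c6, c7, c8, c9, -, -⟩ := num_code h hd he1 hL hlam0 hlam1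
  obtain ⟨g1, g2, g3, g4⟩ := num_code2 h hth hm
  obtain ⟨hpar, hb1, hb2⟩ := num_params h hd he1 hL hlam0 hlam1 hβ hμ hH hb0
  obtain ⟨n1, n2, n3, n4⟩ := num_count h hd hβ hμ hth hm
  -- cardinalities
  have hXc : Fintype.card (Pt d p) = d * (p * p) := by
    simp [Fintype.card_prod, ZMod.card]
  have hX : Fintype.card (Pt d p) + 1 ≤ p ^ 4 := by
    rw [hXc, hd]; exact h.cardX
  have hlst : Fintype.card (Lst d p n) ≤ 2 ^ (n ^ 2) := by
    have hT8 := h.T8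
    have hT := h.T1
    calc Fintype.card (Lst d p n) ≤ (Fintype.card (Pt d p) + 1) ^ n := card_Lst
      _ ≤ (p ^ 4) ^ n := Nat.pow_le_pow_left hX _
      _ ≤ (2 ^ (4 * (T + 1))) ^ n := Nat.pow_le_pow_left h.p4 _
      _ = 2 ^ (4 * (T + 1) * n) := by rw [← pow_mul]
      _ ≤ 2 ^ (n * n) := Nat.pow_le_pow_right (by norm_num) (Nat.mul_le_mul_right _ (by omega))
      _ = _ := by rw [sq]
  have hidx : Fintype.card (Idx d p n m0) ≤ 2 ^ (5 * n ^ 2 + 3) := by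
    rw [Fintype.card_prod, Fintype.card_fin, hm0]
    calc Fintype.card (Lst d p n) * 2 ^ (3 * (n ^ 2 + 1) + n ^ 2)
        ≤ 2 ^ (n ^ 2) * 2 ^ (3 * (n ^ 2 + 1) + n ^ 2) := Nat.mul_le_mul_right _ hlst
      _ = _ := by rw [← pow_add]; congr 1; ring
  -- the boxes
  obtain ⟨P, hP⟩ := exists_P (X := Pt d p) (n := n) (M := 4 * n) (p := p) (by
    rw [pow_mul]
    exact Nat.pow_le_pow_left hX _)
  have hsep : Sep P n (4 * n) := hP
  obtain ⟨κ, hκ⟩ := exists_Rnd (m0 := m0) (L1 := 10 * n ^ 2 + 9) (lam1 := lam1)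
    (j0 := (n ^ 2 + 1) * (p * p)) (m := m) (th := th) (E := 50 * (n ^ 3 * T) - 1)
    (K := 4 * (T + 1)) (D := 2 * (T + 1)) (E5 := 8 * n ^ 2) (c := n ^ 2)
    hsep hidx hlst (hX.trans h.p4) c1 c2 c3 c4 (by omega) c5 c6 c7 c8 c9 le_rfl hm0 g1
    (by omega) g2 (by omega) g3
  have hj : n ^ 2 * (p * p) + b0 ≤ (n ^ 2 + 1) * (p * p) := by
    rw [Nat.add_mul, one_mul]; omega
  set D := mkDesign c1 hκ (w := n) rfl hj hb2 (lam0 := lam0) (by omega) with hD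
  have hLL : L = 10 * n ^ 2 + 9 + 2 * n := hL
  subst hLL
  have hrep := rep_fam D.c (2 * β)
  obtain ⟨F, hF⟩ : ∃ F, F = famF D.c (2 * β) := ⟨_, rfl⟩
  obtain ⟨G, hG⟩ : ∃ G, G = famG D.c (2 * β) := ⟨_, rfl⟩
  have hlow : ∀ k, Run (2 ^ μ - 1) F G k → 2 ^ (μ * n) ≤ k := by
    intro k hk
    rw [hF, hG] at hk
    exact run_lower D hpar hk
  have hFc : F.card ≤ 2 ^ (6480 * μ) := by
    have h1 := card_famF (B := 2 * β) D.c (z := d + n) (fun σ => card_cw σ.1)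
    have h2 : Fintype.card {σ : Idx d p n m0 // Valid (box P) σ.1.1} ≤ 2 ^ (5 * n ^ 2 + 3) :=
      (Fintype.card_subtype_le _).trans hidx
    rw [hF]
    calc _ ≤ 2 ^ (5 * n ^ 2 + 3) * 2 ^ ((d + n) * (2 * β)) :=
          h1.trans (Nat.mul_le_mul_right _ h2)
      _ = 2 ^ ((5 * n ^ 2 + 3) + (d + n) * (2 * β)) := by rw [← pow_add]
      _ ≤ _ := Nat.pow_le_pow_right (by norm_num) n1
  have hGc : G.card ≤ 2 ^ (7840 * μ) := by
    have h1 := card_famG (B := 2 * β) D.c (T0 := 2 * m) (by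
      intro J0 hJ0
      apply le_of_lt
      apply private_bound hsep hκ (J0 := J0)
      · rw [hd]; exact g4
      · intro j hj
        obtain ⟨σ, h1, h2⟩ := hJ0 j hj
        exact ⟨σ.1, σ.2, h1, h2⟩)
    rw [hXc] at h1
    rw [hG]
    exact h1.trans n2
  have hN : F.card + G.card ≤ 2 ^ (8000 * μ) := by
    calc F.card + G.card ≤ 2 ^ (7840 * μ) + 2 ^ (7840 * μ) := by
          apply Nat.add_le_add (hFc.trans _) hGc
          exact Nat.pow_le_pow_right (by norm_num) (Nat.mul_le_mul_right _ (by norm_num))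
      _ = 2 ^ (7840 * μ + 1) := by rw [pow_succ]; ring
      _ ≤ _ := Nat.pow_le_pow_right (by norm_num) (by omega)
  obtain ⟨r, hr⟩ : ∃ r, r = n / 8000 := ⟨_, rfl⟩
  have hr1 : 8000 * r ≤ n := by omega
  have hr2 : K + c0 + 1 ≤ r := by omega
  have hr3 : n ≤ 16000 * r := by omega
  rw [← hF, ← hG] at hrep
  refine ⟨Var (Pt d p) (2 * β), inferInstance, inferInstance, F, G, 2 ^ μ - 1, r,
    hrep.isDualPair, by omega, ?_, ?_, ?_, ?_⟩
  · calc Nat.log 2 (F.card + G.card) ≤ Nat.log 2 (2 ^ (8000 * μ)) := Nat.log_mono_right hN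
      _ = 8000 * μ := Nat.log_pow (by norm_num) _
      _ = 500 * (16 * μ) := by ring
      _ ≤ 500 * (4 * n ^ 15) := Nat.mul_le_mul_left _ n3
      _ ≤ 500 * (4 * (16000 * r) ^ 15) :=
          Nat.mul_le_mul_left _ (Nat.mul_le_mul_left _ (Nat.pow_le_pow_left hr3 _))
      _ = c0 * r ^ 15 := by rw [hc0]; ring
      _ ≤ r * r ^ 15 := Nat.mul_le_mul_right _ (by omega)
      _ = r ^ 16 := by ring
  · have h4 : 4 ≤ 2 ^ μ := by
      calc 4 = 2 ^ 2 := by norm_num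
        _ ≤ _ := Nat.pow_le_pow_right (by norm_num) n4
    have h5 : 2 ^ μ ≤ (2 ^ μ - 1) ^ 2 := sq_aux h4
    have key : ∀ q : ℕ, 2 ^ (q * μ) ≤ (2 ^ μ - 1) ^ (2 * q) := by
      intro q
      calc 2 ^ (q * μ) = (2 ^ μ) ^ q := by rw [← pow_mul, mul_comm]
        _ ≤ ((2 ^ μ - 1) ^ 2) ^ q := Nat.pow_le_pow_left h5 _
        _ = (2 ^ μ - 1) ^ (2 * q) := by rw [← pow_mul]
    have h6 : 2 * 8000 = 16000 := by norm_num
    have h7 := key 8000
    rw [h6] at h7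
    exact hN.trans h7
  · apply exists_run _ _ _ _ le_rfl
    have h4 : 2 ^ 1 ≤ 2 ^ μ := Nat.pow_le_pow_right (by norm_num) (by omega)
    omega
  · intro k hk
    calc (F.card + G.card) ^ r ≤ (2 ^ (8000 * μ)) ^ r := Nat.pow_le_pow_left hN _
      _ = 2 ^ (μ * (8000 * r)) := by rw [← pow_mul]; congr 1; ring
      _ ≤ 2 ^ (μ * n) := Nat.pow_le_pow_right (by norm_num) (Nat.mul_le_mul_left _ hr1)
      _ ≤ k := hlow k hk

end Pool.Agent.Helper64.Free
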