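import Mathlib

set_option autoImplicit false

namespace Pool.Agent.Helper64.FKB

variable {V : Type} [DecidableEq V]

/-- Delete all redundant (non-minimal) terms of a monotone DNF (a finite family of terms, each term
a finite set of variables). -/
def minimize (F : Finset (Finset V)) : Finset (Finset V) :=
  F.filter (fun I => ∀ I' ∈ F, I' ⊆ I → I' = I)

/-- The terms that do not contain the variable `x`. -/
def without (F : Finset (Finset V)) (x : V) : Finset (Finset V) := F.filter (fun I => x ∉ I)

/-- The terms that contain the variable `x`, with `x` erased from them. -/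
def link (F : Finset (Finset V)) (x : V) : Finset (Finset V) :=
  (F.filter (fun I => x ∈ I)).image (fun I => I.erase x)

/-- The frequency of the variable `x` in `F`. -/
noncomputable def freq (F : Finset (Finset V)) (x : V) : ℝ :=
  ((F.filter (fun I => x ∈ I)).card : ℝ) / (F.card : ℝ)

/-- `F` and `G` are the families of all prime implicants of two mutually dual monotone functions:
`G` consists of the minimal transversals of `F` and `F` of the minimal transversals of `G`. -/
def IsDualPair (F G : Finset (Finset V)) : Prop :=
  (∀ T, T ∈ G ↔ Minimal (fun S : Finset V => ∀ I ∈ F, (S ∩ I).Nonempty) T) ∧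
  (∀ T, T ∈ F ↔ Minimal (fun S : Finset V => ∀ J ∈ G, (S ∩ J).Nonempty) T)

/-- `Run χ F G k`: on the (dual) pair `(F, G)` Algorithm B of Fredman and Khachiyan can make exactly
`k` calls in total (counting itself), for some choice of the variables on which it branches.
The volume is `v = |F| * |G|` and the threshold is `1 / χ v`. -/
inductive Run (χ : ℝ → ℝ) : Finset (Finset V) → Finset (Finset V) → ℕ → Prop
  /-- `min (|F|, |G|) ≤ 2`: no recursive call -/
  | small {F G : Finset (Finset V)} (h : min F.card G.card ≤ 2) : Run χ F G 1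
  /-- `x` has frequency at most `1 / χ v` in `F`: one call with `x = 0` in `F`, and for every term
  `J` of `G` through `x` (with `x` erased) one call with `x = 1`, `J = 0` in `F`. -/
  | rareF {F G : Finset (Finset V)} (x : V) (k₀ : ℕ) (k : Finset V → ℕ)
      (h : 2 < min F.card G.card) (hx : (∃ I ∈ F, x ∈ I) ∨ ∃ J ∈ G, x ∈ J)
      (hf : freq F x ≤ 1 / χ ((F.card : ℝ) * (G.card : ℝ)))
      (h₀ : Run χ (without F x) (minimize (G.image (fun J => J.erase x))) k₀)
      (hJ : ∀ J ∈ link G x, Run χ (minimize ((link F x).filter (fun I => Disjoint I J)))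
        (minimize ((without G x).image (fun J' => J' \ J))) (k J)) :
      Run χ F G (1 + k₀ + ∑ J ∈ link G x, k J)
  /-- the same with the roles of `F` and `G` exchanged -/
  | rareG {F G : Finset (Finset V)} (x : V) (k₀ : ℕ) (k : Finset V → ℕ)
      (h : 2 < min F.card G.card) (hx : (∃ I ∈ F, x ∈ I) ∨ ∃ J ∈ G, x ∈ J)
      (hg : freq G x ≤ 1 / χ ((F.card : ℝ) * (G.card : ℝ)))
      (h₀ : Run χ (minimize (F.image (fun I => I.erase x))) (without G x) k₀)
      (hI : ∀ I ∈ link F x, Run χ (minimize ((without F x).image (fun I' => I' \ I)))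
        (minimize ((link G x).filter (fun J => Disjoint J I))) (k I)) :
      Run χ F G (1 + k₀ + ∑ I ∈ link F x, k I)
  /-- `x` has frequency larger than `1 / χ v` in both: two calls, `x = 0` and `x = 1`. -/
  | split {F G : Finset (Finset V)} (x : V) (k₀ k₁ : ℕ)
      (h : 2 < min F.card G.card) (hx : (∃ I ∈ F, x ∈ I) ∨ ∃ J ∈ G, x ∈ J)
      (hf : 1 / χ ((F.card : ℝ) * (G.card : ℝ)) < freq F x)
      (hg : 1 / χ ((F.card : ℝ) * (G.card : ℝ)) < freq G x)
      (h₀ : Run χ (without F x) (minimize (G.image (fun J => J.erase x))) k₀)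
      (h₁ : Run χ (minimize (F.image (fun I => I.erase x))) (without G x) k₁) :
      Run χ F G (1 + k₀ + k₁)

end Pool.Agent.Helper64.FKB
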