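import Mathlib
import Pool.Agent.Helper64.FKBDefs

set_option autoImplicit false

namespace Pool.Agent.Helper64.FKB

section general
variable {V : Type} [DecidableEq V]

lemma mem_minimize {F : Finset (Finset V)} {I : Finset V} :
    I ∈ minimize F ↔ I ∈ F ∧ ∀ I' ∈ F, I' ⊆ I → I' = I := by
  simp [minimize]

lemma mem_without {F : Finset (Finset V)} {x : V} {I : Finset V} :
    I ∈ without F x ↔ I ∈ F ∧ x ∉ I := by
  simp [without]

lemma mem_link {F : Finset (Finset V)} {x : V} {I : Finset V} :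
    I ∈ link F x ↔ ∃ I' ∈ F, x ∈ I' ∧ I'.erase x = I := by
  simp only [link, Finset.mem_image, Finset.mem_filter, and_assoc]

/-- all the variables of a family -/
def supp (F : Finset (Finset V)) : Finset V := F.sup id

lemma mem_supp {F : Finset (Finset V)} {x : V} : x ∈ supp F ↔ ∃ I ∈ F, x ∈ I := by
  simp [supp, Finset.mem_sup]

/-- Every pair of families has a run (the algorithm terminates). -/
lemma exists_run (χ : ℝ → ℝ) : ∀ (n : ℕ) (F G : Finset (Finset V)),
    (supp F ∪ supp G).card ≤ n → ∃ k, Run χ F G k := by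
  intro n
  induction n with
  | zero =>
    intro F G h
    have h1 : supp F ∪ supp G = ∅ := Finset.card_eq_zero.1 (Nat.le_zero.1 h)
    have h2 : ∀ I ∈ F, I = ∅ := by
      intro I hI
      rw [Finset.eq_empty_iff_forall_notMem]
      intro x hx
      have : x ∈ supp F ∪ supp G := Finset.mem_union_left _ (mem_supp.2 ⟨I, hI, hx⟩)
      rw [h1] at this
      simp at this
    have h3 : F ⊆ {∅} := by
      intro I hI
      rw [Finset.mem_singleton]
      exact h2 I hI
    have h4 := Finset.card_le_card h3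
    rw [Finset.card_singleton] at h4
    exact ⟨1, Run.small (by omega)⟩
  | succ n ih =>
    intro F G h
    by_cases hsmall : min F.card G.card ≤ 2
    · exact ⟨1, Run.small hsmall⟩
    · push Not at hsmall
      have hx : ∃ x, (∃ I ∈ F, x ∈ I) ∨ ∃ J ∈ G, x ∈ J := by
        by_contra hcon
        push Not at hcon
        have h3 : F ⊆ {∅} := by
          intro I hI
          rw [Finset.mem_singleton, Finset.eq_empty_iff_forall_notMem]
          intro x hx
          exact (hcon x).1 I hI hx
        have h4 := Finset.card_le_card h3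
        rw [Finset.card_singleton] at h4
        omega
      obtain ⟨x, hx⟩ := hx
      have hxs : x ∈ supp F ∪ supp G := by
        rcases hx with ⟨I, hI, hxI⟩ | ⟨J, hJ, hxJ⟩
        · exact Finset.mem_union_left _ (mem_supp.2 ⟨I, hI, hxI⟩)
        · exact Finset.mem_union_right _ (mem_supp.2 ⟨J, hJ, hxJ⟩)
      have hcard : ((supp F ∪ supp G).erase x).card ≤ n := by
        rw [Finset.card_erase_of_mem hxs]; omega
      have key : ∀ F' G' : Finset (Finset V),
          (∀ I ∈ F', x ∉ I ∧ ∀ y ∈ I, y ∈ supp F ∪ supp G) →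
          (∀ I ∈ G', x ∉ I ∧ ∀ y ∈ I, y ∈ supp F ∪ supp G) → ∃ k, Run χ F' G' k := by
        intro F' G' h1 h2
        apply ih
        refine le_trans (Finset.card_le_card ?_) hcard
        intro y hy
        rw [Finset.mem_union, mem_supp, mem_supp] at hy
        rw [Finset.mem_erase]
        rcases hy with ⟨I, hI, hyI⟩ | ⟨I, hI, hyI⟩
        · exact ⟨fun h => (h1 I hI).1 (h ▸ hyI), (h1 I hI).2 y hyI⟩
        · exact ⟨fun h => (h2 I hI).1 (h ▸ hyI), (h2 I hI).2 y hyI⟩
      have sF : ∀ I ∈ F, ∀ y ∈ I, y ∈ supp F ∪ supp G := fun I hI y hy =>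
        Finset.mem_union_left _ (mem_supp.2 ⟨I, hI, hy⟩)
      have sG : ∀ I ∈ G, ∀ y ∈ I, y ∈ supp F ∪ supp G := fun I hI y hy =>
        Finset.mem_union_right _ (mem_supp.2 ⟨I, hI, hy⟩)
      have wF : ∀ I ∈ without F x, x ∉ I ∧ ∀ y ∈ I, y ∈ supp F ∪ supp G := by
        intro I hI
        rw [mem_without] at hI
        exact ⟨hI.2, sF I hI.1⟩
      have wG : ∀ I ∈ without G x, x ∉ I ∧ ∀ y ∈ I, y ∈ supp F ∪ supp G := by
        intro I hI
        rw [mem_without] at hI
        exact ⟨hI.2, sG I hI.1⟩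
      have lF : ∀ I ∈ link F x, x ∉ I ∧ ∀ y ∈ I, y ∈ supp F ∪ supp G := by
        intro I hI
        rw [mem_link] at hI
        obtain ⟨I', hI', -, rfl⟩ := hI
        exact ⟨Finset.notMem_erase _ _, fun y hy => sF I' hI' y (Finset.mem_of_mem_erase hy)⟩
      have lG : ∀ I ∈ link G x, x ∉ I ∧ ∀ y ∈ I, y ∈ supp F ∪ supp G := by
        intro I hI
        rw [mem_link] at hI
        obtain ⟨I', hI', -, rfl⟩ := hI
        exact ⟨Finset.notMem_erase _ _, fun y hy => sG I' hI' y (Finset.mem_of_mem_erase hy)⟩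
      have eF : ∀ I ∈ minimize (F.image (fun I => I.erase x)),
          x ∉ I ∧ ∀ y ∈ I, y ∈ supp F ∪ supp G := by
        intro I hI
        obtain ⟨I', hI', rfl⟩ := Finset.mem_image.1 (mem_minimize.1 hI).1
        exact ⟨Finset.notMem_erase _ _, fun y hy => sF I' hI' y (Finset.mem_of_mem_erase hy)⟩
      have eG : ∀ I ∈ minimize (G.image (fun I => I.erase x)),
          x ∉ I ∧ ∀ y ∈ I, y ∈ supp F ∪ supp G := by
        intro I hI
        obtain ⟨I', hI', rfl⟩ := Finset.mem_image.1 (mem_minimize.1 hI).1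
        exact ⟨Finset.notMem_erase _ _, fun y hy => sG I' hI' y (Finset.mem_of_mem_erase hy)⟩
      by_cases hf : freq F x ≤ 1 / χ ((F.card : ℝ) * (G.card : ℝ))
      · obtain ⟨k₀, hk₀⟩ := key _ _ wF eG
        have hJ : ∀ J : Finset V, ∃ k, Run χ (minimize ((link F x).filter (fun I => Disjoint I J)))
            (minimize ((without G x).image (fun J' => J' \ J))) k := by
          intro J
          apply key
          · intro I hI
            exact lF I (Finset.mem_filter.1 (mem_minimize.1 hI).1).1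
          · intro I hI
            obtain ⟨I', hI', rfl⟩ := Finset.mem_image.1 (mem_minimize.1 hI).1
            exact ⟨fun h => (wG I' hI').1 (Finset.mem_sdiff.1 h).1,
              fun y hy => (wG I' hI').2 y (Finset.mem_sdiff.1 hy).1⟩
        choose k hk using hJ
        exact ⟨_, Run.rareF x k₀ k hsmall hx hf hk₀ (fun J _ => hk J)⟩
      · by_cases hg : freq G x ≤ 1 / χ ((F.card : ℝ) * (G.card : ℝ))
        · obtain ⟨k₀, hk₀⟩ := key _ _ eF wG
          have hI : ∀ I : Finset V, ∃ k,
              Run χ (minimize ((without F x).image (fun I' => I' \ I)))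
              (minimize ((link G x).filter (fun J => Disjoint J I))) k := by
            intro I
            apply key
            · intro J hJ
              obtain ⟨I', hI', rfl⟩ := Finset.mem_image.1 (mem_minimize.1 hJ).1
              exact ⟨fun h => (wF I' hI').1 (Finset.mem_sdiff.1 h).1,
                fun y hy => (wF I' hI').2 y (Finset.mem_sdiff.1 hy).1⟩
            · intro J hJ
              exact lG J (Finset.mem_filter.1 (mem_minimize.1 hJ).1).1
          choose k hk using hI
          exact ⟨_, Run.rareG x k₀ k hsmall hx hg hk₀ (fun I _ => hk I)⟩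
        · push Not at hf hg
          obtain ⟨k₀, hk₀⟩ := key _ _ wF eG
          obtain ⟨k₁, hk₁⟩ := key _ _ eF wG
          exact ⟨_, Run.split x k₀ k₁ hsmall hx hf hg hk₀ hk₁⟩

/-- an antichain is not changed by `minimize` -/
lemma minimize_of_antichain {F : Finset (Finset V)}
    (h : ∀ I ∈ F, ∀ I' ∈ F, I' ⊆ I → I' = I) : minimize F = F := by
  ext I
  rw [mem_minimize]
  exact ⟨fun hI => hI.1, fun hI => ⟨hI, fun I' hI' hs => h I hI I' hI' hs⟩⟩

end general

section instances

variable (p e : ℕ)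

/-- variables: `(group, block, copy)` -/
abbrev Var := Fin p × Fin e × Bool

variable {p e}

/-- the term choosing block `c i` in every group `i ∈ P`, together with the variables in `A` -/
def FT (P : Finset (Fin p)) (A : Finset (Var p e)) (c : Fin p → Fin e) : Finset (Var p e) :=
  A ∪ Finset.univ.filter (fun v => v.1 ∈ P ∧ v.2.1 = c v.1)

/-- the transversal of group `i` given by `s` -/
def GT (i : Fin p) (s : Fin e → Bool) : Finset (Var p e) :=
  Finset.univ.filter (fun v => v.1 = i ∧ v.2.2 = s v.2.1)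

def FF (P : Finset (Fin p)) (A : Finset (Var p e)) : Finset (Finset (Var p e)) :=
  Finset.univ.image (FT P A)

def GG (P : Finset (Fin p)) (A : Finset (Var p e)) : Finset (Finset (Var p e)) :=
  A.image (fun y => {y}) ∪ P.biUnion (fun i => Finset.univ.image (GT i))

lemma mem_FT {P : Finset (Fin p)} {A : Finset (Var p e)} {c : Fin p → Fin e} {v : Var p e} :
    v ∈ FT P A c ↔ v ∈ A ∨ (v.1 ∈ P ∧ v.2.1 = c v.1) := by
  simp [FT]

lemma mem_GT {i : Fin p} {s : Fin e → Bool} {v : Var p e} :
    v ∈ GT i s ↔ v.1 = i ∧ v.2.2 = s v.2.1 := by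
  simp [GT]

lemma mem_FF {P : Finset (Fin p)} {A I : Finset (Var p e)} :
    I ∈ FF P A ↔ ∃ c, FT P A c = I := by
  simp [FF]

lemma mem_GG {P : Finset (Fin p)} {A J : Finset (Var p e)} :
    J ∈ GG P A ↔ (∃ y ∈ A, {y} = J) ∨ ∃ i ∈ P, ∃ s, GT i s = J := by
  simp [GG]

/-- `A` avoids the groups in `P` -/
def Ok (P : Finset (Fin p)) (A : Finset (Var p e)) : Prop := ∀ v ∈ A, v.1 ∉ P

lemma FT_subset {P : Finset (Fin p)} {A : Finset (Var p e)} (hok : Ok P A)
    {c c' : Fin p → Fin e} (h : FT P A c ⊆ FT P A c') : ∀ i ∈ P, c i = c' i := by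
  intro i hi
  have h1 : ((i, c i, true) : Var p e) ∈ FT P A c := mem_FT.2 (Or.inr ⟨hi, rfl⟩)
  rcases mem_FT.1 (h h1) with h2 | h2
  · exact absurd hi (hok _ h2)
  · exact h2.2

lemma FT_congr {P : Finset (Fin p)} {A : Finset (Var p e)}
    {c c' : Fin p → Fin e} (h : ∀ i ∈ P, c i = c' i) : FT P A c = FT P A c' := by
  ext v
  rw [mem_FT, mem_FT]
  constructor
  · rintro (h1 | ⟨h1, h2⟩)
    · exact Or.inl h1
    · exact Or.inr ⟨h1, by rw [h2, h _ h1]⟩
  · rintro (h1 | ⟨h1, h2⟩)
    · exact Or.inl h1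
    · exact Or.inr ⟨h1, by rw [h2, h _ h1]⟩

lemma FF_antichain {P : Finset (Fin p)} {A : Finset (Var p e)} (hok : Ok P A) :
    ∀ I ∈ FF P A, ∀ I' ∈ FF P A, I' ⊆ I → I' = I := by
  intro I hI I' hI' h
  obtain ⟨c, rfl⟩ := mem_FF.1 hI
  obtain ⟨c', rfl⟩ := mem_FF.1 hI'
  exact FT_congr (FT_subset hok h)

lemma GT_subset {i i' : Fin p} (he : 0 < e) {s s' : Fin e → Bool} (h : GT i s ⊆ GT i' s') :
    i = i' ∧ s = s' := by
  have h1 : ∀ j : Fin e, ((i, j, s j) : Var p e) ∈ GT i' s' := fun j => h (mem_GT.2 ⟨rfl, rfl⟩)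
  refine ⟨(mem_GT.1 (h1 ⟨0, he⟩)).1, ?_⟩
  funext j
  exact (mem_GT.1 (h1 j)).2

lemma GG_antichain {P : Finset (Fin p)} {A : Finset (Var p e)} (hok : Ok P A) (he : 2 ≤ e) :
    ∀ I ∈ GG P A, ∀ I' ∈ GG P A, I' ⊆ I → I' = I := by
  intro I hI I' hI' h
  rcases mem_GG.1 hI with ⟨y, hy, rfl⟩ | ⟨i, hi, s, rfl⟩
  · rcases mem_GG.1 hI' with ⟨y', hy', rfl⟩ | ⟨i', hi', s', rfl⟩
    · rw [Finset.singleton_subset_singleton] at h
      rw [h]
    · exfalso
      have h0 : ((i', ⟨0, by omega⟩, s' ⟨0, by omega⟩) : Var p e) ∈ ({y} : Finset (Var p e)) :=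
        h (mem_GT.2 ⟨rfl, rfl⟩)
      rw [Finset.mem_singleton] at h0
      apply hok y hy
      rw [← h0]
      exact hi'
  · rcases mem_GG.1 hI' with ⟨y', hy', rfl⟩ | ⟨i', hi', s', rfl⟩
    · exfalso
      have h0 := (mem_GT.1 (h (Finset.mem_singleton_self y'))).1
      apply hok y' hy'
      rw [h0]
      exact hi
    · obtain ⟨h1, h2⟩ := GT_subset (by omega) h
      rw [h1, h2]

lemma FF_card {P : Finset (Fin p)} {A : Finset (Var p e)} (hok : Ok P A) (he : 0 < e) :
    (FF P A).card = e ^ P.card := by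
  classical
  -- restrict to functions that are `0` outside of `P`
  let z : Fin e := ⟨0, he⟩
  have h1 : FF P A = (Fintype.piFinset (fun i : Fin p =>
      if i ∈ P then (Finset.univ : Finset (Fin e)) else {z})).image (FT P A) := by
    ext I
    rw [mem_FF, Finset.mem_image]
    constructor
    · rintro ⟨c, rfl⟩
      refine ⟨fun i => if i ∈ P then c i else z, ?_, ?_⟩
      · rw [Fintype.mem_piFinset]
        intro i
        by_cases hi : i ∈ P <;> simp [hi]
      · apply FT_congr
        intro i hi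
        simp [hi]
    · rintro ⟨c, -, rfl⟩
      exact ⟨c, rfl⟩
  rw [h1, Finset.card_image_of_injOn, Fintype.card_piFinset]
  · have : ∀ i : Fin p, (if i ∈ P then (Finset.univ : Finset (Fin e)) else {z}).card =
        if i ∈ P then e else 1 := by
      intro i
      by_cases hi : i ∈ P <;> simp [hi]
    rw [Finset.prod_congr rfl (fun i _ => this i), Finset.prod_ite]
    simp
  · intro c hc c' hc' h
    rw [Finset.mem_coe, Fintype.mem_piFinset] at hc hc'
    funext i
    by_cases hi : i ∈ P
    · exact FT_subset hok h.subset i hi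
    · have h2 := hc i
      have h3 := hc' i
      simp only [hi, if_false, Finset.mem_singleton] at h2 h3
      rw [h2, h3]

lemma GG_card {P : Finset (Fin p)} {A : Finset (Var p e)} (hok : Ok P A) (he : 0 < e) :
    (GG P A).card = P.card * 2 ^ e + A.card := by
  classical
  rw [GG, Finset.card_union_of_disjoint, Finset.card_image_of_injective _
    (fun a b h => Finset.singleton_injective h), Finset.card_biUnion]
  · have : ∀ i ∈ P, (Finset.univ.image (GT (p := p) (e := e) i)).card = 2 ^ e := by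
      intro i _
      rw [Finset.card_image_of_injective]
      · simp
      · intro s s' h
        exact (GT_subset he h.subset).2
    rw [Finset.sum_congr rfl this, Finset.sum_const, smul_eq_mul, add_comm]
  · intro i _ i' _ hne
    rw [Function.onFun, Finset.disjoint_left]
    intro J hJ hJ'
    obtain ⟨s, -, rfl⟩ := Finset.mem_image.1 hJ
    obtain ⟨s', -, h⟩ := Finset.mem_image.1 hJ'
    exact hne (GT_subset he h.symm.subset).1
  · rw [Finset.disjoint_left]
    intro J hJ hJ'
    obtain ⟨y, hy, rfl⟩ := Finset.mem_image.1 hJ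
    obtain ⟨i, hi, hJ''⟩ := Finset.mem_biUnion.1 hJ'
    obtain ⟨s, -, h⟩ := Finset.mem_image.1 hJ''
    have h0 : ((i, ⟨0, he⟩, s ⟨0, he⟩) : Var p e) ∈ GT i s := mem_GT.2 ⟨rfl, rfl⟩
    rw [h, Finset.mem_singleton] at h0
    apply hok y hy
    rw [← h0]
    exact hi

/-- step at a variable of the conjunctive part -/
lemma step_A_F {P : Finset (Fin p)} {A : Finset (Var p e)} (hok : Ok P A) {x : Var p e}
    (hx : x ∈ A) : minimize ((FF P A).image (fun I => I.erase x)) = FF P (A.erase x) := by
  have hok' : Ok P (A.erase x) := fun v hv => hok v (Finset.mem_of_mem_erase hv)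
  have h1 : (FF P A).image (fun I => I.erase x) = FF P (A.erase x) := by
    ext I
    rw [Finset.mem_image, mem_FF]
    have h2 : ∀ c, (FT P A c).erase x = FT P (A.erase x) c := by
      intro c
      ext v
      rw [Finset.mem_erase, mem_FT, mem_FT, Finset.mem_erase]
      constructor
      · rintro ⟨h3, h4 | h4⟩
        · exact Or.inl ⟨h3, h4⟩
        · exact Or.inr h4
      · rintro (⟨h3, h4⟩ | h4)
        · exact ⟨h3, Or.inl h4⟩
        · refine ⟨?_, Or.inr h4⟩
          rintro rfl
          exact hok _ hx h4.1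
    constructor
    · rintro ⟨I', hI', rfl⟩
      obtain ⟨c, rfl⟩ := mem_FF.1 hI'
      exact ⟨c, (h2 c).symm⟩
    · rintro ⟨c, rfl⟩
      exact ⟨FT P A c, mem_FF.2 ⟨c, rfl⟩, h2 c⟩
  rw [h1]
  exact minimize_of_antichain (FF_antichain hok')

lemma step_A_G {P : Finset (Fin p)} {A : Finset (Var p e)} (hok : Ok P A) {x : Var p e}
    (hx : x ∈ A) : without (GG P A) x = GG P (A.erase x) := by
  ext J
  rw [mem_without, mem_GG, mem_GG]
  constructor
  · rintro ⟨⟨y, hy, rfl⟩ | h, h2⟩
    · left
      refine ⟨y, ?_, rfl⟩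
      rw [Finset.mem_erase]
      refine ⟨?_, hy⟩
      rintro rfl
      exact h2 (Finset.mem_singleton_self _)
    · exact Or.inr h
  · rintro (⟨y, hy, rfl⟩ | ⟨i, hi, s, rfl⟩)
    · rw [Finset.mem_erase] at hy
      refine ⟨Or.inl ⟨y, hy.2, rfl⟩, ?_⟩
      rw [Finset.mem_singleton]
      exact fun h => hy.1 h.symm
    · refine ⟨Or.inr ⟨i, hi, s, rfl⟩, ?_⟩
      intro h
      apply hok x hx
      rw [(mem_GT.1 h).1]
      exact hi

lemma link_G {P : Finset (Fin p)} {A : Finset (Var p e)} (hok : Ok P A) {x : Var p e}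
    (hx : x.1 ∈ P) {J : Finset (Var p e)} :
    J ∈ link (GG P A) x ↔ ∃ s : Fin e → Bool, s x.2.1 = x.2.2 ∧ (GT x.1 s).erase x = J := by
  rw [mem_link]
  constructor
  · rintro ⟨J', hJ', hxJ', rfl⟩
    rcases mem_GG.1 hJ' with ⟨y, hy, rfl⟩ | ⟨i, hi, s, rfl⟩
    · rw [Finset.mem_singleton] at hxJ'
      subst hxJ'
      exact absurd hx (hok _ hy)
    · have h := mem_GT.1 hxJ'
      refine ⟨s, h.2.symm, ?_⟩
      rw [h.1]
  · rintro ⟨s, hs, rfl⟩
    exact ⟨GT x.1 s, mem_GG.2 (Or.inr ⟨x.1, hx, s, rfl⟩), mem_GT.2 ⟨rfl, hs.symm⟩, rfl⟩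

/-- the partner of a variable in its block -/
def partner (x : Var p e) : Var p e := (x.1, x.2.1, !x.2.2)

lemma Ok_child {P : Finset (Fin p)} {A : Finset (Var p e)} (hok : Ok P A) (x : Var p e) :
    Ok (P.erase x.1) (insert (partner x) A) := by
  intro v hv
  rw [Finset.mem_insert] at hv
  rw [Finset.mem_erase]
  rcases hv with rfl | hv
  · exact fun h => h.1 rfl
  · exact fun h => hok v hv h.2

lemma step_F {P : Finset (Fin p)} {A : Finset (Var p e)} (hok : Ok P A) {x : Var p e}
    (hx : x.1 ∈ P) {s : Fin e → Bool} (hs : s x.2.1 = x.2.2) :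
    minimize ((link (FF P A) x).filter (fun I => Disjoint I ((GT x.1 s).erase x))) =
      FF (P.erase x.1) (insert (partner x) A) := by
  have h1 : (link (FF P A) x).filter (fun I => Disjoint I ((GT x.1 s).erase x)) =
      FF (P.erase x.1) (insert (partner x) A) := by
    have h2 : ∀ c : Fin p → Fin e, c x.1 = x.2.1 →
        (FT P A c).erase x = FT (P.erase x.1) (insert (partner x) A) c := by
      intro c hc
      ext v
      rw [Finset.mem_erase, mem_FT, mem_FT, Finset.mem_insert, Finset.mem_erase]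
      obtain ⟨x1, x2, x3⟩ := x
      obtain ⟨v1, v2, v3⟩ := v
      simp only [partner, Prod.mk.injEq, ne_eq, not_and] at *
      constructor
      · rintro ⟨h3, h4 | ⟨h4, h5⟩⟩
        · exact Or.inl (Or.inr h4)
        · by_cases hv : v1 = x1
          · left; left
            subst hv
            have h6 : v2 = x2 := by rw [h5, hc]
            refine ⟨rfl, h6, ?_⟩
            have := h3 rfl h6
            cases v3 <;> cases x3 <;> simp_all
          · exact Or.inr ⟨⟨hv, h4⟩, h5⟩
      · rintro ((h3 | h3) | ⟨⟨h3, h4⟩, h5⟩)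
        · obtain ⟨rfl, rfl, rfl⟩ := h3
          refine ⟨fun _ _ => by simp, Or.inr ⟨hx, hc.symm⟩⟩
        · refine ⟨?_, Or.inl h3⟩
          intro h4
          subst h4
          exact absurd hx (hok _ h3)
        · exact ⟨fun h => absurd h h3, Or.inr ⟨h4, h5⟩⟩
    ext I
    rw [Finset.mem_filter, mem_link, mem_FF]
    constructor
    · rintro ⟨⟨I', hI', hxI', rfl⟩, -⟩
      obtain ⟨c, rfl⟩ := mem_FF.1 hI'
      refine ⟨c, (h2 c ?_).symm⟩
      rcases mem_FT.1 hxI' with h3 | h3
      · exact absurd hx (hok _ h3)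
      · exact h3.2.symm
    · rintro ⟨c, rfl⟩
      -- modify `c` at group `x.1`
      set c' : Fin p → Fin e := Function.update c x.1 x.2.1 with hc'
      have hc'x : c' x.1 = x.2.1 := by simp [hc']
      have hcc : FT (P.erase x.1) (insert (partner x) A) c =
          FT (P.erase x.1) (insert (partner x) A) c' := by
        apply FT_congr
        intro i hi
        rw [hc', Function.update_of_ne (Finset.ne_of_mem_erase hi)]
      rw [hcc]
      refine ⟨⟨FT P A c', mem_FF.2 ⟨c', rfl⟩, mem_FT.2 (Or.inr ⟨hx, hc'x.symm⟩), h2 c' hc'x⟩, ?_⟩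
      rw [Finset.disjoint_left]
      intro v hv hv'
      rw [Finset.mem_erase, mem_GT] at hv'
      rcases mem_FT.1 hv with h3 | h3
      · rcases Finset.mem_insert.1 h3 with h4 | h4
        · subst h4
          have h5 := hv'.2.2
          simp only [partner] at h5
          rw [hs] at h5
          simp at h5
        · apply hok v h4
          rw [hv'.2.1]
          exact hx
      · exact absurd hv'.2.1 (Finset.ne_of_mem_erase h3.1)
  rw [h1]
  exact minimize_of_antichain (FF_antichain (Ok_child hok x))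

lemma step_G {P : Finset (Fin p)} {A : Finset (Var p e)} (hok : Ok P A) (he : 2 ≤ e) {x : Var p e}
    (hx : x.1 ∈ P) {s : Fin e → Bool} (hs : s x.2.1 = x.2.2) :
    minimize ((without (GG P A) x).image (fun J' => J' \ ((GT x.1 s).erase x))) =
      GG (P.erase x.1) (insert (partner x) A) := by
  have hanti := GG_antichain (Ok_child hok x) he
  -- members of the image
  have himg : ∀ J, J ∈ (without (GG P A) x).image (fun J' => J' \ ((GT x.1 s).erase x)) →
      J ∈ GG (P.erase x.1) (insert (partner x) A) ∨ partner x ∈ J := by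
    intro J hJ
    obtain ⟨J', hJ', rfl⟩ := Finset.mem_image.1 hJ
    obtain ⟨hJ1, hJ2⟩ := mem_without.1 hJ'
    rcases mem_GG.1 hJ1 with ⟨y, hy, rfl⟩ | ⟨i, hi, s', rfl⟩
    · left
      have : ({y} : Finset (Var p e)) \ ((GT x.1 s).erase x) = {y} := by
        rw [Finset.sdiff_eq_self_iff_disjoint, Finset.disjoint_singleton_left]
        intro h
        apply hok y hy
        rw [(mem_GT.1 (Finset.mem_of_mem_erase h)).1]
        exact hx
      simp only [this]
      exact mem_GG.2 (Or.inl ⟨y, Finset.mem_insert_of_mem hy, rfl⟩)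
    · by_cases hix : i = x.1
      · right
        subst hix
        rw [Finset.mem_sdiff, mem_GT, Finset.mem_erase, mem_GT]
        rw [mem_GT] at hJ2
        have h3 : x.2.2 ≠ s' x.2.1 := fun h => hJ2 ⟨rfl, h⟩
        refine ⟨⟨rfl, ?_⟩, ?_⟩
        · simp only [partner]
          cases h4 : x.2.2 <;> cases h5 : s' x.2.1 <;> simp_all
        · rintro ⟨-, -, h4⟩
          simp only [partner] at h4
          rw [hs] at h4
          simp at h4
      · left
        have : GT i s' \ ((GT x.1 s).erase x) = GT i s' := by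
          rw [Finset.sdiff_eq_self_iff_disjoint, Finset.disjoint_left]
          intro v hv hv'
          apply hix
          rw [← (mem_GT.1 hv).1, (mem_GT.1 (Finset.mem_of_mem_erase hv')).1]
        simp only [this]
        exact mem_GG.2 (Or.inr ⟨i, Finset.mem_erase.2 ⟨hix, hi⟩, s', rfl⟩)
  have hsub : ∀ J, J ∈ GG (P.erase x.1) (insert (partner x) A) →
      J ∈ (without (GG P A) x).image (fun J' => J' \ ((GT x.1 s).erase x)) := by
    intro J hJ
    rw [Finset.mem_image]
    rcases mem_GG.1 hJ with ⟨y, hy, rfl⟩ | ⟨i, hi, s', rfl⟩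
    · rcases Finset.mem_insert.1 hy with rfl | hy
      · -- flip `s` at the block of `x`
        refine ⟨GT x.1 (Function.update s x.2.1 (!x.2.2)), ?_, ?_⟩
        · rw [mem_without]
          refine ⟨mem_GG.2 (Or.inr ⟨x.1, hx, _, rfl⟩), ?_⟩
          rw [mem_GT]
          simp
        · ext v
          rw [Finset.mem_sdiff, mem_GT, Finset.mem_erase, mem_GT, Finset.mem_singleton]
          constructor
          · rintro ⟨⟨h1, h2⟩, h3⟩
            by_cases hv : v.2.1 = x.2.1
            · refine Prod.ext h1 (Prod.ext hv ?_)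
              rw [h2, hv]
              simp [partner]
            · exfalso
              apply h3
              rw [Function.update_of_ne hv] at h2
              refine ⟨?_, h1, h2⟩
              rintro rfl
              exact hv rfl
          · rintro rfl
            refine ⟨⟨rfl, by simp [partner]⟩, ?_⟩
            rintro ⟨-, -, h⟩
            simp only [partner] at h
            rw [hs] at h
            simp at h
      · refine ⟨{y}, ?_, ?_⟩
        · rw [mem_without]
          refine ⟨mem_GG.2 (Or.inl ⟨y, hy, rfl⟩), ?_⟩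
          rw [Finset.mem_singleton]
          rintro rfl
          exact hok _ hy hx
        · rw [Finset.sdiff_eq_self_iff_disjoint, Finset.disjoint_singleton_left]
          intro h
          apply hok y hy
          rw [(mem_GT.1 (Finset.mem_of_mem_erase h)).1]
          exact hx
    · rw [Finset.mem_erase] at hi
      refine ⟨GT i s', ?_, ?_⟩
      · rw [mem_without]
        refine ⟨mem_GG.2 (Or.inr ⟨i, hi.2, s', rfl⟩), ?_⟩
        rw [mem_GT]
        exact fun h => hi.1 h.1.symm
      · rw [Finset.sdiff_eq_self_iff_disjoint, Finset.disjoint_left]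
        intro v hv hv'
        apply hi.1
        rw [← (mem_GT.1 hv).1, (mem_GT.1 (Finset.mem_of_mem_erase hv')).1]
  have hpx : ({partner x} : Finset (Var p e)) ∈ GG (P.erase x.1) (insert (partner x) A) :=
    mem_GG.2 (Or.inl ⟨partner x, Finset.mem_insert_self _ _, rfl⟩)
  ext J
  rw [mem_minimize]
  constructor
  · rintro ⟨h1, h2⟩
    rcases himg J h1 with h3 | h3
    · exact h3
    · have := h2 {partner x} (hsub _ hpx) (Finset.singleton_subset_iff.2 h3)
      rw [← this]
      exact hpx
  · intro hJ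
    refine ⟨hsub J hJ, ?_⟩
    intro J' hJ' hss
    rcases himg J' hJ' with h3 | h3
    · exact hanti J hJ J' h3 hss
    · have h4 : ({partner x} : Finset (Var p e)) = J :=
        hanti J hJ _ hpx (Finset.singleton_subset_iff.2 (hss h3))
      have h5 : J ⊆ J' := by rw [← h4]; exact Finset.singleton_subset_iff.2 h3
      exact Finset.Subset.antisymm hss h5

/-- number of terms through a variable of an intact group -/
lemma card_F_through {P : Finset (Fin p)} {A : Finset (Var p e)} (hok : Ok P A) (he : 0 < e)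
    {x : Var p e} (hx : x.1 ∈ P) :
    ((FF P A).filter (fun I => x ∈ I)).card = e ^ (P.card - 1) := by
  have hok' : Ok (P.erase x.1) (insert x (insert (partner x) A)) := by
    intro v hv
    rw [Finset.mem_insert] at hv
    rcases hv with rfl | hv
    · rw [Finset.mem_erase]; exact fun h => h.1 rfl
    · exact Ok_child hok x v hv
  have h1 : (FF P A).filter (fun I => x ∈ I) =
      FF (P.erase x.1) (insert x (insert (partner x) A)) := by
    have h2 : ∀ c : Fin p → Fin e, c x.1 = x.2.1 →
        FT P A c = FT (P.erase x.1) (insert x (insert (partner x) A)) c := by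
      intro c hc
      ext v
      rw [mem_FT, mem_FT, Finset.mem_insert, Finset.mem_insert, Finset.mem_erase]
      obtain ⟨x1, x2, x3⟩ := x
      obtain ⟨v1, v2, v3⟩ := v
      simp only [partner, Prod.mk.injEq, ne_eq] at *
      constructor
      · rintro (h4 | ⟨h4, h5⟩)
        · exact Or.inl (Or.inr (Or.inr h4))
        · by_cases hv : v1 = x1
          · left
            subst hv
            have h6 : v2 = x2 := by rw [h5, hc]
            by_cases h7 : v3 = x3
            · exact Or.inl ⟨rfl, h6, h7⟩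
            · right; left
              refine ⟨rfl, h6, ?_⟩
              cases v3 <;> cases x3 <;> simp_all
          · exact Or.inr ⟨⟨hv, h4⟩, h5⟩
      · rintro ((⟨rfl, rfl, rfl⟩ | ⟨rfl, rfl, h3⟩ | h3) | ⟨⟨h3, h4⟩, h5⟩)
        · exact Or.inr ⟨hx, hc.symm⟩
        · exact Or.inr ⟨hx, hc.symm⟩
        · exact Or.inl h3
        · exact Or.inr ⟨h4, h5⟩
    ext I
    rw [Finset.mem_filter, mem_FF, mem_FF]
    constructor
    · rintro ⟨⟨c, rfl⟩, hxI⟩
      refine ⟨c, (h2 c ?_).symm⟩
      rcases mem_FT.1 hxI with h3 | h3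
      · exact absurd hx (hok _ h3)
      · exact h3.2.symm
    · rintro ⟨c, rfl⟩
      set c' : Fin p → Fin e := Function.update c x.1 x.2.1 with hc'
      have hc'x : c' x.1 = x.2.1 := by simp [hc']
      have hcc : FT (P.erase x.1) (insert x (insert (partner x) A)) c =
          FT (P.erase x.1) (insert x (insert (partner x) A)) c' := by
        apply FT_congr
        intro i hi
        rw [hc', Function.update_of_ne (Finset.ne_of_mem_erase hi)]
      rw [hcc]
      exact ⟨⟨c', h2 c' hc'x⟩, mem_FT.2 (Or.inl (Finset.mem_insert_self _ _))⟩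
  rw [h1, FF_card hok' he, Finset.card_erase_of_mem hx]

lemma card_s (he : 0 < e) (j : Fin e) (b : Bool) :
    (Finset.univ.filter (fun s : Fin e → Bool => s j = b)).card = 2 ^ (e - 1) := by
  classical
  have h1 : Finset.univ.filter (fun s : Fin e → Bool => s j = b) =
      Fintype.piFinset (fun j' => if j' = j then ({b} : Finset Bool) else Finset.univ) := by
    ext s
    rw [Finset.mem_filter, Fintype.mem_piFinset]
    constructor
    · rintro ⟨-, h⟩ j'
      by_cases hj : j' = j
      · subst hj; simp [h]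
      · simp [hj]
    · intro h
      refine ⟨Finset.mem_univ _, ?_⟩
      have := h j
      simpa using this
  rw [h1, Fintype.card_piFinset]
  have h2 : ∀ j' : Fin e, (if j' = j then ({b} : Finset Bool) else Finset.univ).card =
      if j' = j then 1 else 2 := by
    intro j'
    by_cases hj : j' = j <;> simp [hj]
  rw [Finset.prod_congr rfl (fun j' _ => h2 j'), Finset.prod_ite]
  simp only [Finset.prod_const_one, Finset.prod_const, one_mul]
  congr 1
  rw [Finset.filter_ne' Finset.univ j, Finset.card_erase_of_mem (Finset.mem_univ _),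
    Finset.card_univ, Fintype.card_fin]

lemma card_G_through {P : Finset (Fin p)} {A : Finset (Var p e)} (hok : Ok P A) (he : 0 < e)
    {x : Var p e} (hx : x.1 ∈ P) :
    ((GG P A).filter (fun J => x ∈ J)).card = 2 ^ (e - 1) := by
  have h1 : (GG P A).filter (fun J => x ∈ J) =
      (Finset.univ.filter (fun s : Fin e → Bool => s x.2.1 = x.2.2)).image (GT x.1) := by
    ext J
    rw [Finset.mem_filter, mem_GG, Finset.mem_image]
    constructor
    · rintro ⟨⟨y, hy, rfl⟩ | ⟨i, hi, s, rfl⟩, hxJ⟩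
      · rw [Finset.mem_singleton] at hxJ
        subst hxJ
        exact absurd hx (hok _ hy)
      · have h := mem_GT.1 hxJ
        refine ⟨s, ?_, ?_⟩
        · rw [Finset.mem_filter]; exact ⟨Finset.mem_univ _, h.2.symm⟩
        · rw [h.1]
    · rintro ⟨s, hs, rfl⟩
      rw [Finset.mem_filter] at hs
      exact ⟨Or.inr ⟨x.1, hx, s, rfl⟩, mem_GT.2 ⟨rfl, hs.2.symm⟩⟩
  rw [h1, Finset.card_image_of_injective, card_s he]
  intro s s' h
  exact (GT_subset he h.subset).2

lemma card_link_G {P : Finset (Fin p)} {A : Finset (Var p e)} (hok : Ok P A) (he : 0 < e)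
    {x : Var p e} (hx : x.1 ∈ P) : (link (GG P A) x).card = 2 ^ (e - 1) := by
  rw [link, Finset.card_image_of_injOn, card_G_through hok he hx]
  intro J hJ J' hJ' h
  rw [Finset.mem_coe, Finset.mem_filter] at hJ hJ'
  simp only at h
  rw [← Finset.insert_erase hJ.2, ← Finset.insert_erase hJ'.2, h]

end instances

lemma run_pos {V : Type} [DecidableEq V] {χ : ℝ → ℝ} {F G : Finset (Finset V)} {k : ℕ}
    (h : Run χ F G k) : 1 ≤ k := by
  cases h <;> omega

lemma rpow_self_lt {a b : ℝ} (hb : 1 ≤ b) (hab : b < a) : b ^ b < a ^ a := by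
  have h1 : b ^ b < a ^ b := Real.rpow_lt_rpow (by linarith) hab (by linarith)
  have h2 : a ^ b ≤ a ^ a := Real.rpow_le_rpow_of_exponent_le (by linarith) hab.le
  linarith

section lower
variable {p e : ℕ}

lemma chi_bounds (χ : ℝ → ℝ) (hχ : ∀ v : ℝ, 1 ≤ v → 1 ≤ χ v ∧ χ v ^ χ v = v) (he : 3 ≤ e)
    (hp1 : e ^ p * (p * 2 ^ e + p) ≤ e ^ e) (hp2 : (2 * p + 1) ^ (2 * p + 1) ≤ 2 ^ e)
    {P : Finset (Fin p)} {A : Finset (Var p e)} (hok : Ok P A) (hP : 1 ≤ P.card)
    (hPA : P.card + A.card ≤ p) :
    χ (((FF P A).card : ℝ) * ((GG P A).card : ℝ)) ≤ e ∧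
    2 * (p : ℝ) + 1 < χ (((FF P A).card : ℝ) * ((GG P A).card : ℝ)) := by
  rw [FF_card hok (by omega), GG_card hok (by omega)]
  set v : ℝ := ((e ^ P.card : ℕ) : ℝ) * ((P.card * 2 ^ e + A.card : ℕ) : ℝ) with hv
  have hlow : e * 2 ^ e ≤ e ^ P.card * (P.card * 2 ^ e + A.card) := by
    apply Nat.mul_le_mul
    · calc e = e ^ 1 := (pow_one e).symm
        _ ≤ e ^ P.card := Nat.pow_le_pow_right (by omega) hP
    · calc 2 ^ e = 1 * 2 ^ e := (one_mul _).symm
        _ ≤ P.card * 2 ^ e := Nat.mul_le_mul_right _ hP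
        _ ≤ P.card * 2 ^ e + A.card := Nat.le_add_right _ _
  have hup : e ^ P.card * (P.card * 2 ^ e + A.card) ≤ e ^ e := by
    refine le_trans ?_ hp1
    apply Nat.mul_le_mul
    · exact Nat.pow_le_pow_right (by omega) (by omega)
    · apply Nat.add_le_add
      · exact Nat.mul_le_mul_right _ (by omega)
      · omega
  have hlow' : ((e * 2 ^ e : ℕ) : ℝ) ≤ v := by
    rw [hv, ← Nat.cast_mul]
    exact_mod_cast hlow
  have hup' : v ≤ ((e ^ e : ℕ) : ℝ) := by
    rw [hv, ← Nat.cast_mul]
    exact_mod_cast hup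
  have h2e : (1 : ℝ) ≤ ((2 ^ e : ℕ) : ℝ) := by
    exact_mod_cast Nat.one_le_two_pow
  have heR : (3 : ℝ) ≤ (e : ℝ) := by exact_mod_cast he
  have hgt : ((2 ^ e : ℕ) : ℝ) < v := by
    refine lt_of_lt_of_le ?_ hlow'
    rw [Nat.cast_mul]
    nlinarith
  have hv1 : (1 : ℝ) ≤ v := le_trans h2e hgt.le
  obtain ⟨hc1, hc2⟩ := hχ v hv1
  constructor
  · by_contra hcon
    push Not at hcon
    have h1 := rpow_self_lt (by linarith : (1 : ℝ) ≤ (e : ℝ)) hcon
    rw [hc2, Real.rpow_natCast] at h1
    have h2 : ((e ^ e : ℕ) : ℝ) = (e : ℝ) ^ e := by push_cast; rfl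
    rw [h2] at hup'
    linarith
  · by_contra hcon
    push Not at hcon
    have h1 : χ v ^ χ v ≤ (2 * (p : ℝ) + 1) ^ (2 * (p : ℝ) + 1) := by
      rcases hcon.lt_or_eq with h | h
      · exact (rpow_self_lt hc1 h).le
      · rw [h]
    rw [hc2] at h1
    have h2 : (2 * (p : ℝ) + 1) ^ (2 * (p : ℝ) + 1) = (((2 * p + 1) ^ (2 * p + 1) : ℕ) : ℝ) := by
      have h3 : (2 * (p : ℝ) + 1) = ((2 * p + 1 : ℕ) : ℝ) := by push_cast; rfl
      rw [h3, Real.rpow_natCast]
      push_cast
      rfl
    rw [h2] at h1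
    have h4 : (((2 * p + 1) ^ (2 * p + 1) : ℕ) : ℝ) ≤ ((2 ^ e : ℕ) : ℝ) := by exact_mod_cast hp2
    linarith

theorem lower (χ : ℝ → ℝ) (hχ : ∀ v : ℝ, 1 ≤ v → 1 ≤ χ v ∧ χ v ^ χ v = v) (he : 3 ≤ e)
    (hp1 : e ^ p * (p * 2 ^ e + p) ≤ e ^ e) (hp2 : (2 * p + 1) ^ (2 * p + 1) ≤ 2 ^ e) :
    ∀ (n : ℕ) (P : Finset (Fin p)) (A : Finset (Var p e)), 2 * P.card + A.card ≤ n → Ok P A →
      P.card + A.card ≤ p → ∀ k, Run χ (FF P A) (GG P A) k → (2 ^ (e - 1)) ^ P.card ≤ k := by
  intro n
  induction n with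
  | zero =>
    intro P A hn hok hPA k hrun
    have : P.card = 0 := by omega
    rw [this, pow_zero]
    exact run_pos hrun
  | succ n ih =>
    intro P A hn hok hPA k hrun
    rcases Nat.eq_zero_or_pos P.card with h0 | hP
    · rw [h0, pow_zero]
      exact run_pos hrun
    have hFc := FF_card hok (by omega : 0 < e)
    have hGc := GG_card hok (by omega : 0 < e)
    have hFbig : 3 ≤ (FF P A).card := by
      rw [hFc]
      calc 3 ≤ e := he
        _ = e ^ 1 := (pow_one e).symm
        _ ≤ e ^ P.card := Nat.pow_le_pow_right (by omega) hP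
    have hGbig : 3 ≤ (GG P A).card := by
      rw [hGc]
      have h1 : 2 ^ 3 ≤ 2 ^ e := Nat.pow_le_pow_right (by norm_num) he
      have h2 : 1 * 2 ^ e ≤ P.card * 2 ^ e := Nat.mul_le_mul_right _ hP
      omega
    obtain ⟨hchi1, hchi2⟩ := chi_bounds χ hχ he hp1 hp2 hok hP hPA
    set cv := χ (((FF P A).card : ℝ) * ((GG P A).card : ℝ)) with hcv
    have hpR : (0 : ℝ) ≤ (p : ℝ) := Nat.cast_nonneg p
    have hcvpos : 0 < cv := by linarith
    have heR : (3 : ℝ) ≤ (e : ℝ) := by exact_mod_cast he
    -- occurrences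
    have hocc : ∀ x : Var p e, ((∃ I ∈ FF P A, x ∈ I) ∨ ∃ J ∈ GG P A, x ∈ J) →
        x ∈ A ∨ x.1 ∈ P := by
      rintro x (⟨I, hI, hxI⟩ | ⟨J, hJ, hxJ⟩)
      · obtain ⟨c, rfl⟩ := mem_FF.1 hI
        rcases mem_FT.1 hxI with h | h
        · exact Or.inl h
        · exact Or.inr h.1
      · rcases mem_GG.1 hJ with ⟨y, hy, rfl⟩ | ⟨i, hi, s, rfl⟩
        · rw [Finset.mem_singleton] at hxJ
          exact Or.inl (hxJ ▸ hy)
        · right
          rw [(mem_GT.1 hxJ).1]
          exact hi
    -- frequencies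
    have hfreqFA : ∀ x ∈ A, freq (FF P A) x = 1 := by
      intro x hx
      have h1 : (FF P A).filter (fun I => x ∈ I) = FF P A := by
        apply Finset.filter_true_of_mem
        intro I hI
        obtain ⟨c, rfl⟩ := mem_FF.1 hI
        exact mem_FT.2 (Or.inl hx)
      rw [freq, h1]
      apply div_self
      have : 0 < (FF P A).card := by omega
      exact_mod_cast this.ne'
    have hfreqFP : ∀ x : Var p e, x.1 ∈ P → freq (FF P A) x = 1 / (e : ℝ) := by
      intro x hx
      rw [freq, card_F_through hok (by omega) hx, hFc]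
      have h1 : e ^ P.card = e ^ (P.card - 1) * e := by
        rw [← pow_succ]; congr 1; omega
      rw [h1]
      push_cast
      have h2 : (e : ℝ) ^ (P.card - 1) ≠ 0 := by positivity
      have h3 : (e : ℝ) ≠ 0 := by positivity
      field_simp
    have hfreqGP : ∀ x : Var p e, x.1 ∈ P → 1 / cv < freq (GG P A) x := by
      intro x hx
      rw [freq, card_G_through hok (by omega) hx, hGc]
      have hpos : (0 : ℝ) < ((P.card * 2 ^ e + A.card : ℕ) : ℝ) := by
        have : 0 < P.card * 2 ^ e + A.card := by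
          have : 0 < P.card * 2 ^ e := Nat.mul_pos hP (by positivity)
          omega
        exact_mod_cast this
      rw [div_lt_div_iff₀ hcvpos hpos, one_mul]
      have hle : P.card * 2 ^ e + A.card ≤ 2 ^ (e - 1) * (2 * p + 1) := by
        have h1 : 2 ^ e = 2 ^ (e - 1) * 2 := by
          rw [← pow_succ]; congr 1; omega
        have h2 : p ≤ 2 ^ (e - 1) := by
          have h3 : 2 * p + 1 ≤ (2 * p + 1) ^ (2 * p + 1) := Nat.le_self_pow (by omega) _
          omega
        have h4 : P.card * 2 ^ (e - 1) ≤ p * 2 ^ (e - 1) := Nat.mul_le_mul_right _ (by omega)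
        rw [h1]
        nlinarith
      have hle' : ((P.card * 2 ^ e + A.card : ℕ) : ℝ) ≤
          ((2 ^ (e - 1) : ℕ) : ℝ) * (2 * (p : ℝ) + 1) := by
        have h5 : ((P.card * 2 ^ e + A.card : ℕ) : ℝ) ≤ ((2 ^ (e - 1) * (2 * p + 1) : ℕ) : ℝ) := by
          exact_mod_cast hle
        refine h5.trans (le_of_eq ?_)
        push_cast
        ring
      have h2pos : (0 : ℝ) < ((2 ^ (e - 1) : ℕ) : ℝ) := by positivity
      calc ((P.card * 2 ^ e + A.card : ℕ) : ℝ) ≤ ((2 ^ (e - 1) : ℕ) : ℝ) * (2 * (p : ℝ) + 1) := hle'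
        _ < ((2 ^ (e - 1) : ℕ) : ℝ) * cv := by
            exact mul_lt_mul_of_pos_left hchi2 h2pos
    -- recursion at a variable of the conjunctive part
    have hA : ∀ x ∈ A, ∀ k', Run χ (minimize ((FF P A).image (fun I => I.erase x)))
        (without (GG P A) x) k' → (2 ^ (e - 1)) ^ P.card ≤ k' := by
      intro x hx k' hrun'
      rw [step_A_F hok hx, step_A_G hok hx] at hrun'
      have hc := Finset.card_erase_of_mem hx
      have hApos : 0 < A.card := Finset.card_pos.2 ⟨x, hx⟩
      exact ih P (A.erase x) (by omega) (fun v hv => hok v (Finset.mem_of_mem_erase hv))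
        (by omega) k' hrun'
    generalize hF : FF P A = F at *
    generalize hG : GG P A = G at *
    cases hrun with
    | small h => omega
    | rareF x k₀ k h hx hf h₀ hJ =>
      rcases hocc x hx with hxA | hxP
      · exfalso
        rw [hfreqFA x hxA, ← hcv, le_div_iff₀ hcvpos] at hf
        linarith
      · subst hF hG
        have h1 : ∀ J ∈ link (GG P A) x, (2 ^ (e - 1)) ^ (P.card - 1) ≤ k J := by
          intro J hJm
          obtain ⟨s, hs, rfl⟩ := (link_G hok hxP).1 hJm
          have h2 := hJ _ hJm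
          rw [step_F hok hxP hs, step_G hok (by omega) hxP hs] at h2
          have hc1 := Finset.card_erase_of_mem hxP
          have hc2 : (insert (partner x) A).card ≤ A.card + 1 := Finset.card_insert_le _ _
          have := ih (P.erase x.1) (insert (partner x) A) (by omega) (Ok_child hok x) (by omega)
            _ h2
          rwa [hc1] at this
        have h3 : (link (GG P A) x).card • ((2 ^ (e - 1)) ^ (P.card - 1)) ≤
            ∑ J ∈ link (GG P A) x, k J := Finset.card_nsmul_le_sum (link (GG P A) x) k _ h1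
        rw [card_link_G hok (by omega) hxP, smul_eq_mul] at h3
        have h4 : (2 ^ (e - 1)) ^ P.card = 2 ^ (e - 1) * (2 ^ (e - 1)) ^ (P.card - 1) := by
          rw [← pow_succ']; congr 1; omega
        rw [h4]
        refine h3.trans ?_
        omega
    | rareG x k₀ k h hx hg h₀ hI =>
      rcases hocc x hx with hxA | hxP
      · have := hA x hxA k₀ h₀
        omega
      · exfalso
        have := hfreqGP x hxP
        rw [← hcv] at hg
        linarith
    | split x k₀ k₁ h hx hf hg h₀ h₁ =>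
      rcases hocc x hx with hxA | hxP
      · have := hA x hxA k₁ h₁
        omega
      · exfalso
        rw [hfreqFP x hxP, ← hcv, div_lt_div_iff₀ hcvpos (by linarith)] at hf
        linarith

end lower

section dual
variable {p e : ℕ}

/-- If a property is `contains a member of the antichain 𝒳`, its minimal sets are `𝒳`. -/
lemma minimal_iff_of_antichain {V : Type} [DecidableEq V] {X : Finset (Finset V)}
    {Q : Finset V → Prop} (hX : ∀ I ∈ X, ∀ I' ∈ X, I' ⊆ I → I' = I)
    (hQ : ∀ T, Q T ↔ ∃ I ∈ X, I ⊆ T) (T : Finset V) : T ∈ X ↔ Minimal Q T := by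
  constructor
  · intro hT
    refine ⟨(hQ T).2 ⟨T, hT, Finset.Subset.refl _⟩, ?_⟩
    intro S hS hST
    obtain ⟨I, hI, hIS⟩ := (hQ S).1 hS
    have := hX T hT I hI (hIS.trans hST)
    rw [← this]
    exact hIS
  · intro hT
    obtain ⟨I, hI, hIT⟩ := (hQ T).1 hT.1
    have h1 : Q I := (hQ I).2 ⟨I, hI, Finset.Subset.refl _⟩
    have h2 : T ⊆ I := hT.2 h1 hIT
    rw [Finset.Subset.antisymm h2 hIT]
    exact hI

lemma dual_pair (he : 2 ≤ e) : IsDualPair (FF (p := p) (e := e) Finset.univ ∅)
    (GG (p := p) (e := e) Finset.univ ∅) := by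
  have hok : Ok (p := p) (e := e) Finset.univ ∅ := by
    intro v hv
    simp at hv
  constructor
  · apply minimal_iff_of_antichain (GG_antichain hok he)
    intro T
    constructor
    · intro h
      by_contra hcon
      push Not at hcon
      -- every group has a block missed by `T`
      have h1 : ∀ i : Fin p, ∃ j : Fin e, ∀ b : Bool, ((i, j, b) : Var p e) ∉ T := by
        intro i
        by_contra hi
        push Not at hi
        choose s hs using hi
        apply hcon (GT i s) (mem_GG.2 (Or.inr ⟨i, Finset.mem_univ _, s, rfl⟩))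
        intro v hv
        obtain ⟨h2, h3⟩ := mem_GT.1 hv
        have := hs v.2.1
        rw [← h3, ← h2] at this
        exact this
      choose c hc using h1
      obtain ⟨v, hv⟩ := h (FT Finset.univ ∅ c) (mem_FF.2 ⟨c, rfl⟩)
      rw [Finset.mem_inter, mem_FT] at hv
      rcases hv.2 with h2 | h2
      · simp at h2
      · apply hc v.1 v.2.2
        rw [← h2.2]
        exact hv.1
    · rintro ⟨J, hJ, hJT⟩ I hI
      obtain ⟨c, rfl⟩ := mem_FF.1 hI
      rcases mem_GG.1 hJ with ⟨y, hy, -⟩ | ⟨i, -, s, rfl⟩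
      · simp at hy
      · refine ⟨(i, c i, s (c i)), ?_⟩
        rw [Finset.mem_inter]
        exact ⟨hJT (mem_GT.2 ⟨rfl, rfl⟩), mem_FT.2 (Or.inr ⟨Finset.mem_univ _, rfl⟩)⟩
  · apply minimal_iff_of_antichain (FF_antichain hok)
    intro T
    constructor
    · intro h
      by_contra hcon
      push Not at hcon
      -- some group has no block contained in `T`
      have h1 : ∃ i : Fin p, ∀ j : Fin e, ∃ b : Bool, ((i, j, b) : Var p e) ∉ T := by
        by_contra hi
        push Not at hi
        choose c hc using hi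
        apply hcon (FT Finset.univ ∅ c) (mem_FF.2 ⟨c, rfl⟩)
        intro v hv
        rcases mem_FT.1 hv with h2 | h2
        · simp at h2
        · have := hc v.1 v.2.2
          rw [← h2.2] at this
          exact this
      obtain ⟨i, hi⟩ := h1
      choose s hs using hi
      obtain ⟨v, hv⟩ := h (GT i s) (mem_GG.2 (Or.inr ⟨i, Finset.mem_univ _, s, rfl⟩))
      rw [Finset.mem_inter, mem_GT] at hv
      apply hs v.2.1
      rw [← hv.2.1, ← hv.2.2]
      exact hv.1
    · rintro ⟨I, hI, hIT⟩ J hJ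
      obtain ⟨c, rfl⟩ := mem_FF.1 hI
      rcases mem_GG.1 hJ with ⟨y, hy, -⟩ | ⟨i, -, s, rfl⟩
      · simp at hy
      · refine ⟨(i, c i, s (c i)), ?_⟩
        rw [Finset.mem_inter]
        exact ⟨hIT (mem_FT.2 (Or.inr ⟨Finset.mem_univ _, rfl⟩)), mem_GT.2 ⟨rfl, rfl⟩⟩

end dual

theorem main (m p e : ℕ) (hm : 1 ≤ m) (hp : p = 2 ^ m) (he : e = (m + 3) * 2 ^ (m + 1)) :
    ∃ F G : Finset (Finset (Fin p × Fin e × Bool)),
      IsDualPair F G ∧ F.card = e ^ p ∧ G.card = p * 2 ^ e ∧ F.card + G.card ≤ 2 ^ (e + m + 1) ∧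
      ∀ χ : ℝ → ℝ, (∀ v : ℝ, 1 ≤ v → 1 ≤ χ v ∧ χ v ^ χ v = v) →
        (∃ k, Run χ F G k) ∧ ∀ k, Run χ F G k → 2 ^ ((e - 1) * p) ≤ k := by
  have hok : Ok (p := p) (e := e) Finset.univ ∅ := by
    intro v hv
    simp at hv
  have hmpow : m + 2 ≤ 2 ^ (m + 1) := by
    clear hp he hok
    induction m with
    | zero => omega
    | succ n ih =>
      rcases Nat.eq_zero_or_pos n with rfl | hn
      · norm_num
      · have := ih hn
        rw [pow_succ]
        omega
  have he16 : 16 ≤ e := by
    rw [he]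
    calc 16 = 4 * 2 ^ 2 := by norm_num
      _ ≤ (m + 3) * 2 ^ (m + 1) :=
        Nat.mul_le_mul (by omega) (Nat.pow_le_pow_right (by norm_num) (by omega))
  have hme : m + 1 ≤ e := by
    rw [he]
    calc m + 1 ≤ (m + 3) * 1 := by omega
      _ ≤ (m + 3) * 2 ^ (m + 1) := Nat.mul_le_mul_left _ Nat.one_le_two_pow
  -- `e ^ p ≤ 2 ^ e`
  have hep : e ^ p ≤ 2 ^ e := by
    have h1 : e ≤ 2 ^ (2 * m + 3) := by
      rw [he]
      calc (m + 3) * 2 ^ (m + 1) ≤ 2 ^ (m + 2) * 2 ^ (m + 1) := by
            apply Nat.mul_le_mul_right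
            rw [pow_succ]
            omega
        _ = 2 ^ (2 * m + 3) := by rw [← pow_add]; congr 1; omega
    calc e ^ p ≤ (2 ^ (2 * m + 3)) ^ p := Nat.pow_le_pow_left h1 p
      _ = 2 ^ ((2 * m + 3) * p) := (pow_mul _ _ _).symm
      _ ≤ 2 ^ e := by
          apply Nat.pow_le_pow_right (by norm_num)
          rw [he, hp, pow_succ]
          nlinarith [Nat.one_le_two_pow (n := m)]
  have hGN : p * 2 ^ e = 2 ^ (e + m) := by
    rw [hp, ← pow_add, add_comm]
  have hp1 : e ^ p * (p * 2 ^ e + p) ≤ e ^ e := by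
    have h1 : p * 2 ^ e + p ≤ 2 ^ (e + m + 1) := by
      rw [hGN, hp, pow_succ 2 (e + m), pow_add]
      have : 1 ≤ 2 ^ e := Nat.one_le_two_pow
      nlinarith [Nat.one_le_two_pow (n := m)]
    calc e ^ p * (p * 2 ^ e + p) ≤ 2 ^ e * 2 ^ (e + m + 1) := Nat.mul_le_mul hep h1
      _ = 2 ^ (e + (e + m + 1)) := (pow_add _ _ _).symm
      _ ≤ 2 ^ (3 * e) := Nat.pow_le_pow_right (by norm_num) (by omega)
      _ = (2 ^ 3) ^ e := pow_mul _ _ _
      _ ≤ e ^ e := Nat.pow_le_pow_left (by omega) e
  have hp2 : (2 * p + 1) ^ (2 * p + 1) ≤ 2 ^ e := by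
    have h1 : 2 * p + 1 ≤ 2 ^ (m + 2) := by
      rw [hp, pow_succ, pow_succ]
      have := Nat.one_le_two_pow (n := m)
      omega
    calc (2 * p + 1) ^ (2 * p + 1) ≤ (2 ^ (m + 2)) ^ (2 * p + 1) := Nat.pow_le_pow_left h1 _
      _ = 2 ^ ((m + 2) * (2 * p + 1)) := (pow_mul _ _ _).symm
      _ ≤ 2 ^ e := by
          apply Nat.pow_le_pow_right (by norm_num)
          have h2 : 2 * p = 2 ^ (m + 1) := by rw [hp, pow_succ]; ring
          rw [he, h2]
          nlinarith
  refine ⟨FF Finset.univ ∅, GG Finset.univ ∅, dual_pair (by omega), ?_, ?_, ?_, ?_⟩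
  · rw [FF_card hok (by omega)]; simp
  · rw [GG_card hok (by omega)]; simp
  · rw [FF_card hok (by omega), GG_card hok (by omega)]
    simp only [Finset.card_univ, Fintype.card_fin, Finset.card_empty, add_zero]
    rw [hGN, pow_succ 2 (e + m)]
    have : 2 ^ e ≤ 2 ^ (e + m) := Nat.pow_le_pow_right (by norm_num) (by omega)
    omega
  · intro χ hχ
    refine ⟨exists_run χ _ _ _ le_rfl, ?_⟩
    intro k hk
    have := lower χ hχ (by omega) hp1 hp2 _ Finset.univ ∅ le_rfl hok (by simp) k hk
    rw [Finset.card_univ, Fintype.card_fin, ← pow_mul] at this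
    exact this

end Pool.Agent.Helper64.FKB
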