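import Pool.Agent.Helper62.VT.RF

/-!
# Cube lemma (task RO2 of MP_c2aa42_lc)

Determinants of matrices of tree functions on the Boolean cube which do not vanish at the all-true
point do not vanish at some point with few true coordinates.
-/

namespace Pool.Agent.Helper64.Cube

open Pool.Agent.Helper62.VT

variable {n : ℕ}

/-- Caterpillar functions, relative to a base point `b0`: along the list `B` the function is an
iterated affine image of a function of the remaining variables. -/
def Inc (b0 : Fin n → Bool) : List (Fin n) → ((Fin n → Bool) → ℂ) → Prop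
  | [], _ => True
  | l :: B, φ => ∃ (ψ : (Fin n → Bool) → ℂ) (α β : Bool → ℂ), (∀ s, α s ≠ 0) ∧ Inc b0 B ψ ∧
      ∀ x : Fin n → Bool, (∀ m, m ∉ l :: B → x m = b0 m) →
        φ x = α (x l) * ψ (Function.update x l (b0 l)) + β (x l)

theorem Inc.congr {b0 : Fin n → Bool} {B : List (Fin n)} {φ φ' : (Fin n → Bool) → ℂ}
    (h : Inc b0 B φ) (he : ∀ x : Fin n → Bool, (∀ m, m ∉ B → x m = b0 m) → φ' x = φ x) :
    Inc b0 B φ' := by
  cases B with
  | nil => trivial
  | cons l B =>
    obtain ⟨ψ, α, β, hα, hψ, hx⟩ := h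
    exact ⟨ψ, α, β, hα, hψ, fun x hm => (he x hm).trans (hx x hm)⟩

theorem Inc.affine {b0 : Fin n → Bool} {B : List (Fin n)} {φ : (Fin n → Bool) → ℂ}
    (h : Inc b0 B φ) {c : ℂ} (hc : c ≠ 0) (d : ℂ) : Inc b0 B (fun x => c * φ x + d) := by
  cases B with
  | nil => trivial
  | cons l B =>
    obtain ⟨ψ, α, β, hα, hψ, hx⟩ := h
    refine ⟨ψ, fun s => c * α s, fun s => c * β s + d, fun s => mul_ne_zero hc (hα s), hψ, ?_⟩
    intro x hm
    simp only
    rw [hx x hm]
    ring

theorem Inc.affine' {b0 : Fin n → Bool} {B : List (Fin n)} {φ φ' : (Fin n → Bool) → ℂ}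
    (h : Inc b0 B φ) {c : ℂ} (hc : c ≠ 0) (d : ℂ)
    (he : ∀ x : Fin n → Bool, (∀ m, m ∉ B → x m = b0 m) → φ' x = c * φ x + d) :
    Inc b0 B φ' :=
  (h.affine hc d).congr he

theorem Inc.sublist {b0 : Fin n → Bool} {B' B : List (Fin n)} (hs : B'.Sublist B) :
    B.Nodup → ∀ {φ : (Fin n → Bool) → ℂ}, Inc b0 B φ → Inc b0 B' φ := by
  induction hs with
  | slnil => intro _ φ h; exact h
  | @cons B' B l hs ih =>
    intro hnd φ h
    obtain ⟨ψ, α, β, hα, hψ, hx⟩ := h
    have hnd' := List.nodup_cons.1 hnd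
    refine (ih hnd'.2 hψ).affine' (hα (b0 l)) (β (b0 l)) ?_
    intro x hm
    have hl : l ∉ B' := fun hl => hnd'.1 (hs.subset hl)
    have hxl : x l = b0 l := hm l hl
    have hup : Function.update x l (b0 l) = x := by
      rw [← hxl]; exact Function.update_eq_self l x
    have := hx x (fun m hmn => hm m (fun hmB => hmn (List.mem_cons_of_mem _ (hs.subset hmB))))
    rw [this, hup, hxl]
  | @cons_cons B' B l hs ih =>
    intro hnd φ h
    obtain ⟨ψ, α, β, hα, hψ, hx⟩ := h
    have hnd' := List.nodup_cons.1 hnd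
    refine ⟨ψ, α, β, hα, ih hnd'.2 hψ, ?_⟩
    intro x hm
    refine hx x (fun m hmn => hm m (fun hmB => hmn ?_))
    rcases List.mem_cons.1 hmB with rfl | hmB
    · exact List.mem_cons_self
    · exact List.mem_cons_of_mem _ (hs.subset hmB)

theorem inc_const (b0 : Fin n → Bool) (c : ℂ) (B : List (Fin n)) :
    Inc b0 B (fun _ => c) := by
  induction B with
  | nil => trivial
  | cons l B ih =>
    exact ⟨fun _ => c, fun _ => 1, fun _ => 0, fun _ => one_ne_zero, ih, fun x _ => by simp⟩

theorem inc_leaf (b0 : Fin n → Bool) (l : Fin n) (t : Bool → ℂ) (B : List (Fin n)) :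
    Inc b0 B (fun x => t (x l)) := by
  induction B with
  | nil => trivial
  | cons m B ih =>
    by_cases hml : m = l
    · subst hml
      exact ⟨fun _ => 0, fun _ => 1, t, fun _ => one_ne_zero, inc_const b0 0 B, fun x _ => by simp⟩
    · refine ⟨fun x => t (x l), fun _ => 1, fun _ => 0, fun _ => one_ne_zero, ih, fun x _ => ?_⟩
      simp [Function.update_of_ne (Ne.symm hml)]

/-- Tree functions depend only on the variables in `S`. -/
theorem TF.dep {S : Finset (Fin n)} {φ : (Fin n → Bool) → ℂ} (h : TF S φ) :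
    ∀ x y : Fin n → Bool, (∀ m ∈ S, x m = y m) → φ x = φ y := by
  induction h with
  | const c => intro x y _; rfl
  | leaf l t => intro x y hxy; simp only; rw [hxy l (Finset.mem_singleton_self l)]
  | @add S S' φ ψ h h' hd ih ih' =>
    intro x y hxy
    simp only
    rw [ih x y (fun m hm => hxy m (Finset.mem_union_left _ hm)),
      ih' x y (fun m hm => hxy m (Finset.mem_union_right _ hm))]
  | @mul S S' φ ψ h h' hd h0 h0' ih ih' =>
    intro x y hxy
    simp only
    rw [ih x y (fun m hm => hxy m (Finset.mem_union_left _ hm)),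
      ih' x y (fun m hm => hxy m (Finset.mem_union_right _ hm))]

/-- The Ramsey property of a function. -/
def Ram (b0 : Fin n → Bool) (φ : (Fin n → Bool) → ℂ) : Prop :=
  ∀ (a b : ℕ) (C : List (Fin n)), C.Nodup → 4 ^ (a + b) ≤ C.length →
    ∃ B : List (Fin n), B.Sublist C ∧
      ((B.length = a ∧ Inc b0 B φ) ∨ (B.length = b ∧ Inc b0 B.reverse φ))

/-- The main step: `φ = G φm + H`, `G` and `H` do not depend on the coordinates in `P`, `φm`
depends only on the coordinates in `P`, and `P` contains at least half of the list. -/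
theorem ram_step {b0 : Fin n → Bool} {φ φm G H : (Fin n → Bool) → ℂ} (P : Fin n → Prop)
    [DecidablePred P] (hφ : ∀ x, φ x = G x * φm x + H x) (hG0 : ∀ x, G x ≠ 0)
    (hm : ∀ x y : Fin n → Bool, (∀ m, P m → x m = y m) → φm x = φm y)
    (hG : ∀ x y : Fin n → Bool, (∀ m, ¬ P m → x m = y m) → G x = G y)
    (hH : ∀ x y : Fin n → Bool, (∀ m, ¬ P m → x m = y m) → H x = H y)
    (ih : Ram b0 φm) {a b : ℕ} {C : List (Fin n)} (hnd : C.Nodup)
    (hlen : 4 ^ (a + b) ≤ C.length) (hhalf : C.length ≤ 2 * (C.filter (fun m => decide (P m))).length) :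
    ∃ B : List (Fin n), B.Sublist C ∧
      ((B.length = a ∧ Inc b0 B φ) ∨ (B.length = b ∧ Inc b0 B.reverse φ)) := by
  classical
  rcases Nat.eq_zero_or_pos a with ha | ha
  · exact ⟨[], List.nil_sublist C, Or.inl ⟨by simp [ha], trivial⟩⟩
  rcases Nat.eq_zero_or_pos b with hb | hb
  · exact ⟨[], List.nil_sublist C, Or.inr ⟨by simp [hb], trivial⟩⟩
  -- transfer along lists inside `P`
  have key : ∀ B : List (Fin n), (∀ m ∈ B, P m) → Inc b0 B φm → Inc b0 B φ := by
    intro B hB hI
    refine hI.affine' (hG0 b0) (H b0) ?_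
    intro x hx
    have hGx : G x = G b0 := hG x b0 (fun m hmP => hx m (fun hmB => hmP (hB m hmB)))
    have hHx : H x = H b0 := hH x b0 (fun m hmP => hx m (fun hmB => hmP (hB m hmB)))
    rw [hφ x, hGx, hHx]
  have key2 : ∀ (l : Fin n) (B : List (Fin n)), ¬ P l → (∀ m ∈ B, P m) → Inc b0 B φm →
      Inc b0 (l :: B) φ := by
    intro l B hl hB hI
    refine ⟨φm, fun s => G (Function.update b0 l s), fun s => H (Function.update b0 l s),
      fun s => hG0 _, hI, ?_⟩
    intro x hx
    have hagree : ∀ m, ¬ P m → x m = Function.update b0 l (x l) m := by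
      intro m hmP
      by_cases hml : m = l
      · subst hml; simp
      · rw [Function.update_of_ne hml]
        refine hx m ?_
        intro hmem
        rcases List.mem_cons.1 hmem with h | h
        · exact hml h
        · exact hmP (hB m h)
    have hGx : G x = G (Function.update b0 l (x l)) := hG _ _ hagree
    have hHx : H x = H (Function.update b0 l (x l)) := hH _ _ hagree
    have hmx : φm x = φm (Function.update x l (b0 l)) := by
      refine hm _ _ (fun m hmP => ?_)
      have hml : m ≠ l := fun h => hl (h ▸ hmP)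
      rw [Function.update_of_ne hml]
    rw [hφ x, hGx, hHx, hmx]
  by_cases hall : ∀ m ∈ C, P m
  · obtain ⟨B, hBC, hB⟩ := ih a b C hnd hlen
    have hBP : ∀ m ∈ B, P m := fun m hmB => hall m (hBC.subset hmB)
    refine ⟨B, hBC, ?_⟩
    rcases hB with ⟨h1, h2⟩ | ⟨h1, h2⟩
    · exact Or.inl ⟨h1, key B hBP h2⟩
    · exact Or.inr ⟨h1, key B.reverse (fun m hmB => hBP m (List.mem_reverse.1 hmB)) h2⟩
  · push Not at hall
    obtain ⟨l, hlC, hlP⟩ := hall
    obtain ⟨C', C'', rfl⟩ := List.append_of_mem hlC
    have hnd' : C'.Nodup ∧ C''.Nodup := by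
      rw [List.nodup_append] at hnd
      exact ⟨hnd.1, (List.nodup_cons.1 hnd.2.1).2⟩
    set f : Fin n → Bool := fun m => decide (P m) with hf
    have hfl : f l = false := by simp [hf, hlP]
    have hcount : (C' ++ l :: C'').length ≤ 2 * ((C'.filter f).length + (C''.filter f).length) := by
      have : ((C' ++ l :: C'').filter f).length = (C'.filter f).length + (C''.filter f).length := by
        rw [List.filter_append, List.filter_cons_of_neg (by simp [hfl]), List.length_append]
      rw [this] at hhalf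
      exact hhalf
    have hfilt : ∀ (D B : List (Fin n)), B.Sublist (D.filter f) → ∀ m ∈ B, P m := by
      intro D B hB m hmB
      have := List.mem_filter.1 (hB.subset hmB)
      simpa [hf] using this.2
    obtain ⟨a', rfl⟩ : ∃ a', a = a' + 1 := ⟨a - 1, by omega⟩
    obtain ⟨b', rfl⟩ : ∃ b', b = b' + 1 := ⟨b - 1, by omega⟩
    have hpow : (4 : ℕ) ^ (a' + 1 + (b' + 1)) = 4 * 4 ^ (a' + (b' + 1)) := by
      rw [← pow_succ']; congr 1; omega
    have hpow' : (4 : ℕ) ^ (a' + 1 + b') = 4 ^ (a' + (b' + 1)) := by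
      congr 1; omega
    by_cases hcase : 4 ^ (a' + (b' + 1)) ≤ (C''.filter f).length
    · obtain ⟨B, hBC, hB⟩ := ih a' (b' + 1) (C''.filter f) (hnd'.2.filter _) hcase
      have hBP := hfilt _ _ hBC
      have hBC'' : B.Sublist C'' := hBC.trans List.filter_sublist
      rcases hB with ⟨h1, h2⟩ | ⟨h1, h2⟩
      · refine ⟨l :: B, ?_, Or.inl ⟨by simp [h1], key2 l B hlP hBP h2⟩⟩
        exact (hBC''.cons_cons l).trans (List.sublist_append_right C' (l :: C''))
      · refine ⟨B, ?_, Or.inr ⟨h1, key B.reverse (fun m hmB => hBP m (List.mem_reverse.1 hmB)) h2⟩⟩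
        exact (hBC''.trans (List.sublist_cons_self l C'')).trans
          (List.sublist_append_right C' (l :: C''))
    · have hcase' : 4 ^ (a' + 1 + b') ≤ (C'.filter f).length := by
        rw [hpow']
        rw [hpow] at hlen
        omega
      obtain ⟨B, hBC, hB⟩ := ih (a' + 1) b' (C'.filter f) (hnd'.1.filter _) hcase'
      have hBP := hfilt _ _ hBC
      have hBC' : B.Sublist C' := hBC.trans List.filter_sublist
      rcases hB with ⟨h1, h2⟩ | ⟨h1, h2⟩
      · refine ⟨B, ?_, Or.inl ⟨h1, key B hBP h2⟩⟩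
        exact hBC'.trans (List.sublist_append_left C' (l :: C''))
      · refine ⟨B ++ [l], ?_, Or.inr ⟨by simp [h1], ?_⟩⟩
        · exact hBC'.append ((List.nil_sublist C'').cons_cons l)
        · rw [List.reverse_append, List.reverse_singleton, List.singleton_append]
          exact key2 l B.reverse hlP (fun m hmB => hBP m (List.mem_reverse.1 hmB)) h2

theorem le_four_pow (a b : ℕ) : a ≤ 4 ^ (a + b) := by
  have h1 : a + b < 4 ^ (a + b) := Nat.lt_pow_self (by norm_num)
  omega

/-- (3): Ramsey property of tree functions. -/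
theorem TF.ram (b0 : Fin n → Bool) {S : Finset (Fin n)} {φ : (Fin n → Bool) → ℂ} (h : TF S φ) :
    Ram b0 φ := by
  classical
  induction h with
  | const c =>
    intro a b C _ hlen
    refine ⟨C.take a, List.take_sublist a C, Or.inl ⟨?_, inc_const b0 c _⟩⟩
    rw [List.length_take]
    exact min_eq_left ((le_four_pow a b).trans hlen)
  | leaf l t =>
    intro a b C _ hlen
    refine ⟨C.take a, List.take_sublist a C, Or.inl ⟨?_, inc_leaf b0 l t _⟩⟩
    rw [List.length_take]
    exact min_eq_left ((le_four_pow a b).trans hlen)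
  | @add S S' φ ψ h h' hd ih ih' =>
    intro a b C hnd hlen
    have hdis : ∀ m, m ∈ S → m ∉ S' := fun m hm => Finset.disjoint_left.1 hd hm
    have hsum : (C.filter (fun m => decide (m ∈ S))).length +
        (C.filter (fun m => decide (¬ m ∈ S))).length = C.length := by
      have := List.length_eq_length_filter_add (l := C) (fun m => decide (m ∈ S))
      simp only [decide_not]
      omega
    rcases le_total (C.filter (fun m => decide (¬ m ∈ S))).length
        (C.filter (fun m => decide (m ∈ S))).length with hle | hle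
    · refine ram_step (φm := φ) (G := fun _ => 1) (H := ψ) (fun m => m ∈ S)
        (fun x => by ring) (fun _ => one_ne_zero) (fun x y hxy => TF.dep h x y hxy)
        (fun _ _ _ => rfl)
        (fun x y hxy => TF.dep h' x y (fun m hm => hxy m (fun hmS => hdis m hmS hm)))
        ih hnd hlen (by omega)
    · refine ram_step (φm := ψ) (G := fun _ => 1) (H := φ) (fun m => ¬ m ∈ S)
        (fun x => by ring) (fun _ => one_ne_zero)
        (fun x y hxy => TF.dep h' x y (fun m hm => hxy m (fun hmS => hdis m hmS hm)))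
        (fun _ _ _ => rfl)
        (fun x y hxy => TF.dep h x y (fun m hm => hxy m (not_not.2 hm)))
        ih' hnd hlen (by omega)
  | @mul S S' φ ψ h h' hd h0 h0' ih ih' =>
    intro a b C hnd hlen
    have hdis : ∀ m, m ∈ S → m ∉ S' := fun m hm => Finset.disjoint_left.1 hd hm
    have hsum : (C.filter (fun m => decide (m ∈ S))).length +
        (C.filter (fun m => decide (¬ m ∈ S))).length = C.length := by
      have := List.length_eq_length_filter_add (l := C) (fun m => decide (m ∈ S))
      simp only [decide_not]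
      omega
    rcases le_total (C.filter (fun m => decide (¬ m ∈ S))).length
        (C.filter (fun m => decide (m ∈ S))).length with hle | hle
    · refine ram_step (φm := φ) (G := ψ) (H := fun _ => 0) (fun m => m ∈ S)
        (fun x => by ring) h0' (fun x y hxy => TF.dep h x y hxy)
        (fun x y hxy => TF.dep h' x y (fun m hm => hxy m (fun hmS => hdis m hmS hm)))
        (fun _ _ _ => rfl) ih hnd hlen (by omega)
    · refine ram_step (φm := ψ) (G := φ) (H := fun _ => 0) (fun m => ¬ m ∈ S)
        (fun x => by ring) h0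
        (fun x y hxy => TF.dep h' x y (fun m hm => hxy m (fun hmS => hdis m hmS hm)))
        (fun x y hxy => TF.dep h x y (fun m hm => hxy m (not_not.2 hm)))
        (fun _ _ _ => rfl) ih' hnd hlen (by omega)

/-- (4): several tree functions at once. -/
theorem ram_family (b0 : Fin n → Bool) : ∀ (Q : ℕ) (k : ℕ) (Φ : Fin Q → (Fin n → Bool) → ℂ),
    (∀ q, Ram b0 (Φ q)) → ∀ C : List (Fin n), C.Nodup → need Q k ≤ C.length →
    ∃ B : List (Fin n), B.Sublist C ∧ B.length = k ∧
      ∀ q, Inc b0 B (Φ q) ∨ Inc b0 B.reverse (Φ q) := by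
  intro Q
  induction Q with
  | zero =>
    intro k Φ _ C _ hlen
    refine ⟨C.take k, List.take_sublist k C, ?_, fun q => q.elim0⟩
    rw [List.length_take]
    exact min_eq_left hlen
  | succ Q ih =>
    intro k Φ hΦ C hnd hlen
    obtain ⟨B', hB'C, hB'len, hB'⟩ := ih (4 ^ (k + k)) (fun q => Φ q.castSucc)
      (fun q => hΦ _) C hnd hlen
    obtain ⟨B, hBB', hB⟩ := hΦ (Fin.last Q) k k B' (hB'C.nodup hnd) (by rw [hB'len])
    have hBlen : B.length = k := by rcases hB with h | h <;> exact h.1
    have hB'nd : B'.Nodup := hB'C.nodup hnd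
    refine ⟨B, hBB'.trans hB'C, hBlen, ?_⟩
    intro q
    refine Fin.lastCases ?_ (fun q => ?_) q
    · rcases hB with h | h
      · exact Or.inl h.2
      · exact Or.inr h.2
    · rcases hB' q with h | h
      · exact Or.inl (h.sublist hBB' hB'nd)
      · exact Or.inr (h.sublist hBB'.reverse (List.nodup_reverse.2 hB'nd))

open Classical in
/-- The points `y_ij`: `b0`, but `false` on the entries `i, …, j-1` of `B`. -/
noncomputable def pt (b0 : Fin n → Bool) (B : List (Fin n)) (i j : ℕ) : Fin n → Bool :=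
  fun m => if ∃ k, i ≤ k ∧ k < j ∧ B[k]? = some m then false else b0 m

theorem pt_self (b0 : Fin n → Bool) (B : List (Fin n)) (i : ℕ) : pt b0 B i i = b0 := by
  funext m
  unfold pt
  rw [if_neg]
  rintro ⟨k, h1, h2, _⟩
  omega

theorem pt_agree (b0 : Fin n → Bool) (B : List (Fin n)) (i j : ℕ) (m : Fin n) (hm : m ∉ B) :
    pt b0 B i j m = b0 m := by
  unfold pt
  rw [if_neg]
  rintro ⟨k, _, _, h3⟩
  exact hm (List.mem_of_getElem? h3)

theorem pt_cons_zero (b0 : Fin n → Bool) (l : Fin n) (B : List (Fin n)) (hl : l ∉ B) (j : ℕ) :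
    pt b0 (l :: B) 0 (j + 1) l = false ∧
      Function.update (pt b0 (l :: B) 0 (j + 1)) l (b0 l) = pt b0 B 0 j := by
  constructor
  · unfold pt
    rw [if_pos]
    exact ⟨0, le_refl _, Nat.succ_pos j, by simp⟩
  · funext m
    by_cases hml : m = l
    · subst hml
      rw [Function.update_self, pt_agree b0 B 0 j m hl]
    · rw [Function.update_of_ne hml]
      unfold pt
      congr 1
      refine propext ⟨?_, ?_⟩
      · rintro ⟨k, h1, h2, h3⟩
        cases k with
        | zero =>
          simp only [List.getElem?_cons_zero, Option.some.injEq] at h3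
          exact absurd h3.symm hml
        | succ k =>
          refine ⟨k, Nat.zero_le k, by omega, ?_⟩
          simpa using h3
      · rintro ⟨k, h1, h2, h3⟩
        exact ⟨k + 1, Nat.zero_le _, by omega, by simpa using h3⟩

theorem pt_cons_succ (b0 : Fin n → Bool) (l : Fin n) (B : List (Fin n)) (hl : l ∉ B) (i j : ℕ) :
    pt b0 (l :: B) (i + 1) (j + 1) l = b0 l ∧
      Function.update (pt b0 (l :: B) (i + 1) (j + 1)) l (b0 l) = pt b0 B i j := by
  have hpt : ∀ m, pt b0 (l :: B) (i + 1) (j + 1) m = pt b0 B i j m := by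
    intro m
    unfold pt
    congr 1
    refine propext ⟨?_, ?_⟩
    · rintro ⟨k, h1, h2, h3⟩
      cases k with
      | zero => omega
      | succ k =>
        refine ⟨k, by omega, by omega, ?_⟩
        simpa using h3
    · rintro ⟨k, h1, h2, h3⟩
      exact ⟨k + 1, by omega, by omega, by simpa using h3⟩
  constructor
  · rw [hpt l, pt_agree b0 B i j l hl]
  · funext m
    by_cases hml : m = l
    · subst hml
      rw [Function.update_self, pt_agree b0 B i j m hl]
    · rw [Function.update_of_ne hml, hpt m]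

/-- (5): values of a caterpillar at the points `y_ij`. -/
theorem Inc.rank {b0 : Fin n → Bool} : ∀ {B : List (Fin n)}, B.Nodup → (∀ m ∈ B, b0 m = true) →
    ∀ {φ : (Fin n → Bool) → ℂ}, Inc b0 B φ →
    ∃ p q r : ℕ → ℂ, p 0 ≠ 0 ∧ ∀ i j, i ≤ j → j ≤ B.length → φ (pt b0 B i j) = p i * q j + r i := by
  intro B
  induction B with
  | nil =>
    intro _ _ φ _
    refine ⟨fun _ => 1, fun _ => 0, fun _ => φ b0, one_ne_zero, ?_⟩
    intro i j hij hj
    have hj0 : j = 0 := by simpa using hj
    have hi0 : i = 0 := by omega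
    subst hj0; subst hi0
    rw [pt_self]
    ring
  | cons l B ih =>
    intro hnd hb φ h
    obtain ⟨ψ, α, β, hα, hψ, hx⟩ := h
    have hnd' := List.nodup_cons.1 hnd
    obtain ⟨p, q, r, hp, hpq⟩ := ih hnd'.2 (fun m hm => hb m (List.mem_cons_of_mem _ hm)) hψ
    have hx' : ∀ i j, φ (pt b0 (l :: B) i j) = α (pt b0 (l :: B) i j l) *
        ψ (Function.update (pt b0 (l :: B) i j) l (b0 l)) + β (pt b0 (l :: B) i j l) :=
      fun i j => hx _ (fun m hm => pt_agree b0 (l :: B) i j m hm)
    refine ⟨fun i => if i = 0 then α false * p 0 else α (b0 l) * p (i - 1),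
      fun j => if j = 0 then (φ b0 - (α false * r 0 + β false)) / (α false * p 0) else q (j - 1),
      fun i => if i = 0 then α false * r 0 + β false else α (b0 l) * r (i - 1) + β (b0 l),
      by simpa using ⟨hα false, hp⟩, ?_⟩
    intro i j hij hj
    cases i with
    | zero =>
      cases j with
      | zero =>
        rw [pt_self]
        have hne : α false * p 0 ≠ 0 := mul_ne_zero (hα _) hp
        simp only [if_true]
        rw [mul_div_cancel₀ _ hne]
        ring
      | succ j =>
        have h1 := pt_cons_zero b0 l B hnd'.1 j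
        rw [hx' 0 (j + 1), h1.1, h1.2, hpq 0 j (Nat.zero_le _) (by simpa using hj)]
        simp only [if_true, Nat.succ_ne_zero, if_false, Nat.add_sub_cancel]
        ring
    | succ i =>
      cases j with
      | zero => omega
      | succ j =>
        have h1 := pt_cons_succ b0 l B hnd'.1 i j
        rw [hx' (i + 1) (j + 1), h1.1, h1.2, hpq i j (by omega) (by simpa using hj)]
        simp only [Nat.succ_ne_zero, if_false, Nat.add_sub_cancel]
        ring

theorem pt_reverse (b0 : Fin n → Bool) (B : List (Fin n)) (i j : ℕ) (hij : i ≤ j)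
    (hj : j ≤ B.length) :
    pt b0 B i j = pt b0 B.reverse (B.length - j) (B.length - i) := by
  funext m
  unfold pt
  congr 1
  refine propext ⟨?_, ?_⟩
  · rintro ⟨k, h1, h2, h3⟩
    refine ⟨B.length - 1 - k, by omega, by omega, ?_⟩
    rw [List.getElem?_reverse (by omega)]
    have : B.length - 1 - (B.length - 1 - k) = k := by omega
    rw [this]
    exact h3
  · rintro ⟨k, h1, h2, h3⟩
    rw [List.getElem?_reverse (by omega)] at h3
    exact ⟨B.length - 1 - k, by omega, by omega, h3⟩

/-- (5) in the form used below. -/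
theorem rank_two {b0 : Fin n → Bool} {B : List (Fin n)} (hnd : B.Nodup)
    (hb : ∀ m ∈ B, b0 m = true) {φ : (Fin n → Bool) → ℂ}
    (h : Inc b0 B φ ∨ Inc b0 B.reverse φ) :
    ∃ P Q : Bool → ℕ → ℂ, ∀ i j, i ≤ j → j ≤ B.length →
      φ (pt b0 B i j) = ∑ s : Bool, P s i * Q s j := by
  rcases h with h | h
  · obtain ⟨p, q, r, _, hpq⟩ := h.rank hnd hb
    refine ⟨fun s i => if s then p i else r i, fun s j => if s then q j else 1, ?_⟩
    intro i j hij hj
    rw [hpq i j hij hj]
    simp
  · obtain ⟨p, q, r, _, hpq⟩ := h.rank (List.nodup_reverse.2 hnd)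
      (fun m hm => hb m (List.mem_reverse.1 hm))
    refine ⟨fun s i => if s then q (B.length - i) else 1,
      fun s j => if s then p (B.length - j) else r (B.length - j), ?_⟩
    intro i j hij hj
    rw [pt_reverse b0 B i j hij hj, hpq _ _ (by omega) (by rw [List.length_reverse]; omega)]
    simp
    ring

/-- A triangular matrix of size `k + 1` is not a sum of `k` products. -/
theorem no_small_rank {W : Type*} [Fintype W] (k : ℕ) (hk : Fintype.card W ≤ k)
    (P Q : W → ℕ → ℂ)
    (h0 : ∀ i j, i < j → j ≤ k → ∑ w, P w i * Q w j = 0)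
    (h1 : ∀ i, i ≤ k → ∑ w, P w i * Q w i ≠ 0) : False := by
  classical
  let U : Matrix (Fin (k + 1)) W ℂ := Matrix.of fun i w => P w i
  let V : Matrix W (Fin (k + 1)) ℂ := Matrix.of fun w j => Q w j
  have hM : ∀ i j, (U * V) i j = ∑ w, P w i * Q w j := fun i j => by
    simp [U, V, Matrix.mul_apply]
  have hdet : (U * V).det ≠ 0 := by
    rw [Matrix.det_of_isLowerTriangular (U * V) ?_]
    · refine Finset.prod_ne_zero_iff.2 (fun i _ => ?_)
      rw [hM]
      exact h1 i (Nat.lt_succ_iff.1 i.2)
    · intro i j hij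
      rw [hM]
      refine h0 i j ?_ (Nat.lt_succ_iff.1 j.2)
      exact hij
  have hrank : (U * V).rank = k + 1 := by
    have := Matrix.rank_of_isUnit (U * V) ((Matrix.isUnit_iff_isUnit_det _).2 (isUnit_iff_ne_zero.2 hdet))
    simpa using this
  have hle : (U * V).rank ≤ k :=
    ((Matrix.rank_mul_le_left U V).trans (Matrix.rank_le_card_width U)).trans hk
  omega

theorem det_expand {n t : ℕ} (E : Fin t → Fin t → (Fin n → Bool) → ℂ) (b0 : Fin n → Bool)
    (B : List (Fin n)) (P Q : Fin t → Fin t → Bool → ℕ → ℂ)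
    (hPQ : ∀ u v i j, i ≤ j → j ≤ B.length →
      E u v (pt b0 B i j) = ∑ s : Bool, P u v s i * Q u v s j) (i j : ℕ) (hij : i ≤ j)
    (hj : j ≤ B.length) :
    (Matrix.of fun u v => E u v (pt b0 B i j)).det =
      ∑ w : Equiv.Perm (Fin t) × (Fin t → Bool),
        ((((Equiv.Perm.sign w.1 : ℤ) : ℂ)) * ∏ v, P (w.1 v) v (w.2 v) i) *
          ∏ v, Q (w.1 v) v (w.2 v) j := by
  rw [Matrix.det_apply', Fintype.sum_prod_type]
  refine Finset.sum_congr rfl (fun σ _ => ?_)
  have h1 : ∀ v, (Matrix.of fun u v => E u v (pt b0 B i j)) (σ v) v =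
      ∑ s : Bool, P (σ v) v s i * Q (σ v) v s j := fun v => by
    rw [Matrix.of_apply, hPQ _ _ _ _ hij hj]
  simp only [h1]
  rw [Finset.prod_univ_sum, Finset.mul_sum, Fintype.piFinset_univ]
  refine Finset.sum_congr rfl (fun f _ => ?_)
  rw [Finset.prod_mul_distrib]
  ring

/-- (6) The cube lemma. -/
theorem cube_lemma {n t : ℕ} (E : Fin t → Fin t → (Fin n → Bool) → ℂ)
    (hE : ∀ i j, ∃ S, TF S (E i j))
    (h : (Matrix.of fun i j => E i j (fun _ => true)).det ≠ 0) :
    ∃ A : Finset (Fin n), A.card ≤ N0 t ∧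
      (Matrix.of fun i j => E i j (fun l => decide (l ∈ A))).det ≠ 0 := by
  classical
  set F : Finset (Fin n) → ℂ := fun A =>
    (Matrix.of fun i j => E i j (fun l => decide (l ∈ A))).det with hF
  obtain ⟨A, hA, hmin⟩ := Finset.exists_min_image
    ((Finset.univ : Finset (Finset (Fin n))).filter (fun A => F A ≠ 0)) Finset.card
    ⟨Finset.univ, by simpa [hF] using h⟩
  have hFA : F A ≠ 0 := (Finset.mem_filter.1 hA).2
  have hmin' : ∀ A' : Finset (Fin n), A'.card < A.card → F A' = 0 := by
    intro A' hlt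
    by_contra hne
    have := hmin A' (Finset.mem_filter.2 ⟨Finset.mem_univ _, hne⟩)
    omega
  refine ⟨A, ?_, hFA⟩
  by_contra hbig
  have hbig' : N0 t < A.card := not_le.1 hbig
  set b0 : Fin n → Bool := fun l => decide (l ∈ A) with hb0
  set k : ℕ := t.factorial * 2 ^ t with hk
  obtain ⟨B, hBC, hBlen, hB⟩ := ram_family b0 (t * t) k
    (fun q => E (finProdFinEquiv.symm q).1 (finProdFinEquiv.symm q).2)
    (fun q => by
      obtain ⟨S, hS⟩ := hE (finProdFinEquiv.symm q).1 (finProdFinEquiv.symm q).2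
      exact TF.ram b0 hS) A.toList A.nodup_toList (by
        rw [Finset.length_toList]
        exact hbig'.le)
  have hBnd : B.Nodup := hBC.nodup A.nodup_toList
  have hBA : ∀ m ∈ B, m ∈ A := fun m hm => Finset.mem_toList.1 (hBC.subset hm)
  have hBb : ∀ m ∈ B, b0 m = true := fun m hm => by simp [hb0, hBA m hm]
  have hE2 : ∀ u v, ∃ P Q : Bool → ℕ → ℂ, ∀ i j, i ≤ j → j ≤ B.length →
      E u v (pt b0 B i j) = ∑ s : Bool, P s i * Q s j := by
    intro u v
    have := hB (finProdFinEquiv (u, v))
    simp only [Equiv.symm_apply_apply] at this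
    exact rank_two hBnd hBb this
  choose P Q hPQ using hE2
  have hset : ∀ i j, pt b0 B i j =
      fun l => decide (l ∈ A.filter (fun m => ¬ ∃ k, i ≤ k ∧ k < j ∧ B[k]? = some m)) := by
    intro i j
    funext m
    unfold pt
    by_cases hex : ∃ k, i ≤ k ∧ k < j ∧ B[k]? = some m
    · rw [if_pos hex]
      symm
      rw [decide_eq_false_iff_not, Finset.mem_filter]
      exact fun hcon => hcon.2 hex
    · rw [if_neg hex]
      simp only [hb0, Finset.mem_filter, hex, not_false_eq_true, and_true]
  have hexp := det_expand E b0 B P Q hPQ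
  refine no_small_rank (W := Equiv.Perm (Fin t) × (Fin t → Bool)) k ?_
    (fun w i => (((Equiv.Perm.sign w.1 : ℤ) : ℂ)) * ∏ v, P (w.1 v) v (w.2 v) i)
    (fun w j => ∏ v, Q (w.1 v) v (w.2 v) j) ?_ ?_
  · rw [Fintype.card_prod, Fintype.card_perm, Fintype.card_fun, Fintype.card_fin,
      Fintype.card_bool]
  · intro i j hij hj
    rw [← hexp i j hij.le (by omega)]
    rw [hset i j]
    refine hmin' _ ?_
    refine Finset.card_lt_card ⟨Finset.filter_subset _ _, ?_⟩
    intro hsub
    have hiB : i < B.length := by omega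
    have hm : B[i] ∈ A := hBA _ (List.getElem_mem hiB)
    have := (Finset.mem_filter.1 (hsub hm)).2
    exact this ⟨i, le_refl _, hij, List.getElem?_eq_getElem hiB⟩
  · intro i hi
    rw [← hexp i i le_rfl (by omega), pt_self]
    exact hFA

theorem need_mono_right (Q : ℕ) : ∀ {k k' : ℕ}, k ≤ k' → need Q k ≤ need Q k' := by
  induction Q with
  | zero => intro k k' h; exact h
  | succ Q ih =>
    intro k k' h
    exact ih (Nat.pow_le_pow_right (by norm_num) (by omega))

theorem need_succ_left (Q k : ℕ) : need Q k ≤ need (Q + 1) k :=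
  need_mono_right Q (le_four_pow k k)

theorem need_mono {Q Q' k k' : ℕ} (hQ : Q ≤ Q') (hk : k ≤ k') : need Q k ≤ need Q' k' := by
  refine (need_mono_right Q hk).trans ?_
  induction hQ with
  | refl => exact le_rfl
  | step _ ih => exact ih.trans (need_succ_left _ _)

theorem N0_mono {t M : ℕ} (h : t ≤ M) : N0 t ≤ N0 M :=
  need_mono (Nat.mul_le_mul h h)
    (Nat.mul_le_mul (Nat.factorial_le h) (Nat.pow_le_pow_right (by norm_num) h))

end Pool.Agent.Helper64.Cube
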