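import Mathlib

set_option autoImplicit false

namespace Pool.Agent.Helper64

/-- `T` is a transversal (hitting set) of the hypergraph `H`. -/
def IsTransversal {V : Type} [DecidableEq V] (H : Finset (Finset V)) (T : Finset V) : Prop :=
  ∀ e ∈ H, (T ∩ e).Nonempty

open Classical in
/-- The family of all inclusion-minimal transversals of the hypergraph `H`. -/
noncomputable def Tr {V : Type} [Fintype V] [DecidableEq V] (H : Finset (Finset V)) :
    Finset (Finset V) :=
  Finset.univ.filter (fun T => Minimal (IsTransversal H) T)

end Pool.Agent.Helper64
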