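import Mathlib
import Pool.Agent.Helper64.HypDefs

set_option autoImplicit false

namespace Pool.Agent.Helper64.BergeExp

open Pool.Agent.Helper64

section basic
variable {V : Type} [Fintype V] [DecidableEq V]

lemma mem_Tr {H : Finset (Finset V)} {T : Finset V} :
    T ∈ Tr H ↔ Minimal (IsTransversal H) T := by
  classical
  simp [Tr]

omit [Fintype V] in
lemma isTransversal_mono {H : Finset (Finset V)} {S T : Finset V} (h : IsTransversal H S)
    (hST : S ⊆ T) : IsTransversal H T := by
  intro e he
  obtain ⟨x, hx⟩ := h e he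
  exact ⟨x, by
    rw [Finset.mem_inter] at hx ⊢
    exact ⟨hST hx.1, hx.2⟩⟩

omit [Fintype V] in
/-- A transversal each of whose vertices has a private edge is minimal. -/
lemma minimal_of_private {H : Finset (Finset V)} {T : Finset V} (h : IsTransversal H T)
    (hp : ∀ v ∈ T, ∃ e ∈ H, T ∩ e ⊆ {v}) : Minimal (IsTransversal H) T := by
  refine ⟨h, ?_⟩
  intro S hS hST v hv
  obtain ⟨e, he, hTe⟩ := hp v hv
  obtain ⟨x, hx⟩ := hS e he
  rw [Finset.mem_inter] at hx
  have : x ∈ T ∩ e := Finset.mem_inter.2 ⟨hST hx.1, hx.2⟩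
  have hxv := Finset.mem_singleton.1 (hTe this)
  rw [← hxv]
  exact hx.1

lemma exists_mem_Tr {H : Finset (Finset V)} (h : ∀ e ∈ H, e.Nonempty) : 1 ≤ (Tr H).card := by
  classical
  have h0 : IsTransversal H Finset.univ := by
    intro e he
    simpa using h e he
  obtain ⟨T, hT1, hT2⟩ := exists_minimal_le_of_wellFoundedLT (IsTransversal H) Finset.univ h0
  exact Finset.card_pos.2 ⟨T, mem_Tr.2 hT2⟩

end basic

section construction

variable (F : Type) [Field F] [Fintype F] [DecidableEq F] (r : ℕ)

/-- vertices of the construction: `(point, slope, copy)` -/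
abbrev Vert := (F × F) × F × Fin r

variable {F}

/-- The point `j` lies on the (non-vertical) line with index `i`. The line with index `i = (m, b)`
is the line of slope `m` through the point `(m, b)`. -/
def On (i j : F × F) : Prop := i.2 = j.2 - i.1 * (j.1 - i.1)

instance (i j : F × F) : Decidable (On i j) := by unfold On; infer_instance

/-- the index of the line through `j` with slope `a` -/
def thr (j : F × F) (a : F) : F × F := (a, j.2 - a * (j.1 - a))

omit [Fintype F] [DecidableEq F] in
lemma on_self (i : F × F) : On i i := by simp [On]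

omit [Fintype F] [DecidableEq F] in
lemma on_thr (j : F × F) (a : F) : On (thr j a) j := by simp [On, thr]

omit [Fintype F] [DecidableEq F] in
lemma eq_thr {i j : F × F} (h : On i j) : i = thr j i.1 := by
  unfold On at h
  exact Prod.ext rfl h

omit [Fintype F] [DecidableEq F] in
lemma thr_self (j : F × F) : thr j j.1 = j := by
  simp [thr]

omit [Fintype F] [DecidableEq F] in
/-- two distinct points are on at most one common non-vertical line -/
lemma on_unique {i i' j k : F × F} (hjk : j ≠ k) (h1 : On i j) (h2 : On i k) (h3 : On i' j)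
    (h4 : On i' k) : i = i' := by
  unfold On at *
  have e1 : (i.1 - i'.1) * (j.1 - k.1) = 0 := by linear_combination h1 - h2 - h3 + h4
  have hx : j.1 ≠ k.1 := by
    intro hx
    apply hjk
    refine Prod.ext hx ?_
    rw [hx] at h1
    linear_combination h2 - h1
  have e2 : i.1 = i'.1 := by
    rcases mul_eq_zero.1 e1 with h | h
    · exact sub_eq_zero.1 h
    · exact absurd (sub_eq_zero.1 h) hx
  refine Prod.ext e2 ?_
  rw [h1, h3, e2]

/-- the edge with index `i` -/
def edge (i : F × F) : Finset (Vert F r) :=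
  Finset.univ.filter (fun v => v.2.1 ≠ v.1.1 ∧ (¬ On i v.1 ∨ v.2.1 = i.1))

lemma mem_edge {i : F × F} {v : Vert F r} :
    v ∈ edge r i ↔ v.2.1 ≠ v.1.1 ∧ (¬ On i v.1 ∨ v.2.1 = i.1) := by
  simp [edge]

variable {r}

lemma edge_not_subset (hr : 1 ≤ r) {i k : F × F} (hik : i ≠ k) : ¬ edge r k ⊆ edge r i := by
  intro hsub
  let x : Fin r := ⟨0, hr⟩
  by_cases h : On k i
  · have hk : k.1 ≠ i.1 := by
      intro hk
      apply hik
      rw [eq_thr h, hk, thr_self]
    have : ((i, k.1, x) : Vert F r) ∈ edge r k := by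
      rw [mem_edge]; exact ⟨hk, Or.inr rfl⟩
    have h2 := hsub this
    rw [mem_edge] at h2
    rcases h2.2 with h3 | h3
    · exact h3 (on_self i)
    · exact hk h3
  · have : ((i, i.1 + 1, x) : Vert F r) ∈ edge r k := by
      rw [mem_edge]; exact ⟨by simp, Or.inl h⟩
    have h2 := hsub this
    rw [mem_edge] at h2
    rcases h2.2 with h3 | h3
    · exact h3 (on_self i)
    · simp at h3

lemma edge_injective (hr : 1 ≤ r) : Function.Injective (edge (F := F) r) := by
  intro i k h
  by_contra hik
  exact edge_not_subset hr hik (h ▸ Finset.Subset.refl _)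

lemma edge_nonempty (hr : 1 ≤ r) (i : F × F) : (edge r i).Nonempty := by
  by_contra h
  rw [Finset.not_nonempty_iff_eq_empty] at h
  have hne : (i.1 + 1, i.2) ≠ i := by
    intro h'
    have := congrArg Prod.fst h'
    simp at this
  exact edge_not_subset hr hne (by rw [h]; exact Finset.empty_subset _)

/-- Every minimal transversal of the whole hypergraph is of the form `{x, y, z}`. -/
lemma minimal_form {T : Finset (Vert F r)}
    (hT : Minimal (IsTransversal (Finset.univ.image (edge (F := F) r))) T) :
    ∃ x y z : Vert F r, T = {x, y, z} := by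
  have hmem : ∀ i : F × F, ∃ v ∈ T, v ∈ edge r i := by
    intro i
    obtain ⟨v, hv⟩ := hT.1 (edge r i) (Finset.mem_image_of_mem _ (Finset.mem_univ _))
    rw [Finset.mem_inter] at hv
    exact ⟨v, hv.1, hv.2⟩
  obtain ⟨v, hvT, hv⟩ := hmem (0, 0)
  rw [mem_edge] at hv
  obtain ⟨w, hwT, hw⟩ := hmem v.1
  rw [mem_edge] at hw
  have hne : v.1 ≠ w.1 := by
    intro h
    rcases hw.2 with h3 | h3
    · rw [← h] at h3; exact h3 (on_self _)
    · apply hw.1; rw [h3, h]
  have key : ∃ z ∈ T, ∀ i : F × F, On i v.1 → On i w.1 → z ∈ edge r i := by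
    by_cases hex : ∃ i : F × F, On i v.1 ∧ On i w.1
    · obtain ⟨i, hi1, hi2⟩ := hex
      obtain ⟨z, hzT, hz⟩ := hmem i
      refine ⟨z, hzT, ?_⟩
      intro i' h1 h2
      rw [on_unique hne h1 h2 hi1 hi2]
      exact hz
    · refine ⟨v, hvT, ?_⟩
      intro i h1 h2
      exact absurd ⟨i, h1, h2⟩ hex
  obtain ⟨z, hzT, hz⟩ := key
  refine ⟨v, w, z, ?_⟩
  have hsub : ({v, w, z} : Finset (Vert F r)) ⊆ T := by
    intro x hx
    simp only [Finset.mem_insert, Finset.mem_singleton] at hx
    rcases hx with rfl | rfl | rfl <;> assumption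
  have htr : IsTransversal (Finset.univ.image (edge (F := F) r)) {v, w, z} := by
    intro e he
    obtain ⟨i, -, rfl⟩ := Finset.mem_image.1 he
    by_cases h1 : On i v.1
    · by_cases h2 : On i w.1
      · exact ⟨z, Finset.mem_inter.2 ⟨by simp, hz i h1 h2⟩⟩
      · exact ⟨w, Finset.mem_inter.2 ⟨by simp, by rw [mem_edge]; exact ⟨hw.1, Or.inl h2⟩⟩⟩
    · exact ⟨v, Finset.mem_inter.2 ⟨by simp, by rw [mem_edge]; exact ⟨hv.1, Or.inl h1⟩⟩⟩
  exact Finset.Subset.antisymm (hT.2 htr hsub) hsub

/-- The many minimal transversals that appear when the edge with index `i0` is missing. -/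
lemma many_transversals (hr : 1 ≤ r) (L : Finset (F × F)) (i0 : F × F) (h0 : i0 ∉ L) :
    r ^ (Finset.univ.filter (fun a : F => thr i0 a ∈ L)).card ≤
      (Tr (L.image (edge (F := F) r))).card := by
  classical
  set S : Finset F := Finset.univ.filter (fun a : F => thr i0 a ∈ L) with hS
  have hSmem : ∀ a, a ∈ S ↔ thr i0 a ∈ L := by intro a; simp [hS]
  have hSne : ∀ a ∈ S, a ≠ i0.1 := by
    intro a ha hai
    rw [hSmem, hai, thr_self] at ha
    exact h0 ha
  rcases S.eq_empty_or_nonempty with hemp | hne
  · rw [hemp]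
    simp only [Finset.card_empty, pow_zero]
    apply exists_mem_Tr
    intro e he
    obtain ⟨i, -, rfl⟩ := Finset.mem_image.1 he
    exact edge_nonempty hr i
  · -- the transversal attached to a choice function
    let t : (S → Fin r) → Finset (Vert F r) := fun g =>
      S.attach.image (fun a => ((i0, a.1, g a) : Vert F r))
    have ht_mem : ∀ g (v : Vert F r), v ∈ t g ↔ ∃ a : S, v = (i0, a.1, g a) := by
      intro g v
      simp only [t, Finset.mem_image, Finset.mem_attach, true_and]
      constructor
      · rintro ⟨a, ha⟩; exact ⟨a, ha.symm⟩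
      · rintro ⟨a, ha⟩; exact ⟨a, ha.symm⟩
    have hinj : Function.Injective t := by
      intro g g' h
      funext a
      have h1 : ((i0, a.1, g a) : Vert F r) ∈ t g := (ht_mem _ _).2 ⟨a, rfl⟩
      rw [h, ht_mem] at h1
      obtain ⟨b, hb⟩ := h1
      simp only [Prod.mk.injEq, true_and] at hb
      have hab : a = b := Subtype.ext hb.1
      rw [hb.2, hab]
    have hcard : r ^ S.card = Fintype.card (S → Fin r) := by
      simp
    rw [hcard, ← Finset.card_univ]
    refine Finset.card_le_card_of_injOn t ?_ (hinj.injOn)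
    intro g _
    rw [Finset.mem_coe, mem_Tr]
    apply minimal_of_private
    · intro e he
      obtain ⟨i, hiL, rfl⟩ := Finset.mem_image.1 he
      by_cases hon : On i i0
      · have hi : i = thr i0 i.1 := eq_thr hon
        have hiS : i.1 ∈ S := by rw [hSmem, ← hi]; exact hiL
        refine ⟨(i0, i.1, g ⟨i.1, hiS⟩), Finset.mem_inter.2 ⟨?_, ?_⟩⟩
        · rw [ht_mem]; exact ⟨⟨i.1, hiS⟩, rfl⟩
        · rw [mem_edge]; exact ⟨hSne _ hiS, Or.inr rfl⟩
      · obtain ⟨a, ha⟩ := hne
        refine ⟨(i0, a, g ⟨a, ha⟩), Finset.mem_inter.2 ⟨?_, ?_⟩⟩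
        · rw [ht_mem]; exact ⟨⟨a, ha⟩, rfl⟩
        · rw [mem_edge]; exact ⟨hSne _ ha, Or.inl hon⟩
    · intro v hv
      rw [ht_mem] at hv
      obtain ⟨a, rfl⟩ := hv
      refine ⟨edge r (thr i0 a.1), Finset.mem_image_of_mem _ ((hSmem _).1 a.2), ?_⟩
      intro w hw
      rw [Finset.mem_inter, ht_mem, mem_edge] at hw
      obtain ⟨⟨b, rfl⟩, -, hw2⟩ := hw
      rw [Finset.mem_singleton]
      rcases hw2 with h | h
      · exact absurd (on_thr i0 a.1) h
      · have : b = a := Subtype.ext h
        rw [this]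

/-- Some missing line has few missing lines through its own point. -/
lemma exists_few (M : Finset (F × F)) (hM : M.Nonempty) (a : ℕ) (ha : M.card ≤ a * (a + 1)) :
    ∃ i0 ∈ M, (Finset.univ.filter (fun s : F => thr i0 s ∈ M)).card ≤ a := by
  classical
  by_contra hcon
  push Not at hcon
  -- number of incidences
  set d : F × F → ℕ := fun j => (M.filter (fun i => On i j)).card with hd
  set e : F × F → ℕ := fun i => (M.filter (fun j => On i j)).card with he
  have hd_eq : ∀ j, (Finset.univ.filter (fun s : F => thr j s ∈ M)).card = d j := by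
    intro j
    refine Finset.card_bij (fun s _ => thr j s) ?_ ?_ ?_
    · intro s hs
      simp only [Finset.mem_filter, Finset.mem_univ, true_and] at hs ⊢
      exact ⟨hs, on_thr j s⟩
    · intro s _ s' _ h
      exact congrArg Prod.fst h
    · intro i hi
      simp only [Finset.mem_filter] at hi
      refine ⟨i.1, ?_, (eq_thr hi.2).symm⟩
      simp only [Finset.mem_filter, Finset.mem_univ, true_and]
      rw [← eq_thr hi.2]; exact hi.1
  have hswap : ∑ j ∈ M, d j = ∑ i ∈ M, e i := by
    simp only [hd, he, Finset.card_filter]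
    exact Finset.sum_comm
  set I := ∑ i ∈ M, e i with hI
  have hlow : (a + 1) * M.card ≤ I := by
    rw [← hswap, mul_comm]
    rw [← smul_eq_mul, ← Finset.sum_const]
    apply Finset.sum_le_sum
    intro j hj
    have := hcon j hj
    rw [hd_eq] at this
    exact this
  -- sum of squares
  have hsq : ∑ i ∈ M, e i ^ 2 ≤ I + M.card * (M.card - 1) := by
    have h1 : ∀ i, e i ^ 2 = ((M ×ˢ M).filter (fun p => On i p.1 ∧ On i p.2)).card := by
      intro i
      rw [sq, he]
      rw [← Finset.card_product, ← Finset.filter_product]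
    have h2 : ∀ i, e i ^ 2 = e i + (M.offDiag.filter (fun p => On i p.1 ∧ On i p.2)).card := by
      intro i
      rw [h1 i, ← Finset.diag_union_offDiag, Finset.filter_union, Finset.card_union_of_disjoint]
      · congr 1
        refine Finset.card_bij (fun p _ => p.1) ?_ ?_ ?_
        · intro p hp
          simp only [Finset.mem_filter, Finset.mem_diag] at hp ⊢
          exact ⟨hp.1.1, hp.2.1⟩
        · intro p hp p' hp' h
          simp only [Finset.mem_filter, Finset.mem_diag] at hp hp'
          refine Prod.ext h ?_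
          rw [← hp.1.2, ← hp'.1.2]; exact h
        · intro j hj
          simp only [Finset.mem_filter] at hj
          exact ⟨(j, j), by simp [hj.1, hj.2], rfl⟩
      · exact Finset.disjoint_filter_filter (Finset.disjoint_diag_offDiag M)
    have h3 : ∑ i ∈ M, e i ^ 2 =
        I + ∑ i ∈ M, (M.offDiag.filter (fun p => On i p.1 ∧ On i p.2)).card := by
      rw [hI, ← Finset.sum_add_distrib]
      exact Finset.sum_congr rfl (fun i _ => h2 i)
    rw [h3]
    apply Nat.add_le_add_left
    have h4 : ∑ i ∈ M, (M.offDiag.filter (fun p => On i p.1 ∧ On i p.2)).card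
        = ∑ p ∈ M.offDiag, (M.filter (fun i => On i p.1 ∧ On i p.2)).card := by
      simp only [Finset.card_filter]
      exact Finset.sum_comm
    rw [h4]
    have h5 : ∑ p ∈ M.offDiag, (M.filter (fun i => On i p.1 ∧ On i p.2)).card ≤
        ∑ p ∈ M.offDiag, 1 := by
      apply Finset.sum_le_sum
      intro p hp
      rw [Finset.mem_offDiag] at hp
      rw [Finset.card_le_one]
      intro i hi i' hi'
      simp only [Finset.mem_filter] at hi hi'
      exact on_unique hp.2.2 hi.2.1 hi.2.2 hi'.2.1 hi'.2.2
    refine h5.trans ?_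
    simp only [Finset.sum_const, smul_eq_mul, mul_one, Finset.offDiag_card]
    rw [Nat.mul_sub, mul_one]
  have hcs : I ^ 2 ≤ M.card * ∑ i ∈ M, e i ^ 2 := by
    rw [hI]
    exact sq_sum_le_card_mul_sum_sq
  have hMpos : 1 ≤ M.card := Finset.card_pos.2 hM
  obtain ⟨m, hm⟩ : ∃ m, M.card = m + 1 := ⟨M.card - 1, by omega⟩
  rw [hm] at hsq hcs hlow ha
  have h6 : I ^ 2 ≤ (m + 1) * (I + (m + 1) * m) := by
    refine hcs.trans (Nat.mul_le_mul_left _ ?_)
    simpa using hsq
  -- contradiction
  obtain ⟨c, hc⟩ : ∃ c, I = (a + 1) * (m + 1) + c := ⟨I - (a + 1) * (m + 1), by omega⟩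
  rw [hc] at h6
  nlinarith [Nat.zero_le c, Nat.zero_le (a * c), Nat.zero_le (m * c), Nat.zero_le (c * c),
    Nat.zero_le (a * m * c), Nat.mul_le_mul_left ((m + 1) * (m + 1)) ha]

end construction

section transport
variable {V W : Type} [Fintype V] [DecidableEq V] [Fintype W] [DecidableEq W]

omit [Fintype V] [Fintype W] in
lemma isTransversal_congr (e : V ≃ W) (H : Finset (Finset V)) (T : Finset V) :
    IsTransversal (H.map e.finsetCongr.toEmbedding) (e.finsetCongr T) ↔ IsTransversal H T := by
  unfold IsTransversal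
  constructor
  · intro h x hx
    have := h (e.finsetCongr x) (Finset.mem_map_of_mem _ hx)
    simp only [Equiv.finsetCongr_apply] at this
    rw [← Finset.map_inter] at this
    exact Finset.map_nonempty.1 this
  · intro h y hy
    obtain ⟨x, hx, rfl⟩ := Finset.mem_map.1 hy
    have := h x hx
    simp only [Equiv.coe_toEmbedding, Equiv.finsetCongr_apply]
    rw [← Finset.map_inter]
    exact Finset.map_nonempty.2 this

lemma Tr_congr (e : V ≃ W) (H : Finset (Finset V)) :
    Tr (H.map e.finsetCongr.toEmbedding) = (Tr H).map e.finsetCongr.toEmbedding := by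
  ext T
  rw [Finset.mem_map_equiv, mem_Tr, mem_Tr]
  obtain ⟨S, rfl⟩ := e.finsetCongr.surjective T
  rw [Equiv.symm_apply_apply]
  constructor
  · intro h
    refine ⟨(isTransversal_congr e H S).1 h.1, ?_⟩
    intro S' hS' hle
    have := h.2 ((isTransversal_congr e H S').2 hS')
      (by simpa only [Equiv.finsetCongr_apply, Finset.map_subset_map] using hle)
    simpa only [Equiv.finsetCongr_apply, Finset.map_subset_map] using this
  · intro h
    refine ⟨(isTransversal_congr e H S).2 h.1, ?_⟩
    intro S' hS' hle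
    obtain ⟨S'', rfl⟩ := e.finsetCongr.surjective S'
    have := h.2 ((isTransversal_congr e H S'').1 hS')
      (by simpa only [Equiv.finsetCongr_apply, Finset.map_subset_map] using hle)
    simpa only [Equiv.finsetCongr_apply, Finset.map_subset_map] using this

end transport

section general

variable {F : Type} [Field F] [Fintype F] [DecidableEq F] {r : ℕ}

/-- The whole hypergraph, transported to `Fin n`. -/
def hyp {n : ℕ} (e : Vert F r ≃ Fin n) : Finset (Finset (Fin n)) :=
  (Finset.univ.image (edge (F := F) r)).map e.finsetCongr.toEmbedding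

lemma hyp_card (hr : 1 ≤ r) {n : ℕ} (e : Vert F r ≃ Fin n) :
    (hyp e).card = Fintype.card F ^ 2 := by
  rw [hyp, Finset.card_map, Finset.card_image_of_injective _ (edge_injective hr), Finset.card_univ,
      Fintype.card_prod, sq]

lemma hyp_form {n : ℕ} (e : Vert F r ≃ Fin n) {T : Finset (Fin n)} (hT : T ∈ Tr (hyp e)) :
    ∃ x y z : Fin n, T = {x, y, z} := by
  rw [hyp, Tr_congr] at hT
  obtain ⟨S, hS, rfl⟩ := Finset.mem_map.1 hT
  rw [mem_Tr] at hS
  obtain ⟨x, y, z, rfl⟩ := minimal_form hS
  exact ⟨e x, e y, e z, by simp [Finset.map_insert]⟩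

lemma hyp_sub (hr : 1 ≤ r) {n : ℕ} (e : Vert F r ≃ Fin n) {H' : Finset (Finset (Fin n))}
    (hH' : H' ⊂ hyp e) (a : ℕ) (ha : (hyp e \ H').card ≤ a * (a + 1)) :
    r ^ (Fintype.card F - a) ≤ (Tr H').card := by
  classical
  have hinj := edge_injective (F := F) hr
  obtain ⟨L, rfl⟩ : ∃ L : Finset (F × F),
      H' = (L.image (edge (F := F) r)).map e.finsetCongr.toEmbedding := by
    refine ⟨Finset.univ.filter (fun i => e.finsetCongr (edge r i) ∈ H'), ?_⟩
    ext T
    constructor
    · intro hT
      obtain ⟨S, hS, rfl⟩ := Finset.mem_map.1 (hH'.1 hT)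
      obtain ⟨i, -, rfl⟩ := Finset.mem_image.1 hS
      refine Finset.mem_map_of_mem _ (Finset.mem_image_of_mem _ ?_)
      rw [Finset.mem_filter]
      exact ⟨Finset.mem_univ _, hT⟩
    · intro hT
      obtain ⟨S, hS, rfl⟩ := Finset.mem_map.1 hT
      obtain ⟨i, hi, rfl⟩ := Finset.mem_image.1 hS
      rw [Finset.mem_filter] at hi
      exact hi.2
  rw [Tr_congr, Finset.card_map]
  have hHL : hyp e \ (L.image (edge (F := F) r)).map e.finsetCongr.toEmbedding =
      ((Finset.univ \ L).image (edge (F := F) r)).map e.finsetCongr.toEmbedding := by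
    rw [hyp, ← Finset.map_sdiff, ← Finset.image_sdiff _ _ hinj]
  have hMcard : (Finset.univ \ L).card ≤ a * (a + 1) := by
    rw [hHL, Finset.card_map, Finset.card_image_of_injective _ hinj] at ha
    exact ha
  have hMne : (Finset.univ \ L).Nonempty := by
    rw [Finset.sdiff_nonempty]
    intro hsub
    apply hH'.2
    intro T hT
    obtain ⟨S, hS, rfl⟩ := Finset.mem_map.1 hT
    obtain ⟨i, -, rfl⟩ := Finset.mem_image.1 hS
    exact Finset.mem_map_of_mem _ (Finset.mem_image_of_mem _ (hsub (Finset.mem_univ i)))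
  obtain ⟨i0, hi0, hfew⟩ := exists_few (Finset.univ \ L) hMne a hMcard
  have hi0L : i0 ∉ L := by simpa using hi0
  refine le_trans ?_ (many_transversals hr L i0 hi0L)
  apply Nat.pow_le_pow_right hr
  have hsplit : (Finset.univ.filter (fun s : F => thr i0 s ∈ L)).card +
      (Finset.univ.filter (fun s : F => ¬ thr i0 s ∈ L)).card = Fintype.card F := by
    rw [← Finset.card_univ]
    exact Finset.card_filter_add_card_filter_not _
  have hset : (Finset.univ.filter (fun s : F => thr i0 s ∈ Finset.univ \ L)) =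
      Finset.univ.filter (fun s : F => ¬ thr i0 s ∈ L) := by
    ext s; simp
  rw [hset] at hfew
  omega

end general

/-- **Exponential blow-up of edge-by-edge dualization, for every order of the edges.**
For every prime power `q` and every `r ≥ 1` there is a hypergraph `H` with `q ^ 2` edges on
`r * q ^ 3` vertices, all of whose minimal transversals have at most `3` vertices (so that there are
at most `(r * q ^ 3) ^ 3` of them), such that every proper subfamily `H'` of `H` missing at
most `a * (a + 1)` edges has at least `r ^ (q - a)` minimal transversals. -/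
theorem main (q r : ℕ) (hq : IsPrimePow q) (hr : 1 ≤ r) :
    ∃ H : Finset (Finset (Fin (r * q ^ 3))),
      H.card = q ^ 2 ∧
      (∀ T ∈ Tr H, T.card ≤ 3) ∧
      (Tr H).card ≤ (r * q ^ 3) ^ 3 ∧
      ∀ H' ⊂ H, ∀ a : ℕ, (H \ H').card ≤ a * (a + 1) → r ^ (q - a) ≤ (Tr H').card := by
  classical
  obtain ⟨p, k, hp, hk, hpk⟩ := (isPrimePow_nat_iff q).1 hq
  have : Fact p.Prime := ⟨hp⟩
  let _ : Fintype (GaloisField p k) := Fintype.ofFinite _
  have hcardF : Fintype.card (GaloisField p k) = q := by
    rw [← Nat.card_eq_fintype_card, GaloisField.card p k hk.ne', hpk]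
  have hcardV : Fintype.card (Vert (GaloisField p k) r) = r * q ^ 3 := by
    simp only [Fintype.card_prod, hcardF, Fintype.card_fin]
    ring
  have e : Vert (GaloisField p k) r ≃ Fin (r * q ^ 3) := Fintype.equivFinOfCardEq hcardV
  refine ⟨hyp e, ?_, ?_, ?_, ?_⟩
  · rw [hyp_card hr, hcardF]
  · intro T hT
    obtain ⟨x, y, z, rfl⟩ := hyp_form e hT
    exact Finset.card_le_three
  · have hsub : Tr (hyp e) ⊆ (Finset.univ : Finset (Fin (r * q ^ 3) × Fin (r * q ^ 3) ×
        Fin (r * q ^ 3))).image (fun p => ({p.1, p.2.1, p.2.2} : Finset (Fin (r * q ^ 3)))) := by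
      intro T hT
      obtain ⟨x, y, z, h⟩ := hyp_form e hT
      rw [Finset.mem_image]
      exact ⟨(x, y, z), Finset.mem_univ _, h.symm⟩
    refine (Finset.card_le_card hsub).trans (Finset.card_image_le.trans ?_)
    simp only [Finset.card_univ, Fintype.card_prod, Fintype.card_fin]
    apply le_of_eq
    ring
  · intro H' hH' a ha
    have := hyp_sub hr e hH' a ha
    rwa [hcardF] at this

end Pool.Agent.Helper64.BergeExp
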