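import Mathlib

set_option autoImplicit false

namespace Pool.Agent.Helper64

/-- `S 0, S 1, ..., S t` is a sequential dualization scheme of length `t` for the hypergraph `H`
(sets of vertices are read as clauses). It starts with no clause. Step `i` uses one edge `e` of `H`:
every member of `S (i + 1)` contains `e` (any number of redundant clauses implied by `e` may be
added) or contains a member of `S i` (clauses may be kept, weakened or forgotten). At the end every
edge of `H` contains a member of `S t`. Adding the edges of `H` one by one, in any order, is the
special case of Berge multiplication. -/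
def IsScheme {V : Type} (H : Finset (Finset V)) (t : ℕ) (S : ℕ → Finset (Finset V)) : Prop :=
  S 0 = ∅ ∧
  (∀ i < t, ∃ e ∈ H, ∀ D ∈ S (i + 1), e ⊆ D ∨ ∃ E ∈ S i, E ⊆ D) ∧
  ∀ e ∈ H, ∃ D ∈ S t, D ⊆ e

end Pool.Agent.Helper64
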