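import Mathlib
import Pool.Agent.Helper64.HypDefs
import Pool.Agent.Helper64.SchemeDef

set_option autoImplicit false

namespace Pool.Agent.Helper64.SeqImplied

open Pool.Agent.Helper64

section basic
variable {V : Type} [Fintype V] [DecidableEq V]

lemma mem_Tr {H : Finset (Finset V)} {T : Finset V} :
    T ∈ Tr H ↔ Minimal (IsTransversal H) T := by
  classical
  simp [Tr]

omit [Fintype V] in
lemma isTransversal_mono {H : Finset (Finset V)} {S T : Finset V} (h : IsTransversal H S)
    (hST : S ⊆ T) : IsTransversal H T := by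
  intro e he
  obtain ⟨x, hx⟩ := h e he
  exact ⟨x, by
    rw [Finset.mem_inter] at hx ⊢
    exact ⟨hST hx.1, hx.2⟩⟩

lemma exists_Tr_subset {H : Finset (Finset V)} {T : Finset V} (h : IsTransversal H T) :
    ∃ T' ∈ Tr H, T' ⊆ T := by
  obtain ⟨T', hT1, hT2⟩ := exists_minimal_le_of_wellFoundedLT (IsTransversal H) T h
  exact ⟨T', mem_Tr.2 hT2, hT1⟩

end basic

section construction
variable (p r : ℕ)

/-- vertices: `(group, side, copy)` -/
abbrev Vtx := Fin p × Bool × Fin r

/-- The edge that picks side `c j` in every group `j`. -/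
def edge (c : Fin p → Bool) : Finset (Vtx p r) := Finset.univ.filter (fun v => v.2.1 = c v.1)

/-- The hypergraph with the `2 ^ p` edges `edge c`. -/
def hyp : Finset (Finset (Vtx p r)) := Finset.univ.image (edge p r)

/-- points: a side and a copy in every group -/
abbrev Pt := (Fin p → Bool) × (Fin p → Fin r)

variable {p r}

/-- the vertex set of a point -/
def pt (z : Pt p r) : Finset (Vtx p r) := Finset.univ.image (fun j => (j, z.1 j, z.2 j))

lemma mem_edge {c : Fin p → Bool} {v : Vtx p r} : v ∈ edge p r c ↔ v.2.1 = c v.1 := by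
  simp [edge]

lemma mem_pt {z : Pt p r} {v : Vtx p r} : v ∈ pt z ↔ v.2.1 = z.1 v.1 ∧ v.2.2 = z.2 v.1 := by
  simp only [pt, Finset.mem_image, Finset.mem_univ, true_and]
  constructor
  · rintro ⟨j, rfl⟩; exact ⟨rfl, rfl⟩
  · rintro ⟨h1, h2⟩; exact ⟨v.1, by rw [← h1, ← h2]⟩

lemma edge_injective (hr : 1 ≤ r) : Function.Injective (edge p r) := by
  intro c c' h
  funext j
  have : ((j, c j, ⟨0, hr⟩) : Vtx p r) ∈ edge p r c := by rw [mem_edge]
  rw [h, mem_edge] at this
  exact this

lemma pt_inter_edge {z : Pt p r} {c : Fin p → Bool} (h : ¬ (pt z ∩ edge p r c).Nonempty) :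
    ∀ j, z.1 j = !c j := by
  intro j
  by_contra hj
  apply h
  refine ⟨(j, z.1 j, z.2 j), ?_⟩
  rw [Finset.mem_inter, mem_pt, mem_edge]
  refine ⟨⟨rfl, rfl⟩, ?_⟩
  simp only
  cases hz : z.1 j <;> cases hc : c j <;> simp_all

lemma pt_disj (z : Pt p r) : ¬ (pt z ∩ edge p r (fun j => !z.1 j)).Nonempty := by
  rintro ⟨v, hv⟩
  rw [Finset.mem_inter, mem_pt, mem_edge] at hv
  have := hv.1.1.symm.trans hv.2
  simp at this

/-- Minimal transversals of the whole hypergraph are pairs. -/
lemma Tr_form {T : Finset (Vtx p r)} (hT : T ∈ Tr (hyp p r)) :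
    ∃ j : Fin p, ∃ x y : Fin r, T = {(j, false, x), (j, true, y)} := by
  rw [mem_Tr] at hT
  have h1 : ∃ j : Fin p, (∃ x, (j, false, x) ∈ T) ∧ (∃ y, (j, true, y) ∈ T) := by
    by_contra hcon
    push Not at hcon
    classical
    -- choose in every group a side missed by `T`
    let c : Fin p → Bool := fun j => if (∃ x, (j, false, x) ∈ T) then true else false
    obtain ⟨v, hv⟩ := hT.1 (edge p r c) (Finset.mem_image_of_mem _ (Finset.mem_univ c))
    rw [Finset.mem_inter, mem_edge] at hv
    obtain ⟨hvT, hvc⟩ := hv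
    obtain ⟨j, s, x⟩ := v
    simp only [c] at hvc
    split_ifs at hvc with hx
    · subst hvc
      exact hcon j hx x hvT
    · subst hvc
      exact hx ⟨x, hvT⟩
  obtain ⟨j, ⟨x, hx⟩, ⟨y, hy⟩⟩ := h1
  refine ⟨j, x, y, ?_⟩
  have hsub : ({(j, false, x), (j, true, y)} : Finset (Vtx p r)) ⊆ T := by
    intro v hv
    simp only [Finset.mem_insert, Finset.mem_singleton] at hv
    rcases hv with rfl | rfl <;> assumption
  have htr : IsTransversal (hyp p r) {(j, false, x), (j, true, y)} := by
    intro e he
    obtain ⟨c, -, rfl⟩ := Finset.mem_image.1 he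
    cases hc : c j
    · exact ⟨(j, false, x), by rw [Finset.mem_inter, mem_edge]; simp [hc]⟩
    · exact ⟨(j, true, y), by rw [Finset.mem_inter, mem_edge]; simp [hc]⟩
  exact Finset.Subset.antisymm (hT.2 htr hsub) hsub

lemma Tr_hyp_card : (Tr (hyp p r)).card ≤ p * r ^ 2 := by
  have hsub : Tr (hyp p r) ⊆ (Finset.univ : Finset (Fin p × Fin r × Fin r)).image
      (fun a => ({(a.1, false, a.2.1), (a.1, true, a.2.2)} : Finset (Vtx p r))) := by
    intro T hT
    obtain ⟨j, x, y, h⟩ := Tr_form hT
    rw [Finset.mem_image]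
    exact ⟨(j, x, y), Finset.mem_univ _, h.symm⟩
  refine (Finset.card_le_card hsub).trans (Finset.card_image_le.trans ?_)
  simp only [Finset.card_univ, Fintype.card_prod, Fintype.card_fin]
  apply le_of_eq
  ring

/-- number of points with given sides containing a given set -/
lemma count_points (hr : 1 ≤ r) (c : Fin p → Bool) (T : Finset (Vtx p r)) (k : ℕ)
    (hk : k ≤ T.card) :
    (Finset.univ.filter (fun z : Pt p r => z.1 = c ∧ T ⊆ pt z)).card ≤ r ^ (p - k) := by
  classical
  rcases (Finset.univ.filter (fun z : Pt p r => z.1 = c ∧ T ⊆ pt z)).eq_empty_or_nonempty with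
    hemp | ⟨z0, hz0⟩
  · rw [hemp]; simp
  · rw [Finset.mem_filter] at hz0
    obtain ⟨-, hz0c, hz0T⟩ := hz0
    set J : Finset (Fin p) := T.image Prod.fst with hJ
    have hJcard : J.card = T.card := by
      apply Finset.card_image_of_injOn
      intro v hv w hw hvw
      have h1 := mem_pt.1 (hz0T hv)
      have h2 := mem_pt.1 (hz0T hw)
      have hvw' : v.1 = w.1 := hvw
      refine Prod.ext hvw' (Prod.ext ?_ ?_)
      · rw [h1.1, h2.1, hvw']
      · rw [h1.2, h2.2, hvw']
    let f : Pt p r → ({j : Fin p // j ∉ J} → Fin r) := fun z j => z.2 j.1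
    have hcard : Fintype.card ({j : Fin p // j ∉ J} → Fin r) = r ^ (p - J.card) := by
      rw [Fintype.card_fun, Fintype.card_fin]
      congr 1
      have := Fintype.card_subtype_compl (fun j : Fin p => j ∈ J)
      rw [this]
      simp
    have hle : (Finset.univ.filter (fun z : Pt p r => z.1 = c ∧ T ⊆ pt z)).card ≤
        r ^ (p - J.card) := by
      rw [← hcard, ← Finset.card_univ]
      refine Finset.card_le_card_of_injOn f (fun _ _ => Finset.mem_coe.2 (Finset.mem_univ _)) ?_
      intro z hz z' hz' hzz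
      rw [Finset.mem_coe, Finset.mem_filter] at hz hz'
      refine Prod.ext (hz.2.1.trans hz'.2.1.symm) ?_
      funext j
      by_cases hj : j ∈ J
      · obtain ⟨v, hv, rfl⟩ := Finset.mem_image.1 hj
        rw [← (mem_pt.1 (hz.2.2 hv)).2, ← (mem_pt.1 (hz'.2.2 hv)).2]
      · exact congrFun hzz ⟨j, hj⟩
    refine hle.trans (Nat.pow_le_pow_right hr ?_)
    omega

/-- neighbour of a point: in group `j` move to copy `x` on the other side -/
def nb (w : Pt p r × Fin p × Fin r) : Pt p r :=
  (Function.update w.1.1 w.2.1 (!w.1.1 w.2.1), Function.update w.1.2 w.2.1 w.2.2)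

/-- reversal of a neighbour pair -/
def rev (w : Pt p r × Fin p × Fin r) : Pt p r × Fin p × Fin r :=
  (nb w, w.2.1, w.1.2 w.2.1)

lemma nb_rev (w : Pt p r × Fin p × Fin r) : nb (rev w) = w.1 := by
  simp [nb, rev]

lemma rev_rev (w : Pt p r × Fin p × Fin r) : rev (rev w) = w := by
  refine Prod.ext ?_ (Prod.ext ?_ ?_)
  · exact nb_rev w
  · rfl
  · simp [rev, nb]

lemma antisymm_count (τ : Pt p r → ℕ) :
    2 * (Finset.univ.filter (fun w : Pt p r × Fin p × Fin r => τ w.1 < τ (nb w))).card ≤
      (2 ^ p * r ^ p) * (p * r) := by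
  classical
  set A := Finset.univ.filter (fun w : Pt p r × Fin p × Fin r => τ w.1 < τ (nb w)) with hA
  set B := Finset.univ.filter (fun w : Pt p r × Fin p × Fin r => τ (nb w) < τ w.1) with hB
  have hAB : A.card ≤ B.card := by
    refine Finset.card_le_card_of_injOn rev ?_ ?_
    · intro w hw
      rw [Finset.mem_coe, hA, Finset.mem_filter] at hw
      rw [Finset.mem_coe, hB, Finset.mem_filter, nb_rev]
      exact ⟨Finset.mem_univ _, hw.2⟩
    · intro w _ w' _ h
      rw [← rev_rev w, ← rev_rev w', h]
  have hdisj : Disjoint A B := by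
    rw [Finset.disjoint_left]
    intro w hw hw'
    rw [hA, Finset.mem_filter] at hw
    rw [hB, Finset.mem_filter] at hw'
    exact absurd hw.2 (not_lt.2 hw'.2.le)
  have hun : (A ∪ B).card ≤ (2 ^ p * r ^ p) * (p * r) := by
    refine (Finset.card_le_univ _).trans (le_of_eq ?_)
    simp [Fintype.card_prod]
  rw [Finset.card_union_of_disjoint hdisj] at hun
  omega

/-- The main counting argument. -/
theorem main (hp : 1 ≤ p) (hr : 1 ≤ r) (t M : ℕ) (S : ℕ → Finset (Finset (Vtx p r)))
    (hS : IsScheme (hyp p r) t S) (hM : ∀ i < t, (Tr (S i)).card ≤ M) :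
    2 ^ p * r ^ ((p + 1) / 2) ≤ (p + 1) * (t * M) := by
  classical
  obtain ⟨h0, hstep, hfin⟩ := hS
  -- final stage: no point is a transversal
  have hPt : ∀ z : Pt p r, ¬ IsTransversal (S t) (pt z) := by
    intro z hz
    obtain ⟨D, hD, hDe⟩ := hfin _ (Finset.mem_image_of_mem (edge p r)
      (Finset.mem_univ (fun j => !z.1 j)))
    obtain ⟨v, hv⟩ := hz D hD
    rw [Finset.mem_inter] at hv
    exact pt_disj z ⟨v, Finset.mem_inter.2 ⟨hv.1, hDe hv.2⟩⟩
  have hP0 : ∀ z : Pt p r, IsTransversal (S 0) (pt z) := by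
    intro z e he
    rw [h0] at he
    simp at he
  let τ : Pt p r → ℕ := fun z => Nat.findGreatest (fun i => IsTransversal (S i) (pt z)) t
  have hτtr : ∀ z, IsTransversal (S (τ z)) (pt z) := fun z =>
    Nat.findGreatest_spec (P := fun i => IsTransversal (S i) (pt z)) (Nat.zero_le t) (hP0 z)
  have hτlt : ∀ z, τ z < t := by
    intro z
    refine lt_of_le_of_ne (Nat.findGreatest_le t) ?_
    intro h
    exact hPt z (h ▸ hτtr z)
  have hτge : ∀ z i, i ≤ t → IsTransversal (S i) (pt z) → i ≤ τ z := by
    intro z i hi h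
    exact Nat.le_findGreatest hi h
  -- the sides handled in step `i`
  have hside : ∀ i, ∃ c : Fin p → Bool, ∀ z, τ z = i → z.1 = c := by
    intro i
    by_cases hi : i < t
    · obtain ⟨e, he, hC⟩ := hstep i hi
      obtain ⟨c, -, rfl⟩ := Finset.mem_image.1 he
      refine ⟨fun j => !c j, ?_⟩
      intro z hz
      have hnot : ¬ IsTransversal (S (i + 1)) (pt z) := by
        intro h
        have := hτge z (i + 1) hi h
        omega
      unfold IsTransversal at hnot
      push Not at hnot
      obtain ⟨D, hD, hDz⟩ := hnot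
      rcases hC D hD with h | ⟨E, hE, hED⟩
      · funext j
        apply pt_inter_edge
        rintro ⟨v, hv⟩
        rw [Finset.mem_inter] at hv
        have : v ∈ pt z ∩ D := Finset.mem_inter.2 ⟨hv.1, h hv.2⟩
        rw [hDz] at this
        simp at this
      · have h1 := hτtr z
        rw [hz] at h1
        obtain ⟨v, hv⟩ := h1 E hE
        rw [Finset.mem_inter] at hv
        have : v ∈ pt z ∩ D := Finset.mem_inter.2 ⟨hv.1, hED hv.2⟩
        rw [hDz] at this
        simp at this
    · refine ⟨fun _ => true, ?_⟩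
      intro z hz
      exact absurd (hz ▸ hτlt z) hi
  choose cs hcs using hside
  obtain ⟨k, hk⟩ : ∃ k, (p + 1) / 2 = k + 1 := ⟨(p + 1) / 2 - 1, by omega⟩
  -- good and bad points
  set G : Finset (Pt p r) := Finset.univ.filter
    (fun z => ∃ T ∈ Tr (S (τ z)), T ⊆ pt z ∧ T.card ≤ k) with hG
  set B : Finset (Pt p r) := Finset.univ.filter
    (fun z => ¬ ∃ T ∈ Tr (S (τ z)), T ⊆ pt z ∧ T.card ≤ k) with hB
  have hGB : G.card + B.card = 2 ^ p * r ^ p := by
    rw [hG, hB, Finset.card_filter_add_card_filter_not]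
    simp [Fintype.card_prod]
  -- bad points are few
  have hBle : B.card ≤ t * M * r ^ (p - (k + 1)) := by
    have hsub : B ⊆ (Finset.range t).biUnion (fun i => ((Tr (S i)).filter
        (fun T => k + 1 ≤ T.card)).biUnion (fun T =>
          Finset.univ.filter (fun z : Pt p r => z.1 = cs i ∧ T ⊆ pt z))) := by
      intro z hz
      rw [hB, Finset.mem_filter] at hz
      obtain ⟨T, hT, hTz⟩ := exists_Tr_subset (hτtr z)
      rw [Finset.mem_biUnion]
      refine ⟨τ z, Finset.mem_range.2 (hτlt z), ?_⟩
      rw [Finset.mem_biUnion]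
      refine ⟨T, ?_, ?_⟩
      · rw [Finset.mem_filter]
        refine ⟨hT, ?_⟩
        by_contra hlt
        exact hz.2 ⟨T, hT, hTz, by omega⟩
      · rw [Finset.mem_filter]
        exact ⟨Finset.mem_univ _, hcs _ z rfl, hTz⟩
    refine (Finset.card_le_card hsub).trans (Finset.card_biUnion_le.trans ?_)
    calc ∑ i ∈ Finset.range t, (((Tr (S i)).filter
        (fun T => k + 1 ≤ T.card)).biUnion (fun T =>
          Finset.univ.filter (fun z : Pt p r => z.1 = cs i ∧ T ⊆ pt z))).card
        ≤ ∑ _i ∈ Finset.range t, M * r ^ (p - (k + 1)) := by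
          apply Finset.sum_le_sum
          intro i hi
          rw [Finset.mem_range] at hi
          refine Finset.card_biUnion_le.trans ?_
          calc ∑ T ∈ (Tr (S i)).filter (fun T => k + 1 ≤ T.card),
              (Finset.univ.filter (fun z : Pt p r => z.1 = cs i ∧ T ⊆ pt z)).card
              ≤ ∑ _T ∈ (Tr (S i)).filter (fun T => k + 1 ≤ T.card), r ^ (p - (k + 1)) := by
                apply Finset.sum_le_sum
                intro T hT
                rw [Finset.mem_filter] at hT
                exact count_points hr (cs i) T (k + 1) hT.2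
            _ = ((Tr (S i)).filter (fun T => k + 1 ≤ T.card)).card * r ^ (p - (k + 1)) := by
                rw [Finset.sum_const, smul_eq_mul]
            _ ≤ M * r ^ (p - (k + 1)) := by
                apply Nat.mul_le_mul_right
                exact (Finset.card_filter_le _ _).trans (hM i hi)
      _ = t * M * r ^ (p - (k + 1)) := by
          rw [Finset.sum_const, smul_eq_mul, Finset.card_range, mul_assoc]
  -- good points have many later neighbours
  have hGle : G.card * ((p - k) * r) ≤
      (Finset.univ.filter (fun w : Pt p r × Fin p × Fin r => τ w.1 < τ (nb w))).card := by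
    have hfib : ∀ z ∈ G, (p - k) * r ≤
        ((Finset.univ.filter (fun w : Pt p r × Fin p × Fin r => τ w.1 < τ (nb w))).filter
          (fun w => w.1 = z)).card := by
      intro z hz
      rw [hG, Finset.mem_filter] at hz
      obtain ⟨-, T, hT, hTz, hTk⟩ := hz
      set J : Finset (Fin p) := T.image Prod.fst with hJ
      have hJc : J.card ≤ k := Finset.card_image_le.trans hTk
      have hinj : (((Finset.univ \ J) ×ˢ (Finset.univ : Finset (Fin r))).image
          (fun a => (z, a))) ⊆
          ((Finset.univ.filter (fun w : Pt p r × Fin p × Fin r => τ w.1 < τ (nb w))).filter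
          (fun w => w.1 = z)) := by
        intro w hw
        rw [Finset.mem_image] at hw
        obtain ⟨⟨j, x⟩, hjx, rfl⟩ := hw
        rw [Finset.mem_product, Finset.mem_sdiff] at hjx
        rw [Finset.mem_filter, Finset.mem_filter]
        refine ⟨⟨Finset.mem_univ _, ?_⟩, rfl⟩
        have hTnb : T ⊆ pt (nb (z, j, x)) := by
          intro v hv
          have h1 := mem_pt.1 (hTz hv)
          have hvj : v.1 ≠ j := by
            intro hvj
            apply hjx.1.2
            rw [← hvj, hJ]
            exact Finset.mem_image_of_mem _ hv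
          rw [mem_pt]
          simp only [nb, Function.update_of_ne hvj]
          exact h1
        have hge : τ z ≤ τ (nb (z, j, x)) :=
          hτge _ _ (hτlt z).le (isTransversal_mono (mem_Tr.1 hT).1 hTnb)
        refine lt_of_le_of_ne hge ?_
        intro heq
        have e1 := hcs (τ z) z rfl
        have e2 := hcs (τ z) (nb (z, j, x)) heq.symm
        have e3 := congrFun (e1.trans e2.symm) j
        simp [nb] at e3
      refine le_trans ?_ (Finset.card_le_card hinj)
      rw [Finset.card_image_of_injective _ (fun a b h => (Prod.mk.inj h).2), Finset.card_product,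
        Finset.card_univ, Fintype.card_fin]
      apply Nat.mul_le_mul_right
      rw [Finset.card_univ_sdiff, Fintype.card_fin]
      omega
    have := Finset.card_nsmul_le_sum G (fun z =>
      ((Finset.univ.filter (fun w : Pt p r × Fin p × Fin r => τ w.1 < τ (nb w))).filter
          (fun w => w.1 = z)).card) ((p - k) * r) hfib
    rw [smul_eq_mul] at this
    refine this.trans ?_
    rw [← Finset.card_biUnion]
    · apply Finset.card_le_card
      intro w hw
      rw [Finset.mem_biUnion] at hw
      obtain ⟨z, -, hz⟩ := hw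
      exact (Finset.mem_filter.1 hz).1
    · intro z _ z' _ hne
      rw [Function.onFun, Finset.disjoint_left]
      intro w hw hw'
      exact hne ((Finset.mem_filter.1 hw).2.symm.trans (Finset.mem_filter.1 hw').2)
  have hanti := antisymm_count τ
  -- arithmetic
  have h1 : 2 * (G.card * ((p - k) * r)) ≤ (2 ^ p * r ^ p) * (p * r) :=
    (Nat.mul_le_mul_left 2 hGle).trans hanti
  have h2 : G.card * (2 * (p - k)) ≤ (2 ^ p * r ^ p) * p := by
    have h3 : (G.card * (2 * (p - k))) * r ≤ ((2 ^ p * r ^ p) * p) * r := by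
      calc (G.card * (2 * (p - k))) * r = 2 * (G.card * ((p - k) * r)) := by ring
        _ ≤ (2 ^ p * r ^ p) * (p * r) := h1
        _ = ((2 ^ p * r ^ p) * p) * r := by ring
    exact Nat.le_of_mul_le_mul_right h3 hr
  have h4 : p + 1 ≤ 2 * (p - k) := by omega
  have h5 : G.card * (p + 1) ≤ (2 ^ p * r ^ p) * p := (Nat.mul_le_mul_left _ h4).trans h2
  have h6 : 2 ^ p * r ^ p ≤ (p + 1) * B.card := by
    have : (2 ^ p * r ^ p) * (p + 1) = G.card * (p + 1) + (p + 1) * B.card := by
      rw [← hGB]; ring
    nlinarith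
  have h7 : (2 ^ p * r ^ (k + 1)) * r ^ (p - (k + 1)) ≤
      ((p + 1) * (t * M)) * r ^ (p - (k + 1)) := by
    calc (2 ^ p * r ^ (k + 1)) * r ^ (p - (k + 1)) = 2 ^ p * r ^ p := by
          rw [mul_assoc, ← pow_add]
          congr 2
          omega
      _ ≤ (p + 1) * B.card := h6
      _ ≤ (p + 1) * (t * M * r ^ (p - (k + 1))) := Nat.mul_le_mul_left _ hBle
      _ = ((p + 1) * (t * M)) * r ^ (p - (k + 1)) := by ring
  rw [hk]
  exact Nat.le_of_mul_le_mul_right h7 (Nat.pow_pos hr)

end construction

/-- **Quasi-polynomial lower bound for sequential dualization with redundant clauses.**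
For all `p, r ≥ 1` there is a hypergraph `H` on `2 * p * r` vertices with `2 ^ p` edges and at most
`p * r ^ 2` minimal transversals such that every sequential scheme of length `t` for `H`, all of
whose intermediate families have at most `M` minimal transversals, satisfies
`2 ^ p * r ^ ⌈p / 2⌉ ≤ (p + 1) * t * M`. -/
theorem final (p r : ℕ) (hp : 1 ≤ p) (hr : 1 ≤ r) :
    ∃ H : Finset (Finset (Fin p × Bool × Fin r)),
      H.card = 2 ^ p ∧ (Tr H).card ≤ p * r ^ 2 ∧
      ∀ (t M : ℕ) (S : ℕ → Finset (Finset (Fin p × Bool × Fin r))),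
        IsScheme H t S → (∀ i < t, (Tr (S i)).card ≤ M) →
          2 ^ p * r ^ ((p + 1) / 2) ≤ (p + 1) * (t * M) := by
  refine ⟨hyp p r, ?_, Tr_hyp_card, ?_⟩
  · rw [hyp, Finset.card_image_of_injective _ (edge_injective hr)]
    simp
  · intro t M S hS hM
    exact main hp hr t M S hS hM

end Pool.Agent.Helper64.SeqImplied
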